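import Pool.Agent.Lib.MP_a7239a_co.RN.Defs

/-!
# TFOUR: nearly invariant sets give a character (module TFOUR, helper58)
-/

set_option autoImplicit false

open Finset

namespace Pool.Agent.Lib.MPa7239a.RN

open Pool.Agent.Lib.MPa7239a.RG
open Pool.Agent.Lib.MPa7239a.R3.FillM (annc mem_annc corr mass)

namespace TFourM

variable {G : Type*} [AddCommGroup G] [Fintype G] [DecidableEq G] {n : ℕ} [NeZero n]

/-- the defect of invariance on the Fourier side -/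
theorem defect (hG : ∀ x : G, n • x = 0) (A : Finset G) (e : G) :
    ∑ ξ : G →+ ZMod n, ‖cs A ξ‖ ^ 2 * (1 - (ZMod.stdAddChar (ph ξ e) : ℂ).re) =
      (Fintype.card (G →+ ZMod n) : ℝ) * #(A.filter (fun x => x + e ∉ A)) := by
  have h5 : ∀ ξ : G →+ ZMod n,
      ‖cs A ξ‖ ^ 2 * (1 - (ZMod.stdAddChar (ph ξ e) : ℂ).re) =
      ‖cs A ξ‖ ^ 2 - ‖cs A ξ‖ ^ 2 * (ZMod.stdAddChar (ph ξ e) : ℂ).re := by
    intro ξ
    ring
  rw [sum_congr rfl fun ξ _ => h5 ξ, sum_sub_distrib, BohrM.parseval_cs hG, corr hG, ← mul_sub]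
  congr 1
  have h6 := card_filter_add_card_filter_not (s := A) (fun y => y + e ∈ A)
  have h7 : (#(A.filter (fun y => y + e ∈ A)) : ℝ) +
      #(A.filter (fun y => y + e ∉ A)) = #A := by exact_mod_cast h6
  linarith

theorem re_le_one (a : ZMod n) : (ZMod.stdAddChar a : ℂ).re ≤ 1 :=
  (Complex.re_le_norm _).trans (BohrM.norm_char _).le

/-- the first step: a character outside the annihilator which is near to `1` on `E` on average -/
theorem exists_char (hG : ∀ x : G, n • x = 0) (M : AddSubgroup G) {A E : Finset G}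
    (hA : ∀ a ∈ A, a ∈ M) (hA0 : A.Nonempty) (h2 : 2 * #A ≤ Nat.card M)
    (hAE : ∀ e ∈ E, 64 * #(A.filter (fun x => x + e ∉ A)) ≤ #A) :
    ∃ ξ : G →+ ZMod n, (∃ h ∈ M, ξ h ≠ 0) ∧
      ∑ e ∈ E, (1 - (ZMod.stdAddChar (ph ξ e) : ℂ).re) ≤ #E / 32 := by
  classical
  set P : ℝ := (Fintype.card (G →+ ZMod n) : ℝ) with hP
  have hP0 : 0 < P := by
    rw [hP]
    exact_mod_cast Fintype.card_pos
  have hA1 : (0 : ℝ) < #A := by exact_mod_cast hA0.card_pos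
  by_contra hcon
  push Not at hcon
  have h1 : ∀ e ∈ E, ∑ ξ ∈ annc n M, ‖cs A ξ‖ ^ 2 * (1 - (ZMod.stdAddChar (ph ξ e) : ℂ).re) ≤
      P * (#A / 64) := by
    intro e he
    have h3 : ∑ ξ ∈ annc n M, ‖cs A ξ‖ ^ 2 * (1 - (ZMod.stdAddChar (ph ξ e) : ℂ).re) ≤
        ∑ ξ : G →+ ZMod n, ‖cs A ξ‖ ^ 2 * (1 - (ZMod.stdAddChar (ph ξ e) : ℂ).re) :=
      sum_le_sum_of_subset_of_nonneg (subset_univ _) fun ξ _ _ =>
        mul_nonneg (sq_nonneg _) (by linarith [re_le_one (ph ξ e)])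
    rw [defect hG] at h3
    have h4 : (64 : ℝ) * #(A.filter (fun x => x + e ∉ A)) ≤ #A := by exact_mod_cast hAE e he
    have h5 : (#(A.filter (fun x => x + e ∉ A)) : ℝ) ≤ #A / 64 := by linarith
    exact h3.trans (mul_le_mul_of_nonneg_left h5 hP0.le)
  have h3 := sum_le_sum h1
  rw [sum_const, nsmul_eq_mul, sum_comm] at h3
  have h4 : ∑ ξ ∈ annc n M, ∑ e ∈ E, ‖cs A ξ‖ ^ 2 * (1 - (ZMod.stdAddChar (ph ξ e) : ℂ).re) =
      ∑ ξ ∈ annc n M, ‖cs A ξ‖ ^ 2 * ∑ e ∈ E, (1 - (ZMod.stdAddChar (ph ξ e) : ℂ).re) :=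
    sum_congr rfl fun ξ _ => (mul_sum _ _ _).symm
  rw [h4] at h3
  have h5 := mass hG M hA h2
  rw [← hP] at h5
  obtain ⟨ξ₁, hξ₁, hpos⟩ : ∃ ξ ∈ annc n M, 0 < ‖cs A ξ‖ ^ 2 := by
    by_contra hcon2
    push Not at hcon2
    have h6 : ∑ ξ ∈ annc n M, ‖cs A ξ‖ ^ 2 ≤ 0 := sum_nonpos hcon2
    have h7 : 0 < P * #A := by positivity
    linarith
  have h6 : ∑ ξ ∈ annc n M, ‖cs A ξ‖ ^ 2 * ((#E : ℝ) / 32) <
      ∑ ξ ∈ annc n M, ‖cs A ξ‖ ^ 2 * ∑ e ∈ E, (1 - (ZMod.stdAddChar (ph ξ e) : ℂ).re) := by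
    refine sum_lt_sum (fun ξ hξ => ?_) ⟨ξ₁, hξ₁, ?_⟩
    · exact mul_le_mul_of_nonneg_left (hcon ξ (mem_annc.1 hξ)).le (sq_nonneg _)
    · exact mul_lt_mul_of_pos_left (hcon ξ₁ (mem_annc.1 hξ₁)) hpos
  rw [← sum_mul] at h6
  have h7 : (0 : ℝ) ≤ (#E : ℝ) / 64 := by positivity
  have h8 := mul_le_mul_of_nonneg_right h5 h7
  have h9 : 2 * (∑ ξ ∈ annc n M, ‖cs A ξ‖ ^ 2) * ((#E : ℝ) / 64) =
      (∑ ξ ∈ annc n M, ‖cs A ξ‖ ^ 2) * ((#E : ℝ) / 32) := by ring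
  have h10 : P * (#A : ℝ) * (#E / 64) = #E * (P * (#A / 64)) := by ring
  rw [h9, h10] at h8
  linarith

omit [Fintype G] in
/-- the second step: a nearly invariant set under `z` -/
theorem near_one (ξ : G →+ ZMod n) {E : Finset G} (hE0 : E.Nonempty)
    (h : ∑ e ∈ E, (1 - (ZMod.stdAddChar (ph ξ e) : ℂ).re) ≤ #E / 32) (z : G)
    (hz : 64 * #(E.filter (fun y => y + z ∉ E)) ≤ #E) :
    ‖(1 : ℂ) - (ZMod.stdAddChar (ph ξ z) : ℂ)‖ ≤ 1 / 8 := by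
  classical
  have hE1 : (0 : ℝ) < #E := by exact_mod_cast hE0.card_pos
  -- the character sum over `E` is large
  have h1 : (31 : ℝ) / 32 * #E ≤ ‖cs E ξ‖ := by
    have h2 : (cs E ξ).re = ∑ e ∈ E, (ZMod.stdAddChar (ph ξ e) : ℂ).re := by
      rw [cs, Complex.re_sum]
    have h3 := Complex.re_le_norm (cs E ξ)
    rw [sum_sub_distrib, sum_const, nsmul_eq_mul, mul_one] at h
    rw [h2] at h3
    linarith
  -- the difference
  set T : Finset G := E.image (fun y => y + z) with hT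
  have hTc : #T = #E := card_image_of_injective _ (add_left_injective z)
  have hTs : ∑ y ∈ T, (ZMod.stdAddChar (ph ξ y) : ℂ) = ZMod.stdAddChar (ph ξ z) * cs E ξ := by
    rw [hT, sum_image fun a _ b _ hab => add_right_cancel hab, cs, mul_sum]
    refine sum_congr rfl fun y _ => ?_
    rw [BohrM.char_add, mul_comm]
  have hTE : #(T \ E) = #(E.filter (fun y => y + z ∉ E)) := by
    have e1 : T \ E = (E.filter (fun y => y + z ∉ E)).image (fun y => y + z) := by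
      ext x
      rw [mem_sdiff, hT, mem_image, mem_image]
      constructor
      · rintro ⟨⟨y, hy, rfl⟩, h⟩
        exact ⟨y, mem_filter.2 ⟨hy, h⟩, rfl⟩
      · rintro ⟨y, hy, rfl⟩
        exact ⟨⟨y, (mem_filter.1 hy).1, rfl⟩, (mem_filter.1 hy).2⟩
    rw [e1, card_image_of_injective _ (add_left_injective z)]
  have hET : #(E \ T) = #(T \ E) := by
    have a1 := card_sdiff_add_card_inter E T
    have a2 := card_sdiff_add_card_inter T E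
    rw [inter_comm] at a2
    omega
  have key : (1 - (ZMod.stdAddChar (ph ξ z) : ℂ)) * cs E ξ =
      ∑ y ∈ E \ T, (ZMod.stdAddChar (ph ξ y) : ℂ) -
        ∑ y ∈ T \ E, (ZMod.stdAddChar (ph ξ y) : ℂ) := by
    have a1 : ∑ y ∈ E, (ZMod.stdAddChar (ph ξ y) : ℂ) =
        ∑ y ∈ E \ T, (ZMod.stdAddChar (ph ξ y) : ℂ) +
          ∑ y ∈ E ∩ T, (ZMod.stdAddChar (ph ξ y) : ℂ) := by
      rw [← sum_union (disjoint_sdiff_inter E T), sdiff_union_inter]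
    have a2 : ∑ y ∈ T, (ZMod.stdAddChar (ph ξ y) : ℂ) =
        ∑ y ∈ T \ E, (ZMod.stdAddChar (ph ξ y) : ℂ) +
          ∑ y ∈ E ∩ T, (ZMod.stdAddChar (ph ξ y) : ℂ) := by
      rw [inter_comm E T, ← sum_union (disjoint_sdiff_inter T E), sdiff_union_inter]
    rw [sub_mul, one_mul, ← hTs, a2]
    conv_lhs => rw [cs, a1]
    ring
  have hn : ∀ F : Finset G, ‖∑ y ∈ F, (ZMod.stdAddChar (ph ξ y) : ℂ)‖ ≤ #F := by
    intro F
    refine (norm_sum_le _ _).trans ?_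
    rw [sum_congr rfl fun y _ => BohrM.norm_char (ph ξ y), sum_const, nsmul_eq_mul, mul_one]
  have h2 : ‖(1 - (ZMod.stdAddChar (ph ξ z) : ℂ))‖ * ‖cs E ξ‖ ≤ #E / 32 := by
    rw [← norm_mul, key]
    refine (norm_sub_le _ _).trans ?_
    have a1 := hn (E \ T)
    have a2 := hn (T \ E)
    rw [hET, hTE] at a1
    rw [hTE] at a2
    have a3 : (64 : ℝ) * #(E.filter (fun y => y + z ∉ E)) ≤ #E := by exact_mod_cast hz
    linarith
  have h3 : ‖(1 - (ZMod.stdAddChar (ph ξ z) : ℂ))‖ * ((31 : ℝ) / 32 * #E) ≤ #E / 32 :=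
    (mul_le_mul_of_nonneg_left h1 (norm_nonneg _)).trans h2
  have h4 : ‖(1 - (ZMod.stdAddChar (ph ξ z) : ℂ))‖ * 31 * #E ≤ 1 * #E := by linarith
  have h5 := le_of_mul_le_mul_right h4 hE1
  linarith

end TFourM

theorem tfour {G : Type*} [AddCommGroup G] [Fintype G] [DecidableEq G] {n : ℕ} [NeZero n]
    (hG : ∀ x : G, n • x = 0) (M : AddSubgroup G) {A E : Finset G} (hA : ∀ a ∈ A, a ∈ M)
    (hA0 : A.Nonempty) (hE0 : E.Nonempty) (h2 : 2 * #A ≤ Nat.card M)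
    (hAE : ∀ e ∈ E, 64 * #(A.filter (fun x => x + e ∉ A)) ≤ #A) :
    ∃ ξ : G →+ ZMod n, (∃ h ∈ M, ξ h ≠ 0) ∧ ∀ z : G,
      64 * #(E.filter (fun y => y + z ∉ E)) ≤ #E →
        ‖(1 : ℂ) - (ZMod.stdAddChar (ξ z) : ℂ)‖ ≤ 1 / 8 := by
  obtain ⟨ξ, h1, h3⟩ := TFourM.exists_char hG M hA hA0 h2 hAE
  exact ⟨ξ, h1, fun z hz => TFourM.near_one ξ hE0 h3 z hz⟩

end Pool.Agent.Lib.MPa7239a.RN
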