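import Pool.Agent.Lib.MP_a7239a_co.RN.DOUB
import Pool.Agent.Lib.MP_a7239a_co.RN.TFOUR

/-!
# RN, module TMAIN: everything or a character with bounded values
-/

set_option autoImplicit false

universe u

open Finset
open scoped Pointwise

namespace Pool.Agent.Lib.MPa7239a.RN

open Pool.Agent.Lib.MPa7239a.GC (Hit)
open Pool.Agent.Lib.MPa7239a.R3X (box lf Avg InLat Free)

namespace TmainM

theorem pow_ineq {c N : ℕ} (hN : 64 * c ≤ N) : 2 ^ c * 64 ^ N ≤ 65 ^ N := by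
  obtain ⟨k, rfl⟩ := Nat.exists_eq_add_of_le hN
  have h1 : 2 * 64 ^ 64 ≤ 65 ^ 64 := by norm_num
  calc 2 ^ c * 64 ^ (64 * c + k) = (2 * 64 ^ 64) ^ c * 64 ^ k := by
        rw [mul_pow, pow_add, pow_mul]; ring
    _ ≤ (65 ^ 64) ^ c * 65 ^ k :=
        Nat.mul_le_mul (Nat.pow_le_pow_left h1 c) (Nat.pow_le_pow_left (by norm_num) k)
    _ = 65 ^ (64 * c + k) := by rw [pow_add, pow_mul]

section

variable {G : Type*} [AddCommGroup G] [DecidableEq G]

theorem slow {S : Finset G} (_h0 : (0 : G) ∈ S) {c N a t : ℕ} (hN : 1 ≤ N)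
    (hl : 2 ^ c * 64 ^ N ≤ 65 ^ N) (h : #(ks S (a + N * t)) ≤ 2 ^ c * #(ks S a)) :
    ∃ i < N, 64 * #(ks S (a + (i + 1) * t)) ≤ 65 * #(ks S (a + i * t)) := by
  by_contra hcon
  push Not at hcon
  have key : ∀ i ≤ N, 65 ^ i * #(ks S a) ≤ 64 ^ i * #(ks S (a + i * t)) := by
    intro i
    induction i with
    | zero => intro _; simp
    | succ i ih =>
      intro hi
      have h1 := ih (by omega)
      have h2 := hcon i (by omega)
      calc 65 ^ (i + 1) * #(ks S a) = 65 * (65 ^ i * #(ks S a)) := by ring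
        _ ≤ 65 * (64 ^ i * #(ks S (a + i * t))) := Nat.mul_le_mul_left _ h1
        _ = 64 ^ i * (65 * #(ks S (a + i * t))) := by ring
        _ ≤ 64 ^ i * (64 * #(ks S (a + (i + 1) * t))) := Nat.mul_le_mul_left _ h2.le
        _ = 64 ^ (i + 1) * #(ks S (a + (i + 1) * t)) := by ring
  obtain ⟨k, rfl⟩ : ∃ k, N = k + 1 := ⟨N - 1, by omega⟩
  have h1 := key k (by omega)
  have h2 := hcon k (by omega)
  have h3 : 65 ^ (k + 1) * #(ks S a) < 65 ^ (k + 1) * #(ks S a) := by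
    calc 65 ^ (k + 1) * #(ks S a) = 65 * (65 ^ k * #(ks S a)) := by ring
      _ ≤ 65 * (64 ^ k * #(ks S (a + k * t))) := Nat.mul_le_mul_left _ h1
      _ = 64 ^ k * (65 * #(ks S (a + k * t))) := by ring
      _ < 64 ^ k * (64 * #(ks S (a + (k + 1) * t))) :=
          Nat.mul_lt_mul_of_pos_left h2 (by positivity)
      _ = 64 ^ (k + 1) * #(ks S (a + (k + 1) * t)) := by ring
      _ ≤ 64 ^ (k + 1) * (2 ^ c * #(ks S a)) := Nat.mul_le_mul_left _ h
      _ = (2 ^ c * 64 ^ (k + 1)) * #(ks S a) := by ring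
      _ ≤ 65 ^ (k + 1) * #(ks S a) := Nat.mul_le_mul_right _ hl
  exact lt_irrefl _ h3

theorem inv_of_slow {S : Finset G} (h0 : (0 : G) ∈ S) {T t : ℕ}
    (h : 64 * #(ks S (T + t)) ≤ 65 * #(ks S T)) {e : G} (he : e ∈ ks S t) :
    64 * #((ks S T).filter (fun x => x + e ∉ ks S T)) ≤ #(ks S T) := by
  have h1 : #((ks S T).filter (fun x => x + e ∉ ks S T)) ≤ #(ks S (T + t) \ ks S T) := by
    refine card_le_card_of_injOn (fun x => x + e) ?_ ?_
    · intro x hx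
      have hx' := mem_filter.1 (mem_coe.1 hx)
      refine mem_coe.2 (mem_sdiff.2 ⟨?_, hx'.2⟩)
      rw [ks_add]
      exact add_mem_add hx'.1 he
    · intro x _ y _ hxy
      exact add_right_cancel hxy
  have h2 := card_sdiff_of_subset (ks_subset_add h0 T t)
  have h3 := card_le_card (ks_subset_add h0 T t)
  omega

end

end TmainM

open TmainM Pool.Agent.Lib.MPa7239a.RG in
theorem tmain (r : ℕ) (hr : 1 ≤ r) (F : ℕ) (hF : 1 ≤ F) : ∃ w n₀ : ℕ, ∀ n : ℕ, n₀ ≤ n →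
    ∀ (G : Type u) [AddCommGroup G] [Finite G] [DecidableEq G], (∀ x : G, n • x = 0) →
    Nat.card G ≤ n ^ r → ∀ S : Finset G, 0 ∈ S → (∀ s ∈ S, -s ∈ S) → ∀ b₁ : ℕ,
    2 ^ b₁ * F ≤ n → n < 2 ^ (b₁ + 1) * F →
      (∀ g ∈ AddSubgroup.closure (S : Set G), g ∈ ks S (2 ^ b₁)) ∨
      ∃ ξ : G →+ ZMod n, (∃ s ∈ S, ξ s ≠ 0) ∧ ∀ s ∈ S, (ξ s).valMinAbs.natAbs ≤ w := by
  obtain ⟨c, hc, hdoub⟩ := doub.{u} r hr
  obtain ⟨l, hl⟩ : ∃ l : ℕ, 64 * c ≤ 2 ^ l := ⟨64 * c, Nat.lt_two_pow_self.le⟩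
  have hpow := pow_ineq hl
  have hN1 : 1 ≤ 2 ^ l := Nat.one_le_two_pow
  obtain ⟨B, hB⟩ : ∃ B : ℕ, B = c * F + 2 * l + 10 := ⟨_, rfl⟩
  refine ⟨F * 2 ^ (2 * l + 4), 2 ^ (B + 1) * F, ?_⟩
  intro n hn G _ _ _ hG hcard S h0 hs b₁ hb1 hb2
  have hBb : B < b₁ := by
    have h1 : 2 ^ (B + 1) * F < 2 ^ (b₁ + 1) * F := lt_of_le_of_lt hn hb2
    have h2 := lt_of_mul_lt_mul_right h1 (Nat.zero_le F)
    have h3 := (Nat.pow_lt_pow_iff_right (by norm_num : 1 < 2)).1 h2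
    omega
  have h16 : 16 ≤ n := by
    have h1 : 2 ^ 4 * 1 ≤ 2 ^ (B + 1) * F :=
      Nat.mul_le_mul (Nat.pow_le_pow_right (by norm_num) (by omega)) hF
    omega
  haveI : NeZero n := ⟨by omega⟩
  obtain ⟨a, ha⟩ : ∃ a, b₁ = a + (2 * l + 3) := ⟨b₁ - (2 * l + 3), by omega⟩
  -- doubling at the scales used
  have hdb : ∀ b, a + l ≤ b → #(ks S (2 ^ (b + 1))) ≤ 2 ^ c * #(ks S (2 ^ b)) := by
    intro b hb
    refine hdoub n h16 G hcard S h0 hs b ?_
    have h1 : c * F ≤ 2 ^ (c * F) := Nat.lt_two_pow_self.le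
    calc c * n ≤ c * (2 ^ (b₁ + 1) * F) := Nat.mul_le_mul_left _ hb2.le
      _ = (c * F) * 2 ^ (b₁ + 1) := by ring
      _ ≤ 2 ^ (c * F) * 2 ^ (b₁ + 1) := Nat.mul_le_mul_right _ h1
      _ = 2 ^ (c * F + (b₁ + 1)) := by rw [← pow_add]
      _ ≤ 2 ^ (2 * b) := Nat.pow_le_pow_right (by norm_num) (by omega)
      _ = 4 ^ b := by rw [pow_mul]; norm_num
  set M := AddSubgroup.closure (S : Set G) with hM
  have hSM : ∀ s ∈ S, s ∈ M := fun s hs' => AddSubgroup.subset_closure (mem_coe.2 hs')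
  have hk : ∀ k, ∀ x ∈ ks S k, x ∈ M := fun k => ks_subset hSM k
  haveI : Fintype G := Fintype.ofFinite G
  have hcM : ∀ A : Finset G, (∀ x ∈ A, x ∈ M) → #A ≤ Nat.card M := by
    intro A hA
    have h1 : (A : Set G) ⊆ (M : Set G) := fun x hx => hA x (mem_coe.1 hx)
    have h2 := Set.ncard_le_ncard h1 (Set.toFinite _)
    rw [Set.ncard_coe_finset] at h2
    exact h2
  by_cases hcase : Nat.card M < 2 * #(ks S (2 ^ (b₁ - 1)))
  · left
    intro g hg
    have h1 : ¬ Disjoint (ks S (2 ^ (b₁ - 1))) ((ks S (2 ^ (b₁ - 1))).image fun x => g - x) := by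
      intro hd
      have h2 := card_union_of_disjoint hd
      rw [card_image_of_injective _ (fun x y h => by simpa using h)] at h2
      have h3 := hcM (ks S (2 ^ (b₁ - 1)) ∪ (ks S (2 ^ (b₁ - 1))).image fun x => g - x) (by
        intro x hx
        rcases mem_union.1 hx with h | h
        · exact hk _ x h
        · obtain ⟨y, hy, rfl⟩ := mem_image.1 h
          exact M.sub_mem hg (hk _ y hy))
      omega
    obtain ⟨x, hx1, hx2⟩ := not_disjoint_iff.1 h1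
    obtain ⟨y, hy, hyx⟩ := mem_image.1 hx2
    have e : 2 ^ b₁ = 2 ^ (b₁ - 1) + 2 ^ (b₁ - 1) := by
      obtain ⟨k, hk'⟩ : ∃ k, b₁ = k + 1 := ⟨b₁ - 1, by omega⟩
      rw [hk', Nat.add_sub_cancel, pow_succ]
      ring
    rw [e, ks_add]
    refine mem_add.2 ⟨x, hx1, y, hy, ?_⟩
    rw [← hyx]
    abel
  · right
    push Not at hcase
    -- the scales
    have e1 : 2 ^ (b₁ - 1) = 2 ^ (b₁ - 2) + 2 ^ l * 2 ^ (a + l + 1) := by
      rw [ha, ← pow_add, show a + (2 * l + 3) - 1 = (l + (a + l + 1)) + 1 by omega,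
        show a + (2 * l + 3) - 2 = l + (a + l + 1) by omega, pow_succ]
      ring
    have e2 : 2 ^ (a + l + 1) = 2 ^ (a + l) + 2 ^ l * 2 ^ a := by
      rw [← pow_add, show l + a = a + l by omega, pow_succ]
      ring
    obtain ⟨i, hi, hi1⟩ := slow (c := c) (a := 2 ^ (b₁ - 2)) (t := 2 ^ (a + l + 1)) h0 hN1 hpow (by
      rw [← e1]
      have := hdb (b₁ - 2) (by omega)
      rwa [show b₁ - 2 + 1 = b₁ - 1 by omega] at this)
    obtain ⟨i', hi', hi1'⟩ := slow (c := c) (a := 2 ^ (a + l)) (t := 2 ^ a) h0 hN1 hpow (by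
      rw [← e2]
      exact hdb (a + l) le_rfl)
    set T := 2 ^ (b₁ - 2) + i * 2 ^ (a + l + 1) with hT
    set T' := 2 ^ (a + l) + i' * 2 ^ a with hT'
    have hT1 : T ≤ 2 ^ (b₁ - 1) := by
      rw [hT, e1]
      exact Nat.add_le_add_left (Nat.mul_le_mul_right _ hi.le) _
    have hT1' : T' ≤ 2 ^ (a + l + 1) := by
      rw [hT', e2]
      exact Nat.add_le_add_left (Nat.mul_le_mul_right _ hi'.le) _
    have hA : ∀ e ∈ ks S T', 64 * #((ks S T).filter (fun x => x + e ∉ ks S T)) ≤ #(ks S T) := by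
      intro e he
      refine inv_of_slow h0 (t := 2 ^ (a + l + 1)) ?_ (ks_mono h0 hT1' he)
      rw [hT, show 2 ^ (b₁ - 2) + i * 2 ^ (a + l + 1) + 2 ^ (a + l + 1) =
        2 ^ (b₁ - 2) + (i + 1) * 2 ^ (a + l + 1) by ring]
      exact hi1
    have hE : ∀ z ∈ ks S (2 ^ a),
        64 * #((ks S T').filter (fun x => x + z ∉ ks S T')) ≤ #(ks S T') := by
      intro e he
      refine inv_of_slow h0 (t := 2 ^ a) ?_ he
      rw [hT', show 2 ^ (a + l) + i' * 2 ^ a + 2 ^ a = 2 ^ (a + l) + (i' + 1) * 2 ^ a by ring]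
      exact hi1'
    obtain ⟨ξ, ⟨h, hh, hξh⟩, hξ⟩ := tfour hG M (hk T) (ks_nonempty h0 T) (ks_nonempty h0 T')
      ((Nat.mul_le_mul_left 2 (card_le_card (ks_mono h0 hT1))).trans hcase) hA
    refine ⟨ξ, ?_, ?_⟩
    · by_contra hcon
      push Not at hcon
      apply hξh
      have h1 : M ≤ ξ.ker := by
        rw [hM, AddSubgroup.closure_le]
        intro s hs'
        exact hcon s (mem_coe.1 hs')
      exact h1 hh
    · intro s hs'
      by_contra hcon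
      push Not at hcon
      have hW : 1 ≤ F * 2 ^ (2 * l + 4) := Nat.mul_pos hF (by positivity)
      have hJW : n ≤ 2 ^ a * (F * 2 ^ (2 * l + 4)) := by
        refine hb2.le.trans (le_of_eq ?_)
        rw [ha, show a + (2 * l + 3) + 1 = a + (2 * l + 4) by omega, pow_add]
        ring
      have hg := R3.FillM.geom (ξ := ξ) (d := s) hJW hW (by
        show ((F * 2 ^ (2 * l + 4) : ℕ) : ℤ) ≤ |(ξ s).valMinAbs|
        rw [← Int.natCast_natAbs]
        exact_mod_cast hcon.le)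
      have h1 : ∀ j ∈ range (2 ^ a), (7 / 8 : ℝ) ≤ (ZMod.stdAddChar (ph ξ (j • s)) : ℂ).re := by
        intro j hj
        have h2 : j • s ∈ ks S (2 ^ a) := nsmul_mem_ks h0 hs' (mem_range.1 hj).le
        have h3 := hξ (j • s) (hE _ h2)
        have h4 := Complex.re_le_norm ((1 : ℂ) - (ZMod.stdAddChar (ξ (j • s)) : ℂ))
        rw [Complex.sub_re, Complex.one_re] at h4
        have h5 : (ZMod.stdAddChar (ph ξ (j • s)) : ℂ).re =
          (ZMod.stdAddChar (ξ (j • s)) : ℂ).re := rfl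
        rw [h5]
        linarith
      have h2 := sum_le_sum h1
      rw [sum_const, card_range, nsmul_eq_mul] at h2
      have h3 : (0 : ℝ) < ((2 ^ a : ℕ) : ℝ) := by positivity
      linarith

end Pool.Agent.Lib.MPa7239a.RN
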