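import Pool.Agent.Lib.MP_a7239a_co.RN.LATN
import Pool.Agent.Lib.MP_a7239a_co.RN.TMAIN

/-! # RN, module GSTEP: a solution or a character -/

set_option autoImplicit false

universe u

open Finset
open scoped Pointwise

namespace Pool.Agent.Lib.MPa7239a.RN

open Pool.Agent.Lib.MPa7239a.GC (Hit)
open Pool.Agent.Lib.MPa7239a.R3X (box lf Avg InLat Free)

namespace GSTEPM

/-- the integer vectors of `VW p W` with entries at most `w₁` -/
noncomputable def Zf {N : ℕ} (p : Fin N → ℤ × ℤ) (W : Finset (Fin N)) (w₁ : ℕ) :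
    Finset (Fin N → ℤ) :=
  @Finset.filter (Fin N → ℤ) (fun z => z ∈ VW p W) (Classical.decPred _)
    (Fintype.piFinset fun _ : Fin N => Finset.Icc (-(w₁ : ℤ)) w₁)

theorem mem_Zf {N : ℕ} {p : Fin N → ℤ × ℤ} {W : Finset (Fin N)} {w₁ : ℕ} {z : Fin N → ℤ} :
    z ∈ Zf p W w₁ ↔ z ∈ VW p W ∧ ∀ c, |z c| ≤ (w₁ : ℤ) := by
  unfold Zf
  refine (@Finset.mem_filter (Fin N → ℤ) (fun z => z ∈ VW p W) (Classical.decPred _) _ z).trans ?_
  rw [Fintype.mem_piFinset, and_comm]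
  refine and_congr_right fun _ => forall_congr' fun c => ?_
  rw [Finset.mem_Icc, abs_le]

theorem xs_sum {G : Type*} [AddCommGroup G] {N : ℕ} (x : Fin N → G) {ι : Type*}
    (s : Finset ι) (f : ι → Fin N → ℤ) : xs x (∑ i ∈ s, f i) = ∑ i ∈ s, xs x (f i) := by
  classical
  induction s using Finset.induction_on with
  | empty => simp [xs_zero]
  | insert a s ha ih => rw [sum_insert ha, sum_insert ha, xs_add, ih]

/-- the scale `b₁` with `2 ^ b₁ * F ≤ n < 2 ^ (b₁ + 1) * F` -/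
theorem scale {n F : ℕ} (hF : 1 ≤ F) (h : F ≤ n) :
    ∃ b : ℕ, 2 ^ b * F ≤ n ∧ n < 2 ^ (b + 1) * F := by
  have h1 : n / F ≠ 0 := (Nat.div_pos h (by omega)).ne'
  refine ⟨Nat.log 2 (n / F), ?_, ?_⟩
  · exact (Nat.mul_le_mul_right F (Nat.pow_log_le_self 2 h1)).trans (Nat.div_mul_le_self n F)
  · have h2 : n / F < 2 ^ (Nat.log 2 (n / F) + 1) := Nat.lt_pow_succ_log_self (by norm_num) _
    exact (Nat.div_lt_iff_lt_mul (by omega)).1 h2

end GSTEPM

open GSTEPM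

theorem gstep (N w r : ℕ) (hr : 1 ≤ r) (θ : ℝ) (hθ : 0 < θ) : ∃ w₀ : ℕ, ∀ w₁ : ℕ, w₀ ≤ w₁ →
    ∃ w' n₀ : ℕ, ∀ n : ℕ, n₀ ≤ n → ∀ (G : Type u) [AddCommGroup G] [Finite G],
    (∀ g : G, n • g = 0) → Nat.card G ≤ n ^ r → ∀ (x : Fin N → G) (H : Fin N → AddSubgroup G)
      (m : Fin N → ℕ) (W : Finset (Fin N)) (p : Fin N → ℤ × ℤ), (∀ c, p c ∈ box w) →
    ∀ (a : Fin N → ℤ) (γ : ℤ × ℤ) (β : Fin N → ℝ), (∀ c, c ∉ W → a c = 0) → ∑ c, a c = 1 →
    ∑ c, a c * (p c).1 = γ.1 → ∑ c, a c * (p c).2 = γ.2 →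
    (∀ c, c ∉ W → β c = 0) → (∀ c ∈ W, θ ≤ β c ∧ (β c + θ) * n ≤ m c) → ∑ c, β c = 1 →
    ∑ c, β c * ((p c).1 : ℝ) = γ.1 → ∑ c, β c * ((p c).2 : ℝ) = γ.2 →
      Sol n x H m W ∨ ∃ ξ : G →+ ZMod n, (∀ g ∈ HW H W, ξ g = 0) ∧
        (∀ z ∈ VW p W, (∀ c, |z c| ≤ (w₁ : ℤ)) → (ξ (xs x z)).valMinAbs.natAbs ≤ w') ∧
        ∃ z ∈ VW p W, (∀ c, |z c| ≤ (w₁ : ℤ)) ∧ ξ (xs x z) ≠ 0 := by
  obtain ⟨w₀, hw₀⟩ := latx N w
  obtain ⟨c₀, hc₀⟩ := roundx N w
  refine ⟨w₀, fun w₁ hw₁ => ?_⟩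
  obtain ⟨F, hF⟩ : ∃ F : ℕ, F = ⌈4 * w₁ / θ⌉₊ + 1 := ⟨_, rfl⟩
  have hF1 : 1 ≤ F := by omega
  obtain ⟨w', n₁, ht⟩ := tmain.{u} r hr F hF1
  refine ⟨w', max (max n₁ F) (⌈4 * c₀ / θ⌉₊ + 1), ?_⟩
  intro n hn G _ _ hG hcard x H m W p hp a γ β ha0 ha1 hap1 hap2 hβ0 hβ hβ1 hβp1 hβp2
  classical
  have hn1 : n₁ ≤ n := le_trans (le_trans (le_max_left _ _) (le_max_left _ _)) hn
  have hnF : F ≤ n := le_trans (le_trans (le_max_right _ _) (le_max_left _ _)) hn
  have hnc : 4 * (c₀ : ℝ) / θ ≤ n := by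
    have h1 : ⌈4 * (c₀ : ℝ) / θ⌉₊ + 1 ≤ n := le_trans (le_max_right _ _) hn
    have h2 : ⌈4 * (c₀ : ℝ) / θ⌉₊ ≤ n := by omega
    exact (Nat.le_ceil _).trans (by exact_mod_cast h2)
  have hn0 : 1 ≤ n := by omega
  have hnR : (1 : ℝ) ≤ n := by exact_mod_cast hn0
  obtain ⟨b₁, hb1, hb2⟩ := scale hF1 hnF
  -- rounding
  obtain ⟨b, hbV, hbc⟩ := hc₀ W p hp a γ ha0 ha1 hap1 hap2 n (fun c => n * β c)
    (fun c hc => by rw [hβ0 c hc, mul_zero]) (by rw [← mul_sum, hβ1, mul_one])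
    (by
      rw [← hβp1, mul_sum]
      exact sum_congr rfl fun c _ => by ring)
    (by
      rw [← hβp2, mul_sum]
      exact sum_congr rfl fun c _ => by ring)
  have hV1 := mem_VW.1 hbV
  have hb0 : ∀ c, c ∉ W → b c = 0 := fun c hc => by
    have := hV1.1 c hc
    rw [Pi.sub_apply, Pi.smul_apply, ha0 c hc, smul_zero, sub_zero] at this
    exact this
  have hbs : ∑ c, b c = n := by
    have := hV1.2.1
    simp only [Pi.sub_apply, Pi.smul_apply, smul_eq_mul, sum_sub_distrib, ← mul_sum, ha1,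
      mul_one] at this
    linarith
  have hxs : xs x (b - (n : ℤ) • a) = xs x b := by
    rw [xs_sub, xs_smul, natCast_zsmul, hG, sub_zero]
  -- the quotient
  obtain ⟨K, hK⟩ : ∃ K : AddSubgroup G, K = HW H W := ⟨_, rfl⟩
  obtain ⟨S, hS⟩ : ∃ S : Finset (G ⧸ K), S = (Zf p W w₁).image
    (fun z => (QuotientAddGroup.mk' K) (xs x z)) := ⟨_, rfl⟩
  have hmemS : ∀ z ∈ VW p W, (∀ c, |z c| ≤ (w₁ : ℤ)) → (QuotientAddGroup.mk' K) (xs x z) ∈ S :=
    fun z hz hz' => by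
      rw [hS]
      exact mem_image_of_mem _ (mem_Zf.2 ⟨hz, hz'⟩)
  have hS0 : (0 : G ⧸ K) ∈ S := by
    have := hmemS 0 (VW p W).zero_mem (fun c => by simp)
    rwa [xs_zero, map_zero] at this
  have hSn : ∀ s ∈ S, -s ∈ S := fun s hs => by
    rw [hS, mem_image] at hs
    obtain ⟨z, hz, rfl⟩ := hs
    rw [mem_Zf] at hz
    have := hmemS (-z) ((VW p W).neg_mem hz.1) (fun c => by
      rw [Pi.neg_apply, abs_neg]; exact hz.2 c)
    rwa [xs_neg, map_neg] at this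
  have hGq : ∀ g : G ⧸ K, n • g = 0 := by
    intro g
    obtain ⟨g, rfl⟩ := QuotientAddGroup.mk'_surjective K g
    rw [← map_nsmul, hG, map_zero]
  have hcq : Nat.card (G ⧸ K) ≤ n ^ r := by
    refine le_trans ?_ hcard
    exact Nat.card_le_card_of_surjective _ (QuotientAddGroup.mk'_surjective K)
  have hclo : (QuotientAddGroup.mk' K) (xs x b) ∈ AddSubgroup.closure (S : Set (G ⧸ K)) := by
    rw [← hxs]
    let φ : (Fin N → ℤ) →+ (G ⧸ K) :=
      { toFun := fun z => (QuotientAddGroup.mk' K) (xs x z)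
        map_zero' := by rw [xs_zero, map_zero]
        map_add' := fun y z => by rw [xs_add, map_add] }
    have h1 := hw₀ W p hp hbV
    have h2 : AddSubgroup.closure {z : Fin N → ℤ | z ∈ VW p W ∧ ∀ c, |z c| ≤ (w₀ : ℤ)} ≤
        (AddSubgroup.closure (S : Set (G ⧸ K))).comap φ := by
      rw [AddSubgroup.closure_le]
      rintro z ⟨hz, hz'⟩
      refine AddSubgroup.subset_closure (hmemS z hz fun c => (hz' c).trans ?_)
      exact_mod_cast hw₁
    exact h2 h1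
  rcases ht n hn1 (G ⧸ K) hGq hcq S hS0 hSn b₁ hb1 hb2 with hall | ⟨ξ, ⟨s, hs, hs0⟩, hξ⟩
  · -- a solution
    left
    obtain ⟨f, hf, hfs⟩ := mem_ks.1 (hall _ hclo)
    have hex : ∀ i, ∃ z : Fin N → ℤ, z ∈ VW p W ∧ (∀ c, |z c| ≤ (w₁ : ℤ)) ∧
        (QuotientAddGroup.mk' K) (xs x z) = f i := fun i => by
      have := hf i
      rw [hS, mem_image] at this
      obtain ⟨z, hz, hz'⟩ := this
      rw [mem_Zf] at hz
      exact ⟨z, hz.1, hz.2, hz'⟩
    choose z hzV hzw hzf using hex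
    obtain ⟨d, hd⟩ : ∃ d : Fin N → ℤ, d = ∑ i, z i := ⟨_, rfl⟩
    have hdV : d ∈ VW p W := by rw [hd]; exact (VW p W).sum_mem fun i _ => hzV i
    have hd1 := mem_VW.1 hdV
    have hdw : ∀ c, |(d c : ℝ)| ≤ θ * n / 4 := fun c => by
      have h1 : |d c| ≤ 2 ^ b₁ * (w₁ : ℤ) := by
        rw [hd, Finset.sum_apply]
        refine (abs_sum_le_sum_abs _ _).trans ?_
        refine (sum_le_card_nsmul _ _ (w₁ : ℤ) fun i _ => hzw i c).trans ?_
        rw [card_univ, Fintype.card_fin, nsmul_eq_mul]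
        push_cast
        exact le_rfl
      have h2 : |(d c : ℝ)| ≤ 2 ^ b₁ * (w₁ : ℝ) := by exact_mod_cast h1
      refine h2.trans ?_
      have h3 : (2 : ℝ) ^ b₁ * F ≤ n := by exact_mod_cast hb1
      have h4 : 4 * (w₁ : ℝ) / θ ≤ F := by
        rw [hF]
        push_cast
        exact (Nat.le_ceil _).trans (by linarith)
      have h5 : 4 * (w₁ : ℝ) ≤ F * θ := by rwa [div_le_iff₀ hθ] at h4
      have h6 : (0 : ℝ) < 2 ^ b₁ := by positivity
      nlinarith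
    have hb' : ∀ c, |((b c - d c : ℤ) : ℝ) - n * β c| ≤ θ * n / 2 := fun c => by
      have h1 := hbc c
      have h2 := hdw c
      have h3 : (c₀ : ℝ) ≤ θ * n / 4 := by
        rw [div_le_iff₀ hθ] at hnc
        linarith
      push_cast
      have h4 := abs_le.1 h1
      have h5 := abs_le.1 h2
      rw [abs_le]
      constructor <;> linarith [h4.1, h4.2, h5.1, h5.2]
    have hpos : ∀ c ∈ W, 1 ≤ b c - d c := fun c hc => by
      have h1 := (abs_le.1 (hb' c)).1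
      have h2 := (hβ c hc).1
      have h3 : (0 : ℝ) < ((b c - d c : ℤ) : ℝ) := by nlinarith
      have h4 : (0 : ℤ) < b c - d c := by exact_mod_cast h3
      omega
    have hoff : ∀ c, c ∉ W → b c - d c = 0 := fun c hc => by
      rw [hb0 c hc, hd1.1 c hc, sub_zero]
    have hnn : ∀ c, 0 ≤ b c - d c := fun c => by
      by_cases hc : c ∈ W
      · exact le_trans (by norm_num) (hpos c hc)
      · exact (hoff c hc).ge
    have hsupp : (univ.filter fun c => (b c - d c).toNat ≠ 0) = W := by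
      ext c
      rw [mem_filter]
      constructor
      · rintro ⟨-, h⟩
        by_contra hc
        exact h (by rw [hoff c hc]; rfl)
      · intro hc
        have := hpos c hc
        exact ⟨mem_univ _, by omega⟩
    refine ⟨fun c => (b c - d c).toNat, fun c => ?_, fun c hc => ?_, ?_, ?_⟩
    · by_cases hc : c ∈ W
      · have h1 := (abs_le.1 (hb' c)).2
        have h2 := (hβ c hc).2
        have h3 : ((b c - d c : ℤ) : ℝ) ≤ m c := by nlinarith
        have h4 : b c - d c ≤ (m c : ℤ) := by exact_mod_cast h3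
        show (b c - d c).toNat ≤ m c
        omega
      · show (b c - d c).toNat ≤ m c
        rw [hoff c hc]
        exact Nat.zero_le _
    · show (b c - d c).toNat = 0
      rw [hoff c hc]
      rfl
    · have h1 : ((∑ c, (b c - d c).toNat : ℕ) : ℤ) = n := by
        rw [Nat.cast_sum]
        rw [sum_congr rfl fun c _ => Int.toNat_of_nonneg (hnn c), sum_sub_distrib, hbs, hd1.2.1,
          sub_zero]
      exact_mod_cast h1
    · rw [hsupp, ← hK]
      have h1 : ∑ c, (b c - d c).toNat • x c = xs x (b - d) := by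
        unfold xs
        refine sum_congr rfl fun c _ => ?_
        rw [Pi.sub_apply, ← natCast_zsmul, Int.toNat_of_nonneg (hnn c)]
      have h2 : (QuotientAddGroup.mk' K) (xs x (b - d)) = 0 := by
        rw [xs_sub, map_sub, hd, xs_sum, map_sum, sum_congr rfl fun i _ => hzf i, hfs, sub_self]
      show ∑ c, (b c - d c).toNat • x c ∈ K
      rw [h1]
      exact (QuotientAddGroup.eq_zero_iff _).1 h2
  · -- a character
    right
    refine ⟨ξ.comp (QuotientAddGroup.mk' K), fun g hg => ?_, fun z hz hz' => ?_, ?_⟩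
    · have : (QuotientAddGroup.mk' K) g = 0 := (QuotientAddGroup.eq_zero_iff _).2 (by rwa [hK])
      rw [AddMonoidHom.comp_apply, this, map_zero]
    · exact hξ _ (hmemS z hz hz')
    · rw [hS, mem_image] at hs
      obtain ⟨z, hz, rfl⟩ := hs
      rw [mem_Zf] at hz
      exact ⟨z, hz.1, hz.2, hs0⟩

end Pool.Agent.Lib.MPa7239a.RN
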