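import Pool.Agent.Lib.MP_a7239a_co.RN.GSTEP

set_option autoImplicit false

universe u

open Finset
open scoped Pointwise

namespace Pool.Agent.Lib.MPa7239a.RN

open Pool.Agent.Lib.MPa7239a.GC (Hit)
open Pool.Agent.Lib.MPa7239a.R3X (box lf Avg InLat Free)

theorem lev_zero (N r : ℕ) (hr : 1 ≤ r) (δ η₀ ε : ℝ) (hδ : 0 < δ) (hη : 0 < η₀) (hε : 0 < ε) :
    ∃ w n₀ : ℕ, ∀ n : ℕ, n₀ ≤ n → ∀ (G : Type u) [AddCommGroup G] [Finite G],
    (∀ g : G, n • g = 0) → Nat.card G ≤ n ^ r → ∀ (x : Fin N → G) (H : Fin N → AddSubgroup G)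
      (m : Fin N → ℕ) (W : Finset (Fin N)), Cfg n δ η₀ (1 + ε) x H m W →
    ¬ Ind n w δ 1 (DW x H W) → Sol n x H m W := by
  have hε1 : 0 < 1 + ε := by linarith
  obtain ⟨θ, hθ0, hθ1, hθ2⟩ : ∃ θ : ℝ, 0 < θ ∧ θ ≤ η₀ / 8 ∧ θ ≤ η₀ * (ε / (1 + ε)) :=
    ⟨min (η₀ / 8) (η₀ * (ε / (1 + ε))), lt_min (by positivity) (by positivity),
      min_le_left _ _, min_le_right _ _⟩
  obtain ⟨w₀, hw₀⟩ := gstep.{u} N 0 r hr θ hθ0
  obtain ⟨w', n₀, H₀⟩ := hw₀ w₀ le_rfl
  refine ⟨w', max n₀ 1, fun n hn G _ _ hG hcard x H m W hC hD => ?_⟩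
  have hn1 : 1 ≤ n := le_trans (le_max_right _ _) hn
  have hnR : (0 : ℝ) < n := by exact_mod_cast hn1
  obtain ⟨M, hM⟩ : ∃ M : ℝ, M = ∑ c ∈ W, (m c : ℝ) := ⟨_, rfl⟩
  have hM1 : (1 + ε) * n ≤ M := hM ▸ hC.tot
  have hM8 : M ≤ 8 * n := hM ▸ hC.tot8
  have hM0 : 0 < M := lt_of_lt_of_le (by positivity) hM1
  have hW : W.Nonempty := by
    rw [nonempty_iff_ne_empty]
    rintro rfl
    rw [sum_empty] at hM
    exact hM0.ne' hM
  obtain ⟨c₁, hc₁⟩ := hW
  have key := H₀ n (le_trans (le_max_left _ _) hn) G hG hcard x H m W (fun _ => (0, 0))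
    (fun c => by simp [Pool.Agent.Lib.MPa7239a.R3X.box]) (Pi.single c₁ 1) (0, 0)
    (fun c => if c ∈ W then (m c : ℝ) / M else 0)
    (fun c hc => by
      rw [Pi.single_eq_of_ne]
      rintro rfl
      exact hc hc₁)
    (by simp) (by simp) (by simp)
    (fun c hc => if_neg hc)
    (fun c hc => by
      rw [if_pos hc]
      have h1 := hC.hm c hc
      have hm0 : (0 : ℝ) ≤ m c := Nat.cast_nonneg _
      constructor
      · rw [le_div_iff₀ hM0]
        have : θ * M ≤ η₀ / 8 * (8 * n) :=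
          mul_le_mul hθ1 hM8 hM0.le (by positivity)
        linarith
      · have h2 : (m c : ℝ) / M * n ≤ m c / (1 + ε) := by
          rw [div_mul_eq_mul_div, div_le_div_iff₀ hM0 hε1, mul_assoc]
          exact mul_le_mul_of_nonneg_left (by linarith) hm0
        have h3 : (m c : ℝ) / (1 + ε) = m c - m c * (ε / (1 + ε)) := by
          field_simp
          ring
        have h4 : θ * n ≤ m c * (ε / (1 + ε)) := by
          calc θ * n ≤ η₀ * (ε / (1 + ε)) * n := mul_le_mul_of_nonneg_right hθ2 hnR.le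
            _ = η₀ * n * (ε / (1 + ε)) := by ring
            _ ≤ m c * (ε / (1 + ε)) := mul_le_mul_of_nonneg_right h1 (by positivity)
        rw [add_mul]
        linarith)
    (by
      rw [sum_ite_mem, univ_inter, ← sum_div, ← hM, div_self hM0.ne'])
    (by simp) (by simp)
  rcases key with h | ⟨ξ, hξ0, hξ1, z, hz, hzb, hξz⟩
  · exact h
  exfalso
  have hle : HW H W ≤ DW x H W := le_sup_right
  have hg : xs x z ∈ DW x H W := by
    obtain ⟨hz0, hz1, -, -⟩ := mem_VW.1 hz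
    have h1 : xs x z = ∑ c ∈ W, z c • (x c - x c₁) := by
      have h2 : ∑ c ∈ W, z c • (x c - x c₁) = ∑ c, z c • (x c - x c₁) :=
        sum_subset (subset_univ _) fun c _ hc => by rw [hz0 c hc, zero_smul]
      rw [h2]
      simp only [smul_sub, sum_sub_distrib, ← sum_smul, hz1, zero_smul, sub_zero]
      rfl
    rw [h1]
    refine sum_mem fun c hc => zsmul_mem ?_ _
    exact AddSubgroup.mem_sup_left (AddSubgroup.subset_closure ⟨c, hc, c₁, hc₁, rfl⟩)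
  have h2 : H c₁ ≤ DW x H W ⊓ ξ.ker := by
    have h3 : H c₁ ≤ HW H W := le_iSup₂_of_le c₁ hc₁ le_rfl
    refine le_inf (h3.trans hle) fun g hg => ?_
    rw [AddMonoidHom.mem_ker]
    exact hξ0 g (h3 hg)
  have h3 : Nat.card (H c₁) ≤ Nat.card (DW x H W ⊓ ξ.ker : AddSubgroup G) :=
    AddSubgroup.card_le_of_le h2
  exact hD ⟨ξ, xs x z, hg, hξz, hξ1 z hz hzb, (hC.hH c₁ hc₁).trans (by exact_mod_cast h3)⟩

end Pool.Agent.Lib.MPa7239a.RN
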