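import Pool.Agent.Lib.MP_a7239a_co.RN.Defs

/-! # Module MEDIAN (theorem RN, MP_a7239a_co): weighted median and balanced weights -/

set_option autoImplicit false

open Finset

namespace Pool.Agent.Lib.MPa7239a.RN

namespace MedM

/-- Existence of a weighted median among the values `k c`, `c ∈ W`. -/
theorem exists_median {N : ℕ} (m : Fin N → ℕ) (k : Fin N → ℤ) (W : Finset (Fin N))
    (hM : 0 < ∑ c ∈ W, (m c : ℝ)) :
    ∃ c₀ ∈ W, ∑ c ∈ W, (m c : ℝ) ≤ 2 * ∑ c ∈ W with k c ≤ k c₀, (m c : ℝ) ∧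
      ∑ c ∈ W, (m c : ℝ) ≤ 2 * ∑ c ∈ W with k c₀ ≤ k c, (m c : ℝ) := by
  classical
  have hne : W.Nonempty := by
    by_contra h
    rw [Finset.not_nonempty_iff_eq_empty] at h
    simp [h] at hM
  set S : Finset (Fin N) := W.filter
    (fun c => ∑ d ∈ W, (m d : ℝ) ≤ 2 * ∑ d ∈ W with k d ≤ k c, (m d : ℝ)) with hS
  have hSne : S.Nonempty := by
    obtain ⟨c, hc, hmax⟩ := Finset.exists_max_image W k hne
    refine ⟨c, Finset.mem_filter.2 ⟨hc, ?_⟩⟩
    have : W.filter (fun d => k d ≤ k c) = W := Finset.filter_true_of_mem fun d hd => hmax d hd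
    rw [this]
    linarith
  obtain ⟨c₀, hc₀, hmin⟩ := Finset.exists_min_image S k hSne
  have hc₀' := Finset.mem_filter.1 hc₀
  refine ⟨c₀, hc₀'.1, hc₀'.2, ?_⟩
  have hlt : 2 * ∑ d ∈ W with k d < k c₀, (m d : ℝ) < ∑ d ∈ W, (m d : ℝ) := by
    by_cases hL : (W.filter (fun d => k d < k c₀)).Nonempty
    · obtain ⟨c₁, hc₁, hmax⟩ := Finset.exists_max_image _ k hL
      have hc₁' := Finset.mem_filter.1 hc₁
      have heq : W.filter (fun d => k d ≤ k c₁) = W.filter (fun d => k d < k c₀) := by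
        ext d
        simp only [Finset.mem_filter]
        constructor
        · rintro ⟨hd, h⟩
          exact ⟨hd, lt_of_le_of_lt h hc₁'.2⟩
        · rintro ⟨hd, h⟩
          exact ⟨hd, hmax d (Finset.mem_filter.2 ⟨hd, h⟩)⟩
      by_contra hcon
      rw [not_lt] at hcon
      have : c₁ ∈ S := Finset.mem_filter.2 ⟨hc₁'.1, by rw [heq]; exact hcon⟩
      exact absurd (hmin c₁ this) (not_le.2 hc₁'.2)
    · rw [Finset.not_nonempty_iff_eq_empty] at hL
      rw [hL]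
      simpa using hM
  have hsplit : ∑ d ∈ W, (m d : ℝ) =
      ∑ d ∈ W with k d < k c₀, (m d : ℝ) + ∑ d ∈ W with k c₀ ≤ k d, (m d : ℝ) := by
    rw [← Finset.sum_filter_add_sum_filter_not W (fun d => k d < k c₀)]
    congr 1
    refine Finset.sum_congr ?_ fun _ _ => rfl
    ext d
    simp only [Finset.mem_filter, not_lt]
  linarith

/-- The balanced weights if the left moment is at most the right one. -/
theorem core {N w : ℕ} {η₀ ε : ℝ} (hη : 0 < η₀) (hε : 0 < ε) {n : ℕ} (hn : 1 ≤ n)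
    (m : Fin N → ℕ) (k : Fin N → ℤ) (W : Finset (Fin N)) (h1 : ∀ c ∈ W, η₀ * n ≤ m c)
    (h2 : ∀ c ∈ W, |k c| ≤ (w : ℤ)) (h4 : ∑ c ∈ W, (m c : ℝ) ≤ 8 * n)
    {c₀ : Fin N} (hc₀ : c₀ ∈ W)
    (hlow : (1 + ε) * n ≤ ∑ c ∈ W with k c ≤ k c₀, (m c : ℝ))
    (hA : ∃ c ∈ W, k c < k c₀) (hB : ∃ c ∈ W, k c₀ < k c)
    (hle : ∑ c ∈ W, (m c : ℝ) * max (((k c₀ - k c : ℤ)) : ℝ) 0 ≤
      ∑ c ∈ W, (m c : ℝ) * max (((k c - k c₀ : ℤ)) : ℝ) 0) :
    ∃ β : Fin N → ℝ, (∀ c, c ∉ W → β c = 0) ∧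
      (∀ c ∈ W, min (η₀ ^ 2 / (128 * (w + 1))) (η₀ * ε / (1 + ε)) ≤ β c ∧
        (β c + min (η₀ ^ 2 / (128 * (w + 1))) (η₀ * ε / (1 + ε))) * n ≤ m c) ∧
      ∑ c, β c = 1 ∧ ∑ c, β c * (k c : ℝ) = k c₀ := by
  classical
  have hn0 : (0 : ℝ) < n := by exact_mod_cast hn
  have hw0 : (0 : ℝ) < (w : ℝ) + 1 := by positivity
  have hm0 : ∀ c ∈ W, (0 : ℝ) < m c := fun c hc => lt_of_lt_of_le (by positivity) (h1 c hc)
  set L : ℝ := ∑ c ∈ W, (m c : ℝ) * max (((k c₀ - k c : ℤ)) : ℝ) 0 with hLdef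
  set R : ℝ := ∑ c ∈ W, (m c : ℝ) * max (((k c - k c₀ : ℤ)) : ℝ) 0 with hRdef
  have hL : η₀ * n ≤ L := by
    obtain ⟨a, ha, hka⟩ := hA
    have h1' : (1 : ℝ) ≤ ((k c₀ - k a : ℤ) : ℝ) := by
      exact_mod_cast (by omega : (1 : ℤ) ≤ k c₀ - k a)
    calc η₀ * n ≤ m a := h1 a ha
      _ ≤ (m a : ℝ) * max (((k c₀ - k a : ℤ)) : ℝ) 0 :=
          le_mul_of_one_le_right (hm0 a ha).le (le_max_of_le_left h1')
      _ ≤ L := Finset.single_le_sum
          (f := fun c => (m c : ℝ) * max (((k c₀ - k c : ℤ)) : ℝ) 0)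
          (fun c _ => mul_nonneg (Nat.cast_nonneg _) (le_max_right _ _)) ha
  have hL0 : 0 < L := lt_of_lt_of_le (by positivity) hL
  have hR0 : 0 < R := lt_of_lt_of_le hL0 hle
  have hRle : R ≤ 16 * (w + 1) * n := by
    have : R ≤ ∑ c ∈ W, (m c : ℝ) * (2 * (w + 1)) := by
      refine Finset.sum_le_sum fun c hc => ?_
      refine mul_le_mul_of_nonneg_left ?_ (Nat.cast_nonneg _)
      refine max_le ?_ (by positivity)
      have ha := abs_le.1 (h2 c hc)
      have hb := abs_le.1 (h2 c₀ hc₀)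
      have : k c - k c₀ ≤ 2 * ((w : ℤ) + 1) := by omega
      calc ((k c - k c₀ : ℤ) : ℝ) ≤ ((2 * ((w : ℤ) + 1) : ℤ) : ℝ) := by exact_mod_cast this
        _ = 2 * (w + 1) := by push_cast; ring
    rw [← Finset.sum_mul] at this
    calc R ≤ (∑ c ∈ W, (m c : ℝ)) * (2 * (w + 1)) := this
      _ ≤ (8 * n) * (2 * (w + 1)) := mul_le_mul_of_nonneg_right h4 (by positivity)
      _ = 16 * (w + 1) * n := by ring
  set τ : ℝ := L / R with hτ
  have hτ0 : 0 < τ := div_pos hL0 hR0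
  have hτ1 : τ ≤ 1 := (div_le_one hR0).2 hle
  have hτlow : η₀ / (16 * (w + 1)) ≤ τ := by
    rw [hτ, div_le_div_iff₀ (by positivity) hR0]
    calc η₀ * R ≤ η₀ * (16 * (w + 1) * n) := mul_le_mul_of_nonneg_left hRle hη.le
      _ = (η₀ * n) * (16 * (w + 1)) := by ring
      _ ≤ L * (16 * (w + 1)) := mul_le_mul_of_nonneg_right hL (by positivity)
  set t : Fin N → ℝ := fun c => if k c ≤ k c₀ then 1 else τ with ht
  have ht0 : ∀ c, 0 < t c := fun c => by
    simp only [ht]; split_ifs <;> [exact one_pos; exact hτ0]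
  have htτ : ∀ c, τ ≤ t c := fun c => by
    simp only [ht]; split_ifs <;> [exact hτ1; exact le_rfl]
  have ht1 : ∀ c, t c ≤ 1 := fun c => by
    simp only [ht]; split_ifs <;> [exact le_rfl; exact hτ1]
  set T : ℝ := ∑ c ∈ W, t c * m c with hT
  have hTlow : (1 + ε) * n ≤ T := by
    refine hlow.trans ?_
    calc ∑ c ∈ W with k c ≤ k c₀, (m c : ℝ)
        = ∑ c ∈ W with k c ≤ k c₀, t c * m c := by
          refine Finset.sum_congr rfl fun c hc => ?_
          have := (Finset.mem_filter.1 hc).2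
          simp [ht, this]
      _ ≤ T := Finset.sum_le_sum_of_subset_of_nonneg (Finset.filter_subset _ _)
          fun c _ _ => mul_nonneg (ht0 c).le (Nat.cast_nonneg _)
  have hT0 : 0 < T := lt_of_lt_of_le (by positivity) hTlow
  have hTup : T ≤ 8 * n := by
    refine le_trans ?_ h4
    refine Finset.sum_le_sum fun c _ => ?_
    exact mul_le_of_le_one_left (Nat.cast_nonneg _) (ht1 c)
  have hbal : ∑ c ∈ W, t c * m c * ((k c : ℝ) - k c₀) = 0 := by
    have hterm : ∀ c ∈ W, t c * m c * ((k c : ℝ) - k c₀) =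
        τ * ((m c : ℝ) * max (((k c - k c₀ : ℤ)) : ℝ) 0) -
          (m c : ℝ) * max (((k c₀ - k c : ℤ)) : ℝ) 0 := by
      intro c _
      by_cases h : k c ≤ k c₀
      · have ha : (((k c - k c₀ : ℤ)) : ℝ) ≤ 0 := by exact_mod_cast (by omega : k c - k c₀ ≤ 0)
        have hb : (0 : ℝ) ≤ (((k c₀ - k c : ℤ)) : ℝ) := by
          exact_mod_cast (by omega : 0 ≤ k c₀ - k c)
        rw [max_eq_right ha, max_eq_left hb]
        simp only [ht, if_pos h]
        push_cast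
        ring
      · have ha : (0 : ℝ) ≤ (((k c - k c₀ : ℤ)) : ℝ) := by
          exact_mod_cast (by omega : 0 ≤ k c - k c₀)
        have hb : (((k c₀ - k c : ℤ)) : ℝ) ≤ 0 := by
          exact_mod_cast (by omega : k c₀ - k c ≤ 0)
        rw [max_eq_left ha, max_eq_right hb]
        simp only [ht, if_neg h]
        push_cast
        ring
    rw [Finset.sum_congr rfl hterm, Finset.sum_sub_distrib, ← Finset.mul_sum, ← hRdef, ← hLdef, hτ,
      div_mul_cancel₀ _ hR0.ne', sub_self]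
  refine ⟨fun c => if c ∈ W then t c * m c / T else 0, ?_, ?_, ?_, ?_⟩
  · intro c hc
    simp [hc]
  · intro c hc
    simp only [if_pos hc]
    constructor
    · refine (min_le_left _ _).trans ?_
      rw [div_le_div_iff₀ (by positivity) hT0]
      have h3 : η₀ / (16 * (w + 1)) * (η₀ * n) ≤ t c * m c :=
        mul_le_mul (hτlow.trans (htτ c)) (h1 c hc) (by positivity) (ht0 c).le
      calc η₀ ^ 2 * T ≤ η₀ ^ 2 * (8 * n) := mul_le_mul_of_nonneg_left hTup (by positivity)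
        _ = (η₀ / (16 * (w + 1)) * (η₀ * n)) * (128 * (w + 1)) := by
            field_simp
            ring
        _ ≤ t c * m c * (128 * (w + 1)) := mul_le_mul_of_nonneg_right h3 (by positivity)
    · have hβ : t c * m c / T * n ≤ m c / (1 + ε) := by
        rw [div_mul_eq_mul_div, div_le_div_iff₀ hT0 (by positivity)]
        calc t c * m c * n * (1 + ε) = (t c * m c) * ((1 + ε) * n) := by ring
          _ ≤ (t c * m c) * T := mul_le_mul_of_nonneg_left hTlow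
              (mul_nonneg (ht0 c).le (Nat.cast_nonneg _))
          _ ≤ (1 * m c) * T := mul_le_mul_of_nonneg_right
              (mul_le_mul_of_nonneg_right (ht1 c) (Nat.cast_nonneg _)) hT0.le
          _ = m c * T := by ring
      have hθ : min (η₀ ^ 2 / (128 * (w + 1))) (η₀ * ε / (1 + ε)) * n ≤
          m c * ε / (1 + ε) := by
        calc min (η₀ ^ 2 / (128 * (w + 1))) (η₀ * ε / (1 + ε)) * n
            ≤ η₀ * ε / (1 + ε) * n := mul_le_mul_of_nonneg_right (min_le_right _ _) hn0.le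
          _ = (η₀ * n) * (ε / (1 + ε)) := by ring
          _ ≤ m c * (ε / (1 + ε)) := mul_le_mul_of_nonneg_right (h1 c hc) (by positivity)
          _ = m c * ε / (1 + ε) := by ring
      calc (t c * m c / T + min (η₀ ^ 2 / (128 * (w + 1))) (η₀ * ε / (1 + ε))) * n
          = t c * m c / T * n + min (η₀ ^ 2 / (128 * (w + 1))) (η₀ * ε / (1 + ε)) * n := by ring
        _ ≤ m c / (1 + ε) + m c * ε / (1 + ε) := add_le_add hβ hθ
        _ = m c := by
            field_simp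
  · rw [Finset.sum_ite_mem, Finset.univ_inter, ← Finset.sum_div, ← hT, div_self hT0.ne']
  · have e1 : ∀ c : Fin N, (if c ∈ W then t c * m c / T else 0) * (k c : ℝ) =
        if c ∈ W then t c * m c / T * (k c : ℝ) else 0 := fun c => by
      split_ifs <;> simp
    simp only [e1]
    rw [Finset.sum_ite_mem, Finset.univ_inter]
    have e2 : ∑ c ∈ W, t c * m c / T * (k c : ℝ) =
        (∑ c ∈ W, t c * m c * ((k c : ℝ) - k c₀)) / T + (∑ c ∈ W, t c * m c) / T * k c₀ := by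
      rw [Finset.sum_div, Finset.sum_div, Finset.sum_mul, ← Finset.sum_add_distrib]
      refine Finset.sum_congr rfl fun c _ => ?_
      field_simp
      ring
    rw [e2, hbal, ← hT, div_self hT0.ne', zero_div, zero_add, one_mul]

end MedM

theorem median (N w : ℕ) (η₀ ε : ℝ) (hη : 0 < η₀) (hε : 0 < ε) : ∃ θ : ℝ, 0 < θ ∧ ∀ (n : ℕ),
    1 ≤ n → ∀ (m : Fin N → ℕ) (k : Fin N → ℤ) (W : Finset (Fin N)), (∀ c ∈ W, η₀ * n ≤ m c) →
    (∀ c ∈ W, |k c| ≤ (w : ℤ)) → 2 * (1 + ε) * n ≤ ∑ c ∈ W, (m c : ℝ) →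
    ∑ c ∈ W, (m c : ℝ) ≤ 8 * n →
    (∀ j : ℤ, 2 * ∑ c ∈ W with k c = j, (m c : ℝ) < ∑ c ∈ W, (m c : ℝ)) →
    ∃ c₀ ∈ W, ∃ β : Fin N → ℝ, (∀ c, c ∉ W → β c = 0) ∧
      (∀ c ∈ W, θ ≤ β c ∧ (β c + θ) * n ≤ m c) ∧ ∑ c, β c = 1 ∧
      ∑ c, β c * (k c : ℝ) = k c₀ := by
  classical
  refine ⟨min (η₀ ^ 2 / (128 * (w + 1))) (η₀ * ε / (1 + ε)), lt_min (by positivity)
    (by positivity), ?_⟩
  intro n hn m k W h1 h2 h3 h4 h5
  have hn0 : (0 : ℝ) < n := by exact_mod_cast hn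
  have hM : 0 < ∑ c ∈ W, (m c : ℝ) := lt_of_lt_of_le (by positivity) h3
  obtain ⟨c₀, hc₀, hlo, hhi⟩ := MedM.exists_median m k W hM
  have hmlow : (1 + ε) * n ≤ ∑ c ∈ W with k c ≤ k c₀, (m c : ℝ) := by linarith
  have hmhigh : (1 + ε) * n ≤ ∑ c ∈ W with k c₀ ≤ k c, (m c : ℝ) := by linarith
  have h5' := h5 (k c₀)
  have hA : ∃ c ∈ W, k c < k c₀ := by
    by_contra hcon
    push Not at hcon
    have : W.filter (fun c => k c ≤ k c₀) = W.filter (fun c => k c = k c₀) :=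
      Finset.filter_congr fun c hc => ⟨fun h => le_antisymm h (hcon c hc), fun h => h.le⟩
    rw [this] at hlo
    linarith
  have hB : ∃ c ∈ W, k c₀ < k c := by
    by_contra hcon
    push Not at hcon
    have : W.filter (fun c => k c₀ ≤ k c) = W.filter (fun c => k c = k c₀) :=
      Finset.filter_congr fun c hc => ⟨fun h => le_antisymm (hcon c hc) h, fun h => h.ge⟩
    rw [this] at hhi
    linarith
  rcases le_total (∑ c ∈ W, (m c : ℝ) * max (((k c₀ - k c : ℤ)) : ℝ) 0)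
      (∑ c ∈ W, (m c : ℝ) * max (((k c - k c₀ : ℤ)) : ℝ) 0) with hle | hle
  · obtain ⟨β, hβ⟩ := MedM.core hη hε hn m k W h1 h2 h4 hc₀ hmlow hA hB hle
    exact ⟨c₀, hc₀, β, hβ⟩
  · have hneg : ∀ a b : ℤ, (-a - -b : ℤ) = b - a := fun a b => by ring
    obtain ⟨β, hβ0, hβ1, hβ2, hβ3⟩ := MedM.core hη hε hn m (fun c => -k c) W h1
      (fun c hc => by rw [abs_neg]; exact h2 c hc) h4 hc₀
      (by
        refine hmhigh.trans (le_of_eq (Finset.sum_congr ?_ fun _ _ => rfl))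
        exact Finset.filter_congr fun c _ => by simp)
      (by obtain ⟨c, hc, h⟩ := hB; exact ⟨c, hc, by simpa using h⟩)
      (by obtain ⟨c, hc, h⟩ := hA; exact ⟨c, hc, by simpa using h⟩)
      (by simpa only [hneg] using hle)
    refine ⟨c₀, hc₀, β, hβ0, hβ1, hβ2, ?_⟩
    have : ∑ c, β c * (((-k c : ℤ)) : ℝ) = -∑ c, β c * (k c : ℝ) := by
      rw [← Finset.sum_neg_distrib]
      exact Finset.sum_congr rfl fun c _ => by push_cast; ring
    rw [this] at hβ3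
    have h6 : (((-k c₀ : ℤ)) : ℝ) = -(k c₀ : ℝ) := by push_cast; ring
    rw [h6] at hβ3
    linarith

end Pool.Agent.Lib.MPa7239a.RN
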