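import Pool.Agent.Lib.MP_a7239a_co.RN.CHARK
import Pool.Agent.Lib.MP_a7239a_co.RN.LEVZ
import Pool.Agent.Lib.MP_a7239a_co.RN.MEDIAN
import Pool.Agent.Lib.MP_a7239a_co.RN.GSTEP

/-! # Module LEVONE (captain helper59, written by helper73): level 1 -/

set_option autoImplicit false

universe u

open Finset

namespace Pool.Agent.Lib.MPa7239a.RN

open Pool.Agent.Lib.MPa7239a.R3X (box)

namespace LevOneM

theorem card_le {G : Type*} [AddCommGroup G] [Finite G] {A B : AddSubgroup G} (h : A ≤ B) :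
    (Nat.card A : ℝ) ≤ Nat.card B := by
  have := Nat.card_mono (Set.toFinite (B : Set G)) (show (A : Set G) ⊆ (B : Set G) from h)
  exact_mod_cast this

variable {G : Type*} [AddCommGroup G] {N : ℕ}

theorem xs_eq {x : Fin N → G} {z : Fin N → ℤ} {W : Finset (Fin N)} (h0 : ∀ c, c ∉ W → z c = 0)
    (h1 : ∑ c, z c = 0) (c₁ : Fin N) : xs x z = ∑ c ∈ W, z c • (x c - x c₁) := by
  have e : ∑ c ∈ W, z c = 0 := by
    rw [← h1]
    exact sum_subset (subset_univ W) fun c _ hc => h0 c hc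
  have e' : xs x z = ∑ c ∈ W, z c • x c := by
    unfold xs
    exact (sum_subset (subset_univ W) fun c _ hc => by rw [h0 c hc, zero_smul]).symm
  rw [e']
  simp only [smul_sub, sum_sub_distrib, ← sum_smul, e, zero_smul, sub_zero]

theorem sub_mem_DW {x : Fin N → G} {H : Fin N → AddSubgroup G} {W : Finset (Fin N)} {c c' : Fin N}
    (h : c ∈ W) (h' : c' ∈ W) : x c - x c' ∈ DW x H W :=
  (le_sup_left : _ ≤ DW x H W) (AddSubgroup.subset_closure ⟨c, h, c', h', rfl⟩)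

end LevOneM

open LevOneM

theorem lev_one (N r : ℕ) (hr : 1 ≤ r) (δ η₀ ε : ℝ) (hδ : 0 < δ) (hη : 0 < η₀) (hε : 0 < ε) :
    ∃ w n₀ : ℕ, ∀ n : ℕ, n₀ ≤ n → ∀ (G : Type u) [AddCommGroup G] [Finite G],
    (∀ g : G, n • g = 0) → Nat.card G ≤ n ^ r → ∀ (x : Fin N → G) (H : Fin N → AddSubgroup G)
      (m : Fin N → ℕ) (W : Finset (Fin N)), Cfg n δ η₀ (2 * (1 + ε)) x H m W →
    ¬ Ind n w δ 2 (DW x H W) → Sol n x H m W := by
  classical
  obtain ⟨wA, nA, hA⟩ := lev_zero.{u} N r hr δ η₀ ε hδ hη hε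
  obtain ⟨wB, nB, hB⟩ := char_one.{u} N r hr δ η₀ ε hδ hη hε
  obtain ⟨θ, hθ, hC⟩ := median N wB η₀ ε hη hε
  obtain ⟨w₀, hw₀⟩ := gstep.{u} N wB r hr θ hθ
  obtain ⟨w', nD, hD⟩ := hw₀ w₀ le_rfl
  refine ⟨max (max wA wB) w', max (max nA nB) (max nD 1), ?_⟩
  intro n hn G _ _ hG hcard x H m W hcfg hDW
  by_contra hsol
  have hnA : nA ≤ n := le_trans (le_trans (le_max_left _ _) (le_max_left _ _)) hn
  have hnB : nB ≤ n := le_trans (le_trans (le_max_right _ _) (le_max_left _ _)) hn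
  have hnD : nD ≤ n := le_trans (le_trans (le_max_left _ _) (le_max_right _ _)) hn
  have hn1 : 1 ≤ n := le_trans (le_trans (le_max_right _ _) (le_max_right _ _)) hn
  have hn0 : (0 : ℝ) < n := by exact_mod_cast hn1
  have hwA : wA ≤ max (max wA wB) w' := le_trans (le_max_left _ _) (le_max_left _ _)
  have hwB : wB ≤ max (max wA wB) w' := le_trans (le_max_right _ _) (le_max_left _ _)
  have hw' : w' ≤ max (max wA wB) w' := le_max_right _ _
  have hcfg1 : Cfg n δ η₀ (1 + ε) x H m W :=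
    ⟨hcfg.hm, hcfg.hH, le_trans (by nlinarith) hcfg.tot, hcfg.tot8⟩
  obtain ⟨ξ, c₁, k, hc₁, hξH, hkw, hk1, hk0, hξk, -, ⟨g, hg, hg0, hgw⟩, hlev⟩ :=
    hB n hnB G hG hcard x H m W hcfg1 hsol
  -- two characters
  have hno : ¬ Ind n (max (max wA wB) w') δ 1 (DW x H W ⊓ ξ.ker) := fun h =>
    hDW ⟨ξ, g, hg, hg0, hgw.trans hwB, h⟩
  -- the level sets
  have hlevel : ∀ j : ℤ, 2 * ∑ c ∈ W with k c = j, (m c : ℝ) < ∑ c ∈ W, (m c : ℝ) := by
    intro j
    by_contra hj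
    rw [not_lt] at hj
    apply hsol
    have hsub : (W.filter fun c => k c = j) ⊆ W := filter_subset _ _
    refine Sol.mono hsub (hA n hnA G hG hcard x H m _ ⟨fun c hc => hcfg.hm c (hsub hc),
      fun c hc => hcfg.hH c (hsub hc), ?_, ?_⟩ ?_)
    · have := hcfg.tot
      nlinarith
    · refine le_trans (sum_le_sum_of_subset_of_nonneg hsub fun c _ _ => ?_) hcfg.tot8
      positivity
    · exact fun h => hno (Ind.mono hwA le_rfl (hlev j) h)
  obtain ⟨c₀, hc₀, β, hβ0, hβ, hβ1, hβk⟩ :=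
    hC n hn1 m k W hcfg.hm (fun c _ => hkw c) hcfg.tot hcfg.tot8 hlevel
  -- the second character
  have hbox : ∀ c, ((k c, 0) : ℤ × ℤ) ∈ box wB := fun c => by
    have := hkw c
    rw [abs_le] at this
    unfold R3X.box
    rw [mem_product, mem_Icc, mem_Icc]
    simp only
    omega
  have ha0 : ∀ c, c ∉ W → (Pi.single c₀ 1 : Fin N → ℤ) c = 0 := fun c hc => by
    have : c ≠ c₀ := by rintro rfl; exact hc hc₀
    simp [this]
  have ha1 : ∑ c, (Pi.single c₀ 1 : Fin N → ℤ) c = 1 := by simp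
  have ha2 : ∑ c, (Pi.single c₀ 1 : Fin N → ℤ) c * k c = k c₀ := by simp [Pi.single_apply]
  have ha3 : ∑ c, (Pi.single c₀ 1 : Fin N → ℤ) c * (0 : ℤ) = 0 := by simp
  rcases hD n hnD G hG hcard x H m W (fun c => (k c, 0)) hbox (Pi.single c₀ 1) (k c₀, 0) β
    ha0 ha1 ha2 ha3 hβ0 hβ hβ1 hβk (by simp) with h | ⟨ξ₂, h2H, h2w, z, hz, hzw, hz0⟩
  · exact hsol h
  · -- contradiction
    obtain ⟨hzW, hz1, hzk, -⟩ := mem_VW.1 hz
    have hxs := xs_eq (x := x) hzW hz1 c₁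
    have hmem : xs x z ∈ DW x H W ⊓ ξ.ker := by
      rw [hxs]
      refine AddSubgroup.mem_inf.2 ⟨AddSubgroup.sum_mem _ fun c hc =>
        AddSubgroup.zsmul_mem _ (sub_mem_DW hc hc₁) _, ?_⟩
      rw [AddMonoidHom.mem_ker, map_sum]
      have e : ∀ c ∈ W, ξ (z c • (x c - x c₁)) = ((z c * k c : ℤ) : ZMod n) := by
        intro c hc
        rw [map_zsmul, hξk c hc, zsmul_eq_mul]
        push_cast
        ring
      rw [sum_congr rfl e, ← Int.cast_sum]
      have e2 : ∑ c ∈ W, z c * k c = 0 := by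
        rw [← hzk]
        exact sum_subset (subset_univ W) fun c _ hc => by rw [hzW c hc, zero_mul]
      rw [e2, Int.cast_zero]
    have hle : HW H W ≤ DW x H W ⊓ ξ.ker ⊓ ξ₂.ker := by
      refine le_inf (le_inf le_sup_right fun g hg => ?_) fun g hg => ?_
      · exact AddMonoidHom.mem_ker.2 (hξH g hg)
      · exact AddMonoidHom.mem_ker.2 (h2H g hg)
    have hH1 : δ * n ≤ Nat.card (H c₁) := hcfg.hH c₁ hc₁
    have hH2 : (Nat.card (H c₁) : ℝ) ≤ Nat.card (DW x H W ⊓ ξ.ker ⊓ ξ₂.ker : AddSubgroup G) :=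
      card_le (le_trans (le_iSup₂_of_le c₁ hc₁ le_rfl) hle)
    exact hno ⟨ξ₂, xs x z, hmem, hz0, (h2w z hz hzw).trans hw', hH1.trans hH2⟩

end Pool.Agent.Lib.MPa7239a.RN
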