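import Pool.Agent.Lib.MP_a7239a_co.RN.Defs
import Pool.Agent.Lib.MP_a7239a_co.R3X.PLAN
import Pool.Agent.Lib.MP_a7239a_co.R3X.QUAD

/-!
# RN, module LLTWO: the planar lemma for total mass above four
-/

set_option autoImplicit false

open Finset Filter Topology

namespace Pool.Agent.Lib.MPa7239a.R3X

namespace LLTWOM

open PLZM

/-- one of the two outward distances is nonnegative -/
theorem out_cover (x : ℤ) : ∃ a : Fin 2, 0 ≤ out a x := by
  by_cases h : x ≤ 0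
  · exact ⟨0, by simp [out]; omega⟩
  · exact ⟨1, by simp [out]; omega⟩

/-- the exact version: no free measure has mass above four -/
theorem four_zero {K : ℕ} {μ : ℤ × ℤ → ℝ} (h01 : ∀ v, 0 ≤ μ v ∧ μ v ≤ 1)
    (hsupp : ∀ v, v ∉ box K → μ v = 0) (htot : 4 < ∑ v ∈ box K, μ v)
    (hlin : ∀ u ∈ box (2 * K), u ≠ 0 → ∀ c : ℤ, ∑ v ∈ box K with lf u v = c, μ v ≤ 2)
    (hfree : ∀ θ : ℝ, 0 < θ → Free μ θ) : False := by
  classical
  set V : Finset (ℤ × ℤ) := {v ∈ box K | 0 < μ v} with hVdef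
  have hVbox : V ⊆ box K := filter_subset _ _
  have hmemV : ∀ v, v ∈ V ↔ 0 < μ v := by
    intro v
    rw [hVdef, mem_filter]
    refine ⟨fun h => h.2, fun h => ⟨?_, h⟩⟩
    by_contra hn
    rw [hsupp v hn] at h
    exact lt_irrefl _ h
  have hVsum : ∑ v ∈ V, μ v = ∑ v ∈ box K, μ v := by
    refine Finset.sum_subset hVbox ?_
    intro v _ hv
    rw [hmemV] at hv
    exact le_antisymm (not_lt.1 hv) (h01 v).1
  have hVtot : 4 < ∑ v ∈ V, μ v := by rwa [hVsum]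
  obtain ⟨v₀, hv₀⟩ : V.Nonempty := by
    rw [Finset.nonempty_iff_ne_empty]
    intro h
    rw [h, Finset.sum_empty] at hVtot
    norm_num at hVtot
  have hV : ∀ u : ℤ × ℤ, u ≠ 0 → ∃ v ∈ V, lf u v ≠ lf u v₀ := by
    intro u hu
    by_contra hn
    push Not at hn
    have h1 := line_all h01 hlin hu (lf u v₀) hVbox
    rw [Finset.filter_true_of_mem hn] at h1
    linarith
  obtain ⟨f₁, f₂, hD, V', hVV', hgen⟩ := lat_change hv₀ hV
  have hVV : V = V'.image (ph v₀ f₁ f₂) := hVV'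
  have hinj := ph_inj (v₀ := v₀) hD
  have hmem : ∀ x, x ∈ V' ↔ ph v₀ f₁ f₂ x ∈ V := by
    intro x
    rw [hVV]
    exact (Function.Injective.mem_finset_image hinj).symm
  have hsum : ∀ (P : ℤ × ℤ → Prop) (P' : ℤ × ℤ → Prop) [DecidablePred P] [DecidablePred P'],
      (∀ x, P' x ↔ P (ph v₀ f₁ f₂ x)) →
      ∑ x ∈ V' with P' x, μ (ph v₀ f₁ f₂ x) = ∑ v ∈ V with P v, μ v := by
    intro P P' _ _ hP
    rw [hVV, Finset.filter_image, Finset.sum_image fun x _ y _ h => hinj h]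
    refine Finset.sum_congr ?_ fun _ _ => rfl
    ext x
    simp only [mem_filter, hP]
  have htV' : ∑ x ∈ V', μ (ph v₀ f₁ f₂ x) = ∑ v ∈ V, μ v := by
    rw [hVV, Finset.sum_image fun x _ y _ h => hinj h]
  have hpgi : PGI (fun x => μ (ph v₀ f₁ f₂ x)) V' := by
    refine pgin ?_ ?_ ?_ ?_ ?_ ?_ hgen
    · intro x hx
      exact (hmemV _).1 ((hmem x).1 hx)
    · intro x
      exact (h01 _).2
    · intro x hx
      rw [hmem, hmemV] at hx
      exact le_antisymm (not_lt.1 hx) (h01 _).1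
    · rw [htV']
      have : (4 : ℝ) - 1 / 10 ^ 6 ≤ 4 := by norm_num
      exact this.trans hVtot.le
    · intro u hu c
      rw [hsum (fun v => lf (tr f₁ f₂ u) v = lf (tr f₁ f₂ u) v₀ +
        (f₁.1 * f₂.2 - f₁.2 * f₂.1) * c) (fun x => lf u x = c)]
      · exact line_all h01 hlin (tr_ne hD hu) _ hVbox
      · intro x
        rw [lf_tr]
        constructor
        · intro h
          rw [h]
        · intro h
          have h2 := add_left_cancel h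
          exact mul_left_cancel₀ hD h2
    · intro θ hθ S w hS hA
      exact hfree θ hθ _ _ (inLat_ph hD hS) (avg_ph hD hA)
  obtain ⟨X, Y, r, u, v, P, Q, F', F, -, -, -, -, hq⟩ := quad hpgi
  have hcov : ∀ x, ∃ ab : Fin 2 × Fin 2, 0 ≤ out ab.1 (X x) ∧ 0 ≤ out ab.2 (Y x) := by
    intro x
    obtain ⟨a, ha⟩ := out_cover (X x)
    obtain ⟨b, hb⟩ := out_cover (Y x)
    exact ⟨(a, b), ha, hb⟩
  have h4 : ∑ x ∈ V', μ (ph v₀ f₁ f₂ x) ≤ ∑ ab : Fin 2 × Fin 2, ∑ x ∈ V' with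
      0 ≤ out ab.1 (X x) ∧ 0 ≤ out ab.2 (Y x), μ (ph v₀ f₁ f₂ x) := by
    have e : ∀ ab : Fin 2 × Fin 2, (∑ x ∈ V' with
        0 ≤ out ab.1 (X x) ∧ 0 ≤ out ab.2 (Y x), μ (ph v₀ f₁ f₂ x)) =
        ∑ x ∈ V', if 0 ≤ out ab.1 (X x) ∧ 0 ≤ out ab.2 (Y x) then μ (ph v₀ f₁ f₂ x) else 0 :=
      fun ab => Finset.sum_filter _ _
    simp only [e]
    rw [Finset.sum_comm]
    refine Finset.sum_le_sum fun x _ => ?_
    obtain ⟨ab, hab⟩ := hcov x
    refine le_trans (le_of_eq ?_) (Finset.single_le_sum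
      (f := fun ab : Fin 2 × Fin 2 => if 0 ≤ out ab.1 (X x) ∧ 0 ≤ out ab.2 (Y x) then
        μ (ph v₀ f₁ f₂ x) else 0) (fun cd _ => ?_) (Finset.mem_univ ab))
    · simp only [hab, and_self, if_true]
    · split_ifs
      · exact (h01 _).1
      · exact le_rfl
  have h5 : ∑ ab : Fin 2 × Fin 2, ∑ x ∈ V' with
      0 ≤ out ab.1 (X x) ∧ 0 ≤ out ab.2 (Y x), μ (ph v₀ f₁ f₂ x) ≤
      ∑ _ab : Fin 2 × Fin 2, (1 : ℝ) := Finset.sum_le_sum fun ab _ => hq ab.1 ab.2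
  have h6 : ∑ _ab : Fin 2 × Fin 2, (1 : ℝ) = 4 := by
    simp
  rw [htV'] at h4
  linarith

end LLTWOM

end Pool.Agent.Lib.MPa7239a.R3X

namespace Pool.Agent.Lib.MPa7239a.RN

open Pool.Agent.Lib.MPa7239a.GC (Hit)
open Pool.Agent.Lib.MPa7239a.R3X (box lf Avg InLat Free)

theorem planar_four (K : ℕ) {ε : ℝ} (hε : 0 < ε) : ∃ θ : ℝ, 0 < θ ∧ ∀ μ : ℤ × ℤ → ℝ,
    (∀ v, 0 ≤ μ v ∧ μ v ≤ 1) → (∀ v, v ∉ box K → μ v = 0) → 4 + ε ≤ ∑ v ∈ box K, μ v →
    (∀ u ∈ box (2 * K), u ≠ 0 → ∀ c : ℤ, ∑ v ∈ box K with lf u v = c, μ v ≤ 2) →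
    ¬ Free μ θ := by
  by_contra hcon
  push Not at hcon
  have hθ : ∀ n : ℕ, (0 : ℝ) < 1 / ((n : ℝ) + 1) := fun n => by positivity
  choose m h01 hsupp htot hlin hfree using fun n : ℕ => hcon (1 / ((n : ℝ) + 1)) (hθ n)
  obtain ⟨μ, φ, hφ, hμ⟩ := R3X.PLANM.subseq m h01
  have hθ0 : Tendsto (fun n : ℕ => 1 / (((φ n : ℕ) : ℝ) + 1)) atTop (𝓝 0) :=
    tendsto_one_div_add_atTop_nhds_zero_nat.comp hφ.tendsto_atTop
  have htot' : 4 + ε ≤ ∑ v ∈ box K, μ v :=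
    ge_of_tendsto' (R3X.PLANM.sum_lim hμ _) fun n => htot _
  exact R3X.LLTWOM.four_zero (K := K) (μ := μ)
    (fun v => ⟨ge_of_tendsto' (hμ v) fun n => (h01 _ v).1,
      le_of_tendsto' (hμ v) fun n => (h01 _ v).2⟩)
    (fun v hv => tendsto_nhds_unique (hμ v) (by
      simp only [hsupp _ v hv]
      exact tendsto_const_nhds))
    (by linarith)
    (fun u hu hu0 c => le_of_tendsto' (R3X.PLANM.sum_lim hμ _) fun n => hlin _ u hu hu0 c)
    (R3X.PLANM.free_lim hμ hθ0 fun n => hfree _)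

end Pool.Agent.Lib.MPa7239a.RN
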