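import Pool.Agent.Lib.MP_a7239a_co.RN.CHARTWO
import Pool.Agent.Lib.MP_a7239a_co.RN.LEVZ
import Pool.Agent.Lib.MP_a7239a_co.RN.LEVONE
import Pool.Agent.Lib.MP_a7239a_co.RN.GSTEP
import Pool.Agent.Lib.MP_a7239a_co.RN.LLTWO

/-! # RN, module LEVTWO: level 2 -/

set_option autoImplicit false

universe u

open Finset
open scoped Pointwise

namespace Pool.Agent.Lib.MPa7239a.RN

open Pool.Agent.Lib.MPa7239a.GC (Hit)
open Pool.Agent.Lib.MPa7239a.R3X (box lf Avg InLat Free)

namespace LEVTWOM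

theorem fiber_sum {N : ℕ} (W : Finset (Fin N)) (p : Fin N → ℤ × ℤ) (T : Finset (ℤ × ℤ))
    (F : ℤ × ℤ → Fin N → ℝ) :
    ∑ v ∈ T, ∑ c ∈ W with p c = v, F v c = ∑ c ∈ W with p c ∈ T, F (p c) c := by
  rw [Finset.sum_comm' (t' := W.filter fun c => p c ∈ T) (s' := fun c => {p c})]
  · simp
  · intro v c
    simp only [mem_filter, mem_singleton]
    constructor
    · rintro ⟨h1, h2, h3⟩
      exact ⟨h3.symm, h2, h3 ▸ h1⟩
    · rintro ⟨h1, h2, h3⟩
      exact ⟨h1 ▸ h3, h2, h1.symm⟩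

variable {G : Type*} [AddCommGroup G] {N : ℕ}

theorem HW_le_DW (x : Fin N → G) (H : Fin N → AddSubgroup G) (W : Finset (Fin N)) :
    HW H W ≤ DW x H W := le_sup_right

theorem sub_mem_DW (x : Fin N → G) (H : Fin N → AddSubgroup G) {W : Finset (Fin N)}
    {c c' : Fin N} (hc : c ∈ W) (hc' : c' ∈ W) : x c - x c' ∈ DW x H W :=
  (le_sup_left : AddSubgroup.closure _ ≤ DW x H W)
    (AddSubgroup.subset_closure ⟨c, hc, c', hc', rfl⟩)

theorem DW_le {x : Fin N → G} {H : Fin N → AddSubgroup G} {F : Finset (Fin N)}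
    {M : AddSubgroup G} (h1 : ∀ c ∈ F, ∀ c' ∈ F, x c - x c' ∈ M) (h2 : HW H F ≤ M) :
    DW x H F ≤ M := by
  refine sup_le ?_ h2
  rw [AddSubgroup.closure_le]
  rintro y ⟨c, hc, c', hc', rfl⟩
  exact h1 c hc c' hc'

theorem DW_mono {x : Fin N → G} {H : Fin N → AddSubgroup G} {F W : Finset (Fin N)}
    (h : F ⊆ W) : DW x H F ≤ DW x H W :=
  DW_le (fun _ hc _ hc' => sub_mem_DW x H (h hc) (h hc'))
    ((HW_mono h).trans (HW_le_DW x H W))

theorem xs_eq (x : Fin N → G) (z : Fin N → ℤ) (hz : ∑ c, z c = 0) (y : G) :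
    xs x z = ∑ c, z c • (x c - y) := by
  simp only [smul_sub, sum_sub_distrib, ← sum_smul, hz, zero_smul, sub_zero]
  rfl

theorem card_le {M L : AddSubgroup G} [Finite G] (h : M ≤ L) : Nat.card M ≤ Nat.card L :=
  Nat.card_le_card_of_injective _ (AddSubgroup.inclusion_injective h)

theorem vma {n : ℕ} (hn : 1 ≤ n) {y : ZMod n} {A : ℤ} (hy : y = (A : ZMod n))
    (hA : 2 * |A| < n) : y.valMinAbs = A := by
  have : NeZero n := ⟨by omega⟩
  rw [ZMod.valMinAbs_spec]
  have h := abs_lt.1 (show |2 * A| < n by rw [abs_mul]; simpa using hA)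
  exact ⟨hy, by constructor <;> linarith [h.1, h.2]⟩

end LEVTWOM

open LEVTWOM

theorem lev_two (N r : ℕ) (hr : 1 ≤ r) (δ η₀ ε : ℝ) (hδ : 0 < δ) (hη : 0 < η₀) (hε : 0 < ε)
    (hε1 : ε ≤ 1) :
    ∃ w n₀ : ℕ, ∀ n : ℕ, n₀ ≤ n → ∀ (G : Type u) [AddCommGroup G] [Finite G],
    (∀ g : G, n • g = 0) → Nat.card G ≤ n ^ r → ∀ (x : Fin N → G) (H : Fin N → AddSubgroup G)
      (m : Fin N → ℕ) (W : Finset (Fin N)), Cfg n δ η₀ (4 * (1 + 2 * ε)) x H m W →
    ¬ Ind n w δ 3 (DW x H W) → Sol n x H m W := by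
  obtain ⟨w, n₂, h2⟩ := char_two.{u} N r hr δ η₀ ε hδ hη hε
  obtain ⟨wz, n₄, h0⟩ := lev_zero.{u} N r hr δ η₀ ε hδ hη hε
  obtain ⟨wo, n₅, h1⟩ := lev_one.{u} N r hr δ η₀ ε hδ hη hε
  have hε2 : 0 < 4 * ε / (1 + ε) := by positivity
  obtain ⟨θ₀, hθ₀, hpl⟩ := planar_four w hε2
  have hθm : 0 < θ₀ * η₀ / 2 := by positivity
  obtain ⟨w₀, hg⟩ := gstep.{u} N w r hr (θ₀ * η₀ / 2) hθm
  obtain ⟨w₃, n₃, h3⟩ := hg w₀ le_rfl
  refine ⟨w + wz + wo + w₃ + 2 * w ^ 2,
    max (max n₂ n₄) (max (max n₅ n₃) (4 * w ^ 2 + 1)), ?_⟩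
  intro n hn G _ _ hG hcard x H m W hcfg hInd
  by_contra hns
  have hn2 : n₂ ≤ n := le_trans (le_trans (le_max_left _ _) (le_max_left _ _)) hn
  have hn4 : n₄ ≤ n := le_trans (le_trans (le_max_right _ _) (le_max_left _ _)) hn
  have hn5 : n₅ ≤ n :=
    le_trans (le_trans (le_trans (le_max_left _ _) (le_max_left _ _)) (le_max_right _ _)) hn
  have hn3 : n₃ ≤ n :=
    le_trans (le_trans (le_trans (le_max_right _ _) (le_max_left _ _)) (le_max_right _ _)) hn
  have hnw : 4 * w ^ 2 + 1 ≤ n := le_trans (le_trans (le_max_right _ _) (le_max_right _ _)) hn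
  have hn1 : 1 ≤ n := by omega
  have hnR : (0 : ℝ) < n := by exact_mod_cast hn1
  obtain ⟨wf, hwf⟩ : ∃ wf, wf = w + wz + wo + w₃ + 2 * w ^ 2 := ⟨_, rfl⟩
  rw [← hwf] at hInd
  have hwf1 : w ≤ wf := by omega
  have hwf2 : wz ≤ wf := by omega
  have hwf3 : wo ≤ wf := by omega
  have hwf4 : w₃ ≤ wf := by omega
  have hwf5 : 2 * w ^ 2 ≤ wf := by omega
  -- the two characters
  obtain ⟨ξ, η, c₁, p, g, g', hc₁, hHW, hp, hpc, hgD, hgD', hξg, hξgw, hηgw, hξg', hηg', hηgw'⟩ :=
    h2 n hn2 G hG hcard x H m W ⟨hcfg.hm, hcfg.hH, (by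
      refine le_trans ?_ hcfg.tot
      have : 4 * (1 + ε) ≤ 4 * (1 + 2 * ε) := by linarith
      exact mul_le_mul_of_nonneg_right this hnR.le), hcfg.tot8⟩
      (fun h => hInd (Ind.mono hwf1 le_rfl le_rfl h)) hns
  -- the common kernel
  obtain ⟨N₀, hN₀⟩ : ∃ N₀ : AddSubgroup G, N₀ = DW x H W ⊓ ξ.ker ⊓ η.ker := ⟨_, rfl⟩
  have hI1 : ¬ Ind n wf δ 1 N₀ := fun h => hInd
    ⟨ξ, g, hgD, hξg, hξgw.trans hwf1, η, g', ⟨hgD', hξg'⟩, hηg', hηgw'.trans hwf1, hN₀ ▸ h⟩
  have hpd : ∀ c ∈ W, ∀ c' ∈ W, ξ (x c - x c') = (((p c).1 - (p c').1 : ℤ) : ZMod n) ∧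
      η (x c - x c') = (((p c).2 - (p c').2 : ℤ) : ZMod n) := by
    intro c hc c' hc'
    have e : x c - x c' = (x c - x c₁) - (x c' - x c₁) := by abel
    rw [e, map_sub ξ (x c - x c₁), map_sub η (x c - x c₁), (hpc c hc).1, (hpc c' hc').1, (hpc c hc).2,
      (hpc c' hc').2]
    push_cast
    exact ⟨rfl, rfl⟩
  -- masses
  obtain ⟨ms, hms⟩ : ∃ ms : ℤ × ℤ → ℝ, ms = fun v => ∑ c ∈ W with p c = v, (m c : ℝ) := ⟨_, rfl⟩
  have hms0 : ∀ v, 0 ≤ ms v := fun v => by rw [hms]; exact sum_nonneg fun c _ => Nat.cast_nonneg _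
  have hatom : ∀ v, ms v ≤ (1 + ε) * n := by
    intro v
    by_contra hv
    push Not at hv
    have hF : (W.filter fun c => p c = v) ⊆ W := filter_subset _ _
    refine hns (Sol.mono hF (h0 n hn4 G hG hcard x H m _ ⟨fun c hc => hcfg.hm c (hF hc),
      fun c hc => hcfg.hH c (hF hc), ?_, ?_⟩ ?_))
    · rw [hms] at hv
      exact hv.le
    · exact (sum_le_sum_of_subset_of_nonneg hF fun c _ _ => Nat.cast_nonneg _).trans hcfg.tot8
    · intro hI
      have hle : DW x H (W.filter fun c => p c = v) ≤ N₀ := by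
        rw [hN₀]
        refine DW_le (fun c hc c' hc' => ?_) (fun y hy => ?_)
        · rw [mem_filter] at hc hc'
          have h := hpd c hc.1 c' hc'.1
          rw [hc.2, hc'.2, sub_self, sub_self, Int.cast_zero] at h
          exact ⟨⟨sub_mem_DW x H hc.1 hc'.1, h.1⟩, h.2⟩
        · have hy' : y ∈ HW H W := HW_mono hF hy
          exact ⟨⟨HW_le_DW x H W hy', (hHW y hy').1⟩, (hHW y hy').2⟩
      exact hI1 (Ind.mono hwf2 le_rfl hle hI)
  have hline : ∀ u ∈ box (2 * w), u ≠ 0 → ∀ c' : ℤ,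
      ∑ c ∈ W with lf u (p c) = c', (m c : ℝ) ≤ 2 * (1 + ε) * n := by
    intro u hu hu0 c'
    by_contra hv
    push Not at hv
    have hF : (W.filter fun c => lf u (p c) = c') ⊆ W := filter_subset _ _
    refine hns (Sol.mono hF (h1 n hn5 G hG hcard x H m _ ⟨fun c hc => hcfg.hm c (hF hc),
      fun c hc => hcfg.hH c (hF hc), hv.le, ?_⟩ ?_))
    · exact (sum_le_sum_of_subset_of_nonneg hF fun c _ _ => Nat.cast_nonneg _).trans hcfg.tot8
    · -- the character `u.1 ξ + u.2 η`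
      intro hI
      obtain ⟨χ, hχ⟩ : ∃ χ : G →+ ZMod n, χ = u.1 • ξ + u.2 • η := ⟨_, rfl⟩
      have hχv : ∀ y, χ y = (u.1 : ZMod n) * ξ y + (u.2 : ZMod n) * η y := fun y => by
        rw [hχ]
        simp [zsmul_eq_mul]
      have hu' : |u.1| ≤ 2 * w ∧ |u.2| ≤ 2 * w := by
        rw [R3X.box, mem_product, mem_Icc, mem_Icc] at hu
        push_cast at hu
        exact ⟨abs_le.2 hu.1, abs_le.2 hu.2⟩
      have : NeZero n := ⟨by omega⟩
      have hnwZ : 4 * (w : ℤ) ^ 2 + 1 ≤ n := by exact_mod_cast hnw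
      -- small nonzero value
      have hex : ∃ y ∈ DW x H W, χ y ≠ 0 ∧ (χ y).valMinAbs.natAbs ≤ 2 * w ^ 2 := by
        have key : ∀ (y : G) (t B : ℤ), |t| ≤ 2 * w → t ≠ 0 → B ≠ 0 → |B| ≤ w →
            χ y = ((t * B : ℤ) : ZMod n) → χ y ≠ 0 ∧ (χ y).valMinAbs.natAbs ≤ 2 * w ^ 2 := by
          intro y t B ht ht0 hB0 hB hy
          have hA : |t * B| ≤ 2 * (w : ℤ) ^ 2 := by
            rw [abs_mul]
            calc |t| * |B| ≤ (2 * w) * w := mul_le_mul ht hB (abs_nonneg _) (by positivity)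
              _ = 2 * (w : ℤ) ^ 2 := by ring
          have hv := vma hn1 hy (by linarith)
          constructor
          · intro h0
            rw [h0, ZMod.valMinAbs_zero] at hv
            exact mul_ne_zero ht0 hB0 hv.symm
          · rw [hv]
            have : ((t * B).natAbs : ℤ) ≤ ((2 * w ^ 2 : ℕ) : ℤ) := by
              rw [Int.natCast_natAbs]
              push_cast
              exact hA
            exact_mod_cast this
        have hcast : ∀ z : ZMod n, ((z.valMinAbs : ℤ) : ZMod n) = z := fun z =>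
          ZMod.coe_valMinAbs z
        have habs : ∀ z : ZMod n, z.valMinAbs.natAbs ≤ w → |z.valMinAbs| ≤ w := fun z hz => by
          rw [← Int.natCast_natAbs]
          exact_mod_cast hz
        have hne : ∀ z : ZMod n, z ≠ 0 → z.valMinAbs ≠ 0 := fun z hz h => by
          apply hz
          rw [← hcast z, h, Int.cast_zero]
        by_cases h : u.2 = 0
        · have hu1 : u.1 ≠ 0 := fun h' => hu0 (Prod.ext h' h)
          refine ⟨g, hgD, key g u.1 _ hu'.1 hu1 (hne _ hξg) (habs _ hξgw) ?_⟩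
          rw [hχv, h, Int.cast_mul, hcast, Int.cast_zero, zero_mul, add_zero]
        · refine ⟨g', hgD', key g' u.2 _ hu'.2 h (hne _ hηg') (habs _ hηgw') ?_⟩
          rw [hχv, hξg', Int.cast_mul, hcast, mul_zero, zero_add]
      obtain ⟨y, hyD, hy0, hyw⟩ := hex
      have hle : DW x H (W.filter fun c => lf u (p c) = c') ≤ DW x H W ⊓ χ.ker := by
        refine DW_le (fun c hc d hd => ?_) (fun y hy => ?_)
        · rw [mem_filter] at hc hd
          refine ⟨sub_mem_DW x H hc.1 hd.1, ?_⟩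
          have h := hpd c hc.1 d hd.1
          change χ (x c - x d) = 0
          rw [hχv, h.1, h.2]
          have e : u.1 * ((p c).1 - (p d).1) + u.2 * ((p c).2 - (p d).2) = 0 := by
            have e1 := hc.2
            have e2 := hd.2
            unfold lf at e1 e2
            linear_combination e1 - e2
          have e' := congrArg (fun t : ℤ => (t : ZMod n)) e
          push_cast at e' ⊢
          exact e'
        · have hy' : y ∈ HW H W := HW_mono hF hy
          refine ⟨HW_le_DW x H W hy', ?_⟩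
          change χ y = 0
          rw [hχv, (hHW y hy').1, (hHW y hy').2]
          ring
      exact hInd ⟨χ, y, hyD, hy0, hyw.trans hwf5, Ind.mono hwf3 le_rfl hle hI⟩
  -- the planar measure
  have hen : (0 : ℝ) < (1 + ε) * n := by positivity
  have hpm : ∀ (T : Finset (ℤ × ℤ)), ∑ v ∈ T, ms v / ((1 + ε) * n) =
      (∑ c ∈ W with p c ∈ T, (m c : ℝ)) / ((1 + ε) * n) := by
    intro T
    rw [← sum_div, hms]
    congr 1
    exact fiber_sum W p T fun _ c => (m c : ℝ)
  have hnf := hpl (fun v => ms v / ((1 + ε) * n))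
    (fun v => ⟨div_nonneg (hms0 v) hen.le, (div_le_one hen).2 (hatom v)⟩)
    (fun v hv => by
      have : ms v = 0 := by
        rw [hms]
        refine sum_eq_zero fun c hc => ?_
        rw [mem_filter] at hc
        exact absurd (hc.2 ▸ hp c) hv
      show ms v / ((1 + ε) * n) = 0
      rw [this, zero_div])
    (by
      rw [hpm]
      have e : (W.filter fun c => p c ∈ R3X.box w) = W := filter_true_of_mem fun c _ => hp c
      rw [e, le_div_iff₀ hen]
      refine le_trans (le_of_eq ?_) hcfg.tot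
      field_simp
      ring)
    (fun u hu hu0 c' => by
      rw [hpm, div_le_iff₀ hen]
      have e : (W.filter fun c => p c ∈ (R3X.box w).filter fun v => lf u v = c') =
          W.filter fun c => lf u (p c) = c' := by
        ext c
        rw [mem_filter, mem_filter, mem_filter]
        exact ⟨fun h => ⟨h.1, h.2.2⟩, fun h => ⟨h.1, hp c, h.2⟩⟩
      rw [e]
      refine (hline u hu hu0 c').trans (le_of_eq ?_)
      ring)
  unfold Free at hnf
  push Not at hnf
  obtain ⟨S', w', ⟨j, hj1, hj2, hj3⟩, ⟨k, hk, hks1, hks2, hks3⟩⟩ := hnf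
  have hmpos : ∀ v ∈ S', 0 < ms v := fun v hv => by
    have h := hk v hv
    have h' : 0 < ms v / ((1 + ε) * n) := by linarith
    by_contra h''
    have : ms v = 0 := le_antisymm (not_lt.1 h'') (hms0 v)
    rw [this, zero_div] at h'
    exact lt_irrefl _ h'
  have hcc : ∀ v ∈ S', ∃ c ∈ W, p c = v := fun v hv => by
    by_contra h
    push Not at h
    have h' := hmpos v hv
    rw [hms] at h'
    have : ∑ c ∈ W with p c = v, (m c : ℝ) = 0 := by
      rw [filter_false_of_mem h, sum_empty]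
    exact h'.ne' this
  have hNe : Nonempty (Fin N) := ⟨c₁⟩
  choose! cc hccW hccp using hcc
  -- the cells
  obtain ⟨S, hS⟩ : ∃ S : Finset (Fin N), S = W.filter fun c => p c ∈ S' := ⟨_, rfl⟩
  have hSW : S ⊆ W := by rw [hS]; exact filter_subset _ _
  have hmemS : ∀ c, c ∈ S ↔ c ∈ W ∧ p c ∈ S' := fun c => by rw [hS, mem_filter]
  have hasum : ∀ q : Fin N → ℤ, ∑ c, (∑ v ∈ S', if cc v = c then j v else 0) * q c =
      ∑ v ∈ S', j v * q (cc v) := fun q => by
    simp only [sum_mul, ite_mul, zero_mul]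
    rw [sum_comm]
    refine sum_congr rfl fun v _ => ?_
    rw [sum_ite_eq univ (cc v)]
    simp
  have hbsum : ∀ Q : ℤ × ℤ → ℝ,
      ∑ c, (if c ∈ S then k (p c) * m c / ms (p c) else 0) * Q (p c) = ∑ v ∈ S', k v * Q v := by
    intro Q
    simp only [ite_mul, zero_mul]
    rw [← sum_filter, filter_mem_eq_inter, univ_inter, hS,
      ← fiber_sum W p S' fun v c => k v * m c / ms v * Q v]
    refine sum_congr rfl fun v hv => ?_
    have e : ∑ c ∈ W with p c = v, k v * m c / ms v * Q v =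
        (∑ c ∈ W with p c = v, (m c : ℝ)) * (k v / ms v * Q v) := by
      rw [sum_mul]
      exact sum_congr rfl fun c _ => by ring
    have e' : ∑ c ∈ W with p c = v, (m c : ℝ) = ms v := by rw [hms]
    rw [e, e']
    have := (hmpos v hv).ne'
    field_simp
  rcases h3 n hn3 G hG hcard x H m S p hp (fun c => ∑ v ∈ S', if cc v = c then j v else 0) w'
    (fun c => if c ∈ S then k (p c) * m c / ms (p c) else 0)
    (fun c hc => sum_eq_zero fun v hv => if_neg fun h => hc (by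
      rw [hmemS, ← h]
      exact ⟨hccW v hv, by rw [hccp v hv]; exact hv⟩))
    (by
      have := hasum fun _ => 1
      simp only [mul_one] at this
      rw [this, hj1])
    (by
      rw [hasum, ← hj2]
      exact sum_congr rfl fun v hv => by rw [hccp v hv])
    (by
      rw [hasum, ← hj3]
      exact sum_congr rfl fun v hv => by rw [hccp v hv])
    (fun c hc => if_neg hc)
    (fun c hc => by
      have hcS := (hmemS c).1 hc
      have hkc := hk _ hcS.2
      have hmc := hcfg.hm c hcS.1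
      have hmp := hmpos _ hcS.2
      have hat := hatom (p c)
      have hat2 : ms (p c) ≤ 2 * n := hat.trans (by nlinarith)
      show θ₀ * η₀ / 2 ≤ (if c ∈ S then k (p c) * m c / ms (p c) else 0) ∧
        ((if c ∈ S then k (p c) * m c / ms (p c) else 0) + θ₀ * η₀ / 2) * n ≤ m c
      rw [if_pos hc]
      have hm0 : (0 : ℝ) ≤ m c := Nat.cast_nonneg _
      have hratio : η₀ / 2 ≤ m c / ms (p c) := by
        rw [div_le_div_iff₀ (by norm_num) hmp]
        nlinarith
      have hkn : k (p c) * n ≤ ms (p c) - θ₀ * n := by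
        have h1 : k (p c) ≤ ms (p c) / ((1 + ε) * n) - θ₀ := by linarith [hkc.2]
        have h2 : ms (p c) / ((1 + ε) * n) * n ≤ ms (p c) := by
          rw [div_mul_eq_mul_div, div_le_iff₀ hen]
          have := hmp.le
          nlinarith [mul_nonneg hmp.le hnR.le]
        nlinarith
      constructor
      · calc θ₀ * η₀ / 2 = θ₀ * (η₀ / 2) := by ring
          _ ≤ k (p c) * (m c / ms (p c)) :=
              mul_le_mul hkc.1 hratio (by positivity) (by linarith [hkc.1])
          _ = k (p c) * m c / ms (p c) := by ring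
      · have h5 : k (p c) * m c / ms (p c) * n ≤ m c - θ₀ * n * (m c / ms (p c)) := by
          calc k (p c) * m c / ms (p c) * n = (k (p c) * n) * (m c / ms (p c)) := by ring
            _ ≤ (ms (p c) - θ₀ * n) * (m c / ms (p c)) :=
                mul_le_mul_of_nonneg_right hkn (div_nonneg hm0 hmp.le)
            _ = m c - θ₀ * n * (m c / ms (p c)) := by
                rw [sub_mul, mul_div_cancel₀ _ hmp.ne']
        have h6 : θ₀ * n * (η₀ / 2) ≤ θ₀ * n * (m c / ms (p c)) :=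
          mul_le_mul_of_nonneg_left hratio (by positivity)
        nlinarith)
    (by
      have := hbsum fun _ => 1
      simp only [mul_one] at this
      rw [this, hks1])
    (by rw [hbsum fun v => (v.1 : ℝ), hks2])
    (by rw [hbsum fun v => (v.2 : ℝ), hks3]) with hsol | ⟨ψ, hψ0, hψw, z, hz, hzw, hψz⟩
  · exact hns (hsol.mono hSW)
  · -- the third character
    have hzV := mem_VW.1 hz
    have hzN : xs x z ∈ N₀ := by
      rw [hN₀]
      have e := xs_eq x z hzV.2.1 (x c₁)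
      have hval : ∀ ζ : G →+ ZMod n, ∀ Q : Fin N → ℤ,
          (∀ c ∈ W, ζ (x c - x c₁) = (Q c : ZMod n)) → ∑ c, z c * Q c = 0 →
          ζ (xs x z) = 0 := by
        intro ζ Q hQ h0
        rw [e, map_sum]
        have e2 : ∀ c, ζ (z c • (x c - x c₁)) = ((z c * Q c : ℤ) : ZMod n) := fun c => by
          by_cases hc : c ∈ W
          · rw [map_zsmul, hQ c hc, zsmul_eq_mul, Int.cast_mul]
          · rw [hzV.1 c fun h => hc (hSW h)]
            simp
        rw [sum_congr rfl fun c _ => e2 c, ← Int.cast_sum, h0, Int.cast_zero]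
      refine ⟨⟨?_, hval ξ (fun c => (p c).1) (fun c hc => (hpc c hc).1) hzV.2.2.1⟩,
        hval η (fun c => (p c).2) (fun c hc => (hpc c hc).2) hzV.2.2.2⟩
      rw [e]
      refine (DW x H W).sum_mem fun c _ => ?_
      by_cases hc : c ∈ W
      · exact (DW x H W).zsmul_mem (sub_mem_DW x H hc hc₁) _
      · rw [hzV.1 c fun h => hc (hSW h), zero_smul]
        exact (DW x H W).zero_mem
    -- a cell
    have hSne : S.Nonempty := by
      have h1 : S'.Nonempty := by
        rw [nonempty_iff_ne_empty]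
        rintro rfl
        simp at hj1
      obtain ⟨v, hv⟩ := h1
      exact ⟨cc v, (hmemS _).2 ⟨hccW v hv, by rw [hccp v hv]; exact hv⟩⟩
    obtain ⟨c, hc⟩ := hSne
    have hle : H c ≤ N₀ ⊓ ψ.ker := by
      intro y hy
      have hyS : y ∈ HW H S := (le_iSup₂_of_le c hc le_rfl : H c ≤ HW H S) hy
      have hyW : y ∈ HW H W := HW_mono hSW hyS
      refine ⟨?_, hψ0 y hyS⟩
      rw [hN₀]
      exact ⟨⟨HW_le_DW x H W hyW, (hHW y hyW).1⟩, (hHW y hyW).2⟩
    refine hI1 ⟨ψ, xs x z, hzN, hψz, (hψw z hz hzw).trans hwf4, ?_⟩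
    have h6 : (Nat.card (H c) : ℝ) ≤ Nat.card (N₀ ⊓ ψ.ker : AddSubgroup G) := by
      exact_mod_cast card_le hle
    exact (hcfg.hH c (hSW hc)).trans h6

end Pool.Agent.Lib.MPa7239a.RN
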