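import Pool.Agent.Lib.MP_a7239a_co.RN.RNDN

/-! # RN/SOLHIT (helper87): `Sol` gives `n` distinct elements of sum zero -/

set_option autoImplicit false

universe u

open Finset
open scoped Pointwise

namespace Pool.Agent.Lib.MPa7239a.RN

open Pool.Agent.Lib.MPa7239a.GC (Hit)

namespace SOLHITAux

variable {G : Type u} [AddCommGroup G] {N : ℕ}

/-- elements of `HW H W` are sums of elements of the `H c` -/
theorem mem_HW (H : Fin N → AddSubgroup G) (W : Finset (Fin N)) {y : G} (hy : y ∈ HW H W) :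
    ∃ h : Fin N → G, (∀ c, h c ∈ H c) ∧ (∀ c, c ∉ W → h c = 0) ∧ ∑ c, h c = y := by
  classical
  let K : AddSubgroup G :=
    { carrier := {y | ∃ h : Fin N → G, (∀ c, h c ∈ H c) ∧ (∀ c, c ∉ W → h c = 0) ∧
        ∑ c, h c = y}
      zero_mem' := ⟨fun _ => 0, fun c => (H c).zero_mem, fun _ _ => rfl, by simp⟩
      add_mem' := by
        rintro a b ⟨h, h1, h2, h3⟩ ⟨k, k1, k2, k3⟩
        exact ⟨fun c => h c + k c, fun c => (H c).add_mem (h1 c) (k1 c),
          fun c hc => by show h c + k c = 0; rw [h2 c hc, k2 c hc, add_zero],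
          by rw [sum_add_distrib, h3, k3]⟩
      neg_mem' := by
        rintro a ⟨h, h1, h2, h3⟩
        exact ⟨fun c => -h c, fun c => (H c).neg_mem (h1 c),
          fun c hc => by show -h c = 0; rw [h2 c hc, neg_zero],
          by rw [sum_neg_distrib, h3]⟩ }
  have hle : HW H W ≤ K := by
    refine iSup₂_le fun c hc z hz => ?_
    refine ⟨fun d => if d = c then z else 0, fun d => ?_, fun d hd => ?_, ?_⟩
    · show (if d = c then z else 0) ∈ H d
      by_cases h : d = c
      · rw [if_pos h, h]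
        exact hz
      · rw [if_neg h]
        exact (H d).zero_mem
    · show (if d = c then z else 0) = 0
      rw [if_neg]
      rintro rfl
      exact hd hc
    · show ∑ d, (if d = c then z else 0) = z
      rw [sum_ite_eq' univ c (fun _ => z)]
      rw [if_pos (mem_univ c)]
  exact hle hy

end SOLHITAux

open SOLHITAux in
/-- **Module SOLHIT.** -/
theorem sol_hit (N : ℕ) (η : ℝ) (hη : 0 < η) : ∃ F₀ : ℕ, ∀ n : ℕ, 1 ≤ n → ∀ (G : Type u)
    [AddCommGroup G], (∀ g : G, n • g = 0) → ∀ (A : Finset G) (B : Fin N → Finset G)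
      (x : Fin N → G) (H : Fin N → AddSubgroup G) (q m : Fin N → ℕ), (∀ c, B c ⊆ A) →
    (∀ c c', c ≠ c' → Disjoint (B c) (B c')) → (∀ c, F₀ * q c ≤ n) →
    (∀ c, FullC (B c) (x c) (H c) (q c)) → (∀ c, m c ≠ 0 → (m c : ℝ) + 2 * η * n ≤ #(B c)) →
    Sol n x H m univ → Hit A n 0 := by
  classical
  obtain ⟨σ, hσ, hr⟩ := rndx.{u} N η hη
  obtain ⟨F₀, hF⟩ := exists_nat_gt (max (1 / σ) (1 / η))
  have hFσ : 1 / σ < F₀ := (le_max_left _ _).trans_lt hF
  have hFη : 1 / η < F₀ := (le_max_right _ _).trans_lt hF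
  refine ⟨F₀, ?_⟩
  intro n hn G _ hG A B x H q m hBA hdis hq hfull hm hsol
  obtain ⟨b, hbm, -, hbn, hbH⟩ := hsol
  set W : Finset (Fin N) := univ.filter fun c => b c ≠ 0 with hW
  have hmemW : ∀ c, c ∈ W ↔ b c ≠ 0 := fun c => by
    rw [hW, mem_filter]
    exact and_iff_right (mem_univ c)
  obtain ⟨b', e1, e2, e3, e4, e5⟩ := hr n hn G hG (HW H W) x b hbn hbH
  have hnR : (0 : ℝ) < n := by exact_mod_cast hn
  have hFpos : (0 : ℝ) < F₀ := lt_trans (by positivity) hFσ
  have hqR : ∀ c, (q c : ℝ) ≤ σ * n ∧ (q c : ℝ) ≤ η * n := by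
    intro c
    have h1 : (F₀ : ℝ) * q c ≤ n := by exact_mod_cast hq c
    have h0 : (0 : ℝ) ≤ q c := Nat.cast_nonneg _
    have h2 : 1 ≤ σ * F₀ := by
      rw [div_lt_iff₀ hσ] at hFσ
      linarith
    have h3 : 1 ≤ η * F₀ := by
      rw [div_lt_iff₀ hη] at hFη
      linarith
    constructor
    · calc (q c : ℝ) = 1 * q c := (one_mul _).symm
        _ ≤ σ * F₀ * q c := mul_le_mul_of_nonneg_right h2 h0
        _ = σ * (F₀ * q c) := by ring
        _ ≤ σ * n := mul_le_mul_of_nonneg_left h1 hσ.le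
    · calc (q c : ℝ) = 1 * q c := (one_mul _).symm
        _ ≤ η * F₀ * q c := mul_le_mul_of_nonneg_right h3 h0
        _ = η * (F₀ * q c) := by ring
        _ ≤ η * n := mul_le_mul_of_nonneg_left h1 hη.le
  obtain ⟨h, h1, h2, h3⟩ := mem_HW H W ((HW H W).neg_mem e2)
  -- the chosen sets
  have hex : ∀ c, ∃ T ⊆ B c, #T = b' c ∧ ∑ a ∈ T, a = b' c • x c + h c := by
    intro c
    by_cases hc : b c = 0
    · refine ⟨∅, empty_subset _, ?_, ?_⟩
      · rw [card_empty, e3 c hc]
      · rw [sum_empty, e3 c hc, zero_smul, zero_add, h2 c fun h' => (hmemW c).1 h' hc]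
    · have g1 : q c ≤ b' c := by
        have := (hqR c).1.trans (e4 c hc)
        exact_mod_cast this
      have g2 : b' c + q c ≤ #(B c) := by
        have hmc : m c ≠ 0 := fun h' => hc (Nat.le_zero.1 (h' ▸ hbm c))
        have k1 := hm c hmc
        have k2 := e5 c
        have k3 := (hqR c).2
        have k4 : (b c : ℝ) ≤ m c := by exact_mod_cast hbm c
        have k5 : ((b' c + q c : ℕ) : ℝ) ≤ ((#(B c) : ℕ) : ℝ) := by
          push_cast
          linarith
        exact_mod_cast k5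
      exact (hfull c).2 (b' c) g1 g2 (b' c • x c + h c) (by rw [add_sub_cancel_left]; exact h1 c)
  choose T hTB hTc hTs using hex
  refine ⟨univ.biUnion T, ?_, ?_, ?_⟩
  · exact biUnion_subset.2 fun c _ => (hTB c).trans (hBA c)
  · rw [card_biUnion]
    · simp only [hTc]
      exact e1
    · intro c _ c' _ hcc
      exact (hdis c c' hcc).mono (hTB c) (hTB c')
  · rw [sum_biUnion]
    · simp only [hTs]
      rw [sum_add_distrib, h3, add_neg_cancel]
    · intro c _ c' _ hcc
      exact (hdis c c' hcc).mono (hTB c) (hTB c')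

end Pool.Agent.Lib.MPa7239a.RN
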