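import Pool.Agent.Lib.MP_a7239a_co.RN.DECON
import Pool.Agent.Lib.MP_a7239a_co.RN.SOLHIT
import Pool.Agent.Lib.MP_a7239a_co.RN.LEVZ
import Pool.Agent.Lib.MP_a7239a_co.RN.LEVONE
import Pool.Agent.Lib.MP_a7239a_co.RN.LEVTWO

/-!
# RN: the upper bound
-/

set_option autoImplicit false

universe u

open Finset
open scoped Pointwise

namespace Pool.Agent.Lib.MPa7239a.RN

open Pool.Agent.Lib.MPa7239a.GC (Hit)
open Pool.Agent.Lib.MPa7239a.R3X (box lf Avg InLat Free)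

namespace ASSEMNM

/-- the three levels in one statement -/
theorem lev (t : ℕ) (ht : t ≤ 2) (N r : ℕ) (hr : 1 ≤ r) (δ η₀ ε : ℝ) (hδ : 0 < δ) (hη : 0 < η₀)
    (hε : 0 < ε) (hε1 : ε ≤ 1) :
    ∃ w n₀ : ℕ, ∀ n : ℕ, n₀ ≤ n → ∀ (G : Type u) [AddCommGroup G] [Finite G],
    (∀ g : G, n • g = 0) → Nat.card G ≤ n ^ r → ∀ (x : Fin N → G) (H : Fin N → AddSubgroup G)
      (m : Fin N → ℕ) (W : Finset (Fin N)), Cfg n δ η₀ (2 ^ t + ε) x H m W →
    ¬ Ind n w δ (t + 1) (DW x H W) → Sol n x H m W := by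
  interval_cases t
  · simpa using lev_zero.{u} N r hr δ η₀ ε hδ hη hε
  · have h := lev_one.{u} N r hr δ η₀ (ε / 2) hδ hη (by positivity)
    have e1 : (2 : ℝ) * (1 + ε / 2) = 2 ^ 1 + ε := by ring
    rw [e1] at h
    exact h
  · have h := lev_two.{u} N r hr δ η₀ (ε / 8) hδ hη (by positivity) (by linarith)
    have e1 : (4 : ℝ) * (1 + 2 * (ε / 8)) = 2 ^ 2 + ε := by ring
    rw [e1] at h
    exact h

theorem unif_nat (f : ℕ → ℕ) (M : ℕ) : ∃ n₀ : ℕ, ∀ K ≤ M, f K ≤ n₀ :=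
  ⟨∑ K ∈ range (M + 1), f K, fun K hK =>
    Finset.single_le_sum (f := f) (fun _ _ => Nat.zero_le _) (mem_range.2 (by omega))⟩

theorem Hit.mono {G : Type*} [AddCommGroup G] {A B : Finset G} (h : A ⊆ B) {k : ℕ} {x : G}
    (hA : Hit A k x) : Hit B k x := by
  obtain ⟨T, hT, h1, h2⟩ := hA
  exact ⟨T, hT.trans h, h1, h2⟩

/-- a set in a coset of `H` has at most `card H` elements -/
theorem card_le {G : Type*} [AddCommGroup G] [Finite G] {B : Finset G} {x : G} {H : AddSubgroup G}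
    (h : ∀ b ∈ B, b - x ∈ H) : #B ≤ Nat.card H := by
  classical
  have : Fintype G := Fintype.ofFinite G
  have h1 : Nat.card B ≤ Nat.card H := by
    refine Nat.card_le_card_of_injective (fun b : B => (⟨b.1 - x, h b.1 b.2⟩ : H)) ?_
    intro b b' hb
    have h2 : b.1 - x = b'.1 - x := congrArg Subtype.val hb
    exact Subtype.ext (sub_left_injective h2)
  simpa using h1

end ASSEMNM

theorem upper_ind (t : ℕ) (ht : t ≤ 2) (r : ℕ) (hr : 1 ≤ r) (ε : ℝ) (hε : 0 < ε) :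
    ∃ (w : ℕ) (δ : ℝ), 0 < δ ∧ ∃ n₀ : ℕ, ∀ n : ℕ, n₀ ≤ n → ∀ (G : Type u) [AddCommGroup G]
      [Finite G], (∀ g : G, n • g = 0) → Nat.card G ≤ n ^ r →
      ¬ Ind n w δ (t + 1) (⊤ : AddSubgroup G) → ∀ A : Finset G, (2 ^ t + ε) * n ≤ #A →
      Hit A n 0 := by
  classical
  -- reduce to `ε ≤ 1`
  set ε' : ℝ := min ε 1 with hε'
  have hε'0 : 0 < ε' := lt_min hε one_pos
  have hε'1 : ε' ≤ 1 := min_le_right _ _
  have hε'ε : ε' ≤ ε := min_le_left _ _
  -- parameters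
  let η : ℕ → ℝ := fun K => ε' / (100 * (K + 1))
  have hη : ∀ K, 0 < η K := fun K => by
    show 0 < ε' / (100 * ((K : ℝ) + 1))
    positivity
  choose F₀ hF₀ using fun K : ℕ => sol_hit.{u} K (η K) (hη K)
  choose wf nf hnf using fun K : ℕ => ASSEMNM.lev.{u} t ht K r hr (η K) (η K)
    (ε' / 2) (hη K) (hη K) (by positivity) (by linarith)
  obtain ⟨e, he⟩ := exists_nat_ge (100 / ε')
  have he0 : (0 : ℝ) < e := lt_of_lt_of_le (by positivity) he
  have he1 : 1 ≤ e := by exact_mod_cast he0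
  obtain ⟨Kmax, n₁, hdec⟩ := deco.{u} r hr e he1 F₀
  obtain ⟨w, hw⟩ := ASSEMNM.unif_nat wf Kmax
  obtain ⟨n₂, hn₂⟩ := ASSEMNM.unif_nat nf Kmax
  obtain ⟨n₃, hn₃⟩ := exists_nat_ge (100 * ((Kmax : ℝ) + 1) / ε')
  refine ⟨w, η Kmax, hη Kmax, max (max n₁ n₂) (max n₃ 1), fun n hn G _ _ hG hcardN hInd A hA => ?_⟩
  have hn1 : n₁ ≤ n := (le_max_left _ _).trans ((le_max_left _ _).trans hn)
  have hn2 : n₂ ≤ n := (le_max_right _ _).trans ((le_max_left _ _).trans hn)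
  have hn3 : n₃ ≤ n := (le_max_left _ _).trans ((le_max_right _ _).trans hn)
  have hn4 : 1 ≤ n := (le_max_right _ _).trans ((le_max_right _ _).trans hn)
  have hnR : (1 : ℝ) ≤ n := by exact_mod_cast hn4
  have hn0 : (0 : ℝ) < n := by linarith
  have hn3R : 100 * ((Kmax : ℝ) + 1) / ε' ≤ n := hn₃.trans (by exact_mod_cast hn3)
  -- a subset of the right size
  have h2t : (1 : ℝ) ≤ 2 ^ t := one_le_pow₀ (by norm_num)
  have h2t4 : (2 : ℝ) ^ t ≤ 4 := by
    calc (2 : ℝ) ^ t ≤ 2 ^ 2 := pow_le_pow_right₀ (by norm_num) ht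
      _ = 4 := by norm_num
  set s : ℕ := ⌈(2 ^ t + ε') * n⌉₊ with hs
  have hs1 : (2 ^ t + ε') * n ≤ s := Nat.le_ceil _
  have hs2 : (s : ℝ) ≤ (2 ^ t + ε') * n + 1 := (Nat.ceil_lt_add_one (by positivity)).le
  have hsA : s ≤ #A := by
    rw [hs, Nat.ceil_le]
    calc (2 ^ t + ε') * (n : ℝ) ≤ (2 ^ t + ε) * n := by gcongr
      _ ≤ #A := hA
  obtain ⟨A', hA'A, hA'⟩ := Finset.exists_subset_card_eq hsA
  have hs8 : s ≤ 8 * n := by
    have : (s : ℝ) ≤ 8 * n := by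
      calc (s : ℝ) ≤ (2 ^ t + ε') * n + 1 := hs2
        _ ≤ (4 + 1) * n + n := by gcongr
        _ ≤ 8 * n := by linarith
    exact_mod_cast this
  obtain ⟨K, hK, B, x, H, q, hBA, hBd, hBt, hBq⟩ := hdec n hn1 G hG hcardN A' (by rw [hA']; exact hs8)
  rw [hA'] at hBt
  -- facts on `η K`
  have hKR : (K : ℝ) ≤ Kmax := by exact_mod_cast hK
  have hηK : η K * (100 * ((K : ℝ) + 1)) = ε' := by
    show ε' / (100 * ((K : ℝ) + 1)) * (100 * ((K : ℝ) + 1)) = ε'
    field_simp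
  have hηn : 1 ≤ η K * n := by
    have h1 : 100 * ((K : ℝ) + 1) / ε' ≤ n := le_trans (by gcongr) hn3R
    rw [div_le_iff₀ hε'0] at h1
    have h2 : (0 : ℝ) < 100 * ((K : ℝ) + 1) := by positivity
    have h3 : 100 * ((K : ℝ) + 1) * 1 ≤ 100 * ((K : ℝ) + 1) * (η K * n) := by
      calc 100 * ((K : ℝ) + 1) * 1 ≤ n * ε' := by linarith
        _ = n * (η K * (100 * ((K : ℝ) + 1))) := by rw [hηK]
        _ = 100 * ((K : ℝ) + 1) * (η K * n) := by ring
    exact le_of_mul_le_mul_left h3 h2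
  have hη0 := hη K
  set h : ℝ := η K with hh
  -- the cells
  set W : Finset (Fin K) := univ.filter fun c => 4 * h * n ≤ (#(B c) : ℝ) with hW
  set m : Fin K → ℕ := fun c => if c ∈ W then ⌊(#(B c) : ℝ) - 2 * h * n⌋₊ else 0 with hm
  have hWm : ∀ c ∈ W, 4 * h * n ≤ (#(B c) : ℝ) := fun c hc => (mem_filter.1 hc).2
  have hmW : ∀ c ∈ W, m c = ⌊(#(B c) : ℝ) - 2 * h * n⌋₊ := fun c hc => by
    simp only [hm, if_pos hc]
  have hmW0 : ∀ c, c ∉ W → m c = 0 := fun c hc => by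
    simp only [hm, if_neg hc]
  have hpos : ∀ c ∈ W, 0 ≤ (#(B c) : ℝ) - 2 * h * n := fun c hc => by
    have := hWm c hc
    have h1 : 0 ≤ h * n := by positivity
    linarith
  have hmle : ∀ c ∈ W, (m c : ℝ) + 2 * h * n ≤ #(B c) := fun c hc => by
    rw [hmW c hc]
    have := Nat.floor_le (hpos c hc)
    linarith
  have hmge : ∀ c ∈ W, (#(B c) : ℝ) - 3 * h * n ≤ m c := fun c hc => by
    rw [hmW c hc]
    have := Nat.lt_floor_add_one ((#(B c) : ℝ) - 2 * h * n)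
    linarith
  have hBsum : ∑ c, #(B c) ≤ #A' := by
    rw [← Finset.card_biUnion (fun c _ c' _ hcc => hBd c c' hcc)]
    exact Finset.card_le_card (Finset.biUnion_subset.2 fun c _ => hBA c)
  have hBsumR : (∑ c, (#(B c) : ℝ)) ≤ 8 * n := by
    have h1 : ∑ c, #(B c) ≤ 8 * n := hBsum.trans (by rw [hA']; exact hs8)
    exact_mod_cast h1
  have hBlow : (2 ^ t + ε' - ε' / 100) * n ≤ ∑ c, (#(B c) : ℝ) := by
    have h1 : (e : ℝ) * s ≤ e * (∑ c, (#(B c) : ℝ)) + n := by exact_mod_cast hBt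
    have h2 : (n : ℝ) / e ≤ ε' / 100 * n := by
      rw [div_le_iff₀ he0]
      have h3 : 100 / ε' ≤ e := he
      rw [div_le_iff₀ hε'0] at h3
      calc (n : ℝ) = n * (100 / 100) := by ring
        _ ≤ n * (e * ε' / 100) := by gcongr
        _ = ε' / 100 * n * e := by ring
    have h3 : (s : ℝ) ≤ (∑ c, (#(B c) : ℝ)) + n / e := by
      have h5 : (e : ℝ) * ((n : ℝ) / e) = n := by
        rw [mul_div_assoc', mul_div_cancel_left₀ _ he0.ne']
      have h4 : (e : ℝ) * s ≤ e * ((∑ c, (#(B c) : ℝ)) + n / e) := by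
        rw [mul_add, h5]
        exact h1
      exact le_of_mul_le_mul_left h4 he0
    calc (2 ^ t + ε' - ε' / 100) * (n : ℝ) = (2 ^ t + ε') * n - ε' / 100 * n := by ring
      _ ≤ s - n / e := by linarith
      _ ≤ ∑ c, (#(B c) : ℝ) := by linarith
  have hmsum : (2 ^ t + ε' / 2) * n ≤ ∑ c ∈ W, (m c : ℝ) := by
    have h1 : ∑ c, (#(B c) : ℝ) = ∑ c ∈ W, (#(B c) : ℝ) +
        ∑ c ∈ univ.filter (fun c => ¬ 4 * h * n ≤ (#(B c) : ℝ)), (#(B c) : ℝ) :=
      (Finset.sum_filter_add_sum_filter_not univ _ _).symm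
    have h2 : ∑ c ∈ univ.filter (fun c => ¬ 4 * h * n ≤ (#(B c) : ℝ)), (#(B c) : ℝ) ≤
        K * (4 * h * n) := by
      calc _ ≤ ∑ c ∈ univ.filter (fun c => ¬ 4 * h * n ≤ (#(B c) : ℝ)), 4 * h * (n : ℝ) := by
            refine Finset.sum_le_sum fun c hc => ?_
            have := (mem_filter.1 hc).2
            push Not at this
            exact this.le
        _ = (#(univ.filter (fun c => ¬ 4 * h * n ≤ (#(B c) : ℝ))) : ℝ) * (4 * h * n) := by
            rw [Finset.sum_const, nsmul_eq_mul]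
        _ ≤ K * (4 * h * n) := by
            gcongr
            have h5 := Finset.card_filter_le (univ : Finset (Fin K))
              (fun c => ¬ 4 * h * n ≤ (#(B c) : ℝ))
            rw [Finset.card_univ, Fintype.card_fin] at h5
            exact_mod_cast h5
    have h3 : ∑ c ∈ W, ((#(B c) : ℝ) - 3 * h * n) ≤ ∑ c ∈ W, (m c : ℝ) :=
      Finset.sum_le_sum fun c hc => hmge c hc
    rw [Finset.sum_sub_distrib, Finset.sum_const, nsmul_eq_mul] at h3
    have h4 : (#W : ℝ) * (3 * h * n) ≤ K * (3 * h * n) := by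
      gcongr
      have h5 := Finset.card_le_univ W
      rw [Fintype.card_fin] at h5
      exact_mod_cast h5
    have h6 : K * h ≤ ε' / 100 := by
      have h7 : (K : ℝ) * h ≤ ((K : ℝ) + 1) * h := by nlinarith
      have h8 : ((K : ℝ) + 1) * h = ε' / 100 := by
        rw [← hηK]; ring
      linarith
    have h9 : (K : ℝ) * (4 * h * n) ≤ 4 * (ε' / 100) * n := by
      calc (K : ℝ) * (4 * h * n) = 4 * (K * h) * n := by ring
        _ ≤ 4 * (ε' / 100) * n := by gcongr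
    have h10 : (K : ℝ) * (3 * h * n) ≤ 3 * (ε' / 100) * n := by
      calc (K : ℝ) * (3 * h * n) = 3 * (K * h) * n := by ring
        _ ≤ 3 * (ε' / 100) * n := by gcongr
    have h11 : 0 ≤ ε' * n := by positivity
    nlinarith
  have hcfg : Cfg n h h (2 ^ t + ε' / 2) x H m W := by
    refine ⟨fun c hc => ?_, fun c hc => ?_, hmsum, ?_⟩
    · have h1 := hmge c hc
      have h2 := hWm c hc
      linarith
    · have h1 := ASSEMNM.card_le (hBq c).2.1
      have h2 := hWm c hc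
      have h3 : (#(B c) : ℝ) ≤ Nat.card (H c) := by exact_mod_cast h1
      have h4 : 0 ≤ h * n := by positivity
      linarith
    · calc ∑ c ∈ W, (m c : ℝ) ≤ ∑ c ∈ W, (#(B c) : ℝ) := by
            refine Finset.sum_le_sum fun c hc => ?_
            have h1 := hmle c hc
            have h4 : 0 ≤ h * n := by positivity
            linarith
        _ ≤ ∑ c, (#(B c) : ℝ) :=
            Finset.sum_le_sum_of_subset_of_nonneg (Finset.subset_univ _) fun _ _ _ => by positivity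
        _ ≤ 8 * n := hBsumR
  have hsol : Sol n x H m W := by
    refine hnf K n ((hn₂ K hK).trans hn2) G hG hcardN x H m W hcfg fun h1 => hInd ?_
    refine Ind.mono (hw K hK) ?_ le_top h1
    show ε' / (100 * ((Kmax : ℝ) + 1)) ≤ ε' / (100 * ((K : ℝ) + 1))
    gcongr
  refine ASSEMNM.Hit.mono hA'A (hF₀ K n hn4 G hG A' B x H q m hBA hBd (fun c => (hBq c).1)
    (fun c => (hBq c).2) (fun c hc => ?_) (hsol.mono (Finset.subset_univ _)))
  by_cases hcW : c ∈ W
  · exact hmle c hcW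
  · exact absurd (hmW0 c hcW) hc

end Pool.Agent.Lib.MPa7239a.RN
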