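import Pool.Agent.Lib.MP_a7239a_co.R3.FOUR
import Pool.Agent.Lib.MP_a7239a_co.R3X.Defs

/-!
# All moduli `n`, all groups of order `o(n ^ 4)` (folder RN, captain helper59): definitions
-/

set_option autoImplicit false

open Finset
open scoped Pointwise

namespace Pool.Agent.Lib.MPa7239a.RN

open Pool.Agent.Lib.MPa7239a.GC (Hit)
open Pool.Agent.Lib.MPa7239a.R3X (box lf Avg InLat Free)

section Sumsets

variable {G : Type*} [AddCommGroup G] [DecidableEq G]

/-- the `k`-fold sumset of `S` -/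
def ks (S : Finset G) : ℕ → Finset G
  | 0 => {0}
  | k + 1 => ks S k + S

@[simp] theorem ks_zero (S : Finset G) : ks S 0 = {0} := rfl

theorem ks_succ (S : Finset G) (k : ℕ) : ks S (k + 1) = ks S k + S := rfl

theorem ks_one (S : Finset G) : ks S 1 = S := by
  rw [ks_succ, ks_zero, singleton_zero, zero_add]

theorem ks_add (S : Finset G) (a b : ℕ) : ks S (a + b) = ks S a + ks S b := by
  induction b with
  | zero => rw [add_zero, ks_zero, singleton_zero, add_zero]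
  | succ b ih => rw [← add_assoc, ks_succ, ih, ks_succ, add_assoc]

theorem ks_mul (S : Finset G) (a b : ℕ) : ks S (a * b) = ks (ks S a) b := by
  induction b with
  | zero => rw [mul_zero, ks_zero, ks_zero]
  | succ b ih => rw [mul_add, mul_one, ks_add, ih, ks_succ]

theorem zero_mem_ks {S : Finset G} (h0 : (0 : G) ∈ S) (k : ℕ) : (0 : G) ∈ ks S k := by
  induction k with
  | zero => rw [ks_zero]; exact mem_singleton_self 0
  | succ k ih => rw [ks_succ]; exact mem_add.2 ⟨0, ih, 0, h0, add_zero 0⟩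

theorem ks_subset_add {S : Finset G} (h0 : (0 : G) ∈ S) (a b : ℕ) : ks S a ⊆ ks S (a + b) := by
  intro x hx
  rw [ks_add]
  exact mem_add.2 ⟨x, hx, 0, zero_mem_ks h0 b, add_zero x⟩

theorem ks_mono {S : Finset G} (h0 : (0 : G) ∈ S) {a b : ℕ} (h : a ≤ b) : ks S a ⊆ ks S b := by
  obtain ⟨c, rfl⟩ := Nat.exists_eq_add_of_le h
  exact ks_subset_add h0 a c

theorem ks_mono_left {S T : Finset G} (h : S ⊆ T) (k : ℕ) : ks S k ⊆ ks T k := by
  induction k with
  | zero => rw [ks_zero, ks_zero]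
  | succ k ih => rw [ks_succ, ks_succ]; exact add_subset_add ih h

theorem neg_mem_ks {S : Finset G} (hs : ∀ s ∈ S, -s ∈ S) (k : ℕ) : ∀ x ∈ ks S k, -x ∈ ks S k := by
  induction k with
  | zero =>
    intro x hx
    rw [ks_zero, mem_singleton] at hx ⊢
    rw [hx, neg_zero]
  | succ k ih =>
    intro x hx
    rw [ks_succ, mem_add] at hx ⊢
    obtain ⟨y, hy, z, hz, rfl⟩ := hx
    exact ⟨-y, ih y hy, -z, hs z hz, by abel⟩

theorem ks_subset {S : Finset G} {M : AddSubgroup G} (h : ∀ s ∈ S, s ∈ M) (k : ℕ) :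
    ∀ x ∈ ks S k, x ∈ M := by
  induction k with
  | zero =>
    intro x hx
    rw [ks_zero, mem_singleton] at hx
    rw [hx]; exact M.zero_mem
  | succ k ih =>
    intro x hx
    rw [ks_succ, mem_add] at hx
    obtain ⟨y, hy, z, hz, rfl⟩ := hx
    exact M.add_mem (ih y hy) (h z hz)

theorem ks_nonempty {S : Finset G} (h0 : (0 : G) ∈ S) (k : ℕ) : (ks S k).Nonempty :=
  ⟨0, zero_mem_ks h0 k⟩

theorem nsmul_mem_ks {S : Finset G} (h0 : (0 : G) ∈ S) {d : G} (hd : d ∈ S) {j k : ℕ}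
    (h : j ≤ k) : j • d ∈ ks S k := by
  apply ks_mono h0 h
  clear h
  induction j with
  | zero => rw [zero_smul]; exact zero_mem_ks h0 0
  | succ j ih => rw [succ_nsmul, ks_succ]; exact add_mem_add ih hd

/-- an element of the `k`-fold sumset is a sum of `k` elements -/
theorem mem_ks {S : Finset G} {k : ℕ} {x : G} :
    x ∈ ks S k ↔ ∃ f : Fin k → G, (∀ i, f i ∈ S) ∧ ∑ i, f i = x := by
  induction k generalizing x with
  | zero =>
    rw [ks_zero, mem_singleton]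
    constructor
    · rintro rfl
      exact ⟨fun _ => 0, fun i => i.elim0, by simp⟩
    · rintro ⟨f, -, h⟩
      rw [← h]; simp
  | succ k ih =>
    rw [ks_succ, mem_add]
    constructor
    · rintro ⟨y, hy, z, hz, rfl⟩
      obtain ⟨f, hf, rfl⟩ := ih.1 hy
      refine ⟨Fin.snoc f z, fun i => ?_, ?_⟩
      · refine Fin.lastCases ?_ (fun j => ?_) i
        · simpa using hz
        · simpa using hf j
      · rw [Fin.sum_univ_castSucc]
        simp
    · rintro ⟨f, hf, rfl⟩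
      refine ⟨∑ i : Fin k, f i.castSucc, ih.2 ⟨fun i => f i.castSucc, fun i => hf _, rfl⟩,
        f (Fin.last k), hf _, ?_⟩
      rw [Fin.sum_univ_castSucc]

end Sumsets

/-- `B ⊆ x + H`, and for `q ≤ k ≤ #B - q` every element of `k x + H` is a sum of `k` distinct
elements of `B` -/
def FullC {G : Type*} [AddCommGroup G] (B : Finset G) (x : G) (H : AddSubgroup G) (q : ℕ) : Prop :=
  (∀ b ∈ B, b - x ∈ H) ∧ ∀ k, q ≤ k → k + q ≤ #B → ∀ g, g - k • x ∈ H → Hit B k g

section Invariant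

variable {G : Type*} [AddCommGroup G] [Finite G]

open Classical in
/-- `B` outside the coset `z + S` -/
noncomputable def offC (B : Finset G) (z : G) (S : AddSubgroup G) : Finset G :=
  B.filter (fun b => b - z ∉ S)

/-- `S` is big: `#S * U ≥ h` -/
def Big (U h : ℕ) (S : AddSubgroup G) : Prop := h ≤ Nat.card S * U

/-- the invariant: every coset of a big proper subgroup `S` of `M` misses at least
`8 ([M : S] - 1)` elements of `B` -/
def Inv (U h : ℕ) (M : AddSubgroup G) (B : Finset G) : Prop :=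
  ∀ S : AddSubgroup G, S < M → Big U h S → ∀ z : G,
    8 * Nat.card M ≤ #(offC B z S) * Nat.card S + 8 * Nat.card S

/-- a state of the filling procedure inside `B₀ ⊆ x₀ + M₀` -/
structure St (M₀ : AddSubgroup G) (x₀ : G) (B₀ : Finset G) (U h : ℕ)
    (M : AddSubgroup G) (z : G) (B Ug Ur : Finset G) (mg mr : ℕ) (ζ : G) (Z : Finset G) :
    Prop where
  le : M ≤ M₀
  big : Big U h M
  disj : Disjoint Ug Ur
  rest : ∀ b, b ∈ B ↔ b ∈ B₀ ∧ b ∉ Ug ∧ b ∉ Ur
  subg : Ug ⊆ B₀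
  subr : Ur ⊆ B₀
  cg : #Ug = 2 * mg
  cr : #Ur = 2 * mr
  mr_le : mr * Nat.card M + 8 * Nat.card M ≤ 8 * Nat.card M₀
  coset : ∀ b ∈ B, b - z ∈ M
  inv : Inv U h M B
  ne : Z.Nonempty
  Zc : ∀ y ∈ Z, y - ζ ∈ M
  Zh : ∀ y ∈ Z, Hit Ug mg y
  cov : ∀ g ∈ M₀, ∃ T ⊆ Ur, #T = mr ∧ ∑ a ∈ T, a - mr • x₀ - g ∈ M

end Invariant

section Cells

variable {G : Type*} [AddCommGroup G] {N : ℕ}

/-- the value of an integer vector of cells -/
def xs (x : Fin N → G) (z : Fin N → ℤ) : G := ∑ c, z c • x c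

/-- the subgroup generated by the groups of the cells in `W` -/
def HW (H : Fin N → AddSubgroup G) (W : Finset (Fin N)) : AddSubgroup G := ⨆ c ∈ W, H c

/-- the subgroup generated by the differences of the cells of `W` and their groups -/
def DW (x : Fin N → G) (H : Fin N → AddSubgroup G) (W : Finset (Fin N)) : AddSubgroup G :=
  AddSubgroup.closure {y | ∃ c ∈ W, ∃ c' ∈ W, y = x c - x c'} ⊔ HW H W

/-- the cell problem is solvable in `W` -/
def Sol (n : ℕ) (x : Fin N → G) (H : Fin N → AddSubgroup G) (m : Fin N → ℕ)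
    (W : Finset (Fin N)) : Prop :=
  ∃ b : Fin N → ℕ, (∀ c, b c ≤ m c) ∧ (∀ c, c ∉ W → b c = 0) ∧ ∑ c, b c = n ∧
    ∑ c, b c • x c ∈ HW H (univ.filter fun c => b c ≠ 0)

/-- the integer relations of the positions `p` in `W` -/
def VW (p : Fin N → ℤ × ℤ) (W : Finset (Fin N)) : AddSubgroup (Fin N → ℤ) where
  carrier := {z | (∀ c, c ∉ W → z c = 0) ∧ ∑ c, z c = 0 ∧ ∑ c, z c * (p c).1 = 0 ∧
    ∑ c, z c * (p c).2 = 0}
  zero_mem' := by simp
  add_mem' := by
    rintro a b ⟨h1, h2, h3, h4⟩ ⟨k1, k2, k3, k4⟩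
    refine ⟨fun c hc => ?_, ?_, ?_, ?_⟩
    · rw [Pi.add_apply, h1 c hc, k1 c hc, add_zero]
    · simp only [Pi.add_apply, sum_add_distrib, h2, k2, add_zero]
    · simp only [Pi.add_apply, add_mul, sum_add_distrib, h3, k3, add_zero]
    · simp only [Pi.add_apply, add_mul, sum_add_distrib, h4, k4, add_zero]
  neg_mem' := by
    rintro a ⟨h1, h2, h3, h4⟩
    refine ⟨fun c hc => ?_, ?_, ?_, ?_⟩
    · rw [Pi.neg_apply, h1 c hc, neg_zero]
    · simp only [Pi.neg_apply, sum_neg_distrib, h2, neg_zero]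
    · simp only [Pi.neg_apply, neg_mul, sum_neg_distrib, h3, neg_zero]
    · simp only [Pi.neg_apply, neg_mul, sum_neg_distrib, h4, neg_zero]

theorem mem_VW {p : Fin N → ℤ × ℤ} {W : Finset (Fin N)} {z : Fin N → ℤ} :
    z ∈ VW p W ↔ (∀ c, c ∉ W → z c = 0) ∧ ∑ c, z c = 0 ∧ ∑ c, z c * (p c).1 = 0 ∧
      ∑ c, z c * (p c).2 = 0 := Iff.rfl

theorem xs_add (x : Fin N → G) (a b : Fin N → ℤ) : xs x (a + b) = xs x a + xs x b := by
  simp only [xs, Pi.add_apply, add_smul, sum_add_distrib]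

theorem xs_neg (x : Fin N → G) (a : Fin N → ℤ) : xs x (-a) = -xs x a := by
  simp only [xs, Pi.neg_apply, neg_smul, sum_neg_distrib]

theorem xs_sub (x : Fin N → G) (a b : Fin N → ℤ) : xs x (a - b) = xs x a - xs x b := by
  rw [sub_eq_add_neg, xs_add, xs_neg, sub_eq_add_neg]

theorem xs_zero (x : Fin N → G) : xs x 0 = 0 := by
  simp [xs]

theorem xs_smul (x : Fin N → G) (k : ℤ) (a : Fin N → ℤ) : xs x (k • a) = k • xs x a := by
  simp only [xs, Pi.smul_apply, smul_eq_mul, mul_smul, smul_sum]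

theorem HW_mono {H : Fin N → AddSubgroup G} {V W : Finset (Fin N)} (h : V ⊆ W) :
    HW H V ≤ HW H W :=
  iSup₂_le fun c hc => le_iSup₂_of_le c (h hc) le_rfl

theorem Sol.mono {n : ℕ} {x : Fin N → G} {H : Fin N → AddSubgroup G} {m : Fin N → ℕ}
    {V W : Finset (Fin N)} (h : V ⊆ W) (hs : Sol n x H m V) : Sol n x H m W := by
  obtain ⟨b, h1, h2, h3, h4⟩ := hs
  exact ⟨b, h1, fun c hc => h2 c fun h' => hc (h h'), h3, h4⟩

/-- the hypotheses on the cells of `W` -/
structure Cfg (n : ℕ) (δ η₀ τ : ℝ) (x : Fin N → G) (H : Fin N → AddSubgroup G) (m : Fin N → ℕ)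
    (W : Finset (Fin N)) : Prop where
  hm : ∀ c ∈ W, η₀ * n ≤ m c
  hH : ∀ c ∈ W, δ * n ≤ Nat.card (H c)
  tot : τ * n ≤ ∑ c ∈ W, (m c : ℝ)
  tot8 : ∑ c ∈ W, (m c : ℝ) ≤ 8 * n

end Cells

/-- `s` independent characters with bounded values on `M`, whose common kernel in `M` has at
least `δ n` elements -/
def Ind {G : Type*} [AddCommGroup G] (n w : ℕ) (δ : ℝ) : ℕ → AddSubgroup G → Prop
  | 0, M => δ * n ≤ Nat.card M
  | s + 1, M => ∃ ξ : G →+ ZMod n, ∃ g ∈ M, ξ g ≠ 0 ∧ (ξ g).valMinAbs.natAbs ≤ w ∧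
      Ind n w δ s (M ⊓ ξ.ker)

theorem Ind.mono {G : Type*} [AddCommGroup G] [Finite G] {n w w' : ℕ} {δ δ' : ℝ} (hw : w ≤ w')
    (hδ : δ' ≤ δ) {s : ℕ} : ∀ {M M' : AddSubgroup G}, M ≤ M' → Ind n w δ s M →
      Ind n w' δ' s M' := by
  induction s with
  | zero =>
    intro M M' hM h
    have h1 : (Nat.card M : ℝ) ≤ Nat.card M' := by exact_mod_cast AddSubgroup.card_le_of_le hM
    have h2 : δ' * n ≤ δ * n := mul_le_mul_of_nonneg_right hδ (Nat.cast_nonneg n)
    exact h2.trans (le_trans h h1)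
  | succ s ih =>
    rintro M M' hM ⟨ξ, g, hg, h0, h1, h2⟩
    exact ⟨ξ, g, hM hg, h0, h1.trans hw, ih (inf_le_inf_right _ hM) h2⟩

/-- the time scale of level `i` -/
def tl (c b₀ b₁ i : ℕ) : ℕ := 2 ^ max b₀ (b₁ - (i - 1) / c)

end Pool.Agent.Lib.MPa7239a.RN
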