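import Pool.Agent.Lib.MP_a7239a_co.RN.Defs

/-!
# All moduli (folder RN): module LOWN, the lower bound (helper20)
-/

set_option autoImplicit false

universe u

open Finset
open scoped Pointwise

namespace Pool.Agent.Lib.MPa7239a.RN

open Pool.Agent.Lib.MPa7239a.GC (Hit)

namespace LOWNM

/-- `n` elements `0` or `1` of `ZMod n` with sum `0` are equal -/
theorem bits {n : ℕ} (hn : 2 ≤ n) {ι : Type*} {T : Finset ι} {f : ι → ZMod n}
    (hf : ∀ x ∈ T, f x = 0 ∨ f x = 1) (hT : #T = n) (hs : ∑ x ∈ T, f x = 0) :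
    ∃ ε, ∀ x ∈ T, f x = ε := by
  classical
  have : Fact (1 < n) := ⟨hn⟩
  have h1 : ∑ x ∈ T, f x = ((#(T.filter (fun x => f x = 1)) : ℕ) : ZMod n) := by
    rw [card_filter, Nat.cast_sum]
    refine sum_congr rfl fun x hx => ?_
    rcases hf x hx with h | h
    · rw [h, if_neg zero_ne_one, Nat.cast_zero]
    · rw [h, if_pos rfl, Nat.cast_one]
  rw [h1, ZMod.natCast_eq_zero_iff] at hs
  rcases Nat.eq_zero_or_pos #(T.filter (fun x => f x = 1)) with h | h
  · refine ⟨0, fun x hx => (hf x hx).resolve_right fun h2 => ?_⟩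
    rw [card_eq_zero] at h
    have : x ∈ T.filter (fun x => f x = 1) := mem_filter.2 ⟨hx, h2⟩
    rw [h] at this
    exact notMem_empty _ this
  · have h2 := Nat.le_of_dvd h hs
    have h3 : T.filter (fun x => f x = 1) = T :=
      eq_of_subset_of_card_le (filter_subset _ _) (by rw [hT]; exact h2)
    refine ⟨1, fun x hx => ?_⟩
    rw [← h3] at hx
    exact (mem_filter.1 hx).2

end LOWNM

open LOWNM in
theorem low (t n : ℕ) (hn : 1 ≤ n) (K : Type u) [AddCommGroup K] (S : Finset K)
    (hS : #S = n - 1) :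
    ∃ A : Finset ((Fin t → ZMod n) × K), #A = 2 ^ t * (n - 1) ∧ ¬ Hit A n 0 := by
  classical
  rcases Nat.lt_or_ge n 2 with h | h2
  · obtain rfl : n = 1 := by omega
    refine ⟨∅, by simp, ?_⟩
    rintro ⟨T, hT, hTc, -⟩
    rw [subset_empty.1 hT, card_empty] at hTc
    exact absurd hTc (by norm_num)
  have : Fact (1 < n) := ⟨h2⟩
  have h01 : #({0, 1} : Finset (ZMod n)) = 2 := card_pair zero_ne_one
  refine ⟨(Fintype.piFinset fun _ : Fin t => ({0, 1} : Finset (ZMod n))) ×ˢ S, ?_, ?_⟩
  · rw [card_product, Fintype.card_piFinset, hS]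
    simp only [h01, prod_const, card_univ, Fintype.card_fin]
  · rintro ⟨T, hT, hTc, hTs⟩
    have hcoord : ∀ x ∈ T, (∀ i : Fin t, x.1 i = 0 ∨ x.1 i = 1) ∧ x.2 ∈ S := by
      intro x hx
      have h := hT hx
      rw [mem_product, Fintype.mem_piFinset] at h
      refine ⟨fun i => ?_, h.2⟩
      have := h.1 i
      rwa [mem_insert, mem_singleton] at this
    have hs : ∀ j : Fin t, ∑ x ∈ T, x.1 j = 0 := by
      intro j
      have := congrArg (fun z : (Fin t → ZMod n) × K => z.1 j) hTs
      simpa [Prod.fst_sum, Finset.sum_apply] using this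
    choose ε hε using fun i : Fin t =>
      bits h2 (f := fun x : (Fin t → ZMod n) × K => x.1 i)
        (fun x hx => (hcoord x hx).1 i) hTc (hs i)
    have h3 : #T ≤ #S := by
      refine card_le_card_of_injOn (fun x => x.2) ?_ ?_
      · intro x hx
        exact mem_coe.2 (hcoord x hx).2
      · intro x hx y hy hxy
        exact Prod.ext (funext fun j => (hε j x hx).trans (hε j y hy).symm) hxy
    omega

end Pool.Agent.Lib.MPa7239a.RN
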