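import Pool.Agent.Lib.MP_a7239a_co.RN.Defs
import Pool.Agent.Lib.MP_a7239a_co.RN.LEVTWO

/-! # RN, module CAPN: level two without the upper bound for the masses -/

set_option autoImplicit false

universe u

open Finset

namespace Pool.Agent.Lib.MPa7239a.RN

namespace CAPNAux

/-- masses below `M` with sum between `(4+ε) n` and `8 n` -/
theorem cap (N n : ℕ) (M : Fin N → ℕ) (ε : ℝ) (hε1 : ε ≤ 1) (hn : N ≤ n)
    (h : (4 + ε) * n ≤ ∑ c, (M c : ℝ)) :
    ∃ M' : Fin N → ℕ, (∀ c, M' c ≤ M c) ∧ (4 + ε) * n ≤ ∑ c, (M' c : ℝ) ∧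
      ∑ c, (M' c : ℝ) ≤ 8 * n := by
  by_cases h8 : ∑ c, M c ≤ 8 * n
  · exact ⟨M, fun c => le_rfl, h, by exact_mod_cast h8⟩
  · push Not at h8
    set T := ∑ c, M c with hT
    have hT0 : 0 < T := by omega
    refine ⟨fun c => M c * (6 * n) / T, fun c => ?_, ?_, ?_⟩
    · refine Nat.div_le_of_le_mul ?_
      rw [mul_comm T]
      exact Nat.mul_le_mul_left _ (by omega)
    · have h1 : ∀ c, M c * (6 * n) ≤ T * (M c * (6 * n) / T) + T := by
        intro c
        have h2 := Nat.div_add_mod (M c * (6 * n)) T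
        have h3 := Nat.mod_lt (M c * (6 * n)) hT0
        omega
      have h2 : T * (6 * n) ≤ T * (∑ c, M c * (6 * n) / T + N) := by
        calc T * (6 * n) = ∑ c, M c * (6 * n) := by rw [hT, sum_mul]
          _ ≤ ∑ c, (T * (M c * (6 * n) / T) + T) := sum_le_sum fun c _ => h1 c
          _ = T * (∑ c, M c * (6 * n) / T + N) := by
              rw [sum_add_distrib, ← mul_sum, sum_const, card_univ, Fintype.card_fin, smul_eq_mul]
              ring
      have h3 : 6 * n ≤ ∑ c, M c * (6 * n) / T + N := Nat.le_of_mul_le_mul_left h2 hT0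
      have h4 : 5 * n ≤ ∑ c, M c * (6 * n) / T := by omega
      have h5 : (5 : ℝ) * n ≤ ∑ c, ((M c * (6 * n) / T : ℕ) : ℝ) := by exact_mod_cast h4
      refine le_trans ?_ h5
      have h6 : (0 : ℝ) ≤ n := Nat.cast_nonneg n
      nlinarith
    · have h2 : T * ∑ c, M c * (6 * n) / T ≤ T * (6 * n) := by
        rw [mul_sum]
        calc ∑ c, T * (M c * (6 * n) / T) ≤ ∑ c, M c * (6 * n) :=
              sum_le_sum fun c _ => Nat.mul_div_le _ _
          _ = T * (6 * n) := by rw [hT, sum_mul]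
      have h3 : ∑ c, M c * (6 * n) / T ≤ 6 * n := Nat.le_of_mul_le_mul_left h2 hT0
      have h4 : ∑ c, M c * (6 * n) / T ≤ 8 * n := by omega
      exact_mod_cast h4

end CAPNAux

open CAPNAux in
theorem lev_cap (N r : ℕ) (hr : 1 ≤ r) (δ ε : ℝ) (hδ : 0 < δ) (hε : 0 < ε) :
    ∃ w n₀ : ℕ, ∀ n : ℕ, n₀ ≤ n → ∀ (G : Type u) [AddCommGroup G] [Finite G],
    (∀ g : G, n • g = 0) → Nat.card G ≤ n ^ r → ∀ (x : Fin N → G) (H : Fin N → AddSubgroup G)
      (M : Fin N → ℕ), (∀ c, M c ≠ 0 → δ * n ≤ Nat.card (H c)) →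
    (4 + ε) * n ≤ ∑ c, (M c : ℝ) → ¬ Ind n w δ 3 (⊤ : AddSubgroup G) →
    Sol n x H M univ := by
  set ε' : ℝ := min ε 1 with hε'
  have he0 : 0 < ε' := lt_min hε one_pos
  have he1 : ε' ≤ 1 := min_le_right _ _
  have hee : ε' ≤ ε := min_le_left _ _
  set η₀ : ℝ := ε' / (4 * (N + 1)) with hη₀
  have hη : 0 < η₀ := by positivity
  obtain ⟨w, n₀, hL⟩ := lev_two.{u} N r hr δ η₀ (ε' / 16) hδ hη (by positivity) (by linarith)
  refine ⟨w, max n₀ (max N 1), fun n hn G _ _ hG hcard x H M hM htot hI => ?_⟩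
  have hn0 : n₀ ≤ n := (le_max_left _ _).trans hn
  have hnN : N ≤ n := ((le_max_left _ _).trans (le_max_right _ _)).trans hn
  have hn1 : 1 ≤ n := ((le_max_right _ _).trans (le_max_right _ _)).trans hn
  have hnr : (0 : ℝ) < n := by exact_mod_cast hn1
  obtain ⟨M', h1, h2, h3⟩ := cap N n M ε' he1 hnN (le_trans (by
    apply mul_le_mul_of_nonneg_right _ hnr.le
    linarith) htot)
  set W : Finset (Fin N) := univ.filter fun c => η₀ * n ≤ (M' c : ℝ) with hW
  have hC : Cfg n δ η₀ (4 * (1 + 2 * (ε' / 16))) x H M' W := by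
    refine ⟨fun c hc => (mem_filter.1 hc).2, fun c hc => ?_, ?_, ?_⟩
    · have h4 := (mem_filter.1 hc).2
      apply hM
      intro h5
      have h6 := h1 c
      have h7 : M' c = 0 := by omega
      rw [h7, Nat.cast_zero] at h4
      have : 0 < η₀ * n := by positivity
      linarith
    · have h4 : ∑ c, (M' c : ℝ) = ∑ c ∈ W, (M' c : ℝ) +
          ∑ c ∈ univ.filter (fun c => ¬ η₀ * n ≤ (M' c : ℝ)), (M' c : ℝ) :=
        (sum_filter_add_sum_filter_not univ _ _).symm
      have h5 : ∑ c ∈ univ.filter (fun c => ¬ η₀ * n ≤ (M' c : ℝ)), (M' c : ℝ) ≤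
          N * (η₀ * n) := by
        refine (sum_le_card_nsmul _ _ (η₀ * n) fun c hc => ?_).trans ?_
        · exact (not_le.1 (mem_filter.1 hc).2).le
        · rw [nsmul_eq_mul]
          apply mul_le_mul_of_nonneg_right _ (by positivity)
          have h6 : #(univ.filter (fun c => ¬ η₀ * n ≤ (M' c : ℝ))) ≤ N := by
            refine (card_filter_le _ _).trans ?_
            rw [card_univ, Fintype.card_fin]
          exact_mod_cast h6
      have h6 : (N : ℝ) * (η₀ * n) ≤ ε' / 4 * n := by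
        have h7 : (N : ℝ) * η₀ ≤ ε' / 4 := by
          rw [hη₀, mul_div_assoc', div_le_div_iff₀ (by positivity) (by norm_num)]
          nlinarith [Nat.cast_nonneg (α := ℝ) N]
        calc (N : ℝ) * (η₀ * n) = (N : ℝ) * η₀ * n := by ring
          _ ≤ ε' / 4 * n := mul_le_mul_of_nonneg_right h7 hnr.le
      have h7 : 0 < ε' * n := by positivity
      nlinarith
    · refine le_trans ?_ h3
      exact sum_le_sum_of_subset_of_nonneg (filter_subset _ _) fun c _ _ => Nat.cast_nonneg _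
  have hS := hL n hn0 G hG hcard x H M' W hC fun h => hI (h.mono le_rfl le_rfl le_top)
  obtain ⟨b, h4, h5, h6, h7⟩ := hS
  exact ⟨b, fun c => (h4 c).trans (h1 c), fun c hc => absurd (mem_univ c) hc, h6, h7⟩

end Pool.Agent.Lib.MPa7239a.RN
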