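import Pool.Agent.Lib.MP_a7239a_co.RN.GSTEP

/-!
# RN: the first character
-/

set_option autoImplicit false

universe u

open Finset
open scoped Pointwise

namespace Pool.Agent.Lib.MPa7239a.RN

open Pool.Agent.Lib.MPa7239a.GC (Hit)
open Pool.Agent.Lib.MPa7239a.R3X (box lf Avg InLat Free)

namespace CHARKM

/-- the integer vector `e c - e c'` -/
def dl {N : ℕ} (c c' : Fin N) : Fin N → ℤ := fun i => (if i = c then 1 else 0) - (if i = c' then 1 else 0)

theorem sum_dl {N : ℕ} (c c' : Fin N) : ∑ i, dl c c' i = 0 := by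
  simp [dl, Finset.sum_sub_distrib]

theorem xs_dl {G : Type*} [AddCommGroup G] {N : ℕ} (x : Fin N → G) (c c' : Fin N) :
    xs x (dl c c') = x c - x c' := by
  simp [xs, dl, sub_smul, Finset.sum_sub_distrib]

theorem abs_dl {N : ℕ} (c c' i : Fin N) : |dl c c' i| ≤ 1 := by
  unfold dl
  split_ifs <;> simp

theorem dl_off {N : ℕ} {W : Finset (Fin N)} {c c' : Fin N} (hc : c ∈ W) (hc' : c' ∈ W) (i : Fin N)
    (hi : i ∉ W) : dl c c' i = 0 := by
  have h1 : i ≠ c := by rintro rfl; exact hi hc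
  have h2 : i ≠ c' := by rintro rfl; exact hi hc'
  unfold dl
  rw [if_neg h1, if_neg h2, sub_zero]

end CHARKM

theorem char_one (N r : ℕ) (hr : 1 ≤ r) (δ η₀ ε : ℝ) (hδ : 0 < δ) (hη : 0 < η₀) (hε : 0 < ε) :
    ∃ w n₀ : ℕ, ∀ n : ℕ, n₀ ≤ n → ∀ (G : Type u) [AddCommGroup G] [Finite G],
    (∀ g : G, n • g = 0) → Nat.card G ≤ n ^ r → ∀ (x : Fin N → G) (H : Fin N → AddSubgroup G)
      (m : Fin N → ℕ) (W : Finset (Fin N)), Cfg n δ η₀ (1 + ε) x H m W → ¬ Sol n x H m W →
    ∃ (ξ : G →+ ZMod n) (c₁ : Fin N) (k : Fin N → ℤ), c₁ ∈ W ∧ (∀ g ∈ HW H W, ξ g = 0) ∧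
      (∀ c, |k c| ≤ (w : ℤ)) ∧ k c₁ = 0 ∧ (∀ c, c ∉ W → k c = 0) ∧
      (∀ c ∈ W, ξ (x c - x c₁) = (k c : ZMod n)) ∧ (∃ c ∈ W, k c ≠ 0) ∧
      (∃ g ∈ DW x H W, ξ g ≠ 0 ∧ (ξ g).valMinAbs.natAbs ≤ w) ∧
      ∀ j : ℤ, DW x H (W.filter fun c => k c = j) ≤ DW x H W ⊓ ξ.ker := by
  classical
  set θ : ℝ := min (η₀ / 8) (η₀ * ε / (1 + ε)) with hθdef
  have h1ε : 0 < 1 + ε := by linarith
  have hθ : 0 < θ := lt_min (by positivity) (by positivity)
  obtain ⟨w₀, hw₀⟩ := gstep.{u} N 0 r hr θ hθ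
  obtain ⟨w', n₀, hn₀⟩ := hw₀ (max w₀ 1) (le_max_left _ _)
  refine ⟨w', max n₀ 1, fun n hn G _ _ hG hcard x H m W hC hS => ?_⟩
  have hn1 : 1 ≤ n := le_trans (le_max_right _ _) hn
  have hnn : n₀ ≤ n := le_trans (le_max_left _ _) hn
  have hnR : (1 : ℝ) ≤ n := by exact_mod_cast hn1
  have hn0 : (0 : ℝ) < n := by linarith
  set M : ℝ := ∑ c ∈ W, (m c : ℝ) with hM
  have hMlow : (1 + ε) * n ≤ M := hC.tot
  have hMup : M ≤ 8 * n := hC.tot8
  have hM0 : 0 < M := lt_of_lt_of_le (by positivity) hMlow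
  have hWne : W.Nonempty := by
    rw [Finset.nonempty_iff_ne_empty]
    intro h
    rw [hM, h, Finset.sum_empty] at hM0
    exact lt_irrefl _ hM0
  obtain ⟨c₁, hc₁⟩ := hWne
  have hp : ∀ c : Fin N, (fun _ : Fin N => ((0, 0) : ℤ × ℤ)) c ∈ box 0 := by
    intro c
    show ((0, 0) : ℤ × ℤ) ∈ box 0
    unfold R3X.box
    simp
  have key := hn₀ n hnn G hG hcard x H m W (fun _ => ((0, 0) : ℤ × ℤ)) hp
    (fun c => if c = c₁ then 1 else 0) (0, 0) (fun c => if c ∈ W then (m c : ℝ) / M else 0)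
    (fun c hc => by
      show (if c = c₁ then (1 : ℤ) else 0) = 0
      rw [if_neg]
      rintro rfl
      exact hc hc₁) (by simp) (by simp) (by simp)
    (fun c hc => if_neg hc) (fun c hc => by
      simp only [if_pos hc]
      have hmc := hC.hm c hc
      constructor
      · calc θ ≤ η₀ / 8 := min_le_left _ _
          _ = η₀ * n / (8 * n) := by field_simp
          _ ≤ (m c : ℝ) / M := by
            rw [div_le_div_iff₀ (by positivity) hM0]
            calc η₀ * n * M ≤ η₀ * n * (8 * n) := by gcongr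
              _ ≤ m c * (8 * n) := by gcongr
      · have h1 : (m c : ℝ) / M * n ≤ m c / (1 + ε) := by
          rw [div_mul_eq_mul_div, div_le_div_iff₀ hM0 h1ε]
          calc (m c : ℝ) * n * (1 + ε) = m c * ((1 + ε) * n) := by ring
            _ ≤ m c * M := by gcongr
        have h2 : θ * n ≤ m c * ε / (1 + ε) := by
          calc θ * n ≤ η₀ * ε / (1 + ε) * n := by
                gcongr
                exact min_le_right _ _
            _ = (η₀ * n) * ε / (1 + ε) := by ring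
            _ ≤ m c * ε / (1 + ε) := by gcongr
        calc ((m c : ℝ) / M + θ) * n = (m c : ℝ) / M * n + θ * n := by ring
          _ ≤ m c / (1 + ε) + m c * ε / (1 + ε) := add_le_add h1 h2
          _ = m c := by field_simp)
    (by
      rw [← Finset.sum_filter]
      simp only [Finset.filter_mem_eq_inter, Finset.univ_inter]
      rw [← Finset.sum_div, ← hM, div_self hM0.ne'])
    (by simp) (by simp)
  rcases key with hsol | ⟨ξ, hξH, hξw, z, hzV, hzw, hz0⟩
  · exact absurd hsol hS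
  have hdlV : ∀ c ∈ W, CHARKM.dl c c₁ ∈ VW (fun _ => ((0, 0) : ℤ × ℤ)) W := by
    intro c hc
    rw [mem_VW]
    refine ⟨fun i hi => CHARKM.dl_off hc hc₁ i hi, CHARKM.sum_dl c c₁, by simp, by simp⟩
  have hval : ∀ c ∈ W, (ξ (x c - x c₁)).valMinAbs.natAbs ≤ w' := by
    intro c hc
    have h := hξw _ (hdlV c hc) (fun i => (CHARKM.abs_dl c c₁ i).trans (by
      have := le_max_right w₀ 1
      exact_mod_cast this))
    rwa [CHARKM.xs_dl] at h
  have hsubD : ∀ c ∈ W, ∀ c' ∈ W, x c - x c' ∈ DW x H W := fun c hc c' hc' =>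
    AddSubgroup.mem_sup_left (AddSubgroup.subset_closure ⟨c, hc, c', hc', rfl⟩)
  refine ⟨ξ, c₁, fun c => if c ∈ W then (ξ (x c - x c₁)).valMinAbs else 0, hc₁, hξH, ?_, ?_, ?_, ?_,
    ?_, ?_, ?_⟩
  · intro c
    by_cases hc : c ∈ W
    · simp only [if_pos hc]
      have := hval c hc
      rw [Int.abs_eq_natAbs]
      exact_mod_cast this
    · simp only [if_neg hc, abs_zero]
      exact_mod_cast Nat.zero_le _
  · simp
  · intro c hc
    simp only [if_neg hc]
  · intro c hc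
    simp only [if_pos hc]
    exact (ZMod.coe_valMinAbs _).symm
  · by_contra hcon
    push Not at hcon
    apply hz0
    have hzero : ∀ c ∈ W, ξ (x c - x c₁) = 0 := by
      intro c hc
      have h := hcon c hc
      simp only [if_pos hc] at h
      exact (ZMod.valMinAbs_eq_zero _).1 h
    obtain ⟨hz1, hz2, -, -⟩ := mem_VW.1 hzV
    have hx : xs x z = ∑ c, z c • (x c - x c₁) := by
      simp only [smul_sub, Finset.sum_sub_distrib]
      rw [← Finset.sum_smul, hz2, zero_smul, sub_zero]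
      rfl
    rw [hx, map_sum]
    refine Finset.sum_eq_zero fun c _ => ?_
    rw [map_zsmul]
    by_cases hc : c ∈ W
    · rw [hzero c hc, smul_zero]
    · rw [hz1 c hc, zero_smul]
  · obtain ⟨c, hc, hk⟩ : ∃ c ∈ W, ξ (x c - x c₁) ≠ 0 := by
      by_contra hcon
      push Not at hcon
      apply hz0
      obtain ⟨hz1, hz2, -, -⟩ := mem_VW.1 hzV
      have hx : xs x z = ∑ c, z c • (x c - x c₁) := by
        simp only [smul_sub, Finset.sum_sub_distrib]
        rw [← Finset.sum_smul, hz2, zero_smul, sub_zero]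
        rfl
      rw [hx, map_sum]
      refine Finset.sum_eq_zero fun c _ => ?_
      rw [map_zsmul]
      by_cases hc : c ∈ W
      · rw [hcon c hc, smul_zero]
      · rw [hz1 c hc, zero_smul]
    exact ⟨_, hsubD c hc c₁ hc₁, hk, hval c hc⟩
  · intro j
    unfold DW
    refine sup_le ?_ ?_
    · rw [AddSubgroup.closure_le]
      rintro y ⟨c, hc, c', hc', rfl⟩
      rw [Finset.mem_filter] at hc hc'
      obtain ⟨hcW, hcj⟩ := hc
      obtain ⟨hcW', hcj'⟩ := hc'
      simp only [if_pos hcW] at hcj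
      simp only [if_pos hcW'] at hcj'
      refine AddSubgroup.mem_inf.2 ⟨hsubD c hcW c' hcW', AddMonoidHom.mem_ker.2 ?_⟩
      have e1 : ξ (x c - x c₁) = (j : ZMod n) := by rw [← hcj, ZMod.coe_valMinAbs]
      have e2 : ξ (x c' - x c₁) = (j : ZMod n) := by rw [← hcj', ZMod.coe_valMinAbs]
      have e3 : x c - x c' = (x c - x c₁) - (x c' - x c₁) := by abel
      rw [e3, map_sub, e1, e2, sub_self]
    · refine (HW_mono (Finset.filter_subset _ _)).trans ?_
      intro g hg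
      exact AddSubgroup.mem_inf.2 ⟨AddSubgroup.mem_sup_right hg, AddMonoidHom.mem_ker.2 (hξH g hg)⟩

end Pool.Agent.Lib.MPa7239a.RN
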