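import Pool.Agent.Lib.MP_a7239a_co.RN.MEDIAN
import Pool.Agent.Lib.MP_a7239a_co.RN.GSTEP
import Pool.Agent.Lib.MP_a7239a_co.RN.CHARK
import Pool.Agent.Lib.MP_a7239a_co.RN.LEVONE

/-!
# RN, module CHARTWO: the second character
-/

set_option autoImplicit false

universe u

open Finset
open scoped Pointwise

namespace Pool.Agent.Lib.MPa7239a.RN

open Pool.Agent.Lib.MPa7239a.GC (Hit)
open Pool.Agent.Lib.MPa7239a.R3X (box lf Avg InLat Free)

namespace CHARTWOM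

variable {G : Type u} [AddCommGroup G] {N : ℕ}

/-- the value of a vector of sum zero with support in `W` -/
theorem xs_eq {x : Fin N → G} {z : Fin N → ℤ} (hz : ∑ c, z c = 0) (c₁ : Fin N) :
    xs x z = ∑ c, z c • (x c - x c₁) := by
  simp only [smul_sub, sum_sub_distrib]
  rw [← sum_smul, hz, zero_smul, sub_zero]
  rfl

theorem mem_DW {x : Fin N → G} {H : Fin N → AddSubgroup G} {W : Finset (Fin N)} {z : Fin N → ℤ}
    (hz : ∑ c, z c = 0) (hW : ∀ c, c ∉ W → z c = 0) {c₁ : Fin N} (h1 : c₁ ∈ W) :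
    xs x z ∈ DW x H W := by
  rw [xs_eq hz c₁]
  refine AddSubgroup.sum_mem _ fun c _ => ?_
  by_cases hc : c ∈ W
  · refine AddSubgroup.zsmul_mem _ ?_ _
    exact AddSubgroup.mem_sup_left (AddSubgroup.subset_closure ⟨c, hc, c₁, h1, rfl⟩)
  · rw [hW c hc, zero_smul]
    exact AddSubgroup.zero_mem _

/-- small integers in `ZMod n` -/
theorem small {n : ℕ} (hn : 0 < n) {a : ℤ} {b : ℕ} (ha : a.natAbs ≤ b) (hb : 2 * b < n) :
    ((a : ZMod n)).valMinAbs = a := by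
  have : NeZero n := ⟨hn.ne'⟩
  refine (ZMod.valMinAbs_spec (a : ZMod n) a).2 ⟨rfl, ?_⟩
  constructor <;> omega

theorem mem_box' {K : ℕ} {v : ℤ × ℤ} : v ∈ box K ↔ |v.1| ≤ (K : ℤ) ∧ |v.2| ≤ (K : ℤ) := by
  unfold Pool.Agent.Lib.MPa7239a.R3X.box
  rw [mem_product, mem_Icc, mem_Icc, abs_le, abs_le]

/-- the vector of the cell `c` -/
def vec (k : Fin N → ℤ) (c₁ c₂ c : Fin N) : Fin N → ℤ :=
  k c₂ • Pi.single c 1 - k c • Pi.single c₂ 1 + (k c - k c₂) • Pi.single c₁ 1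

theorem sum_single_mul (c : Fin N) (f : Fin N → ℤ) :
    ∑ j, (Pi.single c 1 : Fin N → ℤ) j * f j = f c := by
  rw [Finset.sum_eq_single c]
  · simp
  · intro b _ hb
    simp [Pi.single_eq_of_ne hb]
  · intro h
    exact absurd (mem_univ _) h

theorem sum_vec (k f : Fin N → ℤ) (c₁ c₂ c : Fin N) :
    ∑ j, vec k c₁ c₂ c j * f j = k c₂ * f c - k c * f c₂ + (k c - k c₂) * f c₁ := by
  simp only [vec, Pi.add_apply, Pi.sub_apply, Pi.smul_apply, smul_eq_mul, add_mul, sub_mul,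
    sum_add_distrib, sum_sub_distrib, mul_assoc, ← mul_sum, sum_single_mul]

theorem xs_single (x : Fin N → G) (c : Fin N) : xs x (Pi.single c 1) = x c := by
  unfold xs
  rw [Finset.sum_eq_single c]
  · simp
  · intro b _ hb
    simp [Pi.single_eq_of_ne hb]
  · intro h
    exact absurd (mem_univ _) h

theorem xs_vec (x : Fin N → G) (k : Fin N → ℤ) (c₁ c₂ c : Fin N) :
    xs x (vec k c₁ c₂ c) = k c₂ • (x c - x c₁) - k c • (x c₂ - x c₁) := by
  unfold vec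
  rw [xs_add, xs_sub, xs_smul, xs_smul, xs_smul, xs_single, xs_single, xs_single]
  simp only [sub_smul, smul_sub]
  abel

theorem single_bd (c j : Fin N) : |(Pi.single c 1 : Fin N → ℤ) j| ≤ 1 := by
  by_cases h : j = c
  · subst h; simp
  · simp [Pi.single_eq_of_ne h]

theorem vec_bd {k : Fin N → ℤ} {w : ℕ} (hk : ∀ c, |k c| ≤ (w : ℤ)) (c₁ c₂ c j : Fin N) :
    |vec k c₁ c₂ c j| ≤ ((4 * w : ℕ) : ℤ) := by
  have h1 := single_bd c j
  have h2 := single_bd c₂ j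
  have h3 := single_bd c₁ j
  have e : vec k c₁ c₂ c j = k c₂ * (Pi.single c 1 : Fin N → ℤ) j -
      k c * (Pi.single c₂ 1 : Fin N → ℤ) j +
      (k c - k c₂) * (Pi.single c₁ 1 : Fin N → ℤ) j := by
    simp [vec]
  rw [e]
  have a1 : |k c₂ * (Pi.single c 1 : Fin N → ℤ) j| ≤ w := by
    rw [abs_mul]
    calc |k c₂| * |(Pi.single c 1 : Fin N → ℤ) j| ≤ w * 1 :=
          mul_le_mul (hk c₂) h1 (abs_nonneg _) (by positivity)
      _ = w := mul_one _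
  have a2 : |k c * (Pi.single c₂ 1 : Fin N → ℤ) j| ≤ w := by
    rw [abs_mul]
    calc |k c| * |(Pi.single c₂ 1 : Fin N → ℤ) j| ≤ w * 1 :=
          mul_le_mul (hk c) h2 (abs_nonneg _) (by positivity)
      _ = w := mul_one _
  have a4 : |k c - k c₂| ≤ 2 * w := by
    have := abs_sub (k c) (k c₂)
    have b1 := hk c
    have b2 := hk c₂
    linarith
  have a3 : |(k c - k c₂) * (Pi.single c₁ 1 : Fin N → ℤ) j| ≤ 2 * w := by
    rw [abs_mul]
    calc |k c - k c₂| * |(Pi.single c₁ 1 : Fin N → ℤ) j| ≤ (2 * w) * 1 :=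
          mul_le_mul a4 h3 (abs_nonneg _) (by positivity)
      _ = 2 * w := mul_one _
  push_cast
  rw [abs_le] at a1 a2 a3 ⊢
  constructor <;> linarith [a1.1, a1.2, a2.1, a2.2, a3.1, a3.2]

theorem vec_mem {k : Fin N → ℤ} {W : Finset (Fin N)} {c₁ c₂ c : Fin N} (h1 : c₁ ∈ W)
    (h2 : c₂ ∈ W) (hc : c ∈ W) (hk : k c₁ = 0) :
    vec k c₁ c₂ c ∈ VW (fun c => (k c, 0)) W := by
  rw [mem_VW]
  refine ⟨?_, ?_, ?_, ?_⟩
  · intro j hj
    have e1 : j ≠ c := fun h => hj (h ▸ hc)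
    have e2 : j ≠ c₁ := fun h => hj (h ▸ h1)
    have e3 : j ≠ c₂ := fun h => hj (h ▸ h2)
    simp [vec, Pi.single_eq_of_ne e1, Pi.single_eq_of_ne e2, Pi.single_eq_of_ne e3]
  · have := sum_vec k (fun _ => 1) c₁ c₂ c
    simp only [mul_one] at this
    rw [this]
    ring
  · have := sum_vec k k c₁ c₂ c
    dsimp only
    rw [this, hk]
    ring
  · simp

end CHARTWOM

open CHARTWOM in
theorem char_two (N r : ℕ) (hr : 1 ≤ r) (δ η₀ ε : ℝ) (hδ : 0 < δ) (hη : 0 < η₀) (hε : 0 < ε) :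
    ∃ w n₀ : ℕ, ∀ n : ℕ, n₀ ≤ n → ∀ (G : Type u) [AddCommGroup G] [Finite G],
    (∀ g : G, n • g = 0) → Nat.card G ≤ n ^ r → ∀ (x : Fin N → G) (H : Fin N → AddSubgroup G)
      (m : Fin N → ℕ) (W : Finset (Fin N)), Cfg n δ η₀ (4 * (1 + ε)) x H m W →
    ¬ Ind n w δ 3 (DW x H W) → ¬ Sol n x H m W →
    ∃ (ξ η : G →+ ZMod n) (c₁ : Fin N) (p : Fin N → ℤ × ℤ) (g g' : G), c₁ ∈ W ∧
      (∀ y ∈ HW H W, ξ y = 0 ∧ η y = 0) ∧ (∀ c, p c ∈ box w) ∧
      (∀ c ∈ W, ξ (x c - x c₁) = ((p c).1 : ZMod n) ∧ η (x c - x c₁) = ((p c).2 : ZMod n)) ∧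
      g ∈ DW x H W ∧ g' ∈ DW x H W ∧ ξ g ≠ 0 ∧ (ξ g).valMinAbs.natAbs ≤ w ∧
      (η g).valMinAbs.natAbs ≤ w ∧ ξ g' = 0 ∧ η g' ≠ 0 ∧ (η g').valMinAbs.natAbs ≤ w := by
  classical
  obtain ⟨w₁, n₁, h1⟩ := char_one.{u} N r hr δ η₀ ε hδ hη hε
  obtain ⟨w₂, n₂, h2⟩ := lev_one.{u} N r hr δ η₀ ε hδ hη hε
  obtain ⟨θ, hθ, h3⟩ := median N w₁ η₀ ε hη hε
  obtain ⟨w₀, h4⟩ := gstep.{u} N w₁ r hr θ hθ
  obtain ⟨w', n₃, h5⟩ := h4 (max w₀ (4 * w₁)) (le_max_left _ _)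
  refine ⟨w₁ + w₂ + w' + w₁ * w',
    n₁ + n₂ + n₃ + 2 * (w₁ + w' + w₁ * w') + 1, fun n hn G _ _ hG hc x H m W hcfg hD hns => ?_⟩
  have hn0 : 0 < n := by omega
  have : NeZero n := ⟨hn0.ne'⟩
  have hcfg1 : Cfg n δ η₀ (1 + ε) x H m W := by
    refine ⟨hcfg.hm, hcfg.hH, ?_, hcfg.tot8⟩
    refine le_trans ?_ hcfg.tot
    have : (0 : ℝ) ≤ (1 + ε) * n := by positivity
    nlinarith
  obtain ⟨ξ, c₁, k, hc1, hξH, hk, hk1, hk0, hξ, ⟨c₂, hc2, hkc2⟩,
    ⟨g₀, hg₀, hg₀0, hg₀w⟩, hlev⟩ :=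
    h1 n (by omega) G hG hc x H m W hcfg1 hns
  -- the level sets are small
  have hhalf : ∀ j : ℤ, 2 * ∑ c ∈ W with k c = j, (m c : ℝ) < ∑ c ∈ W, (m c : ℝ) := by
    intro j
    by_contra hcon
    rw [not_lt] at hcon
    apply hns
    refine Sol.mono (filter_subset (fun c => k c = j) W) ?_
    refine h2 n (by omega) G hG hc x H m (W.filter fun c => k c = j) ⟨?_, ?_, ?_, ?_⟩ ?_
    · exact fun c hc => hcfg.hm c (mem_filter.1 hc).1
    · exact fun c hc => hcfg.hH c (mem_filter.1 hc).1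
    · have := hcfg.tot
      linarith
    · refine le_trans ?_ hcfg.tot8
      exact sum_le_sum_of_subset_of_nonneg (filter_subset _ _) fun _ _ _ => Nat.cast_nonneg _
    · intro hInd
      apply hD
      refine ⟨ξ, g₀, hg₀, hg₀0, by omega, ?_⟩
      exact hInd.mono (by omega) le_rfl (hlev j)
  obtain ⟨c₀, hc0, β, hβ0, hβ, hβ1, hβk⟩ := h3 n hn0 m k W hcfg.hm (fun c _ => hk c) (by
    refine le_trans ?_ hcfg.tot
    have : (0 : ℝ) ≤ (1 + ε) * n := by positivity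
    nlinarith) hcfg.tot8 hhalf
  have hbox : ∀ c, ((k c, 0) : ℤ × ℤ) ∈ box w₁ := by
    intro c
    rw [mem_box']
    refine ⟨hk c, ?_⟩
    simp
  rcases h5 n (by omega) G hG hc x H m W (fun c => (k c, 0)) hbox (Pi.single c₀ 1) (k c₀, 0) β
    (fun c hc => Pi.single_eq_of_ne (fun h => hc (by rw [h]; exact hc0)) _)
    (by simpa using sum_single_mul c₀ (fun _ => 1))
    (by simpa using sum_single_mul c₀ k) (by simp) hβ0 hβ hβ1 hβk (by simp) with h6 | h6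
  · exact absurd h6 hns
  obtain ⟨ξ₂, hξ₂H, hsm, z, hz, hzb, hz0⟩ := h6
  set s := ξ₂ (x c₂ - x c₁) with hs
  set η : G →+ ZMod n := k c₂ • ξ₂ - (AddMonoidHom.mulLeft s).comp ξ with hη'
  have hηa : ∀ y, η y = (k c₂ : ZMod n) * ξ₂ y - s * ξ y := by
    intro y
    simp [hη']
  have hηx : ∀ c ∈ W, η (x c - x c₁) = ξ₂ (xs x (vec k c₁ c₂ c)) := by
    intro c hc
    rw [hηa, xs_vec, map_sub ξ₂ (k c₂ • (x c - x c₁)), map_zsmul, map_zsmul, ← hs, hξ c hc]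
    simp only [zsmul_eq_mul]
    ring
  have hηsm : ∀ c ∈ W, (η (x c - x c₁)).valMinAbs.natAbs ≤ w' := by
    intro c hc
    rw [hηx c hc]
    refine hsm _ (vec_mem hc1 hc2 hc hk1) fun j => (vec_bd hk c₁ c₂ c j).trans ?_
    exact_mod_cast le_max_right _ _
  obtain ⟨z1, z2, z3, -⟩ := mem_VW.1 hz
  have hξz : ξ (xs x z) = 0 := by
    rw [xs_eq z2 c₁, map_sum]
    have e1 : ∀ c, ξ (z c • (x c - x c₁)) = ((z c * k c : ℤ) : ZMod n) := by
      intro c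
      by_cases hc : c ∈ W
      · rw [map_zsmul, hξ c hc]
        push_cast
        simp
      · rw [z1 c hc]
        simp
    rw [sum_congr rfl fun c _ => e1 c, ← Int.cast_sum]
    dsimp only at z3
    rw [z3, Int.cast_zero]
  set t := (ξ₂ (xs x z)).valMinAbs with ht
  have ht0 : t ≠ 0 := fun h => hz0 ((ZMod.valMinAbs_eq_zero _).1 h)
  have htb : t.natAbs ≤ w' := hsm z hz fun j => (hzb j)
  have htc : ξ₂ (xs x z) = (t : ZMod n) := (ZMod.coe_valMinAbs _).symm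
  have hkb : (k c₂).natAbs ≤ w₁ := by
    have := hk c₂
    rw [Int.abs_eq_natAbs] at this
    omega
  have hηz : η (xs x z) = ((k c₂ * t : ℤ) : ZMod n) := by
    rw [hηa, hξz, mul_zero, sub_zero, htc]
    push_cast
    ring
  have hprod : (k c₂ * t).natAbs ≤ w₁ * w' := by
    rw [Int.natAbs_mul]
    exact Nat.mul_le_mul hkb htb
  have hvz : (η (xs x z)).valMinAbs = k c₂ * t := by
    rw [hηz]
    exact small hn0 hprod (by omega)
  have hξg : (ξ (x c₂ - x c₁)).valMinAbs = k c₂ := by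
    rw [hξ c₂ hc2]
    exact small hn0 hkb (by omega)
  refine ⟨ξ, η, c₁, fun c => (k c, if c ∈ W then (η (x c - x c₁)).valMinAbs else 0),
    x c₂ - x c₁, xs x z, hc1, ?_, ?_, ?_, ?_, ?_, ?_, ?_, ?_, hξz, ?_, ?_⟩
  · intro y hy
    refine ⟨hξH y hy, ?_⟩
    rw [hηa, hξH y hy, hξ₂H y hy]
    simp
  · intro c
    rw [mem_box']
    have e1 := hk c
    have e2 : ((if c ∈ W then (η (x c - x c₁)).valMinAbs else 0 : ℤ)).natAbs ≤ w' := by
      split_ifs with hc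
      · exact hηsm c hc
      · simp
    dsimp only
    have e3 : (0 : ℤ) ≤ (w₁ : ℤ) * w' := by positivity
    push_cast
    refine ⟨by omega, ?_⟩
    rw [Int.abs_eq_natAbs]
    omega
  · intro c hc
    refine ⟨hξ c hc, ?_⟩
    dsimp only
    rw [if_pos hc, ZMod.coe_valMinAbs]
  · exact AddSubgroup.mem_sup_left (AddSubgroup.subset_closure ⟨c₂, hc2, c₁, hc1, rfl⟩)
  · exact mem_DW z2 z1 hc1
  · intro h
    rw [h, ZMod.valMinAbs_zero] at hξg
    exact hkc2 hξg.symm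
  · rw [hξg]
    omega
  · have := hηsm c₂ hc2
    omega
  · intro h
    rw [h, ZMod.valMinAbs_zero] at hvz
    exact mul_ne_zero hkc2 ht0 hvz.symm
  · rw [hvz]
    omega

end Pool.Agent.Lib.MPa7239a.RN
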