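import Pool.Agent.Lib.MP_a7239a_co.RN.Defs
import Mathlib.Combinatorics.Additive.RuzsaCovering

/-!
# Module COVER (helper32): doubling of `ks S m`, by Ruzsa's covering lemma
-/

set_option autoImplicit false

open Finset
open scoped Pointwise

namespace Pool.Agent.Lib.MPa7239a.RN

namespace COVERM

variable {G : Type*} [AddCommGroup G] [DecidableEq G]

/-- the elements of `ks X k` as combinations of the elements of `X` -/
theorem rep (X : Finset G) (k : ℕ) :
    ∀ y ∈ ks X k, ∃ n : G → ℕ, ∑ x ∈ X, n x = k ∧ ∑ x ∈ X, n x • x = y := by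
  induction k with
  | zero =>
    intro y hy
    rw [ks_zero, mem_singleton] at hy
    exact ⟨fun _ => 0, by simp, by simp [hy]⟩
  | succ k ih =>
    intro y hy
    rw [ks_succ, mem_add] at hy
    obtain ⟨u, hu, x₀, hx₀, rfl⟩ := hy
    obtain ⟨n, h1, h2⟩ := ih u hu
    refine ⟨fun x => n x + if x = x₀ then 1 else 0, ?_, ?_⟩
    · rw [sum_add_distrib, h1, sum_ite_eq' X x₀, if_pos hx₀]
    · simp only [add_smul, sum_add_distrib, h2, ite_smul, one_smul, zero_smul]
      rw [sum_ite_eq' X x₀, if_pos hx₀]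

/-- small combinations of elements of `ks S 3` -/
theorem comb {S : Finset G} (h0 : 0 ∈ S) {X : Finset G} (hX : X ⊆ ks S 3) (b : G → ℕ) :
    ∑ x ∈ X, b x • x ∈ ks S (3 * ∑ x ∈ X, b x) := by
  induction X using Finset.induction_on with
  | empty => simp
  | insert a X ha ih =>
    rw [sum_insert ha, sum_insert ha, mul_add, ks_add]
    refine add_mem_add ?_ (ih fun x hx => hX (mem_insert_of_mem hx))
    rw [ks_mul]
    have h3 : a ∈ ks S 3 := hX (mem_insert_self a X)
    exact nsmul_mem_ks (zero_mem_ks h0 3) h3 le_rfl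

end COVERM

theorem cover {G : Type*} [AddCommGroup G] [DecidableEq G] {S : Finset G} (h0 : 0 ∈ S)
    (hs : ∀ s ∈ S, -s ∈ S) {K : ℕ} (hK : #(ks S 4) ≤ K * #S) {m : ℕ} (hm : 3 * K ≤ m) :
    #(ks S (2 * m)) ≤ (12 * K + 1) ^ K * #(ks S m) := by
  have hS : S.Nonempty := ⟨0, h0⟩
  have hK1 : 1 ≤ K := by
    rcases Nat.eq_zero_or_pos K with h | h
    · rw [h, zero_mul] at hK
      have := card_pos.2 (ks_nonempty h0 4)
      omega
    · exact h
  -- the covering set
  obtain ⟨X, hX3, hXK, hcov⟩ : ∃ X ⊆ ks S 3, #X ≤ K ∧ ks S 3 ⊆ X + ks S 2 := by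
    have hKr : ((#(ks S 3 + S) : ℕ) : ℝ) ≤ (K : ℝ) * (#S : ℕ) := by
      rw [← ks_succ]
      exact_mod_cast hK
    obtain ⟨F, hF1, hF2, hF3⟩ := ruzsa_covering_add (A := ks S 3) (B := S) hS hKr
    refine ⟨F, hF1, by exact_mod_cast hF2, hF3.trans ?_⟩
    have h2 : S - S ⊆ ks S 2 := by
      intro y hy
      obtain ⟨a, ha, b, hb, rfl⟩ := mem_sub.1 hy
      rw [show (2 : ℕ) = 1 + 1 from rfl, ks_succ, ks_one, sub_eq_add_neg]
      exact add_mem_add ha (hs b hb)
    exact add_subset_add_left h2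
  -- the induction
  have hind : ∀ k : ℕ, ks S (k + 2) ⊆ ks X k + ks S 2 := by
    intro k
    induction k with
    | zero =>
      intro y hy
      rw [ks_zero, singleton_zero, zero_add]
      simpa using hy
    | succ k ih =>
      have e1 : ks S (k + 1 + 2) = ks S (k + 2) + S := by
        rw [show k + 1 + 2 = (k + 2) + 1 by ring, ks_succ]
      have e2 : ks X k + ks S 2 + S = ks X k + ks S 3 := by
        rw [add_assoc, show (3 : ℕ) = 2 + 1 from rfl, ks_succ S 2]
      rw [e1]
      calc ks S (k + 2) + S ⊆ ks X k + ks S 2 + S := add_subset_add_right ih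
        _ = ks X k + ks S 3 := e2
        _ ⊆ ks X k + (X + ks S 2) := add_subset_add_left hcov
        _ = ks X (k + 1) + ks S 2 := by rw [ks_succ X k, add_assoc]
  -- the parameters
  set q := m / (3 * K) with hq
  have h3K : 0 < 3 * K := by omega
  have hq1 : 1 ≤ q := (Nat.one_le_div_iff h3K).2 hm
  have hqm : 3 * K * q ≤ m := Nat.mul_div_le m (3 * K)
  have hmq : m < 6 * K * q := by
    have h1 : m < 3 * K * (q + 1) := by
      rw [hq]; exact Nat.lt_mul_div_succ m h3K
    calc m < 3 * K * (q + 1) := h1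
      _ ≤ 3 * K * (q + q) := Nat.mul_le_mul_left _ (by omega)
      _ = 6 * K * q := by ring
  classical
  -- the set P
  set P : Finset G := univ.image
    (fun a : X → Fin (12 * K + 1) => ∑ x : X, (q * (a x : ℕ)) • (x : G)) with hP
  have hPc : #P ≤ (12 * K + 1) ^ K := by
    calc #P ≤ #(univ : Finset (X → Fin (12 * K + 1))) := card_image_le
      _ = (12 * K + 1) ^ #X := by
          rw [card_univ, Fintype.card_fun, Fintype.card_fin, Fintype.card_coe]
      _ ≤ (12 * K + 1) ^ K := Nat.pow_le_pow_right (by omega) hXK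
  have hsub : ks S (2 * m) ⊆ P + ks S m := by
    intro y hy
    have hm2 : 2 * m = (2 * m - 2) + 2 := by omega
    rw [hm2] at hy
    obtain ⟨u, hu, v, hv, rfl⟩ := mem_add.1 (hind _ hy)
    obtain ⟨n, hn1, hn2⟩ := COVERM.rep X _ u hu
    have hnx : ∀ x ∈ X, n x / q < 12 * K + 1 := by
      intro x hx
      have h1 : n x ≤ 2 * m - 2 := by
        rw [← hn1]
        exact single_le_sum (f := n) (fun _ _ => Nat.zero_le _) hx
      have h2 : n x < 12 * K * q := by
        have : 2 * m < 2 * (6 * K * q) := by omega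
        calc n x ≤ 2 * m - 2 := h1
          _ < 2 * (6 * K * q) := by omega
          _ = 12 * K * q := by ring
      have := (Nat.div_lt_iff_lt_mul (by omega : 0 < q)).2 h2
      omega
    refine mem_add.2 ⟨∑ x ∈ X, (q * (n x / q)) • x, ?_, ∑ x ∈ X, (n x % q) • x + v, ?_, ?_⟩
    · rw [hP, mem_image]
      refine ⟨fun x => ⟨n x / q, hnx x x.2⟩, mem_univ _, ?_⟩
      exact (sum_coe_sort X (fun x => (q * (n x / q)) • x))
    · have h1 : ∑ x ∈ X, (n x % q) • x ∈ ks S (3 * (K * (q - 1))) := by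
        refine ks_mono h0 ?_ (COVERM.comb h0 hX3 fun x => n x % q)
        refine Nat.mul_le_mul_left 3 ?_
        calc ∑ x ∈ X, n x % q ≤ ∑ _x ∈ X, (q - 1) := by
              refine sum_le_sum fun x _ => ?_
              have := Nat.mod_lt (n x) (by omega : 0 < q)
              omega
          _ = #X * (q - 1) := by rw [sum_const, smul_eq_mul]
          _ ≤ K * (q - 1) := Nat.mul_le_mul_right _ hXK
      have h2 : ∑ x ∈ X, (n x % q) • x + v ∈ ks S (3 * (K * (q - 1)) + 2) := by
        rw [ks_add]; exact add_mem_add h1 hv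
      refine ks_mono h0 ?_ h2
      obtain ⟨q', hq'⟩ : ∃ q', q = q' + 1 := ⟨q - 1, by omega⟩
      rw [hq'] at hqm ⊢
      rw [Nat.add_sub_cancel]
      nlinarith [hqm, hK1]
    · rw [← add_assoc, ← sum_add_distrib, ← hn2]
      congr 1
      refine sum_congr rfl fun x _ => ?_
      rw [← add_smul, Nat.div_add_mod]
  calc #(ks S (2 * m)) ≤ #(P + ks S m) := card_le_card hsub
    _ ≤ #P * #(ks S m) := card_add_le
    _ ≤ (12 * K + 1) ^ K * #(ks S m) := Nat.mul_le_mul_right _ hPc

end Pool.Agent.Lib.MPa7239a.RN
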