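import Pool.Agent.Lib.MP_a7239a_co.RN.DICH

/-!
# RN, module DECON: decomposition into cells with FullC
-/

set_option autoImplicit false

universe u

open Finset
open scoped Pointwise

namespace Pool.Agent.Lib.MPa7239a.RN

open Pool.Agent.Lib.MPa7239a.GC (Hit)

namespace DECONM

/-- the state -/
structure Stt (r n W : ℕ) {G : Type u} [AddCommGroup G] (A : Finset G) {ι : Type}
    (B : ι → Finset G) (x : ι → G) (H : ι → AddSubgroup G) (d : ι → ℕ) : Prop where
  sub : ∀ c, B c ⊆ A
  disj : ∀ c c', c ≠ c' → Disjoint (B c) (B c')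
  cos : ∀ c, ∀ b ∈ B c, b - x c ∈ H c
  dep : ∀ c, Nat.card (H c) * n ^ d c ≤ W * n ^ r
  dle : ∀ c, d c ≤ r

theorem fullC_empty {G : Type*} [AddCommGroup G] : FullC (∅ : Finset G) 0 ⊥ 0 := by
  refine ⟨fun b hb => absurd hb (notMem_empty b), ?_⟩
  intro k _ hk g hg
  rw [card_empty] at hk
  have hk0 : k = 0 := by omega
  subst hk0
  rw [zero_smul, sub_zero, AddSubgroup.mem_bot] at hg
  subst hg
  exact ⟨∅, subset_rfl, card_empty, sum_empty⟩

/-- the data of one cell -/
structure Cell (n w M f : ℕ) {G : Type u} [AddCommGroup G] (B : Finset G) (H : AddSubgroup G)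
    (t : Bool) (B' : Finset G) (H' : AddSubgroup G) (x' : G) (q : ℕ) (C : Fin (w + 1) → G)
    (idx : G → Fin (w + 1)) : Prop where
  sub : B' ⊆ B
  ls : M * #B ≤ M * #B' + n
  tt : t = true → f * q ≤ n ∧ FullC B' x' H' q
  ff : t = false → n * Nat.card H' ≤ w * Nat.card H ∧ ∀ b ∈ B', b - C (idx b) ∈ H'

theorem exists_cell (r : ℕ) (hr : 1 ≤ r) (M f : ℕ) (hM : 1 ≤ M) : ∃ w n₀ : ℕ, ∀ n : ℕ, n₀ ≤ n →
    ∀ (G : Type u) [AddCommGroup G] [Finite G], (∀ x : G, n • x = 0) → Nat.card G ≤ n ^ r →
    ∀ (H : AddSubgroup G) (x : G) (B : Finset G), (∀ b ∈ B, b - x ∈ H) →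
      ∃ (t : Bool) (B' : Finset G) (H' : AddSubgroup G) (x' : G) (q : ℕ) (C : Fin (w + 1) → G)
        (idx : G → Fin (w + 1)), Cell n w M f B H t B' H' x' q C idx := by
  classical
  obtain ⟨w, n₀, h⟩ := dich.{u} r hr ((f + 1) * M) (Nat.mul_pos (Nat.succ_pos f) hM)
  have key : ∀ a b n : ℕ, (f + 1) * M * a ≤ (f + 1) * M * b + n → M * a ≤ M * b + n := by
    intro a b n hab
    by_contra hc
    have h1 : M * b + n + 1 ≤ M * a := by omega
    have h2 := Nat.mul_le_mul_left (f + 1) h1
    have h3 : (f + 1) * (M * b + n + 1) = (f + 1) * M * b + n + (f * n + f + 1) := by ring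
    have h4 : (f + 1) * (M * a) = (f + 1) * M * a := by ring
    omega
  refine ⟨w, n₀, fun n hn G _ _ hG hc H x B hB => ?_⟩
  rcases h n hn G hG hc H x B hB with ⟨H', x', B', q, -, hs, hl, hq, hf⟩ |
    ⟨L, C, -, hL, hC, B', hs, hl, hB'⟩
  · refine ⟨true, B', H', x', q, fun _ => 0, fun _ => 0, hs, key _ _ _ hl, fun _ => ⟨?_, hf⟩,
      fun h => absurd h (by decide)⟩
    refine le_trans ?_ hq
    refine Nat.mul_le_mul_right q ?_
    calc f ≤ f + 1 := Nat.le_succ f
      _ = (f + 1) * 1 := (mul_one _).symm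
      _ ≤ (f + 1) * M := Nat.mul_le_mul_left _ hM
  · have hy : ∀ b : G, ∃ y : G, b ∈ B' → y ∈ C ∧ b - y ∈ L := by
      intro b
      by_cases hb : b ∈ B'
      · obtain ⟨y, h1, h2⟩ := hB' b hb
        exact ⟨y, fun _ => ⟨h1, h2⟩⟩
      · exact ⟨0, fun h => absurd h hb⟩
    choose Y hY using hy
    set c : Fin (w + 1) → G := fun i => if h : (i : ℕ) < #C then (C.equivFin.symm ⟨i, h⟩ : G) else 0
      with hc'
    have hi : ∀ y : G, ∃ i : Fin (w + 1), y ∈ C → c i = y := by
      intro y
      by_cases hy : y ∈ C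
      · have h1 : ((C.equivFin ⟨y, hy⟩ : Fin #C) : ℕ) < #C := (C.equivFin ⟨y, hy⟩).2
        refine ⟨⟨(C.equivFin ⟨y, hy⟩ : Fin #C), by omega⟩, fun _ => ?_⟩
        simp only [hc']
        rw [dif_pos h1]
        simp
      · exact ⟨0, fun h => absurd h hy⟩
    choose I hI using hi
    refine ⟨false, B', L, 0, 0, c, fun b => I (Y b), hs, key _ _ _ hl,
      fun h => absurd h (by decide), fun _ => ⟨hL, fun b hb => ?_⟩⟩
    have h1 := hY b hb
    rw [hI (Y b) h1.1]
    exact h1.2

/-- sums over the parts of one cell -/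
theorem sum_parts {G : Type u} {w : ℕ} (B : Finset G) (idx : G → Fin (w + 1)) :
    ∑ i : Fin (w + 1), #(B.filter fun b => idx b = i) = #B := by
  classical
  exact (card_eq_sum_card_fiberwise (f := idx) (s := B) (t := univ)
    (fun _ _ => mem_coe.2 (mem_univ _))).symm

theorem sum_first {G : Type u} {w : ℕ} (B : Finset G) :
    ∑ i : Fin (w + 1), #(if i = 0 then B else ∅) = #B := by
  rw [sum_eq_single (0 : Fin (w + 1))]
  · rw [if_pos rfl]
  · intro i _ hi
    rw [if_neg hi, card_empty]
  · intro h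
    exact absurd (mem_univ _) h

theorem round (r : ℕ) (hr : 1 ≤ r) (e l : ℕ) (he : 1 ≤ e) (hl : 1 ≤ l) (F : ℕ → ℕ) (K W : ℕ) :
    ∃ w n₀ : ℕ, ∀ n : ℕ, n₀ ≤ n → 1 ≤ n →
    ∀ (G : Type u) [AddCommGroup G] [Finite G], (∀ x : G, n • x = 0) → Nat.card G ≤ n ^ r →
    ∀ (A : Finset G) (ι : Type) [Fintype ι] (B : ι → Finset G) (x : ι → G)
      (H : ι → AddSubgroup G) (d : ι → ℕ), Fintype.card ι = K → Stt r n W A B x H d →
      (∃ (B' : ι → Finset G) (x' : ι → G) (H' : ι → AddSubgroup G) (q : ι → ℕ),
        (∀ j, B' j ⊆ B j) ∧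
        4 * e * l * ∑ j, #(B j) ≤ 4 * e * l * ∑ j, #(B' j) + (l + 1) * n ∧
        ∀ j, F K * q j ≤ n ∧ FullC (B' j) (x' j) (H' j) (q j)) ∨
      ∃ (B' : ι × Fin (w + 1) → Finset G) (x' : ι × Fin (w + 1) → G)
        (H' : ι × Fin (w + 1) → AddSubgroup G) (d' : ι × Fin (w + 1) → ℕ),
        Stt r n ((w + 1) * W) A B' x' H' d' ∧ l * ∑ j, #(B j) ≤ l * ∑ c, #(B' c) + n ∧
        8 * e * ∑ c, #(B' c) * (r - d' c) + n ≤ 8 * e * ∑ j, #(B j) * (r - d j) := by
  classical
  set M := 16 * e * l * (K + 1) with hM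
  have hM1 : 1 ≤ M := Nat.mul_pos (Nat.mul_pos (by omega) hl) (Nat.succ_pos K)
  obtain ⟨w, n₀, hcell⟩ := exists_cell.{u} r hr M (F K) hM1
  refine ⟨w, n₀ + M * W, fun n hn hn1 G _ _ hG hc A ι _ B x H d hK hS => ?_⟩
  choose t B' H' x' q C idx hcell using
    fun j : ι => hcell n (by omega) G hG hc (H j) (x j) (B j) (hS.cos j)
  set S2 := ∑ j, (if t j = false then #(B j) else 0) with hS2
  by_cases hs2 : 4 * e * S2 ≤ n
  · left
    refine ⟨fun j => if t j = true then B' j else ∅, fun j => if t j = true then x' j else 0,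
      fun j => if t j = true then H' j else ⊥, fun j => if t j = true then q j else 0, ?_, ?_, ?_⟩
    · intro j
      dsimp only
      split_ifs with h
      · exact (hcell j).sub
      · exact empty_subset _
    · have h1 : ∀ j, M * #(B j) ≤ M * #(if t j = true then B' j else ∅) + n +
          M * (if t j = false then #(B j) else 0) := by
        intro j
        rcases Bool.eq_false_or_eq_true (t j) with h | h
        · have := (hcell j).ls
          rw [h]
          simp only [if_true, Bool.true_eq_false, if_false, mul_zero, add_zero]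
          exact this
        · rw [h]
          simp only [if_true]
          omega
      have h2 : M * ∑ j, #(B j) ≤ M * ∑ j, #(if t j = true then B' j else ∅) + K * n + M * S2 := by
        calc M * ∑ j, #(B j) = ∑ j, M * #(B j) := by rw [mul_sum]
          _ ≤ ∑ j, (M * #(if t j = true then B' j else ∅) + n +
              M * (if t j = false then #(B j) else 0)) := sum_le_sum fun j _ => h1 j
          _ = _ := by
            rw [sum_add_distrib, sum_add_distrib, ← mul_sum, ← mul_sum, sum_const, card_univ,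
              smul_eq_mul, hK]
      have h3 : (K + 1) * (16 * e * l * ∑ j, #(B j)) ≤
          (K + 1) * (16 * e * l * ∑ j, #(if t j = true then B' j else ∅) + n +
            16 * e * l * S2) := by
        calc (K + 1) * (16 * e * l * ∑ j, #(B j)) = M * ∑ j, #(B j) := by rw [hM]; ring
          _ ≤ M * ∑ j, #(if t j = true then B' j else ∅) + K * n + M * S2 := h2
          _ ≤ M * ∑ j, #(if t j = true then B' j else ∅) + (K + 1) * n + M * S2 := by
            gcongr
            omega
          _ = _ := by rw [hM]; ring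
      have h4 := Nat.le_of_mul_le_mul_left h3 (Nat.succ_pos K)
      have h5 : 16 * e * l * S2 ≤ 4 * l * n := by
        calc 16 * e * l * S2 = 4 * l * (4 * e * S2) := by ring
          _ ≤ 4 * l * n := Nat.mul_le_mul_left _ hs2
      have h6 : 16 * e * l * ∑ j, #(B j) ≤
          16 * e * l * ∑ j, #(if t j = true then B' j else ∅) + n + 4 * l * n := by omega
      have h7 : 4 * (4 * e * l * ∑ j, #(B j)) ≤
          4 * (4 * e * l * ∑ j, #(if t j = true then B' j else ∅) + (l + 1) * n) := by
        calc 4 * (4 * e * l * ∑ j, #(B j)) = 16 * e * l * ∑ j, #(B j) := by ring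
          _ ≤ 16 * e * l * ∑ j, #(if t j = true then B' j else ∅) + n + 4 * l * n := h6
          _ ≤ 16 * e * l * ∑ j, #(if t j = true then B' j else ∅) + 4 * n + 4 * l * n := by omega
          _ = _ := by ring
      exact Nat.le_of_mul_le_mul_left h7 (by norm_num)
    · intro j
      dsimp only
      rcases Bool.eq_false_or_eq_true (t j) with h | h
      · rw [h]
        simp only [if_true]
        exact (hcell j).tt h
      · rw [h]
        simp only [Bool.false_eq_true, if_false, mul_zero]
        exact ⟨Nat.zero_le _, fullC_empty⟩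
  · right
    have hs3 : n < 4 * e * S2 := not_le.1 hs2
    set Bn : ι × Fin (w + 1) → Finset G := fun c =>
      if t c.1 = true then (if c.2 = 0 then B c.1 else ∅)
      else if d c.1 < r then (B' c.1).filter (fun b => idx c.1 b = c.2) else ∅ with hBn
    set dn : ι × Fin (w + 1) → ℕ := fun c =>
      if t c.1 = false ∧ d c.1 < r then d c.1 + 1 else d c.1 with hdn
    set xn : ι × Fin (w + 1) → G := fun c => if t c.1 = true then x c.1 else C c.1 c.2 with hxn
    set Hn : ι × Fin (w + 1) → AddSubgroup G := fun c =>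
      if t c.1 = false ∧ d c.1 < r then H' c.1 else H c.1 with hHn
    have hBsub : ∀ c, Bn c ⊆ B c.1 := by
      intro c
      simp only [hBn]
      split_ifs with h1 h2 h3
      · exact subset_rfl
      · exact empty_subset _
      · exact (filter_subset _ _).trans (hcell c.1).sub
      · exact empty_subset _
    -- the sizes of the new cells
    have hsz : ∀ j, ∑ i, #(Bn (j, i)) =
        if t j = true then #(B j) else if d j < r then #(B' j) else 0 := by
      intro j
      simp only [hBn]
      split_ifs with h1 h2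
      · exact sum_first (B j)
      · exact sum_parts (B' j) (idx j)
      · simp
    have hen : ∀ j, ∑ i, #(Bn (j, i)) * (r - dn (j, i)) =
        (∑ i, #(Bn (j, i))) * (r - if t j = false ∧ d j < r then d j + 1 else d j) := by
      intro j
      rw [sum_mul]
    have hen2 : ∀ j, ∑ i, #(Bn (j, i)) * (r - dn (j, i)) +
        (if t j = false then ∑ i, #(Bn (j, i)) else 0) ≤ #(B j) * (r - d j) := by
      intro j
      rw [hen j, hsz j]
      rcases Bool.eq_false_or_eq_true (t j) with h | h
      · rw [h]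
        simp
      · rw [h]
        by_cases h2 : d j < r
        · simp only [Bool.false_eq_true, if_false, if_true, h2, and_self]
          have h3 : #(B' j) ≤ #(B j) := card_le_card (hcell j).sub
          calc #(B' j) * (r - (d j + 1)) + #(B' j) = #(B' j) * (r - (d j + 1) + 1) := by ring
            _ = #(B' j) * (r - d j) := by
              congr 1
              omega
            _ ≤ #(B j) * (r - d j) := Nat.mul_le_mul_right _ h3
        · simp [h2]
    have hloss : ∀ j, M * #(B j) ≤ M * (∑ i, #(Bn (j, i))) + 2 * n := by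
      intro j
      rw [hsz j]
      rcases Bool.eq_false_or_eq_true (t j) with h | h
      · rw [h]
        simp
      · rw [h]
        by_cases h2 : d j < r
        · simp only [Bool.false_eq_true, if_false, h2, if_true]
          have := (hcell j).ls
          omega
        · simp only [Bool.false_eq_true, if_false, h2, mul_zero, zero_add]
          have h3 : d j = r := le_antisymm (hS.dle j) (not_lt.1 h2)
          have h4 := hS.dep j
          rw [h3] at h4
          have h5 : Nat.card (H j) ≤ W := Nat.le_of_mul_le_mul_right h4 (pow_pos hn1 r)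
          have h6 : #(B j) ≤ Nat.card (H j) := by
            have h7 : Nat.card (B j) ≤ Nat.card (H j) := by
              refine Nat.card_le_card_of_injective
                (fun b : B j => (⟨b.1 - x j, hS.cos j b.1 b.2⟩ : H j)) ?_
              intro b b' hbb
              have h8 := congrArg Subtype.val hbb
              dsimp only at h8
              exact Subtype.ext (sub_left_injective h8)
            simpa using h7
          have h9 : M * #(B j) ≤ M * W := Nat.mul_le_mul_left _ (h6.trans h5)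
          omega
    have hloss2 : M * ∑ j, #(B j) ≤ M * (∑ c, #(Bn c)) + K * (2 * n) := by
      rw [Fintype.sum_prod_type]
      calc M * ∑ j, #(B j) = ∑ j, M * #(B j) := by rw [mul_sum]
        _ ≤ ∑ j, (M * (∑ i, #(Bn (j, i))) + 2 * n) := sum_le_sum fun j _ => hloss j
        _ = _ := by
          rw [sum_add_distrib, ← mul_sum, sum_const, card_univ, smul_eq_mul, hK]
    have hdiv : ∀ a b : ℕ, M * a ≤ M * b + K * (2 * n) →
        16 * e * l * a ≤ 16 * e * l * b + 2 * n := by
      intro a b hab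
      refine Nat.le_of_mul_le_mul_left (c := K + 1) ?_ (Nat.succ_pos K)
      calc (K + 1) * (16 * e * l * a) = M * a := by rw [hM]; ring
        _ ≤ M * b + K * (2 * n) := hab
        _ ≤ M * b + (K + 1) * (2 * n) := by gcongr; omega
        _ = (K + 1) * (16 * e * l * b + 2 * n) := by rw [hM]; ring
    refine ⟨Bn, xn, Hn, dn, ⟨?_, ?_, ?_, ?_, ?_⟩, ?_, ?_⟩
    · intro c
      exact (hBsub c).trans (hS.sub c.1)
    · rintro ⟨j, i⟩ ⟨j', i'⟩ hne
      by_cases hj : j = j'
      · subst hj
        have hi : i ≠ i' := fun h => hne (by rw [h])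
        simp only [hBn]
        split_ifs with h1 h2 h3 h4 h5
        · exact absurd (h2.trans h3.symm) hi
        · exact disjoint_empty_right _
        · exact disjoint_empty_left _
        · exact disjoint_empty_left _
        · rw [Finset.disjoint_left]
          intro b hb hb'
          exact hi ((mem_filter.1 hb).2.symm.trans (mem_filter.1 hb').2)
        · exact disjoint_empty_left _
      · exact disjoint_of_subset_left (hBsub _)
          (disjoint_of_subset_right (hBsub _) (hS.disj j j' hj))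
    · rintro ⟨j, i⟩ b hb
      simp only [hBn] at hb
      simp only [hxn, hHn]
      rcases Bool.eq_false_or_eq_true (t j) with h | h
      · rw [h] at hb ⊢
        simp only [if_true] at hb
        split_ifs at hb with h2
        · simpa using hS.cos j b hb
        · exact absurd hb (notMem_empty b)
      · rw [h] at hb ⊢
        simp only [Bool.false_eq_true, if_false] at hb
        split_ifs at hb with h2
        · simp only [Bool.false_eq_true, if_false, h2, and_self, if_true]
          have h3 := mem_filter.1 hb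
          have h4 := ((hcell j).ff h).2 b h3.1
          rw [h3.2] at h4
          exact h4
        · exact absurd hb (notMem_empty b)
    · rintro ⟨j, i⟩
      simp only [hHn, hdn]
      split_ifs with h
      · have h1 := ((hcell j).ff h.1).1
        have h2 := hS.dep j
        calc Nat.card (H' j) * n ^ (d j + 1) = n * Nat.card (H' j) * n ^ d j := by ring
          _ ≤ w * Nat.card (H j) * n ^ d j := Nat.mul_le_mul_right _ h1
          _ = w * (Nat.card (H j) * n ^ d j) := by ring
          _ ≤ w * (W * n ^ r) := Nat.mul_le_mul_left _ h2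
          _ ≤ (w + 1) * (W * n ^ r) := Nat.mul_le_mul_right _ (Nat.le_succ w)
          _ = _ := by ring
      · calc Nat.card (H j) * n ^ d j ≤ W * n ^ r := hS.dep j
          _ = 1 * (W * n ^ r) := (one_mul _).symm
          _ ≤ (w + 1) * (W * n ^ r) := Nat.mul_le_mul_right _ (by omega)
          _ = _ := by ring
    · rintro ⟨j, i⟩
      simp only [hdn]
      have := hS.dle j
      split_ifs with h
      · exact h.2
      · exact this
    · have h1 := hdiv _ _ hloss2
      have h2 : 16 * e * (l * ∑ j, #(B j)) ≤ 16 * e * (l * ∑ c, #(Bn c) + n) := by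
        calc 16 * e * (l * ∑ j, #(B j)) = 16 * e * l * ∑ j, #(B j) := by ring
          _ ≤ 16 * e * l * ∑ c, #(Bn c) + 2 * n := h1
          _ ≤ 16 * e * l * ∑ c, #(Bn c) + 16 * e * n := by
            have : 2 * n ≤ 16 * e * n := Nat.mul_le_mul_right n (by omega)
            omega
          _ = _ := by ring
      exact Nat.le_of_mul_le_mul_left h2 (by omega)
    · set S2n := ∑ j, (if t j = false then ∑ i, #(Bn (j, i)) else 0) with hS2n
      have h1 : M * S2 ≤ M * S2n + K * (2 * n) := by
        calc M * S2 = ∑ j, M * (if t j = false then #(B j) else 0) := by rw [hS2, mul_sum]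
          _ ≤ ∑ j, (M * (if t j = false then ∑ i, #(Bn (j, i)) else 0) + 2 * n) := by
            refine sum_le_sum fun j _ => ?_
            split_ifs with h
            · exact hloss j
            · omega
          _ = _ := by
            rw [sum_add_distrib, ← mul_sum, sum_const, card_univ, smul_eq_mul, hK]
      have h2 := hdiv _ _ h1
      have h3 : 4 * l * n < 16 * e * l * S2 := by
        calc 4 * l * n < 4 * l * (4 * e * S2) := Nat.mul_lt_mul_of_pos_left hs3 (by omega)
          _ = _ := by ring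
      have h4 : 2 * l * n ≤ 16 * e * l * S2n := by
        have h5 : 2 * n ≤ 2 * l * n := Nat.mul_le_mul_right n (by omega)
        have h6 : 4 * l * n = 2 * l * n + 2 * l * n := by ring
        omega
      have h5 : n ≤ 8 * e * S2n := by
        refine Nat.le_of_mul_le_mul_left (c := 2 * l) ?_ (by omega)
        calc 2 * l * n ≤ 16 * e * l * S2n := h4
          _ = 2 * l * (8 * e * S2n) := by ring
      have h6 : ∑ c, #(Bn c) * (r - dn c) + S2n ≤ ∑ j, #(B j) * (r - d j) := by
        rw [Fintype.sum_prod_type, hS2n, ← sum_add_distrib]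
        exact sum_le_sum fun j _ => hen2 j
      have h7 := Nat.mul_le_mul_left (8 * e) h6
      rw [mul_add] at h7
      omega

/-- the conclusion -/
def Con (F : ℕ → ℕ) (N n T s : ℕ) {G : Type u} [AddCommGroup G] (A : Finset G) : Prop :=
  ∃ (ι : Type) (_ : Fintype ι) (B : ι → Finset G) (x : ι → G) (H : ι → AddSubgroup G)
    (q : ι → ℕ), Fintype.card ι ≤ N ∧ (∀ c, B c ⊆ A) ∧ (∀ c c', c ≠ c' → Disjoint (B c) (B c')) ∧
    T ≤ s * ∑ c, #(B c) ∧ ∀ c, F (Fintype.card ι) * q c ≤ n ∧ FullC (B c) (x c) (H c) (q c)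

theorem main (r : ℕ) (hr : 1 ≤ r) (e l : ℕ) (he : 1 ≤ e) (hl : 1 ≤ l) (F : ℕ → ℕ) (R : ℕ) :
    ∀ K W : ℕ, ∃ N n₀ : ℕ, ∀ n : ℕ, n₀ ≤ n → 1 ≤ n →
    ∀ (G : Type u) [AddCommGroup G] [Finite G], (∀ x : G, n • x = 0) → Nat.card G ≤ n ^ r →
    ∀ (A : Finset G) (ι : Type) [Fintype ι] (B : ι → Finset G) (x : ι → G)
      (H : ι → AddSubgroup G) (d : ι → ℕ), Fintype.card ι = K → Stt r n W A B x H d →
      8 * e * ∑ j, #(B j) * (r - d j) ≤ R * n →
      Con F N n (4 * e * l * ∑ j, #(B j) - (l + 4 * e * (R + 1)) * n) (4 * e * l) A := by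
  classical
  have hstop : ∀ (R K N n : ℕ) (G : Type u) [AddCommGroup G] (A : Finset G) (ι : Type)
      [Fintype ι] (B : ι → Finset G), K ≤ N → Fintype.card ι = K → (∀ c, B c ⊆ A) →
      (∀ c c', c ≠ c' → Disjoint (B c) (B c')) →
      (∃ (B' : ι → Finset G) (x' : ι → G) (H' : ι → AddSubgroup G) (q : ι → ℕ),
        (∀ j, B' j ⊆ B j) ∧
        4 * e * l * ∑ j, #(B j) ≤ 4 * e * l * ∑ j, #(B' j) + (l + 1) * n ∧
        ∀ j, F K * q j ≤ n ∧ FullC (B' j) (x' j) (H' j) (q j)) →
      Con F N n (4 * e * l * ∑ j, #(B j) - (l + 4 * e * (R + 1)) * n) (4 * e * l) A := by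
    rintro R K N n G _ A ι _ B hKN hK hBA hdj ⟨B', x', H', q, h1, h2, h3⟩
    refine ⟨ι, inferInstance, B', x', H', q, hK.trans_le hKN, fun c => (h1 c).trans (hBA c), ?_,
      ?_, ?_⟩
    · intro c c' hcc
      exact disjoint_of_subset_left (h1 c) (disjoint_of_subset_right (h1 c') (hdj c c' hcc))
    · have h4 : (l + 1) * n ≤ (l + 4 * e * (R + 1)) * n := by
        refine Nat.mul_le_mul_right n ?_
        have : 1 ≤ 4 * e * (R + 1) := Nat.mul_pos (by omega) (Nat.succ_pos R)
        omega
      omega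
    · rw [hK]
      exact h3
  induction R with
  | zero =>
    intro K W
    obtain ⟨w, n₀, h⟩ := round.{u} r hr e l he hl F K W
    refine ⟨K, n₀, fun n hn hn1 G _ _ hG hc A ι _ B x H d hK hS hE => ?_⟩
    rcases h n hn hn1 G hG hc A ι B x H d hK hS with h1 | ⟨B', x', H', d', -, -, h2⟩
    · exact hstop 0 K K n G A ι B le_rfl hK hS.sub hS.disj h1
    · exfalso
      omega
  | succ R ih =>
    intro K W
    obtain ⟨w, n₀, h⟩ := round.{u} r hr e l he hl F K W
    obtain ⟨N, n₁, h'⟩ := ih (K * (w + 1)) ((w + 1) * W)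
    refine ⟨max K N, max n₀ n₁, fun n hn hn1 G _ _ hG hc A ι _ B x H d hK hS hE => ?_⟩
    rcases h n ((le_max_left _ _).trans hn) hn1 G hG hc A ι B x H d hK hS with
      h1 | ⟨B', x', H', d', hS', hL, h2⟩
    · exact hstop (R + 1) K (max K N) n G A ι B (le_max_left _ _) hK hS.sub hS.disj h1
    · have hcard : Fintype.card (ι × Fin (w + 1)) = K * (w + 1) := by
        rw [Fintype.card_prod, Fintype.card_fin, hK]
      have hE' : 8 * e * ∑ c, #(B' c) * (r - d' c) ≤ R * n := by
        have : (R + 1) * n = R * n + n := by ring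
        omega
      obtain ⟨κ, i1, B2, x2, H2, q2, a1, a2, a3, a4, a5⟩ :=
        h' n ((le_max_right _ _).trans hn) hn1 G hG hc A (ι × Fin (w + 1)) B' x' H' d' hcard hS' hE'
      refine ⟨κ, i1, B2, x2, H2, q2, a1.trans (le_max_right _ _), a2, a3, ?_, a5⟩
      have h3 : 4 * e * (l * ∑ j, #(B j)) ≤ 4 * e * (l * ∑ c, #(B' c) + n) :=
        Nat.mul_le_mul_left _ hL
      have h4 : 4 * e * (l * ∑ j, #(B j)) = 4 * e * l * ∑ j, #(B j) := by ring
      have h5 : 4 * e * (l * ∑ c, #(B' c) + n) = 4 * e * l * ∑ c, #(B' c) + 4 * e * n := by ring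
      have h6 : (l + 4 * e * (R + 1 + 1)) * n = (l + 4 * e * (R + 1)) * n + 4 * e * n := by ring
      omega

end DECONM

open DECONM in
theorem deco (r : ℕ) (hr : 1 ≤ r) (e : ℕ) (he : 1 ≤ e) (F : ℕ → ℕ) : ∃ Kmax n₀ : ℕ,
    ∀ n : ℕ, n₀ ≤ n → ∀ (G : Type u) [AddCommGroup G] [Finite G], (∀ x : G, n • x = 0) →
    Nat.card G ≤ n ^ r → ∀ A : Finset G, #A ≤ 8 * n → ∃ K ≤ Kmax,
      ∃ (B : Fin K → Finset G) (x : Fin K → G) (H : Fin K → AddSubgroup G) (q : Fin K → ℕ),
        (∀ c, B c ⊆ A) ∧ (∀ c c', c ≠ c' → Disjoint (B c) (B c')) ∧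
        e * #A ≤ e * (∑ c, #(B c)) + n ∧ ∀ c, F K * q c ≤ n ∧ FullC (B c) (x c) (H c) (q c) := by
  classical
  set R := 64 * e * r with hR
  set l := 4 * e * (R + 1) with hl
  have hl1 : 1 ≤ l := Nat.mul_pos (by omega) (Nat.succ_pos R)
  obtain ⟨N, n₀, h⟩ := main.{u} r hr e l he hl1 F R 1 1
  refine ⟨N, n₀ + 1, fun n hn G _ _ hG hc A hA => ?_⟩
  have hS : Stt r n 1 A (fun _ : Unit => A) (fun _ => 0) (fun _ => ⊤) (fun _ => 0) := by
    refine ⟨fun _ => subset_rfl, fun c c' hcc => absurd (Subsingleton.elim c c') hcc,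
      fun _ _ _ => AddSubgroup.mem_top _, fun _ => ?_, fun _ => Nat.zero_le _⟩
    have : Nat.card (⊤ : AddSubgroup G) = Nat.card G := AddSubgroup.card_top
    rw [pow_zero, mul_one, one_mul, this]
    exact hc
  have hE : 8 * e * ∑ _j : Unit, #A * (r - 0) ≤ R * n := by
    rw [Fintype.sum_unique]
    calc 8 * e * (#A * (r - 0)) = 8 * e * (#A * r) := by rw [Nat.sub_zero]
      _ ≤ 8 * e * (8 * n * r) := Nat.mul_le_mul_left _ (Nat.mul_le_mul_right _ hA)
      _ = R * n := by rw [hR]; ring
  obtain ⟨ι, i1, B, x, H, q, a1, a2, a3, a4, a5⟩ := h n (by omega) (by omega) G hG hc A Unit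
    (fun _ => A) (fun _ => 0) (fun _ => ⊤) (fun _ => 0) (by simp) hS hE
  set E := Fintype.equivFin ι with hE'
  refine ⟨Fintype.card ι, a1, fun c => B (E.symm c), fun c => x (E.symm c),
    fun c => H (E.symm c), fun c => q (E.symm c), fun c => a2 _, ?_, ?_, fun c => a5 _⟩
  · intro c c' hcc
    exact a3 _ _ fun h => hcc (E.symm.injective h)
  · rw [Fintype.sum_unique] at a4
    have h1 : ∑ c, #(B (E.symm c)) = ∑ c, #(B c) := Equiv.sum_comp E.symm (fun c => #(B c))
    rw [h1]
    have h2 : (l + 4 * e * (R + 1)) * n = 2 * l * n := by rw [← hl]; ring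
    rw [h2] at a4
    have h3 : 2 * l * (2 * e * #A) ≤ 2 * l * (2 * e * (∑ c, #(B c)) + n) := by
      have h4 : 2 * l * (2 * e * #A) = 4 * e * l * #A := by ring
      have h5 : 2 * l * (2 * e * (∑ c, #(B c)) + n) = 4 * e * l * (∑ c, #(B c)) + 2 * l * n := by
        ring
      omega
    have h6 := Nat.le_of_mul_le_mul_left h3 (by omega)
    have h7 : 2 * (e * #A) ≤ 2 * (e * (∑ c, #(B c)) + n) := by
      have h8 : 2 * (e * #A) = 2 * e * #A := by ring
      have h9 : 2 * (e * (∑ c, #(B c)) + n) = 2 * e * (∑ c, #(B c)) + 2 * n := by ring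
      omega
    exact Nat.le_of_mul_le_mul_left h7 (by norm_num)

end Pool.Agent.Lib.MPa7239a.RN
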