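import Pool.Agent.Lib.MP_a7239a_co.RN.RUN

/-! # RN: module FULLN -/

set_option autoImplicit false

universe u

open Finset
open scoped Pointwise

namespace Pool.Agent.Lib.MPa7239a.RN

open Pool.Agent.Lib.MPa7239a.GC (Hit)

namespace FULLNM

variable {G : Type*} [AddCommGroup G]

/-- sum of elements in one coset -/
theorem sum_coset [DecidableEq G] {M : AddSubgroup G} {x : G} (s : Finset G)
    (h : ∀ b ∈ s, b - x ∈ M) : ∑ b ∈ s, b - #s • x ∈ M := by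
  have e : ∑ b ∈ s, b - #s • x = ∑ b ∈ s, (b - x) := by
    rw [sum_sub_distrib, sum_const]
  rw [e]
  exact M.sum_mem h

theorem hit_coset [DecidableEq G] {M : AddSubgroup G} {x : G} {A : Finset G}
    (h : ∀ b ∈ A, b - x ∈ M) {k : ℕ} {y : G} (hy : Hit A k y) : y - k • x ∈ M := by
  obtain ⟨T, hT, hc, rfl⟩ := hy
  rw [← hc]
  exact sum_coset T fun b hb => h b (hT hb)

theorem card_rest [Finite G] [DecidableEq G] {M₀ : AddSubgroup G} {x₀ : G} {B₀ : Finset G}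
    {U h : ℕ} {M : AddSubgroup G} {z : G} {B Ug Ur : Finset G} {mg mr : ℕ} {ζ : G}
    {Z : Finset G} (st : St M₀ x₀ B₀ U h M z B Ug Ur mg mr ζ Z) :
    #B + 2 * mg + 2 * mr = #B₀ := by
  have e : B₀ = B ∪ (Ug ∪ Ur) := by
    ext b
    simp only [mem_union, st.rest]
    constructor
    · intro hb
      by_cases h1 : b ∈ Ug
      · exact Or.inr (Or.inl h1)
      · by_cases h2 : b ∈ Ur
        · exact Or.inr (Or.inr h2)
        · exact Or.inl ⟨hb, h1, h2⟩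
    · rintro (h1 | h1 | h1)
      · exact h1.1
      · exact st.subg h1
      · exact st.subr h1
  have d : Disjoint B (Ug ∪ Ur) := by
    rw [Finset.disjoint_left]
    intro b hb hb'
    obtain ⟨-, h1, h2⟩ := (st.rest b).1 hb
    rcases mem_union.1 hb' with h3 | h3
    · exact h1 h3
    · exact h2 h3
  rw [e, card_union_of_disjoint d, card_union_of_disjoint st.disj, st.cg, st.cr]
  ring

/-- two subsets of cosets of `M` with more than half of the elements: sums fill a coset -/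
theorem half_half [Finite G] [DecidableEq G] {M : AddSubgroup G} {Y Z : Finset G} {ζ ζ' w : G}
    (hY : ∀ y ∈ Y, y - ζ ∈ M) (hZ : ∀ y ∈ Z, y - ζ' ∈ M) (hc : Nat.card M < #Y + #Z)
    (hw : w - ζ - ζ' ∈ M) : ∃ y ∈ Y, ∃ z ∈ Z, y + z = w := by
  classical
  by_contra hno
  push Not at hno
  have hfin : (M : Set G).Finite := Set.toFinite _
  have hsub : Y.image (fun y => y - ζ) ∪ Z.image (fun z => w - ζ - z) ⊆ hfin.toFinset := by
    intro a ha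
    rw [Set.Finite.mem_toFinset]
    rcases mem_union.1 ha with h | h
    · obtain ⟨y, hy, rfl⟩ := mem_image.1 h
      exact hY y hy
    · obtain ⟨y, hy, rfl⟩ := mem_image.1 h
      have := M.sub_mem hw (hZ y hy)
      have e : w - ζ - ζ' - (y - ζ') = w - ζ - y := by abel
      rwa [e] at this
  have hd : Disjoint (Y.image (fun y => y - ζ)) (Z.image (fun z => w - ζ - z)) := by
    rw [Finset.disjoint_left]
    intro a ha hb
    obtain ⟨y, hy, rfl⟩ := mem_image.1 ha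
    obtain ⟨z, hz, e⟩ := mem_image.1 hb
    apply hno y hy z hz
    have : w - ζ - z + ζ + z = y - ζ + ζ + z := by rw [e]
    have e1 : w - ζ - z + ζ + z = w := by abel
    have e2 : y - ζ + ζ + z = y + z := by abel
    rw [← e2, ← this, e1]
  have hcard := card_le_card hsub
  rw [card_union_of_disjoint hd, card_image_of_injective _ (fun a b h => by simpa using h),
    card_image_of_injective _ (fun a b h => by simpa using h)] at hcard
  have : Nat.card M = #(hfin.toFinset) := Nat.card_eq_card_finite_toFinset hfin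
  omega

/-- the densest coset -/
theorem dense [Finite G] [DecidableEq G] {M M' : AddSubgroup G} (hle : M' ≤ M) {Z : Finset G}
    {ζ : G} (hZ : ∀ y ∈ Z, y - ζ ∈ M) (hc : Nat.card M < 2 * #Z) :
    ∃ ζ' ∈ Z, ∃ Y ⊆ Z, (∀ y ∈ Y, y - ζ' ∈ M') ∧ Nat.card M' < 2 * #Y := by
  classical
  by_contra hno
  push Not at hno
  have hfin : (M' : Set G).Finite := Set.toFinite _
  have hfinM : (M : Set G).Finite := Set.toFinite _
  have hcM' : Nat.card M' = #(hfin.toFinset) := Nat.card_eq_card_finite_toFinset hfin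
  have hcM : Nat.card M = #(hfinM.toFinset) := Nat.card_eq_card_finite_toFinset hfinM
  have hF : ∀ y ∈ Z, 2 * #(Z.filter fun y' => y' - y ∈ M') ≤ Nat.card M' := by
    intro y hy
    exact hno y hy _ (filter_subset _ _) (fun y' hy' => (mem_filter.1 hy').2)
  have h1 : ∑ s ∈ hfinM.toFinset, #(Z.filter fun y => y - (ζ + s) ∈ M') =
      ∑ y ∈ Z, #(hfinM.toFinset.filter fun s => y - (ζ + s) ∈ M') :=
    Finset.sum_card_bipartiteAbove_eq_sum_card_bipartiteBelow (fun s y => y - (ζ + s) ∈ M')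
  have h2 : ∀ y ∈ Z, Nat.card M' ≤ #(hfinM.toFinset.filter fun s => y - (ζ + s) ∈ M') := by
    intro y hy
    rw [hcM', ← card_image_of_injective hfin.toFinset
      (f := fun m => y - ζ - m) (fun a b h => by simpa using h)]
    apply card_le_card
    intro s hs
    obtain ⟨m, hm, rfl⟩ := mem_image.1 hs
    rw [Set.Finite.mem_toFinset] at hm
    rw [mem_filter, Set.Finite.mem_toFinset]
    refine ⟨M.sub_mem (hZ y hy) (hle hm), ?_⟩
    have e : y - (ζ + (y - ζ - m)) = m := by abel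
    rw [e]
    exact hm
  have h3 : ∀ s ∈ hfinM.toFinset, 2 * #(Z.filter fun y => y - (ζ + s) ∈ M') ≤ Nat.card M' := by
    intro s _
    rcases (Z.filter fun y => y - (ζ + s) ∈ M').eq_empty_or_nonempty with h | ⟨y, hy⟩
    · rw [h]; simp
    · obtain ⟨hy1, hy2⟩ := mem_filter.1 hy
      refine le_trans (Nat.mul_le_mul_left 2 (card_le_card ?_)) (hF y hy1)
      intro y' hy'
      obtain ⟨h4, h5⟩ := mem_filter.1 hy'
      refine mem_filter.2 ⟨h4, ?_⟩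
      have := M'.sub_mem h5 hy2
      have e : y' - (ζ + s) - (y - (ζ + s)) = y' - y := by abel
      rwa [e] at this
  have h4 : 2 * (#Z * Nat.card M') ≤ Nat.card M * Nat.card M' := by
    calc 2 * (#Z * Nat.card M') = 2 * ∑ y ∈ Z, Nat.card M' := by rw [sum_const, smul_eq_mul]
      _ ≤ 2 * ∑ y ∈ Z, #(hfinM.toFinset.filter fun s => y - (ζ + s) ∈ M') :=
          Nat.mul_le_mul_left 2 (sum_le_sum h2)
      _ = ∑ s ∈ hfinM.toFinset, 2 * #(Z.filter fun y => y - (ζ + s) ∈ M') := by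
          rw [← h1, mul_sum]
      _ ≤ ∑ s ∈ hfinM.toFinset, Nat.card M' := sum_le_sum h3
      _ = Nat.card M * Nat.card M' := by rw [sum_const, smul_eq_mul, hcM]
  have hpos : 0 < Nat.card M' := Nat.card_pos
  have h5 : 2 * #Z ≤ Nat.card M := by
    have : 2 * #Z * Nat.card M' ≤ Nat.card M * Nat.card M' := by rw [mul_assoc]; exact h4
    exact Nat.le_of_mul_le_mul_right this hpos
  omega

end FULLNM

open FULLNM in
theorem full_two {G : Type*} [AddCommGroup G] [Finite G] [DecidableEq G] {M₀ : AddSubgroup G}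
    {x₀ : G} {B₀ : Finset G} {U h : ℕ} (hM₀ : Nat.card M₀ ≤ h) (hbig : Big U h M₀)
    (hB₀ : ∀ b ∈ B₀, b - x₀ ∈ M₀) (hinv : Inv U h M₀ B₀) {t : ℕ → ℕ} (ht : ∀ i, 1 ≤ t i)
    {I : ℕ} (hI : Nat.card M₀ < 2 ^ (I + 1))
    (hcard : 4 * (∑ i ∈ Icc 1 I, 8 * t i) + 96 * U + 10 ≤ #B₀)
    (hgr : ∀ (M : AddSubgroup G) (B : Finset G) (z : G), M ≤ M₀ → Big U h M → B ⊆ B₀ →
      (∀ b ∈ B, b - z ∈ M) → Inv U h M B →
      #B₀ ≤ #B + 4 * (∑ i ∈ Icc 1 I, 8 * t i) + 32 * U → ∀ (Z : Finset G) (i : ℕ), 1 ≤ i →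
      Z.Nonempty → 2 ^ i * #Z ≤ Nat.card M → ∃ u ∈ B, ∃ v ∈ B, u ≠ v ∧
        (8 * t i + 1) * #Z ≤ 8 * t i * #((Z + {u}) ∪ (Z + {v}))) :
    FullC B₀ x₀ M₀ (2 * (∑ i ∈ Icc 1 I, 8 * t i) + 16 * U) := by
  set T := ∑ i ∈ Icc 1 I, 8 * t i with hT
  -- the first run
  obtain ⟨M₁, z₁, B₁, Ug₁, Ur₁, mg₁, mr₁, ζ₁, Z₁, st₁, hmg₁, hmr₁, hZ₁⟩ :=
    run hM₀ hbig hB₀ hinv ht hI (by rw [← hT]; omega) (by
      intro M B z h1 h2 h3 h4 h5 h6
      exact hgr M B z h1 h2 h3 h4 h5 (by rw [← hT] at h6; omega))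
  have hc₁ := card_rest st₁
  have hM₁ : Nat.card M₁ ≤ Nat.card M₀ :=
    Nat.card_le_card_of_injective _ (AddSubgroup.inclusion_injective st₁.le)
  have hBsub : B₁ ⊆ B₀ := fun b hb => ((st₁.rest b).1 hb).1
  rw [← hT] at hmg₁
  -- the second run
  obtain ⟨M₂, z₂, B₂, Ug₂, Ur₂, mg₂, mr₂, ζ₂, Z₂, st₂, hmg₂, hmr₂, hZ₂⟩ :=
    run (hM₁.trans hM₀) st₁.big st₁.coset st₁.inv ht (hM₁.trans_lt hI)
      (by rw [← hT]; omega) (by
      intro M B z h1 h2 h3 h4 h5 h6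
      exact hgr M B z (h1.trans st₁.le) h2 (h3.trans hBsub) h4 h5
        (by rw [← hT] at h6; omega))
  have hc₂ := card_rest st₂
  rw [← hT] at hmg₂
  have hB2sub : B₂ ⊆ B₁ := fun b hb => ((st₂.rest b).1 hb).1
  refine ⟨hB₀, fun k hk1 hk2 g hg => ?_⟩
  -- the remaining elements
  have hm : mg₁ + mr₁ + mg₂ + mr₂ ≤ k := by omega
  obtain ⟨R, hR, hRc⟩ : ∃ R ⊆ B₂, #R = k - (mg₁ + mr₁ + mg₂ + mr₂) :=
    exists_subset_card_eq (by omega)
  have hRM : ∑ b ∈ R, b - #R • x₀ ∈ M₀ :=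
    sum_coset R fun b hb => hB₀ b (hBsub (hB2sub (hR hb)))
  -- classes
  have hζ₁ : ζ₁ - mg₁ • x₀ ∈ M₀ := by
    obtain ⟨y, hy⟩ := st₁.ne
    have a1 := hit_coset (fun b hb => hB₀ b (st₁.subg hb)) (st₁.Zh y hy)
    have a2 := st₁.le (st₁.Zc y hy)
    have := M₀.sub_mem a1 a2
    have e : y - mg₁ • x₀ - (y - ζ₁) = ζ₁ - mg₁ • x₀ := by abel
    rwa [e] at this
  have hζ₂ : ζ₂ - mg₂ • z₁ ∈ M₁ := by
    obtain ⟨y, hy⟩ := st₂.ne
    have a1 := hit_coset (fun b hb => st₁.coset b (st₂.subg hb)) (st₂.Zh y hy)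
    have a2 := st₂.le (st₂.Zc y hy)
    have := M₁.sub_mem a1 a2
    have e : y - mg₂ • z₁ - (y - ζ₂) = ζ₂ - mg₂ • z₁ := by abel
    rwa [e] at this
  have hz₁ : z₁ - x₀ ∈ M₀ := by
    have hne : 0 < #B₁ := by omega
    obtain ⟨b, hb⟩ := card_pos.1 hne
    have := M₀.sub_mem (hB₀ b (hBsub hb)) (st₁.le (st₁.coset b hb))
    have e : b - x₀ - (b - z₁) = z₁ - x₀ := by abel
    rwa [e] at this
  -- the densest coset of `M₂` in `Z₁`
  obtain ⟨ζ', hζ'Z, Y, hYZ, hY, hYc⟩ := dense st₂.le st₁.Zc hZ₁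
  have hζ'₁ : ζ' - ζ₁ ∈ M₁ := st₁.Zc ζ' hζ'Z
  -- `T₁`
  have hm' : (mg₁ + mr₁ + mg₂ + mr₂) • x₀ = mg₁ • x₀ + mr₁ • x₀ + (mg₂ + mr₂) • x₀ := by
    simp only [add_smul]; abel
  have hk : k • x₀ = #R • x₀ + (mg₁ + mr₁ + mg₂ + mr₂) • x₀ := by
    rw [← add_smul]; congr 1; omega
  have hg₁ : g - ∑ b ∈ R, b - ζ₁ - (mg₂ + mr₂) • z₁ - mr₁ • x₀ ∈ M₀ := by
    have a := M₀.sub_mem (M₀.sub_mem (M₀.sub_mem hg hRM) hζ₁)
      (M₀.nsmul_mem hz₁ (mg₂ + mr₂))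
    have e : g - k • x₀ - (∑ b ∈ R, b - #R • x₀) - (ζ₁ - mg₁ • x₀) -
        (mg₂ + mr₂) • (z₁ - x₀) =
        g - ∑ b ∈ R, b - ζ₁ - (mg₂ + mr₂) • z₁ - mr₁ • x₀ := by
      rw [hk, hm', smul_sub]; abel
    rwa [e] at a
  obtain ⟨T₁, hT₁, hT₁c, hT₁M⟩ := st₁.cov _ hg₁
  -- `T₂`
  have hg₂ : g - ∑ b ∈ R, b - ∑ b ∈ T₁, b - ζ' - ζ₂ - mr₂ • z₁ ∈ M₁ := by
    have a := M₁.neg_mem (M₁.add_mem (M₁.add_mem hT₁M hζ'₁) hζ₂)
    have e : -(∑ a ∈ T₁, a - mr₁ • x₀ -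
        (g - ∑ b ∈ R, b - ζ₁ - (mg₂ + mr₂) • z₁ - mr₁ • x₀) + (ζ' - ζ₁) +
        (ζ₂ - mg₂ • z₁)) =
        g - ∑ b ∈ R, b - ∑ b ∈ T₁, b - ζ' - ζ₂ - mr₂ • z₁ := by
      rw [add_smul]; abel
    rwa [e] at a
  obtain ⟨T₂, hT₂, hT₂c, hT₂M⟩ := st₂.cov _ hg₂
  -- `y₁ + y₂`
  obtain ⟨y₁, hy₁, y₂, hy₂, hyy⟩ := half_half (w := g - ∑ b ∈ R, b - ∑ b ∈ T₁, b - ∑ b ∈ T₂, b)
    hY st₂.Zc (by omega) (by
      have a := M₂.neg_mem hT₂M
      have e : -(∑ a ∈ T₂, a - mr₂ • z₁ -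
          (g - ∑ b ∈ R, b - ∑ b ∈ T₁, b - ζ' - ζ₂ - mr₂ • z₁)) =
          g - ∑ b ∈ R, b - ∑ b ∈ T₁, b - ∑ b ∈ T₂, b - ζ' - ζ₂ := by abel
      rwa [e] at a)
  obtain ⟨V₁, hV₁, hV₁c, hV₁s⟩ := st₁.Zh y₁ (hYZ hy₁)
  obtain ⟨V₂, hV₂, hV₂c, hV₂s⟩ := st₂.Zh y₂ hy₂
  -- disjointness
  have d1 : Disjoint V₁ T₁ := Finset.disjoint_of_subset_left hV₁
    (Finset.disjoint_of_subset_right hT₁ st₁.disj)
  have d2 : Disjoint V₂ T₂ := Finset.disjoint_of_subset_left hV₂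
    (Finset.disjoint_of_subset_right hT₂ st₂.disj)
  have d3 : Disjoint (V₂ ∪ T₂) R := by
    rw [Finset.disjoint_left]
    intro b hb hb'
    obtain ⟨-, h1, h2⟩ := (st₂.rest b).1 (hR hb')
    rcases mem_union.1 hb with h3 | h3
    · exact h1 (hV₂ h3)
    · exact h2 (hT₂ h3)
  have hsub2 : (V₂ ∪ T₂) ∪ R ⊆ B₁ :=
    union_subset (union_subset (hV₂.trans st₂.subg) (hT₂.trans st₂.subr)) (hR.trans hB2sub)
  have d4 : Disjoint (V₁ ∪ T₁) ((V₂ ∪ T₂) ∪ R) := by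
    rw [Finset.disjoint_left]
    intro b hb hb'
    obtain ⟨-, h1, h2⟩ := (st₁.rest b).1 (hsub2 hb')
    rcases mem_union.1 hb with h3 | h3
    · exact h1 (hV₁ h3)
    · exact h2 (hT₁ h3)
  refine ⟨(V₁ ∪ T₁) ∪ ((V₂ ∪ T₂) ∪ R), ?_, ?_, ?_⟩
  · exact union_subset (union_subset (hV₁.trans st₁.subg) (hT₁.trans st₁.subr))
      (hsub2.trans hBsub)
  · rw [card_union_of_disjoint d4, card_union_of_disjoint d1, card_union_of_disjoint d3,
      card_union_of_disjoint d2, hV₁c, hT₁c, hV₂c, hT₂c, hRc]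
    omega
  · rw [sum_union d4, sum_union d1, sum_union d3, sum_union d2, hV₁s, hV₂s]
    have e : y₁ + ∑ x ∈ T₁, x + (y₂ + ∑ x ∈ T₂, x + ∑ x ∈ R, x) =
        (y₁ + y₂) + ∑ x ∈ T₁, x + ∑ x ∈ T₂, x + ∑ x ∈ R, x := by abel
    rw [e, hyy]
    abel

end Pool.Agent.Lib.MPa7239a.RN
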