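import Pool.Agent.Lib.MP_a7239a_co.RN.Defs

/-!
# Module GROWN of RN (helper33): growth of a set `Y` at level `i`
-/

set_option autoImplicit false

open Finset
open scoped Pointwise

namespace Pool.Agent.Lib.MPa7239a.RN

theorem growAux_add {G : Type*} [AddCommGroup G] [DecidableEq G] (Y : Finset G) (y s : G) :
    #(Y.filter (fun x => x + (y + s) ∉ Y)) ≤
      #(Y.filter (fun x => x + y ∉ Y)) + #(Y.filter (fun x => x + s ∉ Y)) := by
  have hsub : Y.filter (fun x => x + (y + s) ∉ Y) ⊆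
      (Y.filter (fun x => x + y ∉ Y)).image (fun x => x - s) ∪ Y.filter (fun x => x + s ∉ Y) := by
    intro x hx
    rw [mem_filter] at hx
    by_cases h : x + s ∈ Y
    · apply mem_union_left
      rw [mem_image]
      refine ⟨x + s, mem_filter.2 ⟨h, ?_⟩, by abel⟩
      have : x + s + y = x + (y + s) := by abel
      rw [this]; exact hx.2
    · exact mem_union_right _ (mem_filter.2 ⟨hx.1, h⟩)
  calc _ ≤ _ := card_le_card hsub
    _ ≤ _ := card_union_le _ _
    _ ≤ _ := Nat.add_le_add_right card_image_le _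

theorem growAux_ind {G : Type*} [AddCommGroup G] [DecidableEq G] {Y S : Finset G}
    {k : ℕ} (h : ∀ d ∈ S, 8 * k * #(Y.filter (fun x => x + d ∉ Y)) ≤ #Y) (k' : ℕ) :
    ∀ z ∈ ks S k', 8 * k * #(Y.filter (fun x => x + z ∉ Y)) ≤ k' * #Y := by
  induction k' with
  | zero =>
    intro z hz
    rw [ks_zero, mem_singleton] at hz
    subst hz
    have : Y.filter (fun x => x + 0 ∉ Y) = ∅ := by
      apply filter_eq_empty_iff.2
      intro x hx
      simp [hx]
    rw [this]; simp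
  | succ k' ih =>
    intro z hz
    rw [ks_succ, mem_add] at hz
    obtain ⟨y, hy, s, hs, rfl⟩ := hz
    calc 8 * k * #(Y.filter (fun x => x + (y + s) ∉ Y))
        ≤ 8 * k * (#(Y.filter (fun x => x + y ∉ Y)) + #(Y.filter (fun x => x + s ∉ Y))) :=
          Nat.mul_le_mul_left _ (growAux_add Y y s)
      _ = 8 * k * #(Y.filter (fun x => x + y ∉ Y)) + 8 * k * #(Y.filter (fun x => x + s ∉ Y)) :=
          mul_add _ _ _
      _ ≤ k' * #Y + #Y := Nat.add_le_add (ih y hy) (h s hs)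
      _ = (k' + 1) * #Y := by ring

theorem growAux_near {G : Type*} [AddCommGroup G] [DecidableEq G] {Y S : Finset G} (hY : Y.Nonempty)
    {k : ℕ} (h : ∀ d ∈ S, 8 * k * #(Y.filter (fun x => x + d ∉ Y)) ≤ #Y) :
    7 * #(ks S k) ≤ 8 * #Y := by
  have hYpos : 0 < #Y := hY.card_pos
  rcases Nat.eq_zero_or_pos k with rfl | hk
  · rw [ks_zero, card_singleton]; omega
  have hz : ∀ z ∈ ks S k, 7 * #Y ≤ 8 * #(Y.filter (fun x => x + z ∈ Y)) := by
    intro z hz
    have h1 := growAux_ind h k z hz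
    have h2 : 8 * #(Y.filter (fun x => x + z ∉ Y)) ≤ #Y := by
      apply Nat.le_of_mul_le_mul_left _ hk
      calc k * (8 * #(Y.filter (fun x => x + z ∉ Y))) = 8 * k * #(Y.filter (fun x => x + z ∉ Y)) := by
            ring
        _ ≤ k * #Y := h1
    have h3 := card_filter_add_card_filter_not (s := Y) (fun x => x + z ∈ Y)
    omega
  have hsum : #(ks S k) * (7 * #Y) ≤ 8 * (#Y * #Y) := by
    calc #(ks S k) * (7 * #Y) = ∑ z ∈ ks S k, 7 * #Y := by rw [sum_const, smul_eq_mul]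
      _ ≤ ∑ z ∈ ks S k, 8 * #(Y.filter (fun x => x + z ∈ Y)) := sum_le_sum hz
      _ = 8 * ∑ z ∈ ks S k, #(Y.filter (fun x => x + z ∈ Y)) := by rw [mul_sum]
      _ = 8 * ∑ x ∈ Y, #((ks S k).filter (fun z => x + z ∈ Y)) := by
          congr 1
          simp only [card_filter]
          exact sum_comm
      _ ≤ 8 * ∑ x ∈ Y, #Y := by
          apply Nat.mul_le_mul_left
          apply sum_le_sum
          intro x _
          apply card_le_card_of_injOn (fun z => x + z)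
          · intro z hz
            exact (mem_filter.1 hz).2
          · intro a _ b _ hab
            exact add_left_cancel hab
      _ = 8 * (#Y * #Y) := by rw [sum_const, smul_eq_mul]
  apply Nat.le_of_mul_le_mul_left _ hYpos
  calc #Y * (7 * #(ks S k)) = #(ks S k) * (7 * #Y) := by ring
    _ ≤ 8 * (#Y * #Y) := hsum
    _ = #Y * (8 * #Y) := by ring

/-- going down `j` doublings -/
theorem ks_down {G : Type*} [AddCommGroup G] [DecidableEq G] {S : Finset G} {c b₀ : ℕ}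
    (hd : ∀ b, b₀ ≤ b → #(ks S (2 ^ (b + 1))) ≤ 2 ^ c * #(ks S (2 ^ b))) {m : ℕ} (hm : b₀ ≤ m)
    (j : ℕ) : #(ks S (2 ^ (m + j))) ≤ 2 ^ (c * j) * #(ks S (2 ^ m)) := by
  induction j with
  | zero => simp
  | succ j ih =>
    calc #(ks S (2 ^ (m + (j + 1)))) ≤ 2 ^ c * #(ks S (2 ^ (m + j))) :=
          hd (m + j) (by omega)
      _ ≤ 2 ^ c * (2 ^ (c * j) * #(ks S (2 ^ m))) := Nat.mul_le_mul_left _ ih
      _ = 2 ^ (c * (j + 1)) * #(ks S (2 ^ m)) := by
          rw [← mul_assoc, ← pow_add]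
          congr 2
          ring

/-- MODULE GROWN -/
theorem grow {G : Type*} [AddCommGroup G] [Finite G] [DecidableEq G] {S : Finset G}
    (h0 : 0 ∈ S) {M : AddSubgroup G} {c b₀ b₁ : ℕ} (hM : ∀ g ∈ M, g ∈ ks S (2 ^ b₁))
    (hc : 1 ≤ c) (hd : ∀ b, b₀ ≤ b → #(ks S (2 ^ (b + 1))) ≤ 2 ^ c * #(ks S (2 ^ b)))
    {Y : Finset G} (hY : Y.Nonempty) {i : ℕ} (hi : 1 ≤ i) (hYM : 2 ^ i * #Y ≤ Nat.card M) :
    ∃ d ∈ S, #Y < 8 * tl c b₀ b₁ i * #(Y.filter (fun x => x + d ∉ Y)) := by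
  classical
  by_contra hcon
  push Not at hcon
  have h1 := growAux_near hY hcon
  set m := max b₀ (b₁ - (i - 1) / c) with hmdef
  have htl : tl c b₀ b₁ i = 2 ^ m := rfl
  rw [htl] at h1
  have hMcard : Nat.card M ≤ #(ks S (2 ^ b₁)) := by
    have : (M : Set G) ⊆ ((ks S (2 ^ b₁) : Finset G) : Set G) := fun g hg => by
      simpa using hM g hg
    have h2 := Set.ncard_le_ncard this (Finset.finite_toSet _)
    rw [Set.ncard_coe_finset] at h2
    have h3 : Nat.card M = (M : Set G).ncard := rfl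
    rw [h3]; exact h2
  have hb0 : b₀ ≤ m := le_max_left _ _
  have hb1 : b₁ - (i - 1) / c ≤ m := le_max_right _ _
  have hmain : Nat.card M ≤ 2 ^ (i - 1) * #(ks S (2 ^ m)) := by
    rcases le_total b₁ m with hle | hle
    · calc Nat.card M ≤ #(ks S (2 ^ b₁)) := hMcard
        _ ≤ #(ks S (2 ^ m)) :=
            card_le_card (ks_mono h0 (Nat.pow_le_pow_right (by norm_num) hle))
        _ = 1 * #(ks S (2 ^ m)) := (one_mul _).symm
        _ ≤ 2 ^ (i - 1) * #(ks S (2 ^ m)) := Nat.mul_le_mul_right _ Nat.one_le_two_pow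
    · obtain ⟨j, hbj⟩ := Nat.exists_eq_add_of_le hle
      have hj : j ≤ (i - 1) / c := by omega
      have hcj : c * j ≤ i - 1 :=
        (Nat.mul_le_mul_left c hj).trans (Nat.mul_div_le (i - 1) c)
      calc Nat.card M ≤ #(ks S (2 ^ (m + j))) := by rw [← hbj]; exact hMcard
        _ ≤ 2 ^ (c * j) * #(ks S (2 ^ m)) := ks_down hd hb0 j
        _ ≤ 2 ^ (i - 1) * #(ks S (2 ^ m)) :=
            Nat.mul_le_mul_right _ (Nat.pow_le_pow_right (by norm_num) hcj)
  have hpos : 0 < Nat.card M := Nat.card_pos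
  have hpow : 2 ^ i = 2 * 2 ^ (i - 1) := by
    rw [← pow_succ']
    congr 1
    omega
  have h2 : 7 * Nat.card M ≤ 4 * Nat.card M := by
    calc 7 * Nat.card M ≤ 7 * (2 ^ (i - 1) * #(ks S (2 ^ m))) := Nat.mul_le_mul_left _ hmain
      _ = 2 ^ (i - 1) * (7 * #(ks S (2 ^ m))) := by ring
      _ ≤ 2 ^ (i - 1) * (8 * #Y) := Nat.mul_le_mul_left _ h1
      _ = 4 * (2 ^ i * #Y) := by rw [hpow]; ring
      _ ≤ 4 * Nat.card M := Nat.mul_le_mul_left _ hYM
  omega

end Pool.Agent.Lib.MPa7239a.RN
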