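import Pool.Agent.Lib.MP_a7239a_co.RN.Defs

/-! # RN, module ORD: the index of a kernel -/

set_option autoImplicit false

open Finset
open scoped Pointwise

namespace Pool.Agent.Lib.MPa7239a.RN

theorem ord_le {G : Type*} [AddCommGroup G] [Finite G] {n w : ℕ} (hn : 1 ≤ n)
    (M : AddSubgroup G) (ξ : G →+ ZMod n) {g : G} (hg : g ∈ M) (h0 : ξ g ≠ 0)
    (hw : (ξ g).valMinAbs.natAbs ≤ w) :
    n * Nat.card (M ⊓ ξ.ker : AddSubgroup G) ≤ w * Nat.card M := by
  have hn0 : NeZero n := ⟨by omega⟩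
  set f : M →+ ZMod n := ξ.comp M.subtype with hf
  have h1 : Nat.card f.ker * Nat.card f.range = Nat.card M := by
    rw [← AddSubgroup.index_ker]
    exact AddSubgroup.card_mul_index f.ker
  have h2 : Nat.card f.ker = Nat.card (M ⊓ ξ.ker : AddSubgroup G) := by
    refine Nat.card_congr ⟨fun x => ⟨x.1.1, x.1.2, x.2⟩, fun x => ⟨⟨x.1, x.2.1⟩, x.2.2⟩,
      fun x => rfl, fun x => rfl⟩
  have h3 : addOrderOf (ξ g) ≤ Nat.card f.range := by
    rw [← Nat.card_zmultiples]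
    have h4 : AddSubgroup.zmultiples (ξ g) ≤ f.range := by
      rw [AddSubgroup.zmultiples_le]
      exact ⟨⟨g, hg⟩, rfl⟩
    exact AddSubgroup.card_le_of_le h4
  have h4 : n ≤ addOrderOf (ξ g) * w := by
    set k := (ξ g).valMinAbs with hk
    have h5 : ((k : ℤ) : ZMod n) = ξ g := ZMod.coe_valMinAbs _
    have h6 : k ≠ 0 := by
      intro h
      rw [h, Int.cast_zero] at h5
      exact h0 h5.symm
    have h7 : (n : ℤ) ∣ (addOrderOf (ξ g) : ℤ) * k := by
      rw [← ZMod.intCast_zmod_eq_zero_iff_dvd]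
      push_cast
      rw [h5, ← nsmul_eq_mul]
      exact addOrderOf_nsmul_eq_zero (ξ g)
    have h8 : n ∣ addOrderOf (ξ g) * k.natAbs := by
      have h9 := Int.natAbs_dvd_natAbs.2 h7
      rwa [Int.natAbs_mul, Int.natAbs_natCast, Int.natAbs_natCast] at h9
    have h9 : 0 < addOrderOf (ξ g) * k.natAbs :=
      Nat.mul_pos (addOrderOf_pos _) (Int.natAbs_pos.2 h6)
    exact (Nat.le_of_dvd h9 h8).trans (Nat.mul_le_mul_left _ hw)
  rw [← h2, ← h1]
  calc n * Nat.card f.ker ≤ (addOrderOf (ξ g) * w) * Nat.card f.ker := Nat.mul_le_mul_right _ h4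
    _ ≤ (Nat.card f.range * w) * Nat.card f.ker :=
        Nat.mul_le_mul_right _ (Nat.mul_le_mul_right _ h3)
    _ = w * (Nat.card f.ker * Nat.card f.range) := by ring

/-- the second kernel: a subgroup of `M ∩ ker ξ` on which `η` is trivial too -/
theorem ord_le_two {G : Type*} [AddCommGroup G] [Finite G] {n w w' : ℕ} (hn : 1 ≤ n)
    (M : AddSubgroup G) (ξ η : G →+ ZMod n) {g g' : G} (hg : g ∈ M) (h0 : ξ g ≠ 0)
    (hw : (ξ g).valMinAbs.natAbs ≤ w) (hg' : g' ∈ M) (h1 : ξ g' = 0) (h2 : η g' ≠ 0)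
    (hw' : (η g').valMinAbs.natAbs ≤ w') :
    n * n * Nat.card (M ⊓ ξ.ker ⊓ η.ker : AddSubgroup G) ≤ w * w' * Nat.card M := by
  have h3 := ord_le hn M ξ hg h0 hw
  have h4 := ord_le hn (M ⊓ ξ.ker) η (g := g') ⟨hg', h1⟩ h2 hw'
  calc n * n * Nat.card (M ⊓ ξ.ker ⊓ η.ker : AddSubgroup G) =
      n * (n * Nat.card (M ⊓ ξ.ker ⊓ η.ker : AddSubgroup G)) := by ring
    _ ≤ n * (w' * Nat.card (M ⊓ ξ.ker : AddSubgroup G)) := Nat.mul_le_mul_left _ h4
    _ = w' * (n * Nat.card (M ⊓ ξ.ker : AddSubgroup G)) := by ring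
    _ ≤ w' * (w * Nat.card M) := Nat.mul_le_mul_left _ h3
    _ = w * w' * Nat.card M := by ring

end Pool.Agent.Lib.MPa7239a.RN
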