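import Pool.Agent.Lib.MP_a7239a_co.RN.DOUB
import Pool.Agent.Lib.MP_a7239a_co.RN.TMAIN
import Pool.Agent.Lib.MP_a7239a_co.RN.ORD
import Pool.Agent.Lib.MP_a7239a_co.RN.GROWN
import Pool.Agent.Lib.MP_a7239a_co.RN.FULLN

/-! # RN, module DICH: fill or rows -/

set_option autoImplicit false

universe u

open Finset
open scoped Pointwise

namespace Pool.Agent.Lib.MPa7239a.RN

open Pool.Agent.Lib.MPa7239a.GC (Hit)

namespace DICHM

/-! ### numbers -/

theorem log_small (K : ℕ) (n : ℕ) (hn : 2 ^ (27 * K) ≤ n) :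
    K * (Nat.log 2 n + 1) ^ 2 ≤ n := by
  set l := Nat.log 2 n with hl
  have hn0 : n ≠ 0 := by
    have := Nat.one_le_two_pow (n := 27 * K)
    omega
  have h1 : 2 ^ l ≤ n := Nat.pow_log_le_self 2 hn0
  have h2 : 27 * K ≤ l := by
    rw [hl]
    exact (Nat.le_log_iff_pow_le (by norm_num) hn0).2 hn
  have h3 : (l + 1) ^ 3 ≤ 27 * n := by
    have h4 : l + 1 ≤ 3 * (l / 3 + 1) := by omega
    have h5 : l / 3 + 1 ≤ 2 ^ (l / 3) := Nat.succ_le_of_lt Nat.lt_two_pow_self
    have h6 : (2 ^ (l / 3)) ^ 3 ≤ 2 ^ l := by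
      rw [← pow_mul]
      exact Nat.pow_le_pow_right (by norm_num) (by omega)
    calc (l + 1) ^ 3 ≤ (3 * (l / 3 + 1)) ^ 3 := Nat.pow_le_pow_left h4 3
      _ = 27 * (l / 3 + 1) ^ 3 := by ring
      _ ≤ 27 * (2 ^ (l / 3)) ^ 3 := Nat.mul_le_mul_left _ (Nat.pow_le_pow_left h5 3)
      _ ≤ 27 * n := Nat.mul_le_mul_left _ (h6.trans h1)
  have h7 : (l + 1) * (K * (l + 1) ^ 2) ≤ (l + 1) * n := by
    calc (l + 1) * (K * (l + 1) ^ 2) = K * (l + 1) ^ 3 := by ring
      _ ≤ K * (27 * n) := Nat.mul_le_mul_left _ h3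
      _ = 27 * K * n := by ring
      _ ≤ (l + 1) * n := Nat.mul_le_mul_right _ (by omega)
  exact Nat.le_of_mul_le_mul_left h7 (by omega)

theorem sum_geom : ∀ (b I : ℕ), ∑ k ∈ range I, 2 ^ (b - k) ≤ 2 ^ (b + 1) + I := by
  intro b
  induction b with
  | zero =>
    intro I
    simp
  | succ b ih =>
    intro I
    cases I with
    | zero => simp
    | succ I =>
      rw [sum_range_succ']
      have h1 : ∑ k ∈ range I, 2 ^ (b + 1 - (k + 1)) = ∑ k ∈ range I, 2 ^ (b - k) :=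
        sum_congr rfl fun k _ => by congr 1; omega
      rw [h1]
      have h2 := ih I
      have h3 : 2 ^ (b + 1 + 1) = 2 ^ (b + 1) + 2 ^ (b + 1) := by ring
      rw [h3, Nat.sub_zero]
      omega

theorem sum_blocks (c b I : ℕ) (hc : 1 ≤ c) :
    ∑ j ∈ range I, 2 ^ (b - j / c) ≤ c * (2 ^ (b + 1) + I) := by
  have h1 : ∑ j ∈ range I, 2 ^ (b - j / c) =
      ∑ k ∈ range I, ∑ j ∈ (range I).filter (fun j => j / c = k), 2 ^ (b - j / c) := by
    refine (sum_fiberwise_of_maps_to (fun j hj => ?_) _).symm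
    rw [mem_range] at hj ⊢
    exact (Nat.div_le_self j c).trans_lt hj
  rw [h1]
  calc ∑ k ∈ range I, ∑ j ∈ (range I).filter (fun j => j / c = k), 2 ^ (b - j / c)
      ≤ ∑ k ∈ range I, c * 2 ^ (b - k) := by
        refine sum_le_sum fun k _ => ?_
        have h2 : ∑ j ∈ (range I).filter (fun j => j / c = k), 2 ^ (b - j / c) =
            ∑ j ∈ (range I).filter (fun j => j / c = k), 2 ^ (b - k) :=
          sum_congr rfl fun j hj => by rw [(mem_filter.1 hj).2]
        rw [h2, sum_const, smul_eq_mul]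
        refine Nat.mul_le_mul_right _ ?_
        have h3 : (range I).filter (fun j => j / c = k) ⊆ Ico (c * k) (c * k + c) := by
          intro j hj
          have h4 := (mem_filter.1 hj).2
          rw [mem_Ico]
          have h5 := Nat.div_add_mod j c
          have h6 := Nat.mod_lt j (show 0 < c by omega)
          rw [h4] at h5
          omega
        refine (card_le_card h3).trans ?_
        rw [Nat.card_Ico]; omega
    _ = c * ∑ k ∈ range I, 2 ^ (b - k) := by rw [mul_sum]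
    _ ≤ c * (2 ^ (b + 1) + I) := Nat.mul_le_mul_left _ (sum_geom b I)

theorem sum_tl (c b₀ b₁ I : ℕ) (hc : 1 ≤ c) :
    ∑ i ∈ Icc 1 I, 8 * tl c b₀ b₁ i ≤ 8 * ((1 + c) * (I * 2 ^ b₀) + 2 * c * 2 ^ b₁) := by
  have h0 : ∑ i ∈ Icc 1 I, 8 * tl c b₀ b₁ i = 8 * ∑ j ∈ range I, tl c b₀ b₁ (j + 1) := by
    rw [← mul_sum]
    congr 1
    have : Icc 1 I = (range I).image (fun j => j + 1) := by
      ext i
      simp only [mem_Icc, mem_image, mem_range]
      constructor
      · rintro ⟨h1, h2⟩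
        exact ⟨i - 1, by omega, by omega⟩
      · rintro ⟨j, h1, rfl⟩
        omega
    rw [this, sum_image (fun a _ b _ h => by simpa using h)]
  rw [h0]
  refine Nat.mul_le_mul_left _ ?_
  have h1 : ∀ j, tl c b₀ b₁ (j + 1) ≤ 2 ^ b₀ + 2 ^ (b₁ - j / c) := by
    intro j
    rw [tl, Nat.add_sub_cancel]
    rcases le_total b₀ (b₁ - j / c) with h | h
    · rw [max_eq_right h]; exact Nat.le_add_left _ _
    · rw [max_eq_left h]; exact Nat.le_add_right _ _
  calc ∑ j ∈ range I, tl c b₀ b₁ (j + 1)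
      ≤ ∑ j ∈ range I, (2 ^ b₀ + 2 ^ (b₁ - j / c)) := sum_le_sum fun j _ => h1 j
    _ = I * 2 ^ b₀ + ∑ j ∈ range I, 2 ^ (b₁ - j / c) := by
        rw [sum_add_distrib, sum_const, card_range, smul_eq_mul]
    _ ≤ I * 2 ^ b₀ + c * (2 ^ (b₁ + 1) + I) := Nat.add_le_add_left (sum_blocks c b₁ I hc) _
    _ ≤ (1 + c) * (I * 2 ^ b₀) + 2 * c * 2 ^ b₁ := by
        have h2 : I ≤ I * 2 ^ b₀ := Nat.le_mul_of_pos_right _ (by positivity)
        have h3 : c * I ≤ c * (I * 2 ^ b₀) := Nat.mul_le_mul_left _ h2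
        have h4 : c * (2 ^ (b₁ + 1) + I) = 2 * c * 2 ^ b₁ + c * I := by ring
        rw [h4]
        have h5 : (1 + c) * (I * 2 ^ b₀) = I * 2 ^ b₀ + c * (I * 2 ^ b₀) := by ring
        rw [h5]
        omega

/-! ### sets off a coset -/

section

variable {G : Type u} [AddCommGroup G]

theorem mem_offC {B : Finset G} {z b : G} {S : AddSubgroup G} :
    b ∈ offC B z S ↔ b ∈ B ∧ b - z ∉ S := by
  classical
  rw [offC, mem_filter]

theorem offC_eq_empty {B : Finset G} {z : G} {S : AddSubgroup G} (h : ∀ b ∈ B, b - z ∈ S) :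
    offC B z S = ∅ := by
  rw [eq_empty_iff_forall_notMem]
  intro b hb
  exact (mem_offC.1 hb).2 (h b (mem_offC.1 hb).1)

/-- cleaning -/
theorem clean [Finite G] {U : ℕ} (hU : 1 ≤ U) (H : AddSubgroup G) (x : G) (B : Finset G)
    (hB : ∀ b ∈ B, b - x ∈ H) : ∃ (H' : AddSubgroup G) (x' : G) (B₀ : Finset G), H' ≤ H ∧
      Big U (Nat.card H) H' ∧ B₀ ⊆ B ∧ #B + 8 ≤ #B₀ + 8 * U ∧ (∀ b ∈ B₀, b - x' ∈ H') ∧
      Inv U (Nat.card H) H' B₀ := by
  classical
  have hex : ∃ k : ℕ, ∃ S : AddSubgroup G, Nat.card S = k ∧ S ≤ H ∧ Big U (Nat.card H) S ∧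
      ∃ z, #(offC B z S) * Nat.card S + 8 * Nat.card S ≤ 8 * Nat.card H := by
    refine ⟨_, H, rfl, le_rfl, ?_, x, ?_⟩
    · exact Nat.le_mul_of_pos_right _ hU
    · rw [offC_eq_empty hB, card_empty, zero_mul, zero_add]
  obtain ⟨H', hcard, hH', hbig, x', hx'⟩ := Nat.find_spec hex
  have hmin := fun k (hk : k < Nat.find hex) => Nat.find_min hex hk
  have hpos : 0 < Nat.card H' := Nat.card_pos
  refine ⟨H', x', B \ offC B x' H', hH', hbig, sdiff_subset, ?_, ?_, ?_⟩
  · have h1 : offC B x' H' ⊆ B := fun b hb => (mem_offC.1 hb).1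
    have h2 := card_sdiff_add_card_eq_card h1
    have h3 : (#(offC B x' H') + 8) * Nat.card H' ≤ (8 * U) * Nat.card H' := by
      calc (#(offC B x' H') + 8) * Nat.card H' =
            #(offC B x' H') * Nat.card H' + 8 * Nat.card H' := by ring
        _ ≤ 8 * Nat.card H := hx'
        _ ≤ 8 * (Nat.card H' * U) := Nat.mul_le_mul_left _ hbig
        _ = (8 * U) * Nat.card H' := by ring
    have h4 := Nat.le_of_mul_le_mul_right h3 hpos
    omega
  · intro b hb
    rw [mem_sdiff, mem_offC] at hb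
    by_contra h
    exact hb.2 ⟨hb.1, h⟩
  · intro S hS hSbig z
    have h1 : Nat.card S < Nat.card H' := by
      have h2 := AddSubgroup.card_le_of_le hS.le
      rcases h2.lt_or_eq with h | h
      · exact h
      · exact absurd (AddSubgroup.eq_of_le_of_card_ge hS.le h.ge) hS.ne
    have h2 := hmin (Nat.card S) (by rw [← hcard]; exact h1)
    have h3 : 8 * Nat.card H < #(offC B z S) * Nat.card S + 8 * Nat.card S := by
      by_contra h
      exact h2 ⟨S, rfl, hS.le.trans hH', hSbig, z, not_lt.1 h⟩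
    have h4 : offC B z S ⊆ offC (B \ offC B x' H') z S ∪ offC B x' H' := by
      intro b hb
      rw [mem_union]
      by_cases hb' : b ∈ offC B x' H'
      · exact Or.inr hb'
      · left
        rw [mem_offC, mem_sdiff]
        exact ⟨⟨(mem_offC.1 hb).1, hb'⟩, (mem_offC.1 hb).2⟩
    have h5 : #(offC B z S) ≤ #(offC (B \ offC B x' H') z S) + #(offC B x' H') :=
      (card_le_card h4).trans (card_union_le _ _)
    have h6 : #(offC B z S) * Nat.card S ≤
        #(offC (B \ offC B x' H') z S) * Nat.card S + #(offC B x' H') * Nat.card S := by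
      rw [← add_mul]; exact Nat.mul_le_mul_right _ h5
    have h7 : #(offC B x' H') * Nat.card S ≤ #(offC B x' H') * Nat.card H' :=
      Nat.mul_le_mul_left _ h1.le
    omega

end

/-- a set of representatives for a bounded character -/
theorem reps {G : Type u} [AddCommGroup G] {n : ℕ} [NeZero n] (ξ : G →+ ZMod n) {w : ℕ}
    {B : Finset G} {b₁ : G} (hB : ∀ b ∈ B, (ξ (b - b₁)).valMinAbs.natAbs ≤ w) :
    ∃ C : Finset G, #C ≤ 2 * w + 1 ∧ C ⊆ B ∧ ∀ b ∈ B, ∃ y ∈ C, ξ (b - y) = 0 := by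
  classical
  set V : Finset (ZMod n) := B.image (fun b => ξ (b - b₁)) with hV
  have h1 : ∀ v ∈ V, ∃ b ∈ B, ξ (b - b₁) = v := fun v hv => by simpa [hV] using hv
  choose f hf1 hf2 using h1
  refine ⟨V.attach.image (fun v => f v.1 v.2), ?_, ?_, ?_⟩
  · refine card_image_le.trans ?_
    rw [card_attach]
    have h2 : #V ≤ #(Icc (-(w : ℤ)) w) := by
      refine card_le_card_of_injOn (fun v => v.valMinAbs) (fun v hv => ?_)
        (fun a _ b _ h => ZMod.injective_valMinAbs h)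
      obtain ⟨b, hb, rfl⟩ := mem_image.1 hv
      rw [coe_Icc, Set.mem_Icc]
      have h3 := hB b hb
      change -(w : ℤ) ≤ (ξ (b - b₁)).valMinAbs ∧ (ξ (b - b₁)).valMinAbs ≤ (w : ℤ)
      omega
    refine h2.trans (le_of_eq ?_)
    rw [Int.card_Icc]
    omega
  · intro y hy
    obtain ⟨v, -, rfl⟩ := mem_image.1 hy
    exact hf1 _ _
  · intro b hb
    have hv : ξ (b - b₁) ∈ V := mem_image_of_mem _ hb
    refine ⟨f _ hv, mem_image.2 ⟨⟨_, hv⟩, mem_attach _ _, rfl⟩, ?_⟩
    have h3 := hf2 _ hv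
    have h4 : b - f _ hv = (b - b₁) - (f _ hv - b₁) := by abel
    rw [h4, map_sub, h3, sub_self]

/-- the growth of a translate union -/
theorem union_translate {G : Type u} [AddCommGroup G] [DecidableEq G] (Z : Finset G) (u v : G) :
    #Z + #(Z.filter (fun x => x + (u - v) ∉ Z)) ≤ #((Z + {u}) ∪ (Z + {v})) := by
  classical
  set D := Z.filter (fun x => x + (u - v) ∉ Z) with hD
  have h1 : (Z + {v}) ∪ (D + {u}) ⊆ (Z + {u}) ∪ (Z + {v}) := by
    refine union_subset subset_union_right ?_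
    exact (add_subset_add_right (filter_subset _ _)).trans subset_union_left
  have h2 : Disjoint (Z + {v}) (D + {u}) := by
    rw [disjoint_left]
    intro y hy hy'
    rw [mem_add] at hy hy'
    obtain ⟨a, ha, b, hb, rfl⟩ := hy
    obtain ⟨a', ha', b', hb', h⟩ := hy'
    rw [mem_singleton] at hb hb'
    subst hb hb'
    have h3 := (mem_filter.1 ha').2
    apply h3
    have h4 : a' + (b' - b) = a := by
      rw [← add_sub_assoc, h]; abel
    rw [h4]; exact ha
  have h3 := card_le_card h1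
  rw [card_union_of_disjoint h2] at h3
  have h4 : #(Z + {v}) = #Z := by rw [add_singleton]; exact card_vadd_finset _ _
  have h5 : #(D + {u}) = #D := by rw [add_singleton]; exact card_vadd_finset _ _
  rw [h4, h5] at h3
  exact h3

end DICHM

open DICHM

theorem dich (r : ℕ) (hr : 1 ≤ r) (e : ℕ) (he : 1 ≤ e) : ∃ w n₀ : ℕ, ∀ n : ℕ, n₀ ≤ n →
    ∀ (G : Type u) [AddCommGroup G] [Finite G], (∀ x : G, n • x = 0) → Nat.card G ≤ n ^ r →
    ∀ (H : AddSubgroup G) (x : G) (B : Finset G), (∀ b ∈ B, b - x ∈ H) →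
      (∃ (H' : AddSubgroup G) (x' : G) (B' : Finset G) (q : ℕ), H' ≤ H ∧ B' ⊆ B ∧
        e * #B ≤ e * #B' + n ∧ e * q ≤ n ∧ FullC B' x' H' q) ∨
      (∃ (L : AddSubgroup G) (C : Finset G), L ≤ H ∧ n * Nat.card L ≤ w * Nat.card H ∧
        #C ≤ w ∧ ∃ B' ⊆ B, e * #B ≤ e * #B' + n ∧ ∀ b ∈ B', ∃ y ∈ C, b - y ∈ L) := by
  classical
  obtain ⟨c, hc, hdoub⟩ := doub.{u} r hr
  set F : ℕ := 4096 * c * e with hF
  have hF1 : 1 ≤ F := by
    have : 1 ≤ c * e := Nat.one_le_iff_ne_zero.2 (by positivity)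
    rw [hF]; nlinarith
  obtain ⟨w₁, n₁, htmain⟩ := tmain.{u} r hr F hF1
  set D : ℕ := (2048 * e * (1 + c)) ^ 2 * (4 * c * r ^ 2) with hD
  refine ⟨1024 * e + 2 * w₁ + 1, n₁ + 16 + F + 2 ^ (27 * D), ?_⟩
  intro n hn G _ _ hG hcardG H x B hB
  have hnD : 2 ^ (27 * D) ≤ n := (Nat.le_add_left _ _).trans hn
  have hn' : n₁ + 16 + F ≤ n := (Nat.le_add_right _ _).trans hn
  have hn1 : n₁ ≤ n := by omega
  have hn16 : 16 ≤ n := by omega
  have hnF : F ≤ n := by omega
  have hne : 4096 * e ≤ n := by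
    have : 4096 * e ≤ F := by rw [hF]; nlinarith
    omega
  haveI : NeZero n := ⟨by omega⟩
  -- the trivial case
  by_cases hsmall : e * #B ≤ n
  · left
    refine ⟨H, x, ∅, 1, le_rfl, empty_subset _, ?_, by omega, ?_⟩
    · rw [card_empty]; omega
    · refine ⟨fun b hb => absurd hb (notMem_empty b), fun k hk hk' => ?_⟩
      rw [card_empty] at hk'
      omega
  rw [not_le] at hsmall
  -- numbers
  set U : ℕ := n / (512 * e) with hU
  have hU1 : 1 ≤ U := by
    rw [hU]
    exact (Nat.one_le_div_iff (by omega)).2 (by omega)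
  have hUn : 512 * (e * U) ≤ n := by
    have := Nat.div_mul_le_self n (512 * e)
    rw [← hU] at this
    calc 512 * (e * U) = U * (512 * e) := by ring
      _ ≤ n := this
  have hUn' : n ≤ 1024 * e * U := by
    have h1 := Nat.lt_succ_iff.1 (Nat.lt_succ_of_lt (Nat.lt_mul_div_succ n (show 0 < 512 * e by omega)))
    rw [← hU] at h1
    have h2 : 512 * e ≤ 512 * e * U := Nat.le_mul_of_pos_right _ hU1
    nlinarith
  obtain ⟨H', x', B₀, hH', hbig, hB₀B, hB₀c, hB₀, hinv⟩ := clean hU1 H x B hB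
  have hcH' : Nat.card H' ≤ Nat.card H := AddSubgroup.card_le_of_le hH'
  -- thin subgroups
  by_cases hthin : ∃ S : AddSubgroup G, S ≤ H' ∧ ¬ Big U (Nat.card H) S ∧
      ∃ z : G, #(offC B₀ z S) * (2 * e) < n
  · right
    obtain ⟨S, hS, hSb, z, hz⟩ := hthin
    refine ⟨S, {z}, hS.trans hH', ?_, ?_, B₀ \ offC B₀ z S,
      sdiff_subset.trans hB₀B, ?_, ?_⟩
    · rw [Big, not_le] at hSb
      calc n * Nat.card S ≤ (1024 * e * U) * Nat.card S := Nat.mul_le_mul_right _ hUn'
        _ = 1024 * e * (Nat.card S * U) := by ring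
        _ ≤ 1024 * e * Nat.card H := Nat.mul_le_mul_left _ hSb.le
        _ ≤ (1024 * e + 2 * w₁ + 1) * Nat.card H := Nat.mul_le_mul_right _ (by omega)
    · rw [card_singleton]; omega
    · have h1 : offC B₀ z S ⊆ B₀ := fun b hb => (mem_offC.1 hb).1
      have h2 := card_sdiff_add_card_eq_card h1
      set a := #(offC B₀ z S)
      set b := #(B₀ \ offC B₀ z S)
      have h3 : e * #B ≤ e * (b + a + 8 * U) := Nat.mul_le_mul_left _ (by omega)
      have h4 : e * (b + a + 8 * U) = e * b + e * a + 8 * (e * U) := by ring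
      have h5 : a * (2 * e) = 2 * (e * a) := by ring
      rw [h5] at hz
      rw [h4] at h3
      omega
    · intro b hb
      rw [mem_sdiff, mem_offC] at hb
      refine ⟨z, mem_singleton_self _, ?_⟩
      by_contra h
      exact hb.2 ⟨hb.1, h⟩
  push Not at hthin
  -- second alternative or filling
  by_cases hB2 : ∃ (L : AddSubgroup G) (C : Finset G), L ≤ H ∧
      n * Nat.card L ≤ (1024 * e + 2 * w₁ + 1) * Nat.card H ∧ #C ≤ 1024 * e + 2 * w₁ + 1 ∧
      ∃ B' ⊆ B, e * #B ≤ e * #B' + n ∧ ∀ b ∈ B', ∃ y ∈ C, b - y ∈ L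
  · exact Or.inr hB2
  left
  -- scales
  set b₀ : ℕ := Nat.clog 4 (c * n) with hb₀
  have hb₀1 : c * n ≤ 4 ^ b₀ := Nat.le_pow_clog (by norm_num) _
  have hcn : 1 < c * n := by nlinarith
  have hb₀2 : 4 ^ b₀ ≤ 4 * (c * n) := by
    have h1 : 4 ^ (b₀ - 1) < c * n := Nat.pow_pred_clog_lt_self (by norm_num) hcn
    have h2 : 0 < b₀ := Nat.clog_pos (by norm_num) hcn
    have h3 : 4 ^ b₀ = 4 * 4 ^ (b₀ - 1) := by
      obtain ⟨m, hm⟩ := Nat.exists_eq_succ_of_ne_zero h2.ne'
      rw [hm]; simp [pow_succ]; ring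
    rw [h3]; omega
  set b₁ : ℕ := Nat.log 2 (n / F) with hb₁
  have hnF0 : n / F ≠ 0 := by
    have := (Nat.one_le_div_iff (show 0 < F by omega)).2 hnF
    omega
  have hb₁1 : 2 ^ b₁ * F ≤ n := by
    have h1 : 2 ^ b₁ ≤ n / F := Nat.pow_log_le_self 2 hnF0
    exact (Nat.le_div_iff_mul_le (by omega)).1 h1
  have hb₁2 : n < 2 ^ (b₁ + 1) * F := by
    have h1 : n / F < 2 ^ (b₁ + 1) := Nat.lt_pow_succ_log_self (by norm_num) _
    exact (Nat.div_lt_iff_lt_mul (by omega)).1 h1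
  set I : ℕ := Nat.log 2 (Nat.card H') with hI
  have hcH'0 : Nat.card H' ≠ 0 := Nat.card_pos.ne'
  have hI1 : Nat.card H' < 2 ^ (I + 1) := Nat.lt_pow_succ_log_self (by norm_num) _
  have hI2 : I ≤ r * (Nat.log 2 n + 1) := by
    have h1 : 2 ^ I ≤ Nat.card H' := Nat.pow_log_le_self 2 hcH'0
    have h2 : Nat.card H' ≤ Nat.card G := AddSubgroup.card_le_card_addGroup H'
    have h3 : n ≤ 2 ^ (Nat.log 2 n + 1) := (Nat.lt_pow_succ_log_self (by norm_num) _).le
    have h4 : 2 ^ I ≤ 2 ^ (r * (Nat.log 2 n + 1)) := by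
      calc 2 ^ I ≤ n ^ r := h1.trans (h2.trans hcardG)
        _ ≤ (2 ^ (Nat.log 2 n + 1)) ^ r := Nat.pow_le_pow_left h3 r
        _ = 2 ^ (r * (Nat.log 2 n + 1)) := by rw [← pow_mul, mul_comm]
    exact (Nat.pow_le_pow_iff_right (by norm_num)).1 h4
  set T : ℕ := ∑ i ∈ Icc 1 I, 8 * tl c b₀ b₁ i with hT
  have hT1 : 128 * (e * T) ≤ n := by
    have h1 := sum_tl c b₀ b₁ I hc
    rw [← hT] at h1
    have h2 : 2048 * e * (1 + c) * (I * 2 ^ b₀) ≤ n := by
      have h3 : (2048 * e * (1 + c) * (I * 2 ^ b₀)) ^ 2 ≤ n ^ 2 := by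
        have h4 : (2 ^ b₀) ^ 2 ≤ 4 * (c * n) := by
          calc (2 ^ b₀) ^ 2 = 4 ^ b₀ := by rw [← pow_mul, mul_comm, pow_mul]; norm_num
            _ ≤ _ := hb₀2
        have h5 : I ^ 2 ≤ (r * (Nat.log 2 n + 1)) ^ 2 := Nat.pow_le_pow_left hI2 2
        have h6 := log_small D n hnD
        calc (2048 * e * (1 + c) * (I * 2 ^ b₀)) ^ 2
            = (2048 * e * (1 + c)) ^ 2 * (I ^ 2 * (2 ^ b₀) ^ 2) := by ring
          _ ≤ (2048 * e * (1 + c)) ^ 2 * ((r * (Nat.log 2 n + 1)) ^ 2 * (4 * (c * n))) :=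
              Nat.mul_le_mul_left _ (Nat.mul_le_mul h5 h4)
          _ = D * (Nat.log 2 n + 1) ^ 2 * n := by rw [hD]; ring
          _ ≤ n * n := Nat.mul_le_mul_right _ h6
          _ = n ^ 2 := by ring
      exact (Nat.pow_le_pow_iff_left (by norm_num)).1 h3
    have h7 : 128 * (e * T) ≤ 128 * (e * (8 * ((1 + c) * (I * 2 ^ b₀) + 2 * c * 2 ^ b₁))) :=
      Nat.mul_le_mul_left _ (Nat.mul_le_mul_left _ h1)
    have h8 : 2 * (128 * (e * (8 * ((1 + c) * (I * 2 ^ b₀) + 2 * c * 2 ^ b₁)))) =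
        2048 * e * (1 + c) * (I * 2 ^ b₀) + 2 ^ b₁ * F := by rw [hF]; ring
    omega
  have hB₀n : 63 * n ≤ 64 * (e * #B₀) := by
    have h1 : e * (#B + 8) ≤ e * (#B₀ + 8 * U) := Nat.mul_le_mul_left _ hB₀c
    have h2 : e * (#B + 8) = e * #B + 8 * e := by ring
    have h3 : e * (#B₀ + 8 * U) = e * #B₀ + 8 * (e * U) := by ring
    rw [h2, h3] at h1
    omega
  have hfull : FullC B₀ x' H' (2 * T + 16 * U) := by
    refine full_two (h := Nat.card H) (t := tl c b₀ b₁) (I := I) hcH' hbig hB₀ hinv ?_ hI1 ?_ ?_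
    · intro i
      exact Nat.one_le_two_pow
    · have h1 : e * (4 * T + 96 * U + 10) ≤ e * #B₀ := by
        have h2 : e * (4 * T + 96 * U + 10) = 4 * (e * T) + 96 * (e * U) + 10 * e := by ring
        rw [h2]; omega
      exact Nat.le_of_mul_le_mul_left h1 he
    · intro M B₁ z hM hMb hB₁ hB₁z hB₁i hB₁c Z i hi hZ hZc
      rw [← hT] at hB₁c
      -- the differences of `B₁`
      have hBne : B₁.Nonempty := by
        by_contra h
        rw [not_nonempty_iff_eq_empty] at h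
        rw [h, card_empty] at hB₁c
        have h1 : e * #B₀ ≤ e * (0 + 4 * T + 32 * U) := Nat.mul_le_mul_left _ hB₁c
        have h2 : e * (0 + 4 * T + 32 * U) = 4 * (e * T) + 32 * (e * U) := by ring
        rw [h2] at h1
        omega
      obtain ⟨b₂, hb₂⟩ := hBne
      have hSM : ∀ s ∈ B₁ - B₁, s ∈ M := by
        intro s hs
        obtain ⟨a, ha, b, hb, rfl⟩ := mem_sub.1 hs
        have : a - b = (a - z) - (b - z) := by abel
        rw [this]
        exact M.sub_mem (hB₁z a ha) (hB₁z b hb)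
      have hcl : AddSubgroup.closure ((B₁ - B₁ : Finset G) : Set G) = M := by
        have hle : AddSubgroup.closure ((B₁ - B₁ : Finset G) : Set G) ≤ M :=
          (AddSubgroup.closure_le _).2 hSM
        by_contra hne'
        set M₁ := AddSubgroup.closure ((B₁ - B₁ : Finset G) : Set G) with hM₁
        have hlt : M₁ < M := lt_of_le_of_ne hle hne'
        have hoff : ∀ b ∈ B₁, b - b₂ ∈ M₁ := fun b hb =>
          AddSubgroup.subset_closure (sub_mem_sub hb hb₂)
        by_cases hM₁b : Big U (Nat.card H) M₁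
        · have h1 := hB₁i M₁ hlt hM₁b b₂
          rw [offC_eq_empty hoff, card_empty, zero_mul, zero_add] at h1
          have h2 : Nat.card M₁ < Nat.card M := by
            rcases (AddSubgroup.card_le_of_le hle).lt_or_eq with h | h
            · exact h
            · exact absurd (AddSubgroup.eq_of_le_of_card_ge hle h.ge) hne'
          omega
        · have h1 := hthin M₁ (hle.trans hM) hM₁b b₂
          have h2 : offC B₀ b₂ M₁ ⊆ B₀ \ B₁ := by
            intro b hb
            rw [mem_offC] at hb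
            rw [mem_sdiff]
            exact ⟨hb.1, fun h => hb.2 (hoff b h)⟩
          have h3 := card_le_card h2
          have h4 := card_sdiff_add_card_eq_card hB₁
          have h5 : #(offC B₀ b₂ M₁) ≤ 4 * T + 32 * U := by omega
          have h6 : #(offC B₀ b₂ M₁) * (2 * e) ≤ (4 * T + 32 * U) * (2 * e) :=
            Nat.mul_le_mul_right _ h5
          have h7 : (4 * T + 32 * U) * (2 * e) = 8 * (e * T) + 64 * (e * U) := by ring
          rw [h7] at h6
          omega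
      have h0S : (0 : G) ∈ B₁ - B₁ := by
        have := sub_mem_sub hb₂ hb₂
        rwa [sub_self] at this
      have hSs : ∀ s ∈ B₁ - B₁, -s ∈ B₁ - B₁ := by
        intro s hs
        obtain ⟨a, ha, b, hb, rfl⟩ := mem_sub.1 hs
        rw [neg_sub]
        exact sub_mem_sub hb ha
      rcases htmain n hn1 G hG hcardG (B₁ - B₁) h0S hSs b₁ hb₁1 hb₁2 with h1 | ⟨ξ, ⟨s, hs, hξ⟩, hξw⟩
      · rw [hcl] at h1
        obtain ⟨d, hd, hgrow⟩ := grow (b₀ := b₀) h0S h1 hc
          (fun b hb => hdoub n hn16 G hcardG (B₁ - B₁) h0S hSs b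
            (hb₀1.trans (Nat.pow_le_pow_right (by norm_num) hb))) hZ hi hZc
        obtain ⟨u, hu, v, hv, rfl⟩ := mem_sub.1 hd
        refine ⟨u, hu, v, hv, ?_, ?_⟩
        · rintro rfl
          rw [sub_self] at hgrow
          have : Z.filter (fun x => x + 0 ∉ Z) = ∅ := by
            rw [filter_eq_empty_iff]
            intro y hy
            simpa using hy
          rw [this, card_empty, mul_zero] at hgrow
          exact absurd hgrow (Nat.not_lt_zero _)
        · have h2 := union_translate Z u v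
          set a := 8 * tl c b₀ b₁ i
          set k := #(Z.filter (fun x => x + (u - v) ∉ Z))
          have h3 : a * (#Z + k) ≤ a * #((Z + {u}) ∪ (Z + {v})) := Nat.mul_le_mul_left _ h2
          have h4 : a * (#Z + k) = a * #Z + a * k := by ring
          have h5 : (a + 1) * #Z = a * #Z + #Z := by ring
          rw [h4] at h3
          rw [h5]
          omega
      · exfalso
        apply hB2
        obtain ⟨C, hC1, hC2, hC3⟩ := reps ξ (b₁ := b₂) (B := B₁) (w := w₁)
          (fun b hb => hξw _ (sub_mem_sub hb hb₂))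
        refine ⟨M ⊓ ξ.ker, C, inf_le_left.trans (hM.trans hH'), ?_, by omega, B₁,
          hB₁.trans hB₀B, ?_, ?_⟩
        · have h1 := ord_le (n := n) (w := w₁) (by omega) M ξ (hSM s hs) hξ (hξw s hs)
          calc n * Nat.card (M ⊓ ξ.ker : AddSubgroup G) ≤ w₁ * Nat.card M := h1
            _ ≤ w₁ * Nat.card H :=
                Nat.mul_le_mul_left _ (AddSubgroup.card_le_of_le (hM.trans hH'))
            _ ≤ _ := Nat.mul_le_mul_right _ (by omega)
        · have h1 : e * #B ≤ e * (#B₁ + 4 * T + 40 * U) := Nat.mul_le_mul_left _ (by omega)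
          have h2 : e * (#B₁ + 4 * T + 40 * U) = e * #B₁ + 4 * (e * T) + 40 * (e * U) := by ring
          rw [h2] at h1
          omega
        · intro b hb
          obtain ⟨y, hy, h1⟩ := hC3 b hb
          refine ⟨y, hy, ?_, h1⟩
          exact hSM _ (sub_mem_sub hb (hC2 hy))
  refine ⟨H', x', B₀, 2 * T + 16 * U, hH', hB₀B, ?_, ?_, hfull⟩
  · have h1 : e * #B ≤ e * (#B₀ + 8 * U) := Nat.mul_le_mul_left _ (by omega)
    have h2 : e * (#B₀ + 8 * U) = e * #B₀ + 8 * (e * U) := by ring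
    rw [h2] at h1
    omega
  · have h1 : e * (2 * T + 16 * U) = 2 * (e * T) + 16 * (e * U) := by ring
    rw [h1]
    omega

end Pool.Agent.Lib.MPa7239a.RN
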