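import Pool.Agent.Lib.MP_a7239a_co.RN.COVER

/-!
# Module DOUB (helper32): doubling of `ks S (2 ^ b)` for `c * n ≤ 4 ^ b`
-/

set_option autoImplicit false

universe u

open Finset
open scoped Pointwise

namespace Pool.Agent.Lib.MPa7239a.RN

theorem doub (r : ℕ) (hr : 1 ≤ r) : ∃ c : ℕ, 1 ≤ c ∧ ∀ n : ℕ, 16 ≤ n → ∀ (G : Type u)
    [AddCommGroup G] [Finite G] [DecidableEq G], Nat.card G ≤ n ^ r → ∀ S : Finset G, 0 ∈ S →
    (∀ s ∈ S, -s ∈ S) → ∀ b : ℕ, c * n ≤ 4 ^ b →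
      #(ks S (2 ^ (b + 1))) ≤ 2 ^ c * #(ks S (2 ^ b)) := by
  obtain ⟨K, hKdef⟩ : ∃ K, K = 2 ^ (8 * r) := ⟨_, rfl⟩
  have hK1 : 1 ≤ K := by rw [hKdef]; exact Nat.one_le_two_pow
  refine ⟨9 * K ^ 2 + (12 * K + 1) * K, ?_, ?_⟩
  · nlinarith
  intro n hn G _ _ _ hG S h0 hs b hb
  -- the scale
  set u := Nat.log 16 n with hu
  have hu1 : 1 ≤ u := by
    rw [hu]
    exact Nat.log_pos (by norm_num) hn
  have hun : 16 ^ u ≤ n := Nat.pow_log_le_self 16 (by omega)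
  have hnu : n < 16 ^ (u + 1) := Nat.lt_pow_succ_log_self (by norm_num) n
  obtain ⟨i, hi, hiK⟩ : ∃ i, i < u ∧ #(ks S (4 ^ (i + 1))) ≤ K * #(ks S (4 ^ i)) := by
    by_contra hcon
    push Not at hcon
    have hind : ∀ i, i ≤ u → K ^ i ≤ #(ks S (4 ^ i)) := by
      intro i
      induction i with
      | zero =>
        intro _
        rw [pow_zero]
        exact card_pos.2 (ks_nonempty h0 _)
      | succ i ih =>
        intro hi
        have h1 := ih (by omega)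
        have h2 := hcon i (by omega)
        calc K ^ (i + 1) = K * K ^ i := by rw [pow_succ, mul_comm]
          _ ≤ K * #(ks S (4 ^ i)) := Nat.mul_le_mul_left _ h1
          _ ≤ #(ks S (4 ^ (i + 1))) := h2.le
    have h1 := hind u le_rfl
    have h2 : #(ks S (4 ^ u)) ≤ Nat.card G := by
      classical
      have := Fintype.ofFinite G
      rw [Nat.card_eq_fintype_card]
      exact card_le_univ _
    have h3 : n ^ r < (16 ^ (u + 1)) ^ r := Nat.pow_lt_pow_left hnu (by omega)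
    have h4 : (16 ^ (u + 1)) ^ r ≤ K ^ u := by
      rw [hKdef, show (16 : ℕ) = 2 ^ 4 by norm_num, ← pow_mul, ← pow_mul, ← pow_mul]
      refine Nat.pow_le_pow_right (by norm_num) ?_
      calc 4 * ((u + 1) * r) ≤ 4 * ((2 * u) * r) :=
            Nat.mul_le_mul_left _ (Nat.mul_le_mul_right _ (by omega))
        _ = 8 * r * u := by ring
    omega
  -- the size of the scale
  have hi16 : 16 ^ i ≤ n := (Nat.pow_le_pow_right (by norm_num) hi.le).trans hun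
  have h3K : 3 * K * 4 ^ i ≤ 2 ^ b := by
    have h : (3 * K * 4 ^ i) ^ 2 ≤ (2 ^ b) ^ 2 := by
      calc (3 * K * 4 ^ i) ^ 2 = 9 * K ^ 2 * 16 ^ i := by
            rw [mul_pow, mul_pow, ← pow_mul, mul_comm i 2, pow_mul]; norm_num
        _ ≤ 9 * K ^ 2 * n := Nat.mul_le_mul_left _ hi16
        _ ≤ (9 * K ^ 2 + (12 * K + 1) * K) * n := Nat.mul_le_mul_right _ (Nat.le_add_right _ _)
        _ ≤ 4 ^ b := hb
        _ = (2 ^ b) ^ 2 := by rw [← pow_mul, mul_comm b 2, pow_mul]; norm_num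
    exact (Nat.pow_le_pow_iff_left (by norm_num)).1 h
  have h2i : 2 * i ≤ b := by
    have h : 2 ^ (2 * i) ≤ 2 ^ b := by
      calc 2 ^ (2 * i) = 4 ^ i := by rw [pow_mul]; norm_num
        _ ≤ 3 * K * 4 ^ i := Nat.le_mul_of_pos_left _ (by omega)
        _ ≤ 2 ^ b := h3K
    exact (Nat.pow_le_pow_iff_right (by norm_num)).1 h
  have hbm : 2 ^ b = 4 ^ i * 2 ^ (b - 2 * i) := by
    rw [show (4 : ℕ) = 2 ^ 2 by norm_num, ← pow_mul, ← pow_add]
    congr 1; omega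
  have hm : 3 * K ≤ 2 ^ (b - 2 * i) := by
    rw [hbm, mul_comm (4 ^ i)] at h3K
    exact Nat.le_of_mul_le_mul_right h3K (by positivity)
  have hcov := cover (S := ks S (4 ^ i)) (zero_mem_ks h0 _) (neg_mem_ks hs _) (K := K)
    (by rw [← ks_mul, ← pow_succ]; exact hiK) hm
  rw [← ks_mul, ← ks_mul, ← hbm, show 4 ^ i * (2 * 2 ^ (b - 2 * i)) = 2 ^ (b + 1) by
    rw [pow_succ, hbm]; ring] at hcov
  refine hcov.trans (Nat.mul_le_mul_right _ ?_)
  calc (12 * K + 1) ^ K ≤ (2 ^ (12 * K + 1)) ^ K :=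
        Nat.pow_le_pow_left (Nat.lt_two_pow_self).le _
    _ = 2 ^ ((12 * K + 1) * K) := by rw [← pow_mul]
    _ ≤ 2 ^ (9 * K ^ 2 + (12 * K + 1) * K) :=
        Nat.pow_le_pow_right (by norm_num) (Nat.le_add_left _ _)

end Pool.Agent.Lib.MPa7239a.RN
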