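import Pool.Agent.Lib.MP_a7239a_co.RN.Defs

/-!
# RN, module LOWG: the lower bound `2 ^ t * (n - 1)` for groups with a surjection onto
`ZMod n ^ t` whose kernel has at least `n - 1` elements
-/

set_option autoImplicit false

open Finset

namespace Pool.Agent.Lib.MPa7239a.RN

open Pool.Agent.Lib.MPa7239a.GC (Hit)

namespace LOWGM

/-- `n` elements `0` or `1` with sum `0` are equal -/
theorem bits {n : ℕ} {ι : Type*} {T : Finset ι} {f : ι → ZMod n}
    (hf : ∀ x ∈ T, f x = 0 ∨ f x = 1) (hT : #T = n) (hs : ∑ x ∈ T, f x = 0) :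
    ∃ ε, ∀ x ∈ T, f x = ε := by
  classical
  by_cases h01 : (0 : ZMod n) = 1
  · exact ⟨0, fun x hx => (hf x hx).elim id fun h => h.trans h01.symm⟩
  have h1 : ∑ x ∈ T, f x = ((#(T.filter (fun x => f x = 1)) : ℕ) : ZMod n) := by
    rw [card_filter, Nat.cast_sum]
    refine sum_congr rfl fun x hx => ?_
    rcases hf x hx with h | h
    · rw [h, if_neg h01, Nat.cast_zero]
    · rw [h, if_pos rfl, Nat.cast_one]
  rw [h1, ZMod.natCast_eq_zero_iff] at hs
  rcases Nat.eq_zero_or_pos #(T.filter (fun x => f x = 1)) with h | h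
  · refine ⟨0, fun x hx => (hf x hx).resolve_right fun h2 => ?_⟩
    rw [card_eq_zero] at h
    have : x ∈ T.filter (fun x => f x = 1) := mem_filter.2 ⟨hx, h2⟩
    rw [h] at this
    exact notMem_empty _ this
  · have h2 := Nat.le_of_dvd h hs
    have h3 : T.filter (fun x => f x = 1) = T :=
      eq_of_subset_of_card_le (filter_subset _ _) (by rw [hT]; exact h2)
    refine ⟨1, fun x hx => ?_⟩
    rw [← h3] at hx
    exact (mem_filter.1 hx).2

end LOWGM

theorem lowg {G : Type*} [AddCommGroup G] {t n : ℕ} (hn : 1 ≤ n)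
    (χ : G →+ (Fin t → ZMod n)) (hχ : Function.Surjective χ) (S : Finset G)
    (hS : ∀ s ∈ S, χ s = 0) (hSc : #S = n - 1) :
    ∃ A : Finset G, #A = 2 ^ t * (n - 1) ∧ ¬ Hit A n 0 := by
  classical
  rcases Nat.lt_or_ge n 2 with h2 | h2
  · obtain rfl : n = 1 := by omega
    refine ⟨∅, by simp, ?_⟩
    rintro ⟨T, hT, hTc, -⟩
    have := card_le_card hT
    simp at this
    rw [this] at hTc
    simp at hTc
  have : Fact (1 < n) := ⟨h2⟩
  have h01 : (0 : ZMod n) ≠ 1 := zero_ne_one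
  have hg : ∀ b : Fin t → Bool, ∃ g : G, χ g = fun i => if b i then 1 else 0 := fun b => hχ _
  choose g hg using hg
  let F : (Fin t → Bool) × G → G := fun q => g q.1 + q.2
  have hχF : ∀ q : (Fin t → Bool) × G, q.2 ∈ S → ∀ i, χ (F q) i = if q.1 i then 1 else 0 := by
    intro q hq i
    rw [map_add, hS _ hq, add_zero, hg]
  have hinj : Set.InjOn F ((univ ×ˢ S : Finset ((Fin t → Bool) × G)) : Set _) := by
    intro q hq q' hq' h
    rw [mem_coe, mem_product] at hq hq'
    have h1 : q.1 = q'.1 := by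
      funext i
      have h2 := hχF q hq.2 i
      rw [h, hχF q' hq'.2 i] at h2
      cases hb : q.1 i <;> cases hb' : q'.1 i <;> rw [hb, hb'] at h2 <;> simp at h2 ⊢
    refine Prod.ext h1 ?_
    have h3 : g q.1 + q.2 = g q'.1 + q'.2 := h
    rw [h1] at h3
    exact add_left_cancel h3
  refine ⟨(univ ×ˢ S).image F, ?_, ?_⟩
  · rw [card_image_of_injOn hinj, card_product, card_univ, Fintype.card_fun, Fintype.card_bool,
      Fintype.card_fin, hSc]
  rintro ⟨T, hT, hTc, hTs⟩
  have hmem : ∀ x ∈ T, ∃ b : Fin t → Bool, ∃ s ∈ S, g b + s = x := by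
    intro x hx
    obtain ⟨q, hq, rfl⟩ := mem_image.1 (hT hx)
    exact ⟨q.1, q.2, (mem_product.1 hq).2, rfl⟩
  have hconst : ∀ i, ∃ ε, ∀ x ∈ T, χ x i = ε := by
    intro i
    refine LOWGM.bits ?_ hTc ?_
    · intro x hx
      obtain ⟨b, s, hs, rfl⟩ := hmem x hx
      have h1 := hχF (b, s) hs i
      have h2 : χ (g b + s) i = if b i then 1 else 0 := h1
      rw [h2]
      cases b i <;> simp
    · have h1 : χ (∑ x ∈ T, x) i = 0 := by rw [hTs, map_zero]; rfl
      rwa [map_sum, Finset.sum_apply] at h1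
  choose ε hε using hconst
  obtain ⟨x₀, hx₀⟩ : T.Nonempty := by
    rw [← card_pos, hTc]
    omega
  obtain ⟨b₀, s₀, hs₀, hb₀⟩ := hmem x₀ hx₀
  have hsub : T ⊆ S.image (fun s => g b₀ + s) := by
    intro x hx
    obtain ⟨b, s, hs, rfl⟩ := hmem x hx
    have hbb : b = b₀ := by
      funext i
      have h1 : χ (g b + s) i = if b i then 1 else 0 := hχF (b, s) hs i
      have h2 : χ (g b₀ + s₀) i = if b₀ i then 1 else 0 := hχF (b₀, s₀) hs₀ i
      rw [hε i _ hx] at h1
      rw [hb₀, hε i _ hx₀, h1] at h2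
      cases hb : b i <;> cases hb' : b₀ i <;> rw [hb, hb'] at h2 <;> simp at h2 ⊢
    rw [hbb]
    exact mem_image_of_mem _ hs
  have h3 := (card_le_card hsub).trans card_image_le
  rw [hTc, hSc] at h3
  omega

end Pool.Agent.Lib.MPa7239a.RN
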