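import Pool.Agent.Lib.MP_a7239a_co.RN.LOWG

/-!
# RN, module LOWS: the lower bound `2 n + 2 d - 4` (helper33)
-/

set_option autoImplicit false

open Finset

namespace Pool.Agent.Lib.MPa7239a.RN

open Pool.Agent.Lib.MPa7239a.GC (Hit)

theorem low_sharp {G : Type*} [AddCommGroup G] {n d : ℕ} (hn : 1 ≤ n) (hd : 1 ≤ d)
    (hdn : d ∣ n) (χ : G →+ ZMod n × ZMod d) (hχ : Function.Surjective χ) (S S' : Finset G)
    (hS : ∀ s ∈ S, χ s = 0) (hS' : ∀ s ∈ S', χ s = 0) (hSc : #S < n) (hSc' : #S' < d) :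
    ∃ A : Finset G, #A = 2 * #S + 2 * #S' ∧ ¬ Hit A n 0 := by
  classical
  rcases Nat.lt_or_ge n 2 with h2 | h2
  · obtain rfl : n = 1 := by omega
    obtain rfl : d = 1 := Nat.dvd_one.1 hdn
    refine ⟨∅, by simp; omega, ?_⟩
    rintro ⟨T, hT, hTc, -⟩
    rw [subset_empty.1 hT, card_empty] at hTc
    exact absurd hTc (by norm_num)
  have : Fact (1 < n) := ⟨h2⟩
  have h01 : (0 : ZMod n) ≠ 1 := zero_ne_one
  have hg : ∀ b : Bool × Bool, ∃ g : G,
      χ g = ((if b.1 then 1 else 0, if b.2 then 1 else 0) : ZMod n × ZMod d) := fun b => hχ _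
  choose g hg using hg
  let F : (Bool × Bool) × G → G := fun q => g q.1 + q.2
  let J : Finset ((Bool × Bool) × G) :=
    ((univ : Finset Bool) ×ˢ ({false} : Finset Bool)) ×ˢ S ∪
      ((univ : Finset Bool) ×ˢ ({true} : Finset Bool)) ×ˢ S'
  have hJ : ∀ q ∈ J, χ q.2 = 0 ∧ (q.1.2 = true → q.2 ∈ S') ∧ (q.1.2 = false → q.2 ∈ S) := by
    intro q hq
    simp only [J, mem_union, mem_product, mem_univ, true_and, mem_singleton] at hq
    rcases hq with ⟨h1, h2⟩ | ⟨h1, h2⟩
    · exact ⟨hS _ h2, fun h => by rw [h1] at h; exact absurd h (by simp), fun _ => h2⟩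
    · exact ⟨hS' _ h2, fun _ => h2, fun h => by rw [h1] at h; exact absurd h (by simp)⟩
  have hχF : ∀ q ∈ J, χ (F q) =
      ((if q.1.1 then 1 else 0, if q.1.2 then 1 else 0) : ZMod n × ZMod d) := by
    intro q hq
    show χ (g q.1 + q.2) = _
    rw [map_add, (hJ q hq).1, add_zero, hg]
  have hJd : ∀ q ∈ J, q.1.2 = true → 2 ≤ d := by
    intro q hq h
    have h1 := (hJ q hq).2.1 h
    have h3 : 0 < #S' := card_pos.2 ⟨_, h1⟩
    omega
  have hinj : Set.InjOn F (J : Set ((Bool × Bool) × G)) := by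
    intro q hq q' hq' h
    rw [mem_coe] at hq hq'
    have e := hχF q hq
    rw [h, hχF q' hq'] at e
    have e1 := congrArg Prod.fst e
    have e2 := congrArg Prod.snd e
    simp only at e1 e2
    have h1 : q.1.1 = q'.1.1 := by
      cases hb : q.1.1 <;> cases hb' : q'.1.1 <;> rw [hb, hb'] at e1 <;> simp at e1 ⊢
    have h2 : q.1.2 = q'.1.2 := by
      cases hb : q.1.2 <;> cases hb' : q'.1.2
      · rfl
      · have : Fact (1 < d) := ⟨hJd q' hq' hb'⟩
        rw [hb, hb'] at e2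
        simp at e2
      · have : Fact (1 < d) := ⟨hJd q hq hb⟩
        rw [hb, hb'] at e2
        simp at e2
      · rfl
    have h3 : q.1 = q'.1 := Prod.ext h1 h2
    refine Prod.ext h3 ?_
    have h4 : g q.1 + q.2 = g q'.1 + q'.2 := h
    rw [h3] at h4
    exact add_left_cancel h4
  refine ⟨J.image F, ?_, ?_⟩
  · rw [card_image_of_injOn hinj, card_union_of_disjoint, card_product, card_product,
      card_product, card_product, card_univ, Fintype.card_bool, card_singleton, card_singleton]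
    rw [disjoint_left]
    intro q h1 h2
    simp only [mem_product, mem_univ, true_and, mem_singleton] at h1 h2
    rw [h1.1] at h2
    exact absurd h2.1 (by simp)
  rintro ⟨T, hT, hTc, hTs⟩
  obtain ⟨T', hT', rfl⟩ := subset_image_iff.1 hT
  have hinj' : Set.InjOn F (T' : Set ((Bool × Bool) × G)) := hinj.mono hT'
  have hTJ : ∀ q ∈ T', q ∈ J := fun q hq => hT' hq
  rw [card_image_of_injOn hinj'] at hTc
  rw [sum_image hinj'] at hTs
  have hs : ∑ q ∈ T',
      ((if q.1.1 then 1 else 0, if q.1.2 then 1 else 0) : ZMod n × ZMod d) = 0 := by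
    rw [← sum_congr rfl fun q hq => hχF q (hTJ q hq), ← map_sum, hTs, map_zero]
  have hs1 : ∑ q ∈ T', (if q.1.1 then 1 else 0 : ZMod n) = 0 := by
    have := congrArg Prod.fst hs
    rwa [Prod.fst_sum] at this
  have hs2 : ∑ q ∈ T', (if q.1.2 then 1 else 0 : ZMod d) = 0 := by
    have := congrArg Prod.snd hs
    rwa [Prod.snd_sum] at this
  obtain ⟨ε, hε⟩ := LOWGM.bits (f := fun q : (Bool × Bool) × G => (if q.1.1 then 1 else 0 : ZMod n))
    (fun q _ => by cases q.1.1 <;> simp) hTc hs1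
  have hc1 : ∀ q ∈ T', ∀ q' ∈ T', q.1.1 = q'.1.1 := by
    intro q hq q' hq'
    have h1 := hε q hq
    have h2 := hε q' hq'
    rw [← h2] at h1
    cases hb : q.1.1 <;> cases hb' : q'.1.1 <;> rw [hb, hb'] at h1 <;> simp at h1 ⊢
  -- the ones in the second coordinate
  have hcount : #(T'.filter fun q => q.1.2 = true) = 0 := by
    have h1 : ((#(T'.filter fun q => q.1.2 = true) : ℕ) : ZMod d) = 0 := by
      rw [← hs2, card_filter, Nat.cast_sum]
      refine sum_congr rfl fun q _ => ?_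
      cases q.1.2 <;> simp
    rw [ZMod.natCast_eq_zero_iff] at h1
    refine Nat.eq_zero_of_dvd_of_lt h1 ?_
    have h3 : #(T'.filter fun q => q.1.2 = true) ≤ #S' := by
      refine card_le_card_of_injOn (fun q => q.2) ?_ ?_
      · intro q hq
        obtain ⟨hq1, hq2⟩ := mem_filter.1 (mem_coe.1 hq)
        exact mem_coe.2 ((hJ q (hTJ q hq1)).2.1 hq2)
      · intro q hq q' hq' h
        obtain ⟨hq1, hq2⟩ := mem_filter.1 (mem_coe.1 hq)
        obtain ⟨hq1', hq2'⟩ := mem_filter.1 (mem_coe.1 hq')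
        exact Prod.ext (Prod.ext (hc1 q hq1 q' hq1') (hq2.trans hq2'.symm)) h
    omega
  rw [card_eq_zero, filter_eq_empty_iff] at hcount
  have h3 : #T' ≤ #S := by
    refine card_le_card_of_injOn (fun q => q.2) ?_ ?_
    · intro q hq
      have hq2 := hcount (mem_coe.1 hq)
      rw [Bool.not_eq_true] at hq2
      exact mem_coe.2 ((hJ q (hTJ q (mem_coe.1 hq))).2.2 hq2)
    · intro q hq q' hq' h
      have hq2 := hcount (mem_coe.1 hq)
      have hq2' := hcount (mem_coe.1 hq')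
      refine Prod.ext (Prod.ext (hc1 q (mem_coe.1 hq) q' (mem_coe.1 hq')) ?_) h
      rw [Bool.not_eq_true] at hq2 hq2'
      rw [hq2, hq2']
  omega

end Pool.Agent.Lib.MPa7239a.RN
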