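import Pool.Agent.Lib.MP_a7239a_co.Cyclic

/-! # RN, module STRUC: the second invariant factor -/

set_option autoImplicit false

universe u

open Finset

namespace Pool.Agent.Lib.MPa7239a.RN

namespace STRUCM

/-- in a cyclic group an element whose order divides that of `w` is a multiple of `w` -/
lemma mem_of_order {C : Type u} [AddGroup C] [Finite C] [IsAddCyclic C] (u w : C)
    (h : addOrderOf w • u = 0) : u ∈ AddSubgroup.zmultiples w := by
  classical
  have := Fintype.ofFinite C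
  have hpos : 0 < addOrderOf w := addOrderOf_pos w
  have h1 : #{a : C | addOrderOf w • a = 0} ≤ addOrderOf w := IsAddCyclic.card_nsmul_eq_zero_le hpos
  have h2 : ((AddSubgroup.zmultiples w : Set C).toFinset) ⊆
      ({a : C | addOrderOf w • a = 0} : Finset C) := by
    intro x hx
    rw [Set.mem_toFinset] at hx
    obtain ⟨k, rfl⟩ := AddSubgroup.mem_zmultiples_iff.1 hx
    rw [Finset.mem_filter]
    refine ⟨Finset.mem_univ _, ?_⟩
    rw [← natCast_zsmul, ← mul_zsmul, mul_comm, mul_zsmul, natCast_zsmul, addOrderOf_nsmul_eq_zero,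
      zsmul_zero]
  have h3 : #((AddSubgroup.zmultiples w : Set C).toFinset) = addOrderOf w := by
    rw [Set.toFinset_card, ← Nat.card_eq_fintype_card]
    exact Nat.card_zmultiples w
  have h4 := Finset.eq_of_subset_of_card_le h2 (h1.trans h3.symm.le)
  have h5 : u ∈ ({a : C | addOrderOf w • a = 0} : Finset C) := by simp [h]
  rw [← h4, Set.mem_toFinset] at h5
  exact h5

end STRUCM

theorem struc {G : Type u} [AddCommGroup G] [Finite G] {n d : ℕ} (hn : n = AddMonoid.exponent G)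
    (hd : IsLeast {d : ℕ | 1 ≤ d ∧ ∃ g : G, ∀ x : G, d • x ∈ AddSubgroup.zmultiples g} d) :
    d ∣ n ∧ ∃ χ : G →+ ZMod n × ZMod d, Function.Surjective χ := by
  have hnx : ∀ x : G, n • x = 0 := fun x => by rw [hn]; exact AddMonoid.exponent_nsmul_eq_zero x
  have hn0 : n ≠ 0 := by
    rw [hn]
    exact AddMonoid.exponent_ne_zero.2 (AddMonoid.ExponentExists.of_finite)
  obtain ⟨χ₁, hχ₁⟩ := exists_surj (G := G) (q := n) (by rw [hn])
  obtain ⟨a, ha⟩ := hχ₁ 1
  let G₁ : AddSubgroup G := χ₁.ker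
  obtain ⟨χ₂, hχ₂⟩ := exists_surj (G := G₁) (q := AddMonoid.exponent G₁) dvd_rfl
  let ψ : ZMod n →+ G := ZMod.lift n ⟨zmultiplesHom G a, by simpa using hnx a⟩
  have hψ : ∀ z : ℤ, ψ (z : ZMod n) = z • a := by
    intro z
    simp [ψ]
  have hψχ : ∀ k : ZMod n, χ₁ (ψ k) = k := by
    intro k
    obtain ⟨z, rfl⟩ := ZMod.intCast_surjective k
    rw [hψ, map_zsmul, ha]
    simp
  have hker : ∀ g : G, g - ψ (χ₁ g) ∈ G₁ := by
    intro g
    change χ₁ (g - ψ (χ₁ g)) = 0
    rw [map_sub, hψχ, sub_self]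
  let η : G →+ G₁ := (AddMonoidHom.id G - ψ.comp χ₁).codRestrict G₁ hker
  have hη : ∀ g : G, ((η g : G₁) : G) = g - ψ (χ₁ g) := fun g => rfl
  have hsurj : Function.Surjective (χ₁.prod (χ₂.comp η)) := by
    rintro ⟨u, v⟩
    obtain ⟨g₁, hg₁⟩ := hχ₂ v
    have h0 : χ₁ (g₁ : G) = 0 := g₁.2
    have h1 : χ₁ (ψ u + g₁) = u := by rw [map_add, hψχ, h0, add_zero]
    refine ⟨ψ u + g₁, ?_⟩
    have h2 : η (ψ u + g₁) = g₁ := by
      apply Subtype.ext
      rw [hη, h1, add_sub_cancel_left]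
    simp [h1, h2, hg₁]
  -- the exponent of the kernel
  have hd₁ : ∀ x : G₁, AddMonoid.exponent G₁ • x = 0 := fun x => AddMonoid.exponent_nsmul_eq_zero x
  have hd₁0 : AddMonoid.exponent G₁ ≠ 0 :=
    AddMonoid.exponent_ne_zero.2 (AddMonoid.ExponentExists.of_finite)
  have hA : d ≤ AddMonoid.exponent G₁ := by
    refine hd.2 ⟨Nat.one_le_iff_ne_zero.2 hd₁0, AddMonoid.exponent G₁ • a, fun x => ?_⟩
    have h1 : x = ψ (χ₁ x) + ((η x : G₁) : G) := by rw [hη]; abel
    obtain ⟨z, hz⟩ := ZMod.intCast_surjective (χ₁ x)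
    have h2 : AddMonoid.exponent G₁ • ((η x : G₁) : G) = 0 := by
      have := congrArg (fun y : G₁ => (y : G)) (hd₁ (η x))
      simpa using this
    rw [h1, smul_add, h2, add_zero, ← hz, hψ]
    refine AddSubgroup.mem_zmultiples_iff.2 ⟨z, ?_⟩
    rw [← natCast_zsmul, ← natCast_zsmul, ← mul_zsmul, ← mul_zsmul, mul_comm]
  obtain ⟨⟨hd1, g, hg⟩, -⟩ := hd
  have hord : addOrderOf a = n := by
    apply Nat.dvd_antisymm
    · exact addOrderOf_dvd_of_nsmul_eq_zero (hnx a)
    · have h1 : addOrderOf (χ₁ a) ∣ addOrderOf a := addOrderOf_map_dvd χ₁ a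
      rwa [ha, ZMod.addOrderOf_one] at h1
  have hB : AddMonoid.exponent G₁ ∣ d := by
    rw [AddMonoid.exponent_dvd_iff_forall_nsmul_eq_zero]
    intro x
    apply Subtype.ext
    change d • (x : G) = 0
    have h1 : (⟨d • (x : G), hg x⟩ : AddSubgroup.zmultiples g) ∈
        AddSubgroup.zmultiples (⟨d • a, hg a⟩ : AddSubgroup.zmultiples g) := by
      apply STRUCM.mem_of_order
      apply Subtype.ext
      have h2 : addOrderOf (⟨d • a, hg a⟩ : AddSubgroup.zmultiples g) = n / n.gcd d := by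
        rw [← AddSubgroup.addOrderOf_coe]
        change addOrderOf (d • a) = _
        rw [addOrderOf_nsmul' a (by omega), hord]
      rw [h2]
      change (n / n.gcd d) • (d • (x : G)) = 0
      have h3 : n / n.gcd d * d = d / n.gcd d * n := by
        obtain ⟨b, hb⟩ := Nat.gcd_dvd_right n d
        obtain ⟨c, hc⟩ := Nat.gcd_dvd_left n d
        have hp : 0 < n.gcd d := Nat.gcd_pos_of_pos_right _ (by omega)
        have e1 : n / n.gcd d = c := Nat.div_eq_of_eq_mul_right hp hc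
        have e2 : d / n.gcd d = b := Nat.div_eq_of_eq_mul_right hp hb
        rw [e1, e2]
        calc c * d = c * (n.gcd d * b) := by rw [← hb]
          _ = b * (n.gcd d * c) := by ring
          _ = b * n := by rw [← hc]
      rw [← mul_smul, h3, mul_smul, hnx, smul_zero]
    obtain ⟨k, hk⟩ := AddSubgroup.mem_zmultiples_iff.1 h1
    have h4 : k • (d • a) = d • (x : G) := by
      have := congrArg (fun y : AddSubgroup.zmultiples g => (y : G)) hk
      simpa using this
    have h5 : χ₁ (x : G) = 0 := x.2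
    have h6 : ((k * d : ℤ) : ZMod n) = 0 := by
      have h7 := congrArg χ₁ h4
      rw [map_zsmul, map_nsmul, map_nsmul, ha, h5, smul_zero] at h7
      have h8 : k • (d • (1 : ZMod n)) = ((k * d : ℤ) : ZMod n) := by
        simp
      rw [← h8, h7]
    rw [ZMod.intCast_zmod_eq_zero_iff_dvd] at h6
    obtain ⟨c, hc⟩ := h6
    rw [← h4, ← natCast_zsmul, ← mul_zsmul, hc, mul_comm, mul_zsmul, natCast_zsmul, hnx, zsmul_zero]
  have hEq : AddMonoid.exponent G₁ = d :=
    le_antisymm (Nat.le_of_dvd (by omega) hB) hA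
  have hdn : AddMonoid.exponent G₁ ∣ n := by
    rw [AddMonoid.exponent_dvd_iff_forall_nsmul_eq_zero]
    intro x
    apply Subtype.ext
    exact hnx x
  refine ⟨hEq ▸ hdn, ?_⟩
  rw [← hEq]
  exact ⟨χ₁.prod (χ₂.comp η), hsurj⟩

end Pool.Agent.Lib.MPa7239a.RN
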