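import Pool.Agent.Lib.MP_a7239a_co.RN.Defs
import Mathlib.Combinatorics.Additive.ErdosGinzburgZiv

/-!
# RN, module MULTI: solutions modulo a cyclic subgroup and the theorem of Erdős, Ginzburg, Ziv
-/

set_option autoImplicit false

open Finset

namespace Pool.Agent.Lib.MPa7239a.RN

namespace MULTIM

theorem HW_map {G : Type*} [AddCommGroup G] {N : ℕ} (g : G) (H : Fin N → AddSubgroup G)
    (W : Finset (Fin N)) :
    HW (fun c => (H c).map (QuotientAddGroup.mk' (AddSubgroup.zmultiples g))) W =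
      (HW H W).map (QuotientAddGroup.mk' (AddSubgroup.zmultiples g)) := by
  simp only [HW, AddSubgroup.map_iSup]

/-- a solution modulo `g` -/
theorem lift {G : Type*} [AddCommGroup G] {N n₁ : ℕ} {g : G} (x : Fin N → G)
    (H : Fin N → AddSubgroup G) (M : Fin N → ℕ)
    (h : Sol n₁ (fun c => QuotientAddGroup.mk' (AddSubgroup.zmultiples g) (x c))
        (fun c => (H c).map (QuotientAddGroup.mk' (AddSubgroup.zmultiples g))) M univ) :
    ∃ b : Fin N → ℕ, (∀ c, b c ≤ M c) ∧ ∑ c, b c = n₁ ∧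
      ∃ a : ℤ, ∑ c, b c • x c - a • g ∈ HW H (univ.filter fun c => b c ≠ 0) := by
  obtain ⟨b, h1, -, h3, h4⟩ := h
  refine ⟨b, h1, h3, ?_⟩
  rw [HW_map, AddSubgroup.mem_map] at h4
  obtain ⟨y, hy, e⟩ := h4
  have e2 : QuotientAddGroup.mk' (AddSubgroup.zmultiples g) y =
      QuotientAddGroup.mk' (AddSubgroup.zmultiples g) (∑ c, b c • x c) := by
    rw [e, map_sum]
    simp only [map_nsmul]
  rw [QuotientAddGroup.mk'_eq_mk'] at e2
  obtain ⟨z, hz, e3⟩ := e2
  obtain ⟨a, rfl⟩ := AddSubgroup.mem_zmultiples_iff.1 hz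
  refine ⟨a, ?_⟩
  rw [← e3, add_sub_cancel_right]
  exact hy

theorem many {G : Type*} [AddCommGroup G] {N n₁ m : ℕ} {g : G}
    (x : Fin N → G) (H : Fin N → AddSubgroup G) (M : Fin N → ℕ)
    (h : ∀ M' : Fin N → ℕ, (∀ c, M' c ≤ M c) → ∑ c, M c ≤ ∑ c, M' c + (2 * m - 2) * n₁ →
      Sol n₁ (fun c => QuotientAddGroup.mk' (AddSubgroup.zmultiples g) (x c))
        (fun c => (H c).map (QuotientAddGroup.mk' (AddSubgroup.zmultiples g))) M' univ) :
    ∀ j, j ≤ 2 * m - 1 → ∃ (b : ℕ → Fin N → ℕ) (a : ℕ → ℤ),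
      (∀ c, ∑ i ∈ range j, b i c ≤ M c) ∧ ∀ i < j, ∑ c, b i c = n₁ ∧
        ∑ c, b i c • x c - a i • g ∈ HW H (univ.filter fun c => b i c ≠ 0) := by
  intro j
  induction j with
  | zero =>
    intro _
    exact ⟨fun _ _ => 0, fun _ => 0, fun c => by simp, fun i hi => by omega⟩
  | succ j ih =>
    intro hj
    obtain ⟨b, a, h1, h2⟩ := ih (by omega)
    have hsum : ∑ c, M c = ∑ c, (M c - ∑ i ∈ range j, b i c) + j * n₁ := by
      have e1 : ∑ c, ∑ i ∈ range j, b i c = j * n₁ := by
        rw [sum_comm, sum_congr rfl (fun i hi => (h2 i (mem_range.1 hi)).1), sum_const,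
          card_range, smul_eq_mul]
      rw [← e1, ← sum_add_distrib]
      exact sum_congr rfl fun c _ => by
        have := h1 c
        omega
    obtain ⟨b', h3, h4, a', h5⟩ := lift x H (fun c => M c - ∑ i ∈ range j, b i c)
      (h _ (fun c => Nat.sub_le _ _) (by
        rw [hsum]
        exact Nat.add_le_add_left (Nat.mul_le_mul_right _ (by omega)) _))
    refine ⟨fun i => if i = j then b' else b i, fun i => if i = j then a' else a i, ?_, ?_⟩
    · intro c
      rw [sum_range_succ]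
      have e1 : ∑ i ∈ range j, (if i = j then b' else b i) c = ∑ i ∈ range j, b i c :=
        sum_congr rfl fun i hi => by
          rw [if_neg (by have := mem_range.1 hi; omega)]
      rw [e1]
      simp only [if_true]
      have := h3 c
      have := h1 c
      omega
    · intro i hi
      by_cases hij : i = j
      · subst hij
        simp only [if_true]
        exact ⟨h4, h5⟩
      · simp only [if_neg hij]
        exact h2 i (by omega)

end MULTIM

open MULTIM in
theorem sol_mult {G : Type*} [AddCommGroup G] {N n₁ m : ℕ} (hm : 1 ≤ m) {g : G}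
    (hg : m • g = 0) (x : Fin N → G) (H : Fin N → AddSubgroup G) (M : Fin N → ℕ)
    (h : ∀ M' : Fin N → ℕ, (∀ c, M' c ≤ M c) → ∑ c, M c ≤ ∑ c, M' c + (2 * m - 2) * n₁ →
      Sol n₁ (fun c => QuotientAddGroup.mk' (AddSubgroup.zmultiples g) (x c))
        (fun c => (H c).map (QuotientAddGroup.mk' (AddSubgroup.zmultiples g))) M' univ) :
    Sol (m * n₁) x H M univ := by
  obtain ⟨b, a, h1, h2⟩ := many x H M h (2 * m - 1) le_rfl
  obtain ⟨t, ht, htc, k, hk⟩ := Int.erdos_ginzburg_ziv (n := m) (s := range (2 * m - 1)) a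
    (by rw [card_range])
  have hlt : ∀ i ∈ t, i < 2 * m - 1 := fun i hi => mem_range.1 (ht hi)
  refine ⟨fun c => ∑ i ∈ t, b i c, fun c => ?_, fun c hc => absurd (mem_univ c) hc, ?_, ?_⟩
  · exact (sum_le_sum_of_subset ht).trans (h1 c)
  · rw [sum_comm, sum_congr rfl (fun i hi => (h2 i (hlt i hi)).1), sum_const, htc, smul_eq_mul]
  · have e1 : ∑ c, (∑ i ∈ t, b i c) • x c = ∑ i ∈ t, (∑ c, b i c • x c - a i • g) := by
      rw [sum_sub_distrib, ← sum_smul, hk, mul_comm, mul_smul, natCast_zsmul, hg, smul_zero,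
        sub_zero]
      simp only [sum_smul]
      rw [sum_comm]
    rw [e1]
    refine AddSubgroup.sum_mem _ fun i hi => ?_
    refine HW_mono ?_ (h2 i (hlt i hi)).2
    intro c hc
    simp only [mem_filter, mem_univ, true_and] at hc ⊢
    intro h0
    exact hc (sum_eq_zero_iff.1 h0 i hi)

end Pool.Agent.Lib.MPa7239a.RN
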