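import Pool.Agent.Lib.MP_a7239a_co.RN.DECON
import Pool.Agent.Lib.MP_a7239a_co.RN.SOLHIT
import Pool.Agent.Lib.MP_a7239a_co.RN.MULTI
import Pool.Agent.Lib.MP_a7239a_co.RN.CAPN

/-!
# RN: the upper bound by the second invariant factor
-/

set_option autoImplicit false

universe u

open Finset
open scoped Pointwise

namespace Pool.Agent.Lib.MPa7239a.RN

open Pool.Agent.Lib.MPa7239a.GC (Hit)
open Pool.Agent.Lib.MPa7239a.R3X (box lf Avg InLat Free)

namespace UPMM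

theorem unif_nat (f : ℕ → ℕ) (M : ℕ) : ∃ n₀ : ℕ, ∀ K ≤ M, f K ≤ n₀ :=
  ⟨∑ K ∈ range (M + 1), f K, fun K hK =>
    Finset.single_le_sum (f := f) (fun _ _ => Nat.zero_le _) (mem_range.2 (by omega))⟩

theorem hit_mono {G : Type*} [AddCommGroup G] {A B : Finset G} (h : A ⊆ B) {k : ℕ} {x : G}
    (hA : Hit A k x) : Hit B k x := by
  obtain ⟨T, hT, h1, h2⟩ := hA
  exact ⟨T, hT.trans h, h1, h2⟩

/-- a set in a coset of `H` has at most `card H` elements -/
theorem card_le {G : Type*} [AddCommGroup G] [Finite G] {B : Finset G} {x : G} {H : AddSubgroup G}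
    (h : ∀ b ∈ B, b - x ∈ H) : #B ≤ Nat.card H := by
  classical
  have : Fintype G := Fintype.ofFinite G
  have h1 : Nat.card B ≤ Nat.card H := by
    refine Nat.card_le_card_of_injective (fun b : B => (⟨b.1 - x, h b.1 b.2⟩ : H)) ?_
    intro b b' hb
    have h2 : b.1 - x = b'.1 - x := congrArg Subtype.val hb
    exact Subtype.ext (sub_left_injective h2)
  simpa using h1

/-- the image of `H` modulo an element of order dividing `m` -/
theorem card_map {G : Type*} [AddCommGroup G] [Finite G] {m : ℕ} (hm : 1 ≤ m) {g : G}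
    (hg : m • g = 0) (H : AddSubgroup G) :
    Nat.card H ≤ Nat.card (H.map (QuotientAddGroup.mk' (AddSubgroup.zmultiples g))) * m := by
  set π := QuotientAddGroup.mk' (AddSubgroup.zmultiples g) with hπ
  set f : H →+ G ⧸ AddSubgroup.zmultiples g := π.comp H.subtype with hf
  have h1 : Nat.card H = Nat.card (H ⧸ f.ker) * Nat.card f.ker :=
    AddSubgroup.card_eq_card_quotient_mul_card_addSubgroup f.ker
  have h2 : Nat.card (H ⧸ f.ker) = Nat.card (H.map π) := by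
    rw [Nat.card_congr (QuotientAddGroup.quotientKerEquivRange f).toEquiv]
    have h3 : f.range = H.map π := by
      rw [hf, AddMonoidHom.range_comp, AddSubgroup.range_subtype]
    rw [h3]
  have h4 : Nat.card f.ker ≤ m := by
    have h5 : Nat.card f.ker ≤ Nat.card (AddSubgroup.zmultiples g) := by
      refine Nat.card_le_card_of_injective
        (fun y : f.ker => (⟨y.1.1, ?_⟩ : AddSubgroup.zmultiples g)) ?_
      · have h6 : π y.1.1 = 0 := y.2
        rwa [hπ, QuotientAddGroup.mk'_apply, QuotientAddGroup.eq_zero_iff] at h6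
      · intro y y' hy
        have h7 : (y.1.1 : G) = y'.1.1 :=
          congrArg (fun z : AddSubgroup.zmultiples g => (z : G)) hy
        exact Subtype.ext (Subtype.ext h7)
    rw [Nat.card_zmultiples] at h5
    exact h5.trans (Nat.le_of_dvd hm (addOrderOf_dvd_of_nsmul_eq_zero hg))
  rw [h1, h2]
  exact Nat.mul_le_mul_left _ h4

end UPMM

theorem upper_m (r : ℕ) (hr : 1 ≤ r) (m : ℕ) (hm : 1 ≤ m) (ε : ℝ) (hε : 0 < ε) :
    ∃ (w : ℕ) (δ : ℝ), 0 < δ ∧ ∃ n₀ : ℕ, ∀ n₁ : ℕ, n₀ ≤ n₁ → ∀ (G : Type u) [AddCommGroup G]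
      [Finite G], (∀ g : G, (m * n₁) • g = 0) → Nat.card G ≤ (m * n₁) ^ r → ∀ g : G,
      m • g = 0 → (∀ x : G, n₁ • x ∈ AddSubgroup.zmultiples g) →
      ¬ Ind n₁ w δ 3 (⊤ : AddSubgroup (G ⧸ AddSubgroup.zmultiples g)) → ∀ A : Finset G,
      2 * (m * n₁ : ℝ) + 2 * n₁ + ε * (m * n₁) ≤ #A → Hit A (m * n₁) 0 := by
  classical
  -- reduce to `ε ≤ 1`
  set ε' : ℝ := min ε 1 with hε'
  have hε'0 : 0 < ε' := lt_min hε one_pos
  have hε'1 : ε' ≤ 1 := min_le_right _ _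
  have hε'ε : ε' ≤ ε := min_le_left _ _
  -- parameters
  let η : ℕ → ℝ := fun K => ε' / (100 * (K + 1))
  have hη : ∀ K, 0 < η K := fun K => by
    show 0 < ε' / (100 * ((K : ℝ) + 1))
    positivity
  choose F₀ hF₀ using fun K : ℕ => sol_hit.{u} K (η K) (hη K)
  choose wf nf hnf using fun K : ℕ => lev_cap.{u} K (2 * r) (by omega) (η K) (ε' / 2) (hη K)
    (by positivity)
  obtain ⟨e, he⟩ := exists_nat_ge (100 / ε')
  have he0 : (0 : ℝ) < e := lt_of_lt_of_le (by positivity) he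
  have he1 : 1 ≤ e := by exact_mod_cast he0
  obtain ⟨Kmax, k₁, hdec⟩ := deco.{u} r hr e he1 F₀
  obtain ⟨w, hw⟩ := UPMM.unif_nat wf Kmax
  obtain ⟨k₂, hk₂⟩ := UPMM.unif_nat nf Kmax
  obtain ⟨k₃, hk₃⟩ := exists_nat_ge (100 * ((Kmax : ℝ) + 1) / ε')
  refine ⟨w, η Kmax, hη Kmax, max (max k₁ k₂) (max k₃ m), fun n₁ hn G _ _ hG hcardN g hg hgx hInd
    A hA => ?_⟩
  have hn1' : k₁ ≤ n₁ := (le_max_left _ _).trans ((le_max_left _ _).trans hn)
  have hn2 : k₂ ≤ n₁ := (le_max_right _ _).trans ((le_max_left _ _).trans hn)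
  have hn3' : k₃ ≤ n₁ := (le_max_left _ _).trans ((le_max_right _ _).trans hn)
  have hn5 : m ≤ n₁ := (le_max_right _ _).trans ((le_max_right _ _).trans hn)
  have hmR : (1 : ℝ) ≤ m := by exact_mod_cast hm
  have hn₁R : (1 : ℝ) ≤ n₁ := by exact_mod_cast hm.trans hn5
  -- `n = m n₁`
  have hnn : n₁ ≤ m * n₁ := Nat.le_mul_of_pos_left _ hm
  have hnnR : (n₁ : ℝ) ≤ m * n₁ := by exact_mod_cast hnn
  have hA2 : 2 * ((m * n₁ : ℕ) : ℝ) + 2 * n₁ + ε * ((m * n₁ : ℕ) : ℝ) ≤ #A := by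
    push_cast
    exact hA
  have hnnR' : (n₁ : ℝ) ≤ ((m * n₁ : ℕ) : ℝ) := by exact_mod_cast hnn
  have hmn : ((m * n₁ : ℕ) : ℝ) = m * n₁ := by push_cast; rfl
  have hcardQ : Nat.card (G ⧸ AddSubgroup.zmultiples g) ≤ n₁ ^ (2 * r) := by
    have h1 : Nat.card (G ⧸ AddSubgroup.zmultiples g) ≤ Nat.card G :=
      Nat.card_le_card_of_surjective (QuotientAddGroup.mk' (AddSubgroup.zmultiples g))
        (QuotientAddGroup.mk'_surjective _)
    calc Nat.card (G ⧸ AddSubgroup.zmultiples g) ≤ (m * n₁) ^ r := h1.trans hcardN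
      _ ≤ (n₁ * n₁) ^ r := Nat.pow_le_pow_left (Nat.mul_le_mul_right _ hn5) _
      _ = n₁ ^ (2 * r) := by rw [← sq, ← pow_mul]
  have hkill : ∀ y : G ⧸ AddSubgroup.zmultiples g, n₁ • y = 0 := by
    intro y
    obtain ⟨y, rfl⟩ := QuotientAddGroup.mk'_surjective _ y
    rw [← map_nsmul, QuotientAddGroup.mk'_apply, QuotientAddGroup.eq_zero_iff]
    exact hgx y
  generalize hnm : m * n₁ = n at *
  have hn1 : k₁ ≤ n := hn1'.trans hnn
  have hn3 : k₃ ≤ n := hn3'.trans hnn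
  have hnR : (1 : ℝ) ≤ n := hn₁R.trans hnnR'
  have hn4 : 1 ≤ n := by exact_mod_cast hnR
  have hn0 : (0 : ℝ) < n := by linarith
  have hn3R : 100 * ((Kmax : ℝ) + 1) / ε' ≤ n := hk₃.trans (by exact_mod_cast hn3)
  -- a subset of the right size
  set s : ℕ := ⌈2 * (n : ℝ) + 2 * n₁ + ε' * n⌉₊ with hs
  have hs1 : 2 * (n : ℝ) + 2 * n₁ + ε' * n ≤ s := Nat.le_ceil _
  have hs2 : (s : ℝ) ≤ 2 * (n : ℝ) + 2 * n₁ + ε' * n + 1 :=
    (Nat.ceil_lt_add_one (by positivity)).le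
  have hsA : s ≤ #A := by
    rw [hs, Nat.ceil_le]
    calc 2 * (n : ℝ) + 2 * n₁ + ε' * n ≤ 2 * (n : ℝ) + 2 * n₁ + ε * n := by gcongr
      _ ≤ #A := hA2
  obtain ⟨A', hA'A, hA'⟩ := Finset.exists_subset_card_eq hsA
  have hs8 : s ≤ 8 * n := by
    have : (s : ℝ) ≤ 8 * n := by
      calc (s : ℝ) ≤ 2 * (n : ℝ) + 2 * n₁ + ε' * n + 1 := hs2
        _ ≤ 2 * (n : ℝ) + 2 * n + 1 * n + n := by gcongr
        _ ≤ 8 * n := by linarith
    exact_mod_cast this
  obtain ⟨K, hK, B, x, H, q, hBA, hBd, hBt, hBq⟩ := hdec n hn1 G hG hcardN A' (by rw [hA']; exact hs8)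
  rw [hA'] at hBt
  -- facts on `η K`
  have hKR : (K : ℝ) ≤ Kmax := by exact_mod_cast hK
  have hηK : η K * (100 * ((K : ℝ) + 1)) = ε' := by
    show ε' / (100 * ((K : ℝ) + 1)) * (100 * ((K : ℝ) + 1)) = ε'
    field_simp
  have hηn : 1 ≤ η K * n := by
    have h1 : 100 * ((K : ℝ) + 1) / ε' ≤ n := le_trans (by gcongr) hn3R
    rw [div_le_iff₀ hε'0] at h1
    have h2 : (0 : ℝ) < 100 * ((K : ℝ) + 1) := by positivity
    have h3 : 100 * ((K : ℝ) + 1) * 1 ≤ 100 * ((K : ℝ) + 1) * (η K * n) := by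
      calc 100 * ((K : ℝ) + 1) * 1 ≤ n * ε' := by linarith
        _ = n * (η K * (100 * ((K : ℝ) + 1))) := by rw [hηK]
        _ = 100 * ((K : ℝ) + 1) * (η K * n) := by ring
    exact le_of_mul_le_mul_left h3 h2
  have hη0 := hη K
  set h : ℝ := η K with hh
  -- the cells
  set W : Finset (Fin K) := univ.filter fun c => 4 * h * n ≤ (#(B c) : ℝ) with hW
  set M : Fin K → ℕ := fun c => if c ∈ W then ⌊(#(B c) : ℝ) - 2 * h * n⌋₊ else 0 with hM
  have hWm : ∀ c ∈ W, 4 * h * n ≤ (#(B c) : ℝ) := fun c hc => (mem_filter.1 hc).2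
  have hmW : ∀ c ∈ W, M c = ⌊(#(B c) : ℝ) - 2 * h * n⌋₊ := fun c hc => by
    simp only [hM, if_pos hc]
  have hmW0 : ∀ c, c ∉ W → M c = 0 := fun c hc => by
    simp only [hM, if_neg hc]
  have hpos : ∀ c ∈ W, 0 ≤ (#(B c) : ℝ) - 2 * h * n := fun c hc => by
    have := hWm c hc
    have h1 : 0 ≤ h * n := by positivity
    linarith
  have hmle : ∀ c ∈ W, (M c : ℝ) + 2 * h * n ≤ #(B c) := fun c hc => by
    rw [hmW c hc]
    have := Nat.floor_le (hpos c hc)
    linarith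
  have hmge : ∀ c ∈ W, (#(B c) : ℝ) - 3 * h * n ≤ M c := fun c hc => by
    rw [hmW c hc]
    have := Nat.lt_floor_add_one ((#(B c) : ℝ) - 2 * h * n)
    linarith
  have hBlow : 2 * (n : ℝ) + 2 * n₁ + (ε' - ε' / 100) * n ≤ ∑ c, (#(B c) : ℝ) := by
    have h1 : (e : ℝ) * s ≤ e * (∑ c, (#(B c) : ℝ)) + n := by exact_mod_cast hBt
    have h2 : (n : ℝ) / e ≤ ε' / 100 * n := by
      rw [div_le_iff₀ he0]
      have h3 : 100 / ε' ≤ e := he
      rw [div_le_iff₀ hε'0] at h3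
      calc (n : ℝ) = n * (100 / 100) := by ring
        _ ≤ n * (e * ε' / 100) := by gcongr
        _ = ε' / 100 * n * e := by ring
    have h3 : (s : ℝ) ≤ (∑ c, (#(B c) : ℝ)) + n / e := by
      have h5 : (e : ℝ) * ((n : ℝ) / e) = n := by
        rw [mul_div_assoc', mul_div_cancel_left₀ _ he0.ne']
      have h4 : (e : ℝ) * s ≤ e * ((∑ c, (#(B c) : ℝ)) + n / e) := by
        rw [mul_add, h5]
        exact h1
      exact le_of_mul_le_mul_left h4 he0
    linarith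
  have hMsum : 2 * (n : ℝ) + 2 * n₁ + ε' / 2 * n ≤ ∑ c, (M c : ℝ) := by
    have h0 : ∑ c, (M c : ℝ) = ∑ c ∈ W, (M c : ℝ) := by
      refine (Finset.sum_subset (Finset.subset_univ W) fun c _ hc => ?_).symm
      rw [hmW0 c hc, Nat.cast_zero]
    rw [h0]
    have h1 : ∑ c, (#(B c) : ℝ) = ∑ c ∈ W, (#(B c) : ℝ) +
        ∑ c ∈ univ.filter (fun c => ¬ 4 * h * n ≤ (#(B c) : ℝ)), (#(B c) : ℝ) :=
      (Finset.sum_filter_add_sum_filter_not univ _ _).symm
    have h2 : ∑ c ∈ univ.filter (fun c => ¬ 4 * h * n ≤ (#(B c) : ℝ)), (#(B c) : ℝ) ≤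
        K * (4 * h * n) := by
      calc _ ≤ ∑ c ∈ univ.filter (fun c => ¬ 4 * h * n ≤ (#(B c) : ℝ)), 4 * h * (n : ℝ) := by
            refine Finset.sum_le_sum fun c hc => ?_
            have := (mem_filter.1 hc).2
            push Not at this
            exact this.le
        _ = (#(univ.filter (fun c => ¬ 4 * h * n ≤ (#(B c) : ℝ))) : ℝ) * (4 * h * n) := by
            rw [Finset.sum_const, nsmul_eq_mul]
        _ ≤ K * (4 * h * n) := by
            gcongr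
            have h5 := Finset.card_filter_le (univ : Finset (Fin K))
              (fun c => ¬ 4 * h * n ≤ (#(B c) : ℝ))
            rw [Finset.card_univ, Fintype.card_fin] at h5
            exact_mod_cast h5
    have h3 : ∑ c ∈ W, ((#(B c) : ℝ) - 3 * h * n) ≤ ∑ c ∈ W, (M c : ℝ) :=
      Finset.sum_le_sum fun c hc => hmge c hc
    rw [Finset.sum_sub_distrib, Finset.sum_const, nsmul_eq_mul] at h3
    have h4 : (#W : ℝ) * (3 * h * n) ≤ K * (3 * h * n) := by
      gcongr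
      have h5 := Finset.card_le_univ W
      rw [Fintype.card_fin] at h5
      exact_mod_cast h5
    have h6 : K * h ≤ ε' / 100 := by
      have h7 : (K : ℝ) * h ≤ ((K : ℝ) + 1) * h := by nlinarith
      have h8 : ((K : ℝ) + 1) * h = ε' / 100 := by
        rw [← hηK]; ring
      linarith
    have h9 : (K : ℝ) * (4 * h * n) ≤ 4 * (ε' / 100) * n := by
      calc (K : ℝ) * (4 * h * n) = 4 * (K * h) * n := by ring
        _ ≤ 4 * (ε' / 100) * n := by gcongr
    have h10 : (K : ℝ) * (3 * h * n) ≤ 3 * (ε' / 100) * n := by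
      calc (K : ℝ) * (3 * h * n) = 3 * (K * h) * n := by ring
        _ ≤ 3 * (ε' / 100) * n := by gcongr
    have h11 : 0 ≤ ε' * n := by positivity
    nlinarith
  refine UPMM.hit_mono hA'A (hF₀ K n hn4 G hG A' B x H q M hBA hBd (fun c => (hBq c).1)
    (fun c => (hBq c).2) (fun c hc => ?_) ?_)
  · by_cases hcW : c ∈ W
    · exact hmle c hcW
    · exact absurd (hmW0 c hcW) hc
  rw [← hnm]
  refine sol_mult hm hg x H M fun M' hM' hsum => ?_
  have hsumR : ∑ c, (M c : ℝ) + 2 * n₁ ≤ ∑ c, (M' c : ℝ) + 2 * n := by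
    have h1 : ∑ c, M c + 2 * n₁ ≤ ∑ c, M' c + 2 * n := by
      calc ∑ c, M c + 2 * n₁ ≤ ∑ c, M' c + (2 * m - 2) * n₁ + 2 * n₁ := by omega
        _ = ∑ c, M' c + (2 * m - 2 + 2) * n₁ := by ring
        _ = ∑ c, M' c + 2 * m * n₁ := by rw [Nat.sub_add_cancel (by omega)]
        _ = ∑ c, M' c + 2 * n := by rw [← hnm]; ring
    exact_mod_cast h1
  refine hnf K n₁ ((hk₂ K hK).trans hn2) (G ⧸ AddSubgroup.zmultiples g) hkill hcardQ _ _ M'
    (fun c hc => ?_) ?_ fun h1 => hInd ?_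
  · have hcW : c ∈ W := by
      by_contra hcW
      have := hM' c
      rw [hmW0 c hcW] at this
      exact hc (Nat.le_zero.1 this)
    have h1 := UPMM.card_le (hBq c).2.1
    have h2 := hWm c hcW
    have h3 := UPMM.card_map hm hg (H c)
    have h4 : (#(B c) : ℝ) ≤
        Nat.card ((H c).map (QuotientAddGroup.mk' (AddSubgroup.zmultiples g))) * m := by
      exact_mod_cast h1.trans h3
    have h5 : (4 * h * n₁) * m ≤
        Nat.card ((H c).map (QuotientAddGroup.mk' (AddSubgroup.zmultiples g))) * (m : ℝ) := by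
      calc (4 * h * n₁) * (m : ℝ) = 4 * h * (m * n₁) := by ring
        _ = 4 * h * n := by rw [← hmn]
        _ ≤ _ := h2.trans h4
    have h6 := le_of_mul_le_mul_right h5 (by linarith)
    have h7 : 0 ≤ h * n₁ := by positivity
    linarith
  · have h1 : ε' / 2 * (n₁ : ℝ) ≤ ε' / 2 * n := by gcongr
    linarith
  · refine Ind.mono (hw K hK) ?_ le_rfl h1
    show ε' / (100 * ((Kmax : ℝ) + 1)) ≤ ε' / (100 * ((K : ℝ) + 1))
    gcongr

end Pool.Agent.Lib.MPa7239a.RN
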