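import Pool.Agent.Lib.MP_a7239a_co.RN.ORD

/-! # RN, module INDC: independent characters with bounded values -/

set_option autoImplicit false

open Finset
open scoped Pointwise

namespace Pool.Agent.Lib.MPa7239a.RN

theorem ind_card {G : Type*} [AddCommGroup G] [Finite G] {n w : ℕ} (hn : 1 ≤ n) {δ : ℝ} {s : ℕ}
    {M : AddSubgroup G} (h : Ind n w δ s M) :
    (n : ℝ) ^ s * (δ * n) ≤ (w : ℝ) ^ s * Nat.card M := by
  induction s generalizing M with
  | zero =>
    rw [pow_zero, pow_zero, one_mul, one_mul]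
    exact h
  | succ s ih =>
    obtain ⟨ξ, g, hg, h0, h1, h2⟩ := h
    have h3 := ih h2
    have h4 : ((n : ℝ) * Nat.card (M ⊓ ξ.ker : AddSubgroup G)) ≤ w * Nat.card M := by
      exact_mod_cast ord_le hn M ξ hg h0 h1
    calc (n : ℝ) ^ (s + 1) * (δ * n) = n * ((n : ℝ) ^ s * (δ * n)) := by ring
      _ ≤ n * ((w : ℝ) ^ s * Nat.card (M ⊓ ξ.ker : AddSubgroup G)) :=
          mul_le_mul_of_nonneg_left h3 (Nat.cast_nonneg _)
      _ = (w : ℝ) ^ s * (n * Nat.card (M ⊓ ξ.ker : AddSubgroup G)) := by ring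
      _ ≤ (w : ℝ) ^ s * (w * Nat.card M) := mul_le_mul_of_nonneg_left h4 (by positivity)
      _ = (w : ℝ) ^ (s + 1) * Nat.card M := by ring

namespace IndM

/-- multiplication by `d` -/
def md {G : Type*} [AddCommGroup G] (d : ℕ) : G →+ G := nsmulAddMonoidHom d

theorem md_apply {G : Type*} [AddCommGroup G] (d : ℕ) (g : G) : md d g = d • g := rfl

theorem pow_le {G : Type*} [AddCommGroup G] [Finite G] {n w : ℕ} (hn : 1 ≤ n) {δ : ℝ} {d : ℕ}
    (hd : 1 ≤ d) (hdw : d * w < n) {s : ℕ} {M : AddSubgroup G} (h : Ind n w δ s M) :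
    n ^ s ≤ (d * w) ^ s * Nat.card (M.map (md d)) := by
  induction s generalizing M with
  | zero =>
    rw [pow_zero, pow_zero, one_mul]
    exact Nat.one_le_iff_ne_zero.2 Nat.card_pos.ne'
  | succ s ih =>
    obtain ⟨ξ, g, hg, h0, h1, h2⟩ := h
    have h3 := ih h2
    have hn0 : NeZero n := ⟨by omega⟩
    set c : ℤ := (ξ g).valMinAbs with hc
    have hcξ : ((c : ℤ) : ZMod n) = ξ g := ZMod.coe_valMinAbs _
    have hc0 : c ≠ 0 := by
      intro hh
      rw [hh, Int.cast_zero] at hcξ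
      exact h0 hcξ.symm
    have hdc : (((d : ℤ) * c : ℤ) : ZMod n) = ξ (d • g) := by
      push_cast
      rw [hcξ, map_nsmul, nsmul_eq_mul]
    have habs : ((d : ℤ) * c).natAbs ≤ d * w := by
      rw [Int.natAbs_mul, Int.natAbs_natCast]
      exact Nat.mul_le_mul_left _ h1
    have hne : ξ (d • g) ≠ 0 := by
      rw [← hdc, Ne, ZMod.intCast_zmod_eq_zero_iff_dvd]
      intro hdvd
      have h5 : n ≤ ((d : ℤ) * c).natAbs := by
        have h6 := Int.natAbs_dvd_natAbs.2 hdvd
        rw [Int.natAbs_natCast] at h6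
        refine Nat.le_of_dvd (Int.natAbs_pos.2 (mul_ne_zero ?_ hc0)) h6
        exact_mod_cast (by omega : d ≠ 0)
      omega
    have hle : (ξ (d • g)).valMinAbs.natAbs ≤ d * w := by
      refine (ZMod.natAbs_min_of_le_div_two n _ ((d : ℤ) * c) ?_ (ZMod.natAbs_valMinAbs_le _)).trans habs
      rw [ZMod.coe_valMinAbs, hdc]
    have h4 := ord_le hn (M.map (md d)) ξ (g := d • g) ⟨g, hg, rfl⟩ hne hle
    have h5 : Nat.card ((M ⊓ ξ.ker).map (md d)) ≤
        Nat.card (M.map (md d) ⊓ ξ.ker : AddSubgroup G) := by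
      refine AddSubgroup.card_le_of_le ?_
      rintro _ ⟨x, ⟨hx1, hx2⟩, rfl⟩
      refine ⟨⟨x, hx1, rfl⟩, ?_⟩
      have hx3 : ξ x = 0 := hx2
      show ξ (md d x) = 0
      rw [md_apply, map_nsmul, hx3, smul_zero]
    calc n ^ (s + 1) = n * n ^ s := by ring
      _ ≤ n * ((d * w) ^ s * Nat.card ((M ⊓ ξ.ker).map (md d))) := Nat.mul_le_mul_left _ h3
      _ ≤ n * ((d * w) ^ s * Nat.card (M.map (md d) ⊓ ξ.ker : AddSubgroup G)) :=
          Nat.mul_le_mul_left _ (Nat.mul_le_mul_left _ h5)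
      _ = (d * w) ^ s * (n * Nat.card (M.map (md d) ⊓ ξ.ker : AddSubgroup G)) := by ring
      _ ≤ (d * w) ^ s * (d * w * Nat.card (M.map (md d))) := Nat.mul_le_mul_left _ h4
      _ = (d * w) ^ (s + 1) * Nat.card (M.map (md d)) := by ring

/-- the `m`-torsion of a group generated by `#T` elements -/
theorem tors_le {G : Type*} [AddCommGroup G] [Finite G] {m : ℕ} (hm : 1 ≤ m) (T : Finset G) :
    Nat.card (AddSubgroup.closure (T : Set G) ⊓ (md m).ker : AddSubgroup G) ≤ m ^ #T := by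
  classical
  set D : AddSubgroup G := AddSubgroup.closure (T : Set G) with hD
  set f : D →+ D := md m with hf
  have h1 : Nat.card f.ker * Nat.card f.range = Nat.card D := by
    rw [← AddSubgroup.index_ker]
    exact AddSubgroup.card_mul_index f.ker
  have h2 : Nat.card f.ker = Nat.card (D ⊓ (md m).ker : AddSubgroup G) := by
    refine Nat.card_congr ⟨fun x => ⟨x.1.1, x.1.2, ?_⟩, fun x => ⟨⟨x.1, x.2.1⟩, ?_⟩,
      fun x => rfl, fun x => rfl⟩
    · have hx : f x.1 = 0 := x.2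
      show md m (x.1.1 : G) = 0
      exact congrArg Subtype.val hx
    · have hx : md m (x.1 : G) = 0 := x.2.2
      show f ⟨x.1, x.2.1⟩ = 0
      exact Subtype.ext hx
  have h3 : Nat.card D ≤ m ^ #T * Nat.card f.range := by
    have hT : ∀ x ∈ T, x ∈ D := fun x hx => AddSubgroup.subset_closure hx
    let F : (T → Fin m) × f.range → D := fun a =>
      ∑ x : T, (a.1 x : ℕ) • (⟨x.1, hT x.1 x.2⟩ : D) + a.2.1
    have hF : Function.Surjective F := by
      rintro ⟨y, hy⟩
      have hy' : y ∈ Submodule.span ℤ (T : Set G) := by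
        have h0 : y ∈ (Submodule.span ℤ (T : Set G)).toAddSubgroup := by
          rw [Submodule.span_int_eq_addSubgroupClosure]
          exact hy
        exact h0
      obtain ⟨c, hc1, hc2⟩ := Submodule.mem_span_finset.1 hy'
      have hmpos : (0 : ℤ) < m := by exact_mod_cast (by omega : 0 < m)
      refine ⟨(fun x => ⟨(c x.1 % m).toNat, ?_⟩, ⟨f (∑ x : T, (c x.1 / m) • (⟨x.1, hT x.1 x.2⟩ : D)),
        ⟨_, rfl⟩⟩), ?_⟩
      · have h4 := Int.emod_lt_of_pos (c x.1) hmpos
        have h5 := Int.emod_nonneg (c x.1) hmpos.ne'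
        omega
      · have h6 : (⟨y, hy⟩ : D) = ∑ x : T, c x.1 • (⟨x.1, hT x.1 x.2⟩ : D) := by
          apply Subtype.ext
          rw [AddSubgroup.val_finsetSum]
          show y = ∑ x : T, ((c x.1 • (⟨x.1, hT x.1 x.2⟩ : D) : D) : G)
          rw [← hc2, ← Finset.sum_coe_sort T]
          rfl
        rw [h6]
        show ∑ x : T, ((c x.1 % m).toNat : ℕ) • (⟨x.1, hT x.1 x.2⟩ : D) +
          (m • ∑ x : T, (c x.1 / m) • (⟨x.1, hT x.1 x.2⟩ : D)) = _
        rw [Finset.smul_sum, ← Finset.sum_add_distrib]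
        refine Finset.sum_congr rfl fun x _ => ?_
        have h5 := Int.emod_nonneg (c x.1) hmpos.ne'
        have h7 : (((c x.1 % m).toNat : ℕ) : ℤ) = c x.1 % m := Int.toNat_of_nonneg h5
        rw [← natCast_zsmul, ← natCast_zsmul _ m, h7, smul_smul, ← add_smul]
        congr 1
        exact Int.emod_add_mul_ediv (c x.1) m
    have h8 := Nat.card_le_card_of_surjective F hF
    rw [Nat.card_prod, Nat.card_fun, Nat.card_eq_fintype_card (α := T), Fintype.card_coe,
      Nat.card_fin] at h8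
    exact h8
  rw [← h2]
  rw [← h1] at h3
  exact Nat.le_of_mul_le_mul_right h3 Nat.card_pos

end IndM

open IndM in
theorem ind_gen {G : Type*} [AddCommGroup G] [Finite G] {n w : ℕ} (hn : 1 ≤ n)
    (hG : ∀ g : G, n • g = 0) {δ : ℝ} (hδ : 0 < δ) {t : ℕ}
    (h : Ind n w δ (t + 1) (⊤ : AddSubgroup G)) {e : ℕ} (he : 1 ≤ e) {T : Finset G}
    (hT : #T ≤ t) (hgen : ∀ g : G, e • g ∈ AddSubgroup.closure (T : Set G)) :
    n ≤ w ^ (t + 1) * e := by
  set d := Nat.gcd e n with hd
  have hd1 : 1 ≤ d := Nat.gcd_pos_of_pos_left _ he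
  have hde : d ≤ e := Nat.gcd_le_left _ he
  obtain ⟨m, hm⟩ : d ∣ n := Nat.gcd_dvd_right _ _
  have hm1 : 1 ≤ m := by
    rcases Nat.eq_zero_or_pos m with h0 | h0
    · rw [h0] at hm
      omega
    · exact h0
  have hdg : ∀ g : G, d • g ∈ AddSubgroup.closure (T : Set G) := by
    intro g
    have h1 : (d : ℤ) = e * Nat.gcdA e n + n * Nat.gcdB e n := Nat.gcd_eq_gcd_ab e n
    have h2 : d • g = Nat.gcdA e n • (e • g) := by
      rw [← natCast_zsmul, h1, add_smul, mul_comm (e : ℤ), mul_smul, natCast_zsmul,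
        mul_comm (n : ℤ), mul_smul, natCast_zsmul, hG g, smul_zero, add_zero]
    rw [h2]
    exact AddSubgroup.zsmul_mem _ (hgen g) _
  suffices hs : n ≤ w ^ (t + 1) * d from hs.trans (Nat.mul_le_mul_left _ hde)
  rcases Nat.lt_or_ge (d * w) n with hlt | hge
  · have h1 := pow_le hn hd1 hlt h
    have h2 : Nat.card ((⊤ : AddSubgroup G).map (md d)) ≤ m ^ t := by
      have h3 : (⊤ : AddSubgroup G).map (md d) ≤
          AddSubgroup.closure (T : Set G) ⊓ (md m).ker := by
        rintro _ ⟨x, -, rfl⟩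
        refine ⟨hdg x, ?_⟩
        show md m (md d x) = 0
        rw [md_apply, md_apply, ← mul_smul, mul_comm, ← hm]
        exact hG x
      exact ((AddSubgroup.card_le_of_le h3).trans (tors_le hm1 T)).trans
        (Nat.pow_le_pow_right hm1 hT)
    have h3 : n ^ t * n ≤ n ^ t * (w ^ (t + 1) * d) := by
      calc n ^ t * n = n ^ (t + 1) := (pow_succ _ _).symm
        _ ≤ (d * w) ^ (t + 1) * m ^ t := h1.trans (Nat.mul_le_mul_left _ h2)
        _ = (d * m) ^ t * (w ^ (t + 1) * d) := by ring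
        _ = n ^ t * (w ^ (t + 1) * d) := by rw [← hm]
    exact Nat.le_of_mul_le_mul_left h3 (Nat.pow_pos (by omega))
  · obtain ⟨ξ, g, -, h0, h1, -⟩ := h
    have hw : 1 ≤ w := by
      have : (ξ g).valMinAbs ≠ 0 := by
        intro hh
        exact h0 ((ZMod.valMinAbs_eq_zero _).1 hh)
      have := Int.natAbs_pos.2 this
      omega
    calc n ≤ d * w := hge
      _ = w ^ 1 * d := by ring
      _ ≤ w ^ (t + 1) * d := Nat.mul_le_mul_right _ (Nat.pow_le_pow_right hw (by omega))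

end Pool.Agent.Lib.MPa7239a.RN
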