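import Pool.Agent.Lib.MP_a7239a_co.RN.Defs
import Pool.Agent.Lib.MP_a7239a_co.RN.ASSEMN
import Pool.Agent.Lib.MP_a7239a_co.RN.INDC

/-! # RN, module UPPERN: the final upper bound -/

set_option autoImplicit false

universe u

open Finset
open scoped Pointwise

namespace Pool.Agent.Lib.MPa7239a.RN

open Pool.Agent.Lib.MPa7239a.GC (Hit)

theorem upper (t : ℕ) (ht : t ≤ 2) (r : ℕ) (hr : 1 ≤ r) (ε : ℝ) (hε : 0 < ε) : ∃ κ : ℝ, 0 < κ ∧
    ∃ n₀ : ℕ, ∀ n : ℕ, n₀ ≤ n → ∀ (G : Type u) [AddCommGroup G] [Finite G],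
    (∀ g : G, n • g = 0) → Nat.card G ≤ n ^ r →
    ((Nat.card G : ℝ) ≤ κ * n ^ (t + 2) ∨ ∃ (e : ℕ) (T : Finset G), 1 ≤ e ∧ (e : ℝ) ≤ κ * n ∧
      #T ≤ t ∧ ∀ g : G, e • g ∈ AddSubgroup.closure (T : Set G)) →
    ∀ A : Finset G, (2 ^ t + ε) * n ≤ #A → Hit A n 0 := by
  obtain ⟨w, δ, hδ, n₀, H⟩ := upper_ind.{u} t ht r hr ε hε
  have hW : (0 : ℝ) < (w : ℝ) ^ (t + 1) + 1 := by positivity
  have hm : 0 < min δ 1 := lt_min hδ one_pos
  set κ : ℝ := min δ 1 / ((w : ℝ) ^ (t + 1) + 1) with hκ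
  have hκ0 : 0 < κ := div_pos hm hW
  have hκ1 : (w : ℝ) ^ (t + 1) * κ < min δ 1 := by
    have h1 : ((w : ℝ) ^ (t + 1) + 1) * κ = min δ 1 := by
      rw [hκ]
      field_simp
    nlinarith
  refine ⟨κ, hκ0, max n₀ 1, fun n hn G _ _ hG hcard hor A hA => ?_⟩
  have hn0 : n₀ ≤ n := (le_max_left _ _).trans hn
  have hn1 : 1 ≤ n := (le_max_right _ _).trans hn
  have hnr : (0 : ℝ) < n := by exact_mod_cast hn1
  refine H n hn0 G hG hcard (fun hI => ?_) A hA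
  rcases hor with h | ⟨e, T, he, heκ, hT, hgen⟩
  · have h1 := ind_card hn1 hI
    rw [AddSubgroup.card_top] at h1
    have h2 : (w : ℝ) ^ (t + 1) * (Nat.card G : ℝ) ≤ (w : ℝ) ^ (t + 1) * (κ * n ^ (t + 2)) :=
      mul_le_mul_of_nonneg_left h (by positivity)
    have h3 : (n : ℝ) ^ (t + 2) * δ ≤ (n : ℝ) ^ (t + 2) * ((w : ℝ) ^ (t + 1) * κ) := by
      calc (n : ℝ) ^ (t + 2) * δ = (n : ℝ) ^ (t + 1) * (δ * n) := by ring
        _ ≤ _ := h1.trans h2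
        _ = _ := by ring
    have h4 : δ ≤ (w : ℝ) ^ (t + 1) * κ := le_of_mul_le_mul_left h3 (by positivity)
    have h5 := min_le_left δ 1
    linarith
  · have h1 := ind_gen hn1 hG hδ hI he hT hgen
    have h2 : (n : ℝ) ≤ (w : ℝ) ^ (t + 1) * e := by exact_mod_cast h1
    have h3 : (w : ℝ) ^ (t + 1) * (e : ℝ) ≤ (w : ℝ) ^ (t + 1) * (κ * n) :=
      mul_le_mul_of_nonneg_left heκ (by positivity)
    have h4 : (1 : ℝ) * n ≤ ((w : ℝ) ^ (t + 1) * κ) * n := by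
      calc (1 : ℝ) * n = n := one_mul _
        _ ≤ _ := h2.trans h3
        _ = _ := by ring
    have h5 : 1 ≤ (w : ℝ) ^ (t + 1) * κ := le_of_mul_le_mul_right h4 hnr
    have h6 := min_le_right δ 1
    linarith

end Pool.Agent.Lib.MPa7239a.RN
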