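import Pool.Agent.Lib.MP_a7239a_co.RN.INDC
import Pool.Agent.Lib.MP_a7239a_co.RN.UPPERN
import Pool.Agent.Lib.MP_a7239a_co.RN.UPM

/-! # RN, module UPS: the upper bound with the second invariant factor -/

set_option autoImplicit false

universe u

open Finset

namespace Pool.Agent.Lib.MPa7239a.RN

open Pool.Agent.Lib.MPa7239a.GC (Hit)

theorem exists_pos_le (f : ℕ → ℝ) (hf : ∀ m, 0 < f m) (M : ℕ) :
    ∃ κ : ℝ, 0 < κ ∧ ∀ m ≤ M, κ ≤ f m := by
  induction M with
  | zero => exact ⟨f 0, hf 0, fun m hm => by rw [Nat.le_zero.1 hm]⟩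
  | succ M ih =>
    obtain ⟨κ, hκ, h⟩ := ih
    refine ⟨min κ (f (M + 1)), lt_min hκ (hf _), fun m hm => ?_⟩
    rcases Nat.lt_or_ge m (M + 1) with h1 | h1
    · exact (min_le_left _ _).trans (h m (Nat.lt_succ_iff.1 h1))
    · rw [le_antisymm hm h1]
      exact min_le_right _ _

theorem exists_ge_nat (f : ℕ → ℕ) (M : ℕ) : ∃ N : ℕ, ∀ m ≤ M, f m ≤ N := by
  induction M with
  | zero => exact ⟨f 0, fun m hm => by rw [Nat.le_zero.1 hm]⟩
  | succ M ih =>
    obtain ⟨N, h⟩ := ih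
    refine ⟨max N (f (M + 1)), fun m hm => ?_⟩
    rcases Nat.lt_or_ge m (M + 1) with h1 | h1
    · exact (h m (Nat.lt_succ_iff.1 h1)).trans (le_max_left _ _)
    · rw [le_antisymm hm h1]
      exact le_max_right _ _

/-- the multiples of `d` form a cyclic group with a generator killed by `n / d` -/
theorem exists_gen {G : Type*} [AddCommGroup G] {m d : ℕ}
    (hG : ∀ g : G, (m * d) • g = 0) {g : G} (hg : ∀ x : G, d • x ∈ AddSubgroup.zmultiples g) :
    ∃ g' : G, m • g' = 0 ∧ ∀ x : G, d • x ∈ AddSubgroup.zmultiples g' := by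
  set H : AddSubgroup G := (nsmulAddMonoidHom d : G →+ G).range with hH
  have h1 : H ≤ AddSubgroup.zmultiples g := by
    rintro _ ⟨x, rfl⟩
    exact hg x
  have h2 : IsAddCyclic H := AddSubgroup.isAddCyclic_of_le h1
  obtain ⟨⟨g', y, hy⟩, hgen⟩ := h2.exists_generator
  refine ⟨g', ?_, fun x => ?_⟩
  · have h3 : d • y = g' := hy
    rw [← h3, smul_smul]
    exact hG y
  · have h4 := hgen ⟨d • x, x, rfl⟩
    rw [AddSubgroup.mem_zmultiples_iff] at h4 ⊢
    obtain ⟨k, hk⟩ := h4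
    exact ⟨k, by simpa using congrArg Subtype.val hk⟩

theorem upper_sharp (r : ℕ) (hr : 1 ≤ r) (ε : ℝ) (hε : 0 < ε) : ∃ κ : ℝ, 0 < κ ∧
    ∃ n₀ : ℕ, ∀ n : ℕ, n₀ ≤ n → ∀ (G : Type u) [AddCommGroup G] [Finite G],
    (∀ g : G, n • g = 0) → Nat.card G ≤ n ^ r → ∀ d : ℕ, d ∣ n →
    (∃ g : G, ∀ x : G, d • x ∈ AddSubgroup.zmultiples g) →
    ((Nat.card G : ℝ) ≤ κ * n ^ 4 ∨ ∃ (e : ℕ) (T : Finset G), 1 ≤ e ∧ (e : ℝ) ≤ κ * n ∧
      #T ≤ 2 ∧ ∀ g : G, e • g ∈ AddSubgroup.closure (T : Set G)) →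
    ∀ A : Finset G, (2 + ε) * n + 2 * d ≤ #A → Hit A n 0 := by
  classical
  obtain ⟨κ₁, hκ₁, n₁, h1⟩ := upper.{u} 1 (by norm_num) r hr ε hε
  have hm : ∀ m : ℕ, ∃ (w : ℕ) (δ : ℝ), 0 < δ ∧ ∃ n₀ : ℕ, 1 ≤ m → ∀ n₁ : ℕ, n₀ ≤ n₁ →
      ∀ (G : Type u) [AddCommGroup G] [Finite G], (∀ g : G, (m * n₁) • g = 0) →
      Nat.card G ≤ (m * n₁) ^ r → ∀ g : G, m • g = 0 →
      (∀ x : G, n₁ • x ∈ AddSubgroup.zmultiples g) →
      ¬ Ind n₁ w δ 3 (⊤ : AddSubgroup (G ⧸ AddSubgroup.zmultiples g)) → ∀ A : Finset G,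
      2 * (m * n₁ : ℝ) + 2 * n₁ + ε * (m * n₁) ≤ #A → Hit A (m * n₁) 0 := by
    intro m
    rcases Nat.eq_zero_or_pos m with h0 | h0
    · exact ⟨0, 1, one_pos, 0, fun h => by omega⟩
    · obtain ⟨w, δ, hδ, n₀, h⟩ := upper_m.{u} r hr m h0 ε hε
      exact ⟨w, δ, hδ, n₀, fun _ => h⟩
  choose w δ hδ n₀ hm using hm
  set M := ⌊1 / κ₁⌋₊ with hM
  obtain ⟨κ, hκ, hκm⟩ := exists_pos_le
    (fun m => min (δ m / ((w m : ℝ) ^ 3 * m ^ 4 + 1)) (1 / ((w m : ℝ) ^ 3 * m + 1)) / 2)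
    (fun m => by have := hδ m; positivity) M
  obtain ⟨N, hN⟩ := exists_ge_nat n₀ M
  refine ⟨κ, hκ, max (max n₁ 1) (M * N), ?_⟩
  intro n hn G _ _ hG hcard d hd hg hor A hA
  have hn1 : n₁ ≤ n := (le_max_left _ _).trans ((le_max_left _ _).trans hn)
  have hn2 : 1 ≤ n := (le_max_right _ _).trans ((le_max_left _ _).trans hn)
  have hn3 : M * N ≤ n := (le_max_right _ _).trans hn
  have hd1 : 1 ≤ d := Nat.pos_of_dvd_of_pos hd hn2
  have hnR : (0 : ℝ) < n := by exact_mod_cast hn2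
  have hdR : (0 : ℝ) < d := by exact_mod_cast hd1
  obtain ⟨g, hg⟩ := hg
  by_cases hc : (d : ℝ) ≤ κ₁ * n
  · refine h1 n hn1 G hG hcard (Or.inr ⟨d, {g}, hd1, hc, by simp, fun x => ?_⟩) A ?_
    · rw [Finset.coe_singleton, ← AddSubgroup.zmultiples_eq_closure]
      exact hg x
    · have h2 : (2 : ℝ) ^ 1 + ε = 2 + ε := by norm_num
      rw [h2]
      linarith
  · obtain ⟨m, hmd⟩ := hd
    rw [mul_comm] at hmd
    have hc' : κ₁ * n < d := not_le.1 hc
    have hm1 : 1 ≤ m := by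
      rcases Nat.eq_zero_or_pos m with h0 | h0
      · rw [h0, zero_mul] at hmd; omega
      · exact h0
    have hnmd : (n : ℝ) = m * d := by rw [hmd]; push_cast; ring
    have hmM : m ≤ M := by
      apply Nat.le_floor
      rw [le_div_iff₀ hκ₁]
      rw [hnmd] at hc'
      have : (m * κ₁) * d < 1 * d := by linarith
      exact (lt_of_mul_lt_mul_right this hdR.le).le
    have hM0 : 0 < M := lt_of_lt_of_le hm1 hmM
    have hdN : N ≤ d := by
      have h2 : M * N ≤ M * d := by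
        calc M * N ≤ n := hn3
          _ = m * d := hmd
          _ ≤ M * d := Nat.mul_le_mul_right _ hmM
      exact Nat.le_of_mul_le_mul_left h2 hM0
    have hG' : ∀ g : G, (m * d) • g = 0 := by rw [← hmd]; exact hG
    obtain ⟨g', hg'1, hg'2⟩ := exists_gen hG' hg
    have hκ' := hκm m hmM
    set w' : ℝ := (w m : ℝ) ^ 3 with hw'
    have hw0 : 0 ≤ w' := by positivity
    have hmR : (1 : ℝ) ≤ m := by exact_mod_cast hm1
    have hκ1 : κ * (w' * m ^ 4 + 1) ≤ δ m / 2 := by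
      have : κ ≤ δ m / (w' * m ^ 4 + 1) / 2 :=
        hκ'.trans (div_le_div_of_nonneg_right (min_le_left _ _) (by norm_num))
      rw [div_div, le_div_iff₀ (by positivity)] at this
      linarith
    have hκ2 : κ * (w' * m + 1) ≤ 1 / 2 := by
      have : κ ≤ 1 / (w' * m + 1) / 2 :=
        hκ'.trans (div_le_div_of_nonneg_right (min_le_right _ _) (by norm_num))
      rw [div_div, le_div_iff₀ (by positivity)] at this
      linarith
    have hInd : ¬ Ind d (w m) (δ m) 3 (⊤ : AddSubgroup (G ⧸ AddSubgroup.zmultiples g')) := by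
      intro hI
      rcases hor with h2 | ⟨e, T, he, heκ, hT, hgen⟩
      · have h3 := ind_card hd1 hI
        have h4 : (Nat.card (⊤ : AddSubgroup (G ⧸ AddSubgroup.zmultiples g')) : ℝ) ≤
            Nat.card G := by
          rw [AddSubgroup.card_top]
          exact_mod_cast Nat.card_le_card_of_surjective _
            (QuotientAddGroup.mk'_surjective (AddSubgroup.zmultiples g'))
        have h5 : (d : ℝ) ^ 3 * (δ m * d) ≤ w' * (κ * (m * d) ^ 4) := by
          refine h3.trans (mul_le_mul_of_nonneg_left ?_ hw0)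
          refine h4.trans (h2.trans ?_)
          rw [hnmd]
        have h6 : δ m * d ^ 4 ≤ (κ * (w' * m ^ 4)) * d ^ 4 := by
          nlinarith [h5]
        have h7 : δ m ≤ κ * (w' * m ^ 4) := le_of_mul_le_mul_right h6 (by positivity)
        have h8 := hδ m
        nlinarith
      · have h3 : d ≤ (w m) ^ (2 + 1) * e := by
          refine ind_gen (T := T.image (QuotientAddGroup.mk' (AddSubgroup.zmultiples g')))
            hd1 ?_ (hδ m) hI he (Finset.card_image_le.trans hT) ?_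
          · intro x
            obtain ⟨x, rfl⟩ := QuotientAddGroup.mk'_surjective _ x
            rw [← map_nsmul]
            exact (QuotientAddGroup.eq_zero_iff _).2 (hg'2 x)
          · intro x
            obtain ⟨x, rfl⟩ := QuotientAddGroup.mk'_surjective _ x
            rw [← map_nsmul, Finset.coe_image, ← AddMonoidHom.map_closure]
            exact AddSubgroup.mem_map_of_mem _ (hgen x)
        have h4 : (d : ℝ) ≤ w' * e := by
          rw [hw']
          exact_mod_cast h3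
        have h5 : (d : ℝ) ≤ w' * (κ * (m * d)) := by
          refine h4.trans (mul_le_mul_of_nonneg_left ?_ hw0)
          rw [← hnmd]
          exact heκ
        have h6 : 1 * (d : ℝ) ≤ (κ * (w' * m)) * d := by linarith
        have h7 : 1 ≤ κ * (w' * m) := le_of_mul_le_mul_right h6 hdR
        nlinarith
    have key := hm m hm1 d ((hN m hmM).trans hdN) G hG' (by rw [← hmd]; exact hcard) g' hg'1
      hg'2 hInd A (by
        rw [hnmd] at hA
        linarith)
    rw [hmd]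
    exact key

end Pool.Agent.Lib.MPa7239a.RN
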