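import Pool.Agent.Lib.MP_a7239a_co.RN.UPPERN
import Pool.Agent.Lib.MP_a7239a_co.RN.UPS
import Pool.Agent.Lib.MP_a7239a_co.RN.LOWG
import Pool.Agent.Lib.MP_a7239a_co.RN.LOWS
import Pool.Agent.Lib.MP_a7239a_co.RN.STRUC
import Pool.Agent.Lib.MP_a7239a_co.Final

/-!
# RN, module FINALR: the theorem in terms of `tauHat`
-/

set_option autoImplicit false

open Finset

namespace Pool.Agent.Lib.MPa7239a.RN

open Pool.Agent.Lib.MPa7239a.GC (Hit)

namespace FINALRM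

/-- the passage from `Hit` to `tauHat` -/
theorem tau_le {G : Type} [AddCommGroup G] [Finite G] {n : ℕ} (hn : 1 ≤ n) {x : ℝ}
    (h : ∀ A : Finset G, x ≤ #A → Hit A n 0) : (tauHat G n : ℝ) ≤ x := by
  obtain ⟨A, hA, hA0⟩ := (le_tauHat_iff (G := G) hn _).1 (le_refl (tauHat G n))
  by_contra hcon
  push Not at hcon
  obtain ⟨T, hT, hTc, hTs⟩ := h A (by rw [hA]; exact hcon.le)
  exact hA0 T hT hTc hTs

theorem le_tau {G : Type} [AddCommGroup G] [Finite G] {n : ℕ} (hn : 1 ≤ n) {A : Finset G}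
    (h : ¬ Hit A n 0) : #A ≤ tauHat G n :=
  (le_tauHat_iff (G := G) hn _).2 ⟨A, rfl, fun T hT hTc hTs => h ⟨T, hT, hTc, hTs⟩⟩

theorem exists_ker {G Q : Type} [AddCommGroup G] [Finite G] [AddCommGroup Q] (χ : G →+ Q)
    {k : ℕ} (hk : k ≤ Nat.card χ.ker) : ∃ S : Finset G, (∀ s ∈ S, χ s = 0) ∧ #S = k := by
  classical
  have := Fintype.ofFinite G
  have h2 : Nat.card χ.ker = #(univ.filter fun g : G => χ g = 0) := by
    rw [← Fintype.card_subtype, ← Nat.card_eq_fintype_card]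
    exact Nat.card_congr (Equiv.subtypeEquivRight fun g => χ.mem_ker)
  obtain ⟨S, hS, hSc⟩ := exists_subset_card_eq (h2 ▸ hk)
  exact ⟨S, fun s hs => (mem_filter.1 (hS hs)).2, hSc⟩

theorem card_ker {G Q : Type} [AddCommGroup G] [Finite G] [AddCommGroup Q] (χ : G →+ Q)
    (hχ : Function.Surjective χ) : Nat.card χ.ker * Nat.card Q = Nat.card G := by
  have h2 := χ.ker.card_mul_index
  rwa [AddSubgroup.index_ker, AddMonoidHom.range_eq_top.2 hχ, AddSubgroup.card_top] at h2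

end FINALRM

/-- the upper bound `2 ^ t`, `t ≤ 2` -/
theorem rn_upper (t : ℕ) (ht : t ≤ 2) (r : ℕ) (ε : ℝ) (hε : 0 < ε) : ∃ κ : ℝ, 0 < κ ∧
    ∃ n₀ : ℕ, ∀ n : ℕ, n₀ ≤ n → ∀ (G : Type) [AddCommGroup G] [Finite G],
    (∀ g : G, n • g = 0) → Nat.card G ≤ n ^ r →
    ((Nat.card G : ℝ) ≤ κ * n ^ (t + 2) ∨ ∃ (e : ℕ) (T : Finset G), 1 ≤ e ∧ (e : ℝ) ≤ κ * n ∧
      #T ≤ t ∧ ∀ g : G, e • g ∈ AddSubgroup.closure (T : Set G)) →
    (tauHat G n : ℝ) ≤ (2 ^ t + ε) * n := by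
  obtain ⟨κ, hκ, n₀, h⟩ := upper.{0} t ht (r + 1) (by omega) ε hε
  refine ⟨κ, hκ, n₀ + 1, fun n hn G _ _ hG hcard hcase => ?_⟩
  have hn1 : 1 ≤ n := by omega
  refine FINALRM.tau_le hn1 ?_
  exact h n (by omega) G hG (hcard.trans (Nat.pow_le_pow_right hn1 (Nat.le_succ r))) hcase

/-- the upper bound `2 n + 2 d` -/
theorem rn_upper_sharp (r : ℕ) (ε : ℝ) (hε : 0 < ε) : ∃ κ : ℝ, 0 < κ ∧
    ∃ n₀ : ℕ, ∀ n : ℕ, n₀ ≤ n → ∀ (G : Type) [AddCommGroup G] [Finite G],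
    (∀ g : G, n • g = 0) → Nat.card G ≤ n ^ r → ∀ d : ℕ, d ∣ n →
    (∃ g : G, ∀ x : G, d • x ∈ AddSubgroup.zmultiples g) →
    ((Nat.card G : ℝ) ≤ κ * n ^ 4 ∨ ∃ (e : ℕ) (T : Finset G), 1 ≤ e ∧ (e : ℝ) ≤ κ * n ∧
      #T ≤ 2 ∧ ∀ g : G, e • g ∈ AddSubgroup.closure (T : Set G)) →
    (tauHat G n : ℝ) ≤ (2 + ε) * n + 2 * d := by
  obtain ⟨κ, hκ, n₀, h⟩ := upper_sharp.{0} (r + 1) (by omega) ε hε
  refine ⟨κ, hκ, n₀ + 1, fun n hn G _ _ hG hcard d hd hcyc hcase => ?_⟩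
  have hn1 : 1 ≤ n := by omega
  refine FINALRM.tau_le hn1 ?_
  exact h n (by omega) G hG (hcard.trans (Nat.pow_le_pow_right hn1 (Nat.le_succ r))) d hd hcyc
    hcase

/-- the lower bound, for every divisor `c` of the second largest invariant factor `d` -/
theorem rn_lower_gen {G : Type} [AddCommGroup G] [Finite G] {n d : ℕ}
    (hn : n = AddMonoid.exponent G)
    (hd : IsLeast {d : ℕ | 1 ≤ d ∧ ∃ g : G, ∀ x : G, d • x ∈ AddSubgroup.zmultiples g} d)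
    {c : ℕ} (hc : c ∣ d) :
    2 * min (Nat.card G / (n * c)) (n - 1) + 2 * min (Nat.card G / (n * c)) (c - 1) ≤
      tauHat G n := by
  have hn1 : 1 ≤ n := by
    rw [hn]
    exact Nat.pos_of_ne_zero AddMonoid.exponent_ne_zero_of_finite
  have hd1 : 1 ≤ d := hd.1.1
  have hc1 : 1 ≤ c := Nat.pos_of_dvd_of_pos hc hd1
  have hn0 : NeZero n := ⟨by omega⟩
  have hc0 : NeZero c := ⟨by omega⟩
  obtain ⟨hdn, χ, hχ⟩ := struc hn hd
  let ρ : ZMod n × ZMod d →+ ZMod n × ZMod c :=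
    AddMonoidHom.prodMap (AddMonoidHom.id (ZMod n)) (ZMod.castHom hc (ZMod c)).toAddMonoidHom
  have hρ : Function.Surjective ρ := by
    rintro ⟨a, b⟩
    obtain ⟨b', hb'⟩ := ZMod.castHom_surjective hc b
    exact ⟨(a, b'), Prod.ext rfl hb'⟩
  have hχ' : Function.Surjective (ρ.comp χ) := hρ.comp hχ
  have h1 : Nat.card (ρ.comp χ).ker * (n * c) = Nat.card G := by
    have h2 := FINALRM.card_ker (ρ.comp χ) hχ'
    rwa [Nat.card_prod, Nat.card_zmod, Nat.card_zmod] at h2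
  have h2 : Nat.card G / (n * c) = Nat.card (ρ.comp χ).ker := by
    rw [← h1]
    exact Nat.mul_div_cancel _ (Nat.mul_pos hn1 hc1)
  rw [h2]
  obtain ⟨S, hS, hSc⟩ := FINALRM.exists_ker (ρ.comp χ)
    (min_le_left (Nat.card (ρ.comp χ).ker) (n - 1))
  obtain ⟨S', hS', hSc'⟩ := FINALRM.exists_ker (ρ.comp χ)
    (min_le_left (Nat.card (ρ.comp χ).ker) (c - 1))
  obtain ⟨A, hA, hA0⟩ := low_sharp hn1 hc1 (hc.trans hdn) (ρ.comp χ) hχ' S S' hS hS'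
    (by rw [hSc]; exact lt_of_le_of_lt (min_le_right _ _) (by omega))
    (by rw [hSc']; exact lt_of_le_of_lt (min_le_right _ _) (by omega))
  rw [hSc, hSc'] at hA
  rw [← hA]
  exact FINALRM.le_tau hn1 hA0

/-- the case `c = 1` -/
theorem rn_lower_one {G : Type} [AddCommGroup G] [Finite G] {n d : ℕ}
    (hn : n = AddMonoid.exponent G)
    (hd : IsLeast {d : ℕ | 1 ≤ d ∧ ∃ g : G, ∀ x : G, d • x ∈ AddSubgroup.zmultiples g} d)
    (hcard : n * (n - 1) ≤ Nat.card G) : 2 * (n - 1) ≤ tauHat G n := by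
  have hn1 : 1 ≤ n := by
    rw [hn]
    exact Nat.pos_of_ne_zero AddMonoid.exponent_ne_zero_of_finite
  have h1 := rn_lower_gen hn hd (one_dvd d)
  have h2 : n - 1 ≤ Nat.card G / (n * 1) := by
    rw [mul_one, Nat.le_div_iff_mul_le hn1, mul_comm]
    exact hcard
  rw [min_eq_right h2] at h1
  omega

/-- the case `c = d` -/
theorem rn_lower_two {G : Type} [AddCommGroup G] [Finite G] {n d : ℕ}
    (hn : n = AddMonoid.exponent G)
    (hd : IsLeast {d : ℕ | 1 ≤ d ∧ ∃ g : G, ∀ x : G, d • x ∈ AddSubgroup.zmultiples g} d)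
    (hcard : n * d * (n - 1) ≤ Nat.card G) : 2 * (n - 1) + 2 * (d - 1) ≤ tauHat G n := by
  have hn1 : 1 ≤ n := by
    rw [hn]
    exact Nat.pos_of_ne_zero AddMonoid.exponent_ne_zero_of_finite
  have hdn : d ≤ n := Nat.le_of_dvd hn1 (struc hn hd).1
  have h1 := rn_lower_gen hn hd (dvd_refl d)
  have h2 : n - 1 ≤ Nat.card G / (n * d) := by
    rw [Nat.le_div_iff_mul_le (Nat.mul_pos hn1 hd.1.1), mul_comm]
    exact hcard
  rw [min_eq_right h2, min_eq_right (show d - 1 ≤ Nat.card G / (n * d) by omega)] at h1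
  exact h1

/-- the second largest invariant factor exists -/
theorem sec_exists (G : Type) [AddCommGroup G] [Finite G] :
    ∃ d, IsLeast {d : ℕ | 1 ≤ d ∧ ∃ g : G, ∀ x : G, d • x ∈ AddSubgroup.zmultiples g} d := by
  classical
  have h : ∃ d : ℕ, d ∈ {d : ℕ | 1 ≤ d ∧ ∃ g : G, ∀ x : G, d • x ∈ AddSubgroup.zmultiples g} :=
    ⟨AddMonoid.exponent G, Nat.pos_of_ne_zero AddMonoid.exponent_ne_zero_of_finite, 0,
      fun x => by rw [AddMonoid.exponent_nsmul_eq_zero]; exact AddSubgroup.zero_mem _⟩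
  exact ⟨Nat.find h, Nat.find_spec h, fun m hm => Nat.find_min' h hm⟩

/-- everything together, `n` the exponent and `d` the second largest invariant factor -/
theorem rn_final (r : ℕ) (ε : ℝ) (hε : 0 < ε) : ∃ κ : ℝ, 0 < κ ∧ ∃ n₀ : ℕ,
    ∀ (G : Type) [AddCommGroup G] [Finite G] (n d : ℕ), n = AddMonoid.exponent G →
    IsLeast {d : ℕ | 1 ≤ d ∧ ∃ g : G, ∀ x : G, d • x ∈ AddSubgroup.zmultiples g} d →
    n₀ ≤ n → Nat.card G ≤ n ^ r →
    ((Nat.card G : ℝ) ≤ κ * n ^ 3 → (tauHat G n : ℝ) ≤ (2 + ε) * n) ∧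
    (((Nat.card G : ℝ) ≤ κ * n ^ 4 ∨ ∃ (e : ℕ) (T : Finset G), 1 ≤ e ∧ (e : ℝ) ≤ κ * n ∧
      #T ≤ 2 ∧ ∀ g : G, e • g ∈ AddSubgroup.closure (T : Set G)) →
      (tauHat G n : ℝ) ≤ (2 + ε) * n + 2 * d) ∧
    (n * (n - 1) ≤ Nat.card G → 2 * (n - 1) ≤ tauHat G n) ∧
    (n * d * (n - 1) ≤ Nat.card G → 2 * (n - 1) + 2 * (d - 1) ≤ tauHat G n) ∧
    ∀ c : ℕ, c ∣ d → 2 * min (Nat.card G / (n * c)) (n - 1) +
      2 * min (Nat.card G / (n * c)) (c - 1) ≤ tauHat G n := by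
  obtain ⟨κ₁, hκ₁, n₁, h₁⟩ := rn_upper 1 (by norm_num) r ε hε
  obtain ⟨κ₂, hκ₂, n₂, h₂⟩ := rn_upper_sharp r ε hε
  refine ⟨min κ₁ κ₂, lt_min hκ₁ hκ₂, n₁ + n₂, fun G _ _ n d hn hd hn₀ hcard => ?_⟩
  have hG : ∀ g : G, n • g = 0 := fun g => by
    rw [hn]
    exact AddMonoid.exponent_nsmul_eq_zero g
  have hd' : d ∣ n := (struc hn hd).1
  refine ⟨fun h => ?_, fun h => ?_, rn_lower_one hn hd, rn_lower_two hn hd,
    fun c hc => rn_lower_gen hn hd hc⟩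
  · have := h₁ n (by omega) G hG hcard (Or.inl (h.trans (by
      rw [show 1 + 2 = 3 from rfl]
      gcongr
      exact min_le_left _ _)))
    simpa using this
  · refine h₂ n (by omega) G hG hcard d hd' hd.1.2 ?_
    rcases h with h | ⟨e, T, he, he', hT⟩
    · left
      refine h.trans ?_
      gcongr
      exact min_le_right _ _
    · right
      refine ⟨e, T, he, he'.trans ?_, hT⟩
      gcongr
      exact min_le_right _ _

end Pool.Agent.Lib.MPa7239a.RN
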