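import Pool.Agent.Lib.MP_a7239a_co.RN.KMINI

/-! # RN, module FREEZE -/

set_option autoImplicit false

open Finset
open scoped Pointwise

namespace Pool.Agent.Lib.MPa7239a.RN

namespace FreezeM

theorem mem_offC {G : Type*} [AddCommGroup G] {B : Finset G} {z : G} {S : AddSubgroup G} {b : G} :
    b ∈ offC B z S ↔ b ∈ B ∧ b - z ∉ S := by
  classical
  simp only [offC, Finset.mem_filter]

theorem card_lt {G : Type*} [AddCommGroup G] [Finite G] {S M : AddSubgroup G} (h : S < M) :
    Nat.card S < Nat.card M := by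
  by_contra hc
  exact h.ne (AddSubgroup.eq_of_le_of_card_ge h.le (not_lt.1 hc))

theorem two_mul_card {G : Type*} [AddCommGroup G] [Finite G] {S M : AddSubgroup G} (h : S < M) :
    ∃ k, 2 ≤ k ∧ Nat.card M = k * Nat.card S := by
  obtain ⟨k, hk⟩ := AddSubgroup.card_dvd_of_le h.le
  refine ⟨k, ?_, by rw [hk]; ring⟩
  have h1 := card_lt h
  by_contra hc
  have : k = 0 ∨ k = 1 := by omega
  rcases this with rfl | rfl
  · rw [hk] at h1; simp at h1
  · rw [hk] at h1; simp at h1

end FreezeM

open FreezeM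

theorem freeze {G : Type*} [AddCommGroup G] [Finite G] [DecidableEq G] {U h : ℕ}
    {M : AddSubgroup G} (hMh : Nat.card M ≤ h) (hbig : Big U h M) {B : Finset G} {z : G}
    (hB : ∀ b ∈ B, b - z ∈ M) (hinv : Inv U h M B) {u v : G} (hcard : 32 * U + 2 ≤ #B) :
    ∃ (S : AddSubgroup G) (z' : G) (R Y : Finset G), S ≤ M ∧ Big U h S ∧ z' - z ∈ M ∧
      R ⊆ (B.erase u).erase v ∧ Y ⊆ (B.erase u).erase v ∧ Disjoint R Y ∧ #Y = #R ∧
      #R * Nat.card S + 8 * Nat.card S ≤ 8 * Nat.card M ∧
      (∀ b ∈ (B.erase u).erase v, b ∉ R → b - z' ∈ S) ∧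
      Inv U h S ((((B.erase u).erase v) \ R) \ Y) ∧
      ∀ g ∈ M, ∃ T ⊆ R ∪ Y, #T = #R ∧ ∑ a ∈ T, a - #R • z' - g ∈ S := by
  set B' := (B.erase u).erase v with hB'
  have hsub : B' ⊆ B := (erase_subset _ _).trans (erase_subset _ _)
  have hcB : #B ≤ #B' + 2 := by
    have h1 := pred_card_le_card_erase (s := B) (a := u)
    have h2 := pred_card_le_card_erase (s := B.erase u) (a := v)
    rw [← hB'] at h2
    omega
  by_cases hI : Inv U h M B'
  · refine ⟨M, z, ∅, ∅, le_rfl, hbig, ?_, empty_subset _, empty_subset _, disjoint_empty_left _,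
      rfl, ?_, fun b hb _ => hB b (hsub hb), ?_, ?_⟩
    · rw [sub_self]; exact M.zero_mem
    · rw [card_empty]; omega
    · rw [sdiff_empty, sdiff_empty]; exact hI
    · intro g hg
      refine ⟨∅, empty_subset _, rfl, ?_⟩
      rw [sum_empty, card_empty, zero_smul, sub_zero, zero_sub]
      exact M.neg_mem hg
  · -- the violating subgroups
    have hex : ∃ k, ∃ S : AddSubgroup G, Nat.card S = k ∧ S < M ∧ Big U h S ∧
        ∃ z' : G, #(offC B' z' S) * Nat.card S + 8 * Nat.card S < 8 * Nat.card M := by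
      unfold Inv at hI
      push Not at hI
      obtain ⟨S, hS, hb, z', hz'⟩ := hI
      exact ⟨_, S, rfl, hS, hb, z', hz'⟩
    obtain ⟨k₀, ⟨S, hSk, hSM, hSb, z', hviol⟩, hk₀⟩ : ∃ k₀, (∃ S : AddSubgroup G,
        Nat.card S = k₀ ∧ S < M ∧ Big U h S ∧
        ∃ z' : G, #(offC B' z' S) * Nat.card S + 8 * Nat.card S < 8 * Nat.card M) ∧
        ∀ j < k₀, ¬ ∃ S : AddSubgroup G, Nat.card S = j ∧ S < M ∧ Big U h S ∧
        ∃ z' : G, #(offC B' z' S) * Nat.card S + 8 * Nat.card S < 8 * Nat.card M := by
      classical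
      exact ⟨Nat.find hex, Nat.find_spec hex, fun j hj => Nat.find_min hex hj⟩
    have hmin : ∀ S'' : AddSubgroup G, S'' < S → Big U h S'' → ∀ z'' : G,
        8 * Nat.card M ≤ #(offC B' z'' S'') * Nat.card S'' + 8 * Nat.card S'' := by
      intro S'' h1 h2 z''
      by_contra hc
      have h3 : Nat.card S'' < k₀ := by rw [← hSk]; exact card_lt h1
      exact hk₀ _ h3 ⟨S'', rfl, h1.trans hSM, h2, z'', not_le.1 hc⟩
    have hS0 : 0 < Nat.card S := Nat.card_pos
    have hMU : Nat.card M ≤ Nat.card S * U := hMh.trans hSb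
    have hzM : z' - z ∈ M := by
      by_contra hz
      have h1 : offC B' z' S = B' := by
        ext b
        rw [mem_offC]
        refine ⟨fun hb => hb.1, fun hb => ⟨hb, fun hbS => hz ?_⟩⟩
        have h2 : z' - z = (b - z) - (b - z') := by abel
        rw [h2]
        exact M.sub_mem (hB b (hsub hb)) (hSM.le hbS)
      rw [h1] at hviol
      nlinarith
    set R := offC B' z' S with hR
    have hRc : #R < 8 * U := by
      by_contra hc
      push Not at hc
      nlinarith
    have hRB : R ⊆ B' := fun b hb => (mem_offC.1 hb).1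
    obtain ⟨Y, hYs, hYc⟩ : ∃ Y ⊆ B' \ R, #Y = #R := by
      apply exists_subset_card_eq
      rw [card_sdiff_of_subset hRB]
      omega
    have hYB : Y ⊆ B' := hYs.trans sdiff_subset
    have hdis : Disjoint R Y := by
      rw [disjoint_left]
      intro b hb hbY
      exact (mem_sdiff.1 (hYs hbY)).2 hb
    have hin : ∀ b ∈ B', b ∉ R → b - z' ∈ S := by
      intro b hb hbR
      by_contra hc
      exact hbR (mem_offC.2 ⟨hb, hc⟩)
    have hYS : ∀ b ∈ Y, b - z' ∈ S := fun b hb =>
      hin b (hYB hb) (mem_sdiff.1 (hYs hb)).2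
    -- a bijection from R to Y
    obtain ⟨y, hyY, hyinj⟩ : ∃ y : G → G, (∀ r ∈ R, y r ∈ Y) ∧ Set.InjOn y R := by
      have e := Finset.equivOfCardEq hYc.symm
      refine ⟨fun r => if hr : r ∈ R then (e ⟨r, hr⟩ : G) else 0, ?_, ?_⟩
      · intro r hr
        beta_reduce
        rw [dif_pos hr]
        exact (e ⟨r, hr⟩).2
      · intro r hr s hs hrs
        have hr' : r ∈ R := hr
        have hs' : s ∈ R := hs
        simp only [dif_pos hr', dif_pos hs'] at hrs
        have h1 := e.injective (Subtype.ext hrs)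
        exact congrArg Subtype.val h1
    have hk := kmini (S := S) (M := M) hSM.le (R := R) (z := z') (y := y)
      (fun r hr => hYS _ (hyY r hr)) (by
        intro r hr
        have h2 : r - z' = (r - z) - (z' - z) := by abel
        rw [h2]
        exact M.sub_mem (hB r (hsub (hRB hr))) hzM) (by
        intro S' hS' hS'M
        have hb' : Big U h S' := by
          have h1 : Nat.card S ≤ Nat.card S' := AddSubgroup.card_le_of_le hS'
          exact hSb.trans (Nat.mul_le_mul_right _ h1)
        have h1 := hinv S' hS'M hb' z'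
        have h2 : #(offC B z' S') ≤ #(offC R z' S') + 2 := by
          have h3 : offC B z' S' ⊆ offC R z' S' ∪ {u, v} := by
            intro b hb
            obtain ⟨hbB, hbS⟩ := mem_offC.1 hb
            rw [mem_union, mem_insert, mem_singleton]
            by_cases hbu : b = u
            · exact Or.inr (Or.inl hbu)
            by_cases hbv : b = v
            · exact Or.inr (Or.inr hbv)
            left
            have hb' : b ∈ B' := mem_erase.2 ⟨hbv, mem_erase.2 ⟨hbu, hbB⟩⟩
            exact mem_offC.2 ⟨mem_offC.2 ⟨hb', fun hc => hbS (hS' hc)⟩, hbS⟩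
          calc #(offC B z' S') ≤ #(offC R z' S' ∪ {u, v}) := card_le_card h3
            _ ≤ #(offC R z' S') + #({u, v} : Finset G) := card_union_le _ _
            _ ≤ #(offC R z' S') + 2 := Nat.add_le_add_left card_le_two _
        obtain ⟨k, hk2, hkc⟩ := two_mul_card hS'M
        have h4 : 0 < Nat.card S' := Nat.card_pos
        by_contra hc
        push Not at hc
        have h5 : #(offC B z' S') * Nat.card S' ≤ (#(offC R z' S') + 2) * Nat.card S' :=
          Nat.mul_le_mul_right _ h2
        have h6 : 2 * Nat.card S' ≤ Nat.card M := by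
          rw [hkc]; exact Nat.mul_le_mul_right _ hk2
        nlinarith)
    refine ⟨S, z', R, Y, hSM.le, hSb, hzM, hRB, hYB, hdis, hYc, hviol.le, hin, ?_, ?_⟩
    · intro S'' h1 h2 z''
      have h3 := hmin S'' h1 h2 z''
      have h4 : #(offC B' z'' S'') ≤ #(offC ((B' \ R) \ Y) z'' S'') + 2 * #R := by
        have h5 : offC B' z'' S'' ⊆ offC ((B' \ R) \ Y) z'' S'' ∪ (R ∪ Y) := by
          intro b hb
          obtain ⟨hbB, hbS⟩ := mem_offC.1 hb
          rw [mem_union, mem_union]
          by_cases hbR : b ∈ R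
          · exact Or.inr (Or.inl hbR)
          by_cases hbY : b ∈ Y
          · exact Or.inr (Or.inr hbY)
          exact Or.inl (mem_offC.2 ⟨mem_sdiff.2 ⟨mem_sdiff.2 ⟨hbB, hbR⟩, hbY⟩, hbS⟩)
        calc #(offC B' z'' S'') ≤ #(offC ((B' \ R) \ Y) z'' S'' ∪ (R ∪ Y)) := card_le_card h5
          _ ≤ #(offC ((B' \ R) \ Y) z'' S'') + #(R ∪ Y) := card_union_le _ _
          _ ≤ #(offC ((B' \ R) \ Y) z'' S'') + (#R + #Y) :=
            Nat.add_le_add_left (card_union_le _ _) _
          _ = #(offC ((B' \ R) \ Y) z'' S'') + 2 * #R := by rw [hYc]; ring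
      obtain ⟨a, ha, hac⟩ := two_mul_card hSM
      obtain ⟨b, hb, hbc⟩ := two_mul_card h1
      have hS''0 : 0 < Nat.card S'' := Nat.card_pos
      set w := #(offC ((B' \ R) \ Y) z'' S'') with hw
      have h6 : 8 * (a * b) ≤ (w + 2 * #R) + 8 := by
        have h7 : 8 * Nat.card M ≤ (w + 2 * #R) * Nat.card S'' + 8 * Nat.card S'' :=
          h3.trans (Nat.add_le_add_right (Nat.mul_le_mul_right _ h4) _)
        rw [hac, hbc] at h7
        have h8 : (8 * (a * b)) * Nat.card S'' ≤ ((w + 2 * #R) + 8) * Nat.card S'' := by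
          calc (8 * (a * b)) * Nat.card S'' = 8 * (a * (b * Nat.card S'')) := by ring
            _ ≤ _ := h7
            _ = _ := by ring
        exact Nat.le_of_mul_le_mul_right h8 hS''0
      have h9 : #R + 8 < 8 * a := by
        rw [hac] at hviol
        have h10 : (#R + 8) * Nat.card S < (8 * a) * Nat.card S := by
          calc (#R + 8) * Nat.card S = #R * Nat.card S + 8 * Nat.card S := by ring
            _ < _ := hviol
            _ = _ := by ring
        exact Nat.lt_of_mul_lt_mul_right h10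
      have h11 : 8 * b ≤ w + 8 := by
        obtain ⟨a', rfl⟩ := Nat.exists_eq_add_of_le ha
        obtain ⟨b', rfl⟩ := Nat.exists_eq_add_of_le hb
        nlinarith
      rw [hbc]
      calc 8 * (b * Nat.card S'') = (8 * b) * Nat.card S'' := by ring
        _ ≤ (w + 8) * Nat.card S'' := Nat.mul_le_mul_right _ h11
        _ = _ := by ring
    · intro g hg
      obtain ⟨X, hXR, hX⟩ := hk g hg
      have hdisT : Disjoint X ((R \ X).image y) := by
        rw [disjoint_left]
        intro a ha hb
        obtain ⟨r, hr, hra⟩ := mem_image.1 hb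
        have h1 : a ∈ Y := by rw [← hra]; exact hyY r (mem_sdiff.1 hr).1
        exact disjoint_left.1 hdis (hXR ha) h1
      have hinj : Set.InjOn y ((R \ X : Finset G) : Set G) := by
        intro a ha b hb hab
        exact hyinj (mem_sdiff.1 (mem_coe.1 ha)).1 (mem_sdiff.1 (mem_coe.1 hb)).1 hab
      refine ⟨X ∪ (R \ X).image y, ?_, ?_, ?_⟩
      · intro a ha
        rw [mem_union] at ha ⊢
        rcases ha with ha | ha
        · exact Or.inl (hXR ha)
        · obtain ⟨r, hr, hra⟩ := mem_image.1 ha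
          right
          rw [← hra]; exact hyY r (mem_sdiff.1 hr).1
      · rw [card_union_of_disjoint hdisT, card_image_of_injOn hinj, card_sdiff_of_subset hXR]
        have := card_le_card hXR
        omega
      · rw [sum_union hdisT, sum_image hinj]
        have h1 : ∑ r ∈ R \ X, y r = ∑ r ∈ R, y r - ∑ r ∈ X, y r := by
          rw [eq_sub_iff_add_eq, sum_sdiff hXR]
        have h2 : ∑ a ∈ X, a + ∑ r ∈ R \ X, y r - #R • z' - g =
            ∑ r ∈ R, (y r - z') + (∑ r ∈ X, (r - y r) - g) := by
          rw [h1, sum_sub_distrib, sum_sub_distrib, sum_const]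
          abel
        rw [h2]
        exact S.add_mem (S.sum_mem fun r hr => hYS _ (hyY r hr)) hX

end Pool.Agent.Lib.MPa7239a.RN
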