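import Pool.Agent.Lib.MP_a7239a_co.RN.Defs
import Pool.Agent.Lib.MP_a7239a_co.Kneser

/-! # RN, module KMINI: subset sums cover `M / S` (Kneser) -/

set_option autoImplicit false

open Finset
open scoped Pointwise

namespace Pool.Agent.Lib.MPa7239a.RN

open Pool.Agent.Lib.MPa7239a.GC (Hit)
open Pool.Agent.Lib.MPa7239a.R3X (box lf Avg InLat Free)

namespace KMINIh

theorem card_hs {G : Type*} [AddCommGroup G] [Fintype G] [DecidableEq G] (H : AddSubgroup G) : #(hs H) = Nat.card H := by
  classical
  have h1 : Nat.card H = Nat.card (hs H : Finset G) := by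
    apply Nat.card_congr
    exact Equiv.subtypeEquivRight fun g => by simp
  rw [h1, Nat.card_eq_fintype_card, Fintype.card_coe]

/-- elements of a sum of two point sets -/
theorem mem_sum_pair {G : Type*} [AddCommGroup G] [DecidableEq G] {d : G → G} : ∀ (R : Finset G) (x : G),
    x ∈ (∑ r ∈ R, ({0, d r} : Finset G)) → ∃ X ⊆ R, x = ∑ r ∈ X, d r := by
  intro R
  induction R using Finset.induction_on with
  | empty =>
    intro x hx
    rw [sum_empty, mem_zero] at hx
    exact ⟨∅, Subset.rfl, by rw [hx, sum_empty]⟩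
  | insert a R ha ih =>
    intro x hx
    rw [sum_insert ha, mem_add] at hx
    obtain ⟨b, hb, c, hc, rfl⟩ := hx
    obtain ⟨X, hX, rfl⟩ := ih c hc
    rw [mem_insert, mem_singleton] at hb
    rcases hb with rfl | rfl
    · exact ⟨X, hX.trans (subset_insert _ _), by rw [zero_add]⟩
    · have haX : a ∉ X := fun h => ha (hX h)
      exact ⟨insert a X, insert_subset_insert _ hX, by rw [sum_insert haX]⟩

theorem zero_mem_sum_pair {G : Type*} [AddCommGroup G] [DecidableEq G] {d : G → G} (R : Finset G) :
    (0 : G) ∈ (∑ r ∈ R, ({0, d r} : Finset G)) := by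
  induction R using Finset.induction_on with
  | empty => simp
  | insert a R ha ih =>
    rw [sum_insert ha, mem_add]
    exact ⟨0, by simp, 0, ih, add_zero 0⟩

theorem card_cl_pair {G : Type*} [AddCommGroup G] [Fintype G] [DecidableEq G] (K : AddSubgroup G) (d : G) (hd : d ∉ K) :
    #(cl K ({0, d} : Finset G)) = 2 * Nat.card K := by
  have h1 : cl K ({0, d} : Finset G) = hs K ∪ (hs K).image (fun x => d + x) := by
    ext x
    rw [mem_cl, mem_union, mem_hs, mem_image]
    constructor
    · rintro ⟨a, ha, hx⟩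
      rw [mem_insert, mem_singleton] at ha
      rcases ha with rfl | rfl
      · left; simpa using hx
      · right; exact ⟨x - a, by simpa using hx, by abel⟩
    · rintro (hx | ⟨b, hb, rfl⟩)
      · exact ⟨0, by simp, by simpa using hx⟩
      · exact ⟨d, by simp, by simpa using hb⟩
  have h2 : Disjoint (hs K) ((hs K).image (fun x => d + x)) := by
    rw [disjoint_left]
    intro x hx hx2
    rw [mem_hs] at hx
    obtain ⟨b, hb, rfl⟩ := mem_image.1 hx2
    rw [mem_hs] at hb
    apply hd
    have := K.sub_mem hx hb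
    simpa using this
  rw [h1, card_union_of_disjoint h2, card_image_of_injective _ (add_right_injective d), card_hs]
  ring

theorem card_cl_ge {G : Type*} [AddCommGroup G] [Fintype G] [DecidableEq G] (K : AddSubgroup G) (A : Finset G) (hA : A.Nonempty) :
    Nat.card K ≤ #(cl K A) := by
  obtain ⟨a, ha⟩ := hA
  rw [← card_hs K, ← card_image_of_injective (hs K) (add_right_injective a)]
  apply card_le_card
  intro x hx
  obtain ⟨b, hb, rfl⟩ := mem_image.1 hx
  rw [mem_hs] at hb
  rw [mem_cl]
  exact ⟨a, ha, by simpa using hb⟩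

end KMINIh

theorem kmini {G : Type*} [AddCommGroup G] [Finite G] [DecidableEq G] {S M : AddSubgroup G}
    (hSM : S ≤ M) {R : Finset G} {z : G} {y : G → G} (hy : ∀ r ∈ R, y r - z ∈ S)
    (hR : ∀ r ∈ R, r - z ∈ M) (h : ∀ S' : AddSubgroup G, S ≤ S' → S' < M →
      Nat.card M ≤ #(offC R z S') * Nat.card S' + Nat.card S') :
    ∀ g ∈ M, ∃ X ⊆ R, ∑ r ∈ X, (r - y r) - g ∈ S := by
  classical
  have _ : Fintype G := Fintype.ofFinite G
  set d : G → G := fun r => r - y r with hd
  set L : List (Finset G) := R.toList.map (fun r => ({0, d r} : Finset G)) with hL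
  have hLsum : L.sum = ∑ r ∈ R, ({0, d r} : Finset G) := by
    rw [hL]
    exact Finset.sum_map_toList R _
  have hS0 : (hs S).Nonempty := ⟨0, by simp [S.zero_mem]⟩
  have hLne : ∀ Y ∈ L, Y.Nonempty := by
    intro Y hY
    rw [hL, List.mem_map] at hY
    obtain ⟨r, -, rfl⟩ := hY
    exact ⟨0, by simp⟩
  set T : Finset G := hs S + L.sum with hT
  -- membership
  have hmem : ∀ x ∈ T, ∃ X ⊆ R, ∑ r ∈ X, d r - x ∈ S := by
    intro x hx
    rw [hT, mem_add] at hx
    obtain ⟨s, hs', w, hw, rfl⟩ := hx
    rw [hLsum] at hw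
    obtain ⟨X, hX, rfl⟩ := KMINIh.mem_sum_pair R w hw
    refine ⟨X, hX, ?_⟩
    have : ∑ r ∈ X, d r - (s + ∑ r ∈ X, d r) = -s := by abel
    rw [this]
    exact S.neg_mem (by simpa using hs')
  have h0T : (0 : G) ∈ T := by
    rw [hT, mem_add]
    refine ⟨0, by simp [S.zero_mem], 0, ?_, add_zero 0⟩
    rw [hLsum]
    exact KMINIh.zero_mem_sum_pair R
  have hdM : ∀ r ∈ R, d r ∈ M := by
    intro r hr
    have : d r = (r - z) - (y r - z) := by
      show r - y r = _
      abel
    rw [this]
    exact M.sub_mem (hR r hr) (hSM (hy r hr))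
  have hTM : ∀ x ∈ T, x ∈ M := by
    intro x hx
    obtain ⟨X, hX, hs'⟩ := hmem x hx
    have h1 : ∑ r ∈ X, d r ∈ M := M.sum_mem fun r hr => hdM r (hX hr)
    have h2 : x = ∑ r ∈ X, d r - (∑ r ∈ X, d r - x) := by abel
    rw [h2]
    exact M.sub_mem h1 (hSM hs')
  -- periodicity
  set K := st T with hK
  have hSK : S ≤ K := by
    apply le_st_of_per
    intro x hx s hs'
    rw [hT, mem_add] at hx ⊢
    obtain ⟨a, ha, w, hw, rfl⟩ := hx
    refine ⟨a + s, ?_, w, hw, by abel⟩
    rw [mem_hs] at ha ⊢
    exact S.add_mem ha hs'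
  have hKM : K ≤ M := by
    intro k hk
    have := (hk 0).2 h0T
    rw [zero_add] at this
    exact hTM k this
  have hTcard : #T ≤ Nat.card M := by
    rw [← KMINIh.card_hs M]
    apply card_le_card
    intro x hx
    rw [mem_hs]
    exact hTM x hx
  -- Kneser
  have hkn := kneser_list L (hs S) hS0 hLne
  rw [← hT, ← hK] at hkn
  have hlen : L.length = #R := by rw [hL, List.length_map, Finset.length_toList]
  have hsum : (L.map (fun Y => (cl K Y).card)).sum = ∑ r ∈ R, #(cl K ({0, d r} : Finset G)) := by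
    rw [hL, List.map_map]
    exact Finset.sum_map_toList R _
  have hoff : ∀ r ∈ R, (r - z ∉ K ↔ d r ∉ K) := by
    intro r hr
    have h1 : d r = (r - z) - (y r - z) := by
      show r - y r = _
      abel
    have h2 : y r - z ∈ K := hSK (hy r hr)
    rw [h1]
    constructor
    · intro h3 h4
      apply h3
      have := K.add_mem h4 h2
      simpa using this
    · intro h3 h4
      exact h3 (K.sub_mem h4 h2)
  have hlow : #R * Nat.card K + #(offC R z K) * Nat.card K ≤
      ∑ r ∈ R, #(cl K ({0, d r} : Finset G)) := by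
    have h1 : ∑ r ∈ R, (Nat.card K + if r - z ∉ K then Nat.card K else 0) ≤
        ∑ r ∈ R, #(cl K ({0, d r} : Finset G)) := by
      refine sum_le_sum fun r hr => ?_
      by_cases hrz : r - z ∉ K
      · rw [if_pos hrz, KMINIh.card_cl_pair K (d r) ((hoff r hr).1 hrz)]
        omega
      · rw [if_neg hrz, add_zero]
        exact KMINIh.card_cl_ge K _ ⟨0, by simp⟩
    have h2 : ∑ r ∈ R, (Nat.card K + if r - z ∉ K then Nat.card K else 0) =
        #R * Nat.card K + #(offC R z K) * Nat.card K := by
      rw [sum_add_distrib, sum_const, smul_eq_mul, ← sum_filter, sum_const, smul_eq_mul]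
      congr 2
    rw [← h2]
    exact h1
  have hKcl : Nat.card K ≤ #(cl K (hs S)) := KMINIh.card_cl_ge K _ hS0
  rw [hlen, hsum, KMINIh.card_hs K] at hkn
  have hmain : Nat.card K + #(offC R z K) * Nat.card K ≤ #T := by omega
  have hTM' : ∀ g ∈ M, g ∈ T := by
    rcases lt_or_eq_of_le hKM with hlt | heq
    · have h1 := h K hSK hlt
      have h2 : Nat.card M ≤ #T := by omega
      have h3 : T = hs M := by
        apply eq_of_subset_of_card_le
        · intro x hx
          rw [mem_hs]
          exact hTM x hx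
        · rw [KMINIh.card_hs]
          exact h2
      intro g hg
      rw [h3, mem_hs]
      exact hg
    · intro g hg
      rw [← heq] at hg
      have := (hg 0).2 h0T
      rwa [zero_add] at this
  intro g hg
  exact hmem g (hTM' g hg)

end Pool.Agent.Lib.MPa7239a.RN
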