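import Pool.Agent.Lib.MP_a7239a_co.RN.Defs

/-! # RN, module LATN: finiteness lemmas for the integer relations and for rounding -/

set_option autoImplicit false

open Finset
open scoped Pointwise

namespace Pool.Agent.Lib.MPa7239a.RN

open Pool.Agent.Lib.MPa7239a.R3X (box lf Avg InLat Free)

namespace LATNM

/-- the finite set of all position maps -/
noncomputable def pos (N w : ℕ) : Finset (Fin N → ℤ × ℤ) := Fintype.piFinset fun _ => R3X.box w

theorem mem_pos {N w : ℕ} {p : Fin N → ℤ × ℤ} : p ∈ pos N w ↔ ∀ c, p c ∈ R3X.box w := by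
  simp [pos]

/-- a finitely generated subgroup is generated by its elements in a box -/
theorem fg_box {N : ℕ} (V : AddSubgroup (Fin N → ℤ)) : ∃ w₀ : ℕ, ∀ w₁, w₀ ≤ w₁ →
    V ≤ AddSubgroup.closure {z | z ∈ V ∧ ∀ c, |z c| ≤ (w₁ : ℤ)} := by
  have hV : V.FG := by
    have h1 : (AddSubgroup.toIntSubmodule V).FG := IsNoetherian.noetherian _
    obtain ⟨S, hS⟩ := h1
    refine ⟨S, ?_⟩
    have h2 := congrArg Submodule.toAddSubgroup hS
    rw [Submodule.span_int_eq_addSubgroupClosure] at h2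
    simpa using h2
  obtain ⟨S, hS⟩ := hV
  refine ⟨∑ z ∈ S, ∑ c, (z c).natAbs, fun w₁ hw => ?_⟩
  rw [← hS, AddSubgroup.closure_le]
  intro z hz
  refine AddSubgroup.subset_closure ⟨AddSubgroup.subset_closure hz, fun c => ?_⟩
  have h1 : (z c).natAbs ≤ ∑ c, (z c).natAbs :=
    Finset.single_le_sum (f := fun c => (z c).natAbs) (fun _ _ => Nat.zero_le _) (mem_univ c)
  have h2 : ∑ c, (z c).natAbs ≤ ∑ z ∈ S, ∑ c, (z c).natAbs :=
    Finset.single_le_sum (f := fun z : Fin N → ℤ => ∑ c, (z c).natAbs)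
      (fun _ _ => Nat.zero_le _) hz
  have h3 : (z c).natAbs ≤ w₁ := (h1.trans h2).trans hw
  rw [Int.abs_eq_natAbs]
  exact_mod_cast h3

/-- the error vector of a family of coefficients -/
def ev {N : ℕ} (p : Fin N → ℤ × ℤ) (z : Fin N → ℤ) : ℤ × ℤ × ℤ :=
  (∑ c, z c, ∑ c, z c * (p c).1, ∑ c, z c * (p c).2)

/-- one representative for every attained error vector -/
theorem rep {N : ℕ} (p : Fin N → ℤ × ℤ) (W : Finset (Fin N)) (e : ℤ × ℤ × ℤ) :
    ∃ z : Fin N → ℤ, (∃ z' : Fin N → ℤ, (∀ c, c ∉ W → z' c = 0) ∧ ev p z' = e) →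
      (∀ c, c ∉ W → z c = 0) ∧ ev p z = e := by
  by_cases h : ∃ z' : Fin N → ℤ, (∀ c, c ∉ W → z' c = 0) ∧ ev p z' = e
  · obtain ⟨z, hz⟩ := h
    exact ⟨z, fun _ => hz⟩
  · exact ⟨0, fun h' => absurd h' h⟩

/-- the box of error vectors -/
noncomputable def ebox (K : ℕ) : Finset (ℤ × ℤ × ℤ) :=
  Icc (-(K : ℤ)) K ×ˢ (Icc (-(K : ℤ)) K ×ˢ Icc (-(K : ℤ)) K)

theorem abs_sum_le {N K : ℕ} (u : Fin N → ℝ) (q : Fin N → ℤ) (hu : ∀ c, |u c| ≤ 1)
    (hq : ∀ c, |q c| ≤ (K : ℤ)) : |∑ c, u c * (q c : ℝ)| ≤ N * K := by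
  calc |∑ c, u c * (q c : ℝ)| ≤ ∑ c, |u c * (q c : ℝ)| := abs_sum_le_sum_abs _ _
    _ ≤ ∑ _c : Fin N, (K : ℝ) := by
        refine sum_le_sum fun c _ => ?_
        rw [abs_mul]
        have h1 : |(q c : ℝ)| ≤ K := by
          have := hq c
          exact_mod_cast this
        calc |u c| * |(q c : ℝ)| ≤ 1 * K :=
              mul_le_mul (hu c) h1 (abs_nonneg _) zero_le_one
          _ = K := one_mul _
    _ = N * K := by rw [sum_const, card_univ, Fintype.card_fin, nsmul_eq_mul]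

end LATNM

open LATNM

theorem latx (N w : ℕ) : ∃ w₀ : ℕ, ∀ (W : Finset (Fin N)) (p : Fin N → ℤ × ℤ),
    (∀ c, p c ∈ box w) →
    VW p W ≤ AddSubgroup.closure {z | z ∈ VW p W ∧ ∀ c, |z c| ≤ (w₀ : ℤ)} := by
  choose f hf using fun (W : Finset (Fin N)) (p : Fin N → ℤ × ℤ) => fg_box (VW p W)
  refine ⟨∑ W : Finset (Fin N), ∑ p ∈ pos N w, f W p, fun W p hp => ?_⟩
  refine hf W p _ ?_
  have h1 : f W p ≤ ∑ p ∈ pos N w, f W p :=
    Finset.single_le_sum (f := fun p => f W p) (fun _ _ => Nat.zero_le _) (mem_pos.2 hp)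
  have h2 : ∑ p ∈ pos N w, f W p ≤ ∑ W : Finset (Fin N), ∑ p ∈ pos N w, f W p :=
    Finset.single_le_sum (f := fun W => ∑ p ∈ pos N w, f W p) (fun _ _ => Nat.zero_le _)
      (mem_univ W)
  exact h1.trans h2

theorem roundx (N w : ℕ) : ∃ c₀ : ℕ, ∀ (W : Finset (Fin N)) (p : Fin N → ℤ × ℤ),
    (∀ c, p c ∈ box w) → ∀ (a : Fin N → ℤ) (γ : ℤ × ℤ), (∀ c, c ∉ W → a c = 0) →
    ∑ c, a c = 1 → ∑ c, a c * (p c).1 = γ.1 → ∑ c, a c * (p c).2 = γ.2 →
    ∀ (n : ℕ) (y : Fin N → ℝ), (∀ c, c ∉ W → y c = 0) → ∑ c, y c = n →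
    ∑ c, y c * ((p c).1 : ℝ) = n * (γ.1 : ℝ) → ∑ c, y c * ((p c).2 : ℝ) = n * (γ.2 : ℝ) →
    ∃ b : Fin N → ℤ, b - (n : ℤ) • a ∈ VW p W ∧ ∀ c, |(b c : ℝ) - y c| ≤ c₀ := by
  choose R hR using fun (W : Finset (Fin N)) (p : Fin N → ℤ × ℤ) (e : ℤ × ℤ × ℤ) => rep p W e
  refine ⟨∑ W : Finset (Fin N), ∑ p ∈ pos N w, ∑ e ∈ ebox (N * (w + 1)),
    ∑ c, (R W p e c).natAbs + 1, fun W p hp a γ ha h1 h2 h3 n y hy g1 g2 g3 => ?_⟩
  set e : ℤ × ℤ × ℤ := ev p (fun c => (n : ℤ) * a c - ⌊y c⌋) with he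
  have hW : ∀ c, c ∉ W → (n : ℤ) * a c - ⌊y c⌋ = 0 := by
    intro c hc
    rw [ha c hc, hy c hc]; simp
  obtain ⟨z1, z2⟩ := hR W p e ⟨fun c => (n : ℤ) * a c - ⌊y c⌋, hW, rfl⟩
  -- the coordinates of `e`
  have hu : ∀ c, |y c - ⌊y c⌋| ≤ 1 := by
    intro c
    rw [abs_of_nonneg (sub_nonneg.2 (Int.floor_le _))]
    have := Int.lt_floor_add_one (y c)
    linarith
  have hb : ∀ (q : Fin N → ℤ) (t : ℤ), (∀ c, |q c| ≤ ((w + 1 : ℕ) : ℤ)) →
      ∑ c, a c * q c = t → ∑ c, y c * (q c : ℝ) = n * (t : ℝ) →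
      ∑ c, ((n : ℤ) * a c - ⌊y c⌋) * q c ∈ Icc (-((N * (w + 1) : ℕ) : ℤ)) ((N * (w + 1) : ℕ) : ℤ) := by
    intro q t hq ht hy'
    have h4 : ((∑ c, ((n : ℤ) * a c - ⌊y c⌋) * q c : ℤ) : ℝ) =
        ∑ c, (y c - ⌊y c⌋) * (q c : ℝ) := by
      have h5 : ((∑ c, a c * q c : ℤ) : ℝ) = (t : ℝ) := by rw [ht]
      push_cast at h5 ⊢
      simp only [sub_mul, sum_sub_distrib, mul_assoc]
      rw [← mul_sum, h5, hy']
    have h6 := abs_sum_le (K := w + 1) (fun c => y c - ⌊y c⌋) q hu hq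
    rw [← h4] at h6
    have h7 : |∑ c, ((n : ℤ) * a c - ⌊y c⌋) * q c| ≤ ((N * (w + 1) : ℕ) : ℤ) := by
      have h8 : ((|∑ c, ((n : ℤ) * a c - ⌊y c⌋) * q c| : ℤ) : ℝ) ≤
          (((N * (w + 1) : ℕ) : ℤ) : ℝ) := by
        rw [Int.cast_abs]
        refine h6.trans (le_of_eq ?_)
        push_cast; ring
      exact_mod_cast h8
    rw [mem_Icc]
    exact abs_le.1 h7
  have hp1 : ∀ c, |(p c).1| ≤ ((w + 1 : ℕ) : ℤ) := by
    intro c
    have := hp c
    rw [R3X.box, mem_product, mem_Icc, mem_Icc] at this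
    rw [abs_le]; push_cast
    constructor <;> linarith [this.1.1, this.1.2]
  have hp2 : ∀ c, |(p c).2| ≤ ((w + 1 : ℕ) : ℤ) := by
    intro c
    have := hp c
    rw [R3X.box, mem_product, mem_Icc, mem_Icc] at this
    rw [abs_le]; push_cast
    constructor <;> linarith [this.2.1, this.2.2]
  have he0 : e ∈ ebox (N * (w + 1)) := by
    rw [he, ev, ebox, mem_product, mem_product]
    refine ⟨?_, hb _ _ hp1 h2 g2, hb _ _ hp2 h3 g3⟩
    have := hb (fun _ => 1) 1 (fun c => by push_cast; rw [abs_one]; linarith)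
      (by simpa using h1) (by simpa using g1)
    simpa using this
  refine ⟨fun c => ⌊y c⌋ + R W p e c, ?_, fun c => ?_⟩
  · rw [mem_VW]
    have z2' : ev p (R W p e) = ev p (fun c => (n : ℤ) * a c - ⌊y c⌋) := z2.trans he
    generalize R W p e = z at z1 z2'
    have z3 := congrArg Prod.fst z2'
    have z4 := congrArg (fun t => t.2.1) z2'
    have z5 := congrArg (fun t => t.2.2) z2'
    simp only [ev] at z3 z4 z5
    refine ⟨fun c hc => ?_, ?_, ?_, ?_⟩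
    · simp only [Pi.sub_apply, Pi.smul_apply, smul_eq_mul]
      rw [z1 c hc]
      have := hW c hc
      linarith
    · simp only [Pi.sub_apply, Pi.smul_apply, smul_eq_mul, sum_sub_distrib, sum_add_distrib] at z3 ⊢
      rw [z3]; ring
    · simp only [Pi.sub_apply, Pi.smul_apply, smul_eq_mul, sub_mul, add_mul, sum_sub_distrib,
        sum_add_distrib] at z4 ⊢
      rw [z4]; ring
    · simp only [Pi.sub_apply, Pi.smul_apply, smul_eq_mul, sub_mul, add_mul, sum_sub_distrib,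
        sum_add_distrib] at z5 ⊢
      rw [z5]; ring
  · have k1 : (R W p e c).natAbs ≤ ∑ c, (R W p e c).natAbs :=
      Finset.single_le_sum (f := fun c => (R W p e c).natAbs) (fun _ _ => Nat.zero_le _)
        (mem_univ c)
    have k2 : ∑ c, (R W p e c).natAbs ≤
        ∑ e ∈ ebox (N * (w + 1)), ∑ c, (R W p e c).natAbs :=
      Finset.single_le_sum (f := fun e => ∑ c, (R W p e c).natAbs)
        (fun _ _ => Nat.zero_le _) he0
    have k3 : ∑ e ∈ ebox (N * (w + 1)), ∑ c, (R W p e c).natAbs ≤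
        ∑ p ∈ pos N w, ∑ e ∈ ebox (N * (w + 1)), ∑ c, (R W p e c).natAbs :=
      Finset.single_le_sum (f := fun p => ∑ e ∈ ebox (N * (w + 1)), ∑ c, (R W p e c).natAbs)
        (fun _ _ => Nat.zero_le _) (mem_pos.2 hp)
    have k4 : ∑ p ∈ pos N w, ∑ e ∈ ebox (N * (w + 1)), ∑ c, (R W p e c).natAbs ≤
        ∑ W : Finset (Fin N), ∑ p ∈ pos N w, ∑ e ∈ ebox (N * (w + 1)),
          ∑ c, (R W p e c).natAbs :=
      Finset.single_le_sum
        (f := fun W => ∑ p ∈ pos N w, ∑ e ∈ ebox (N * (w + 1)), ∑ c, (R W p e c).natAbs)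
        (fun _ _ => Nat.zero_le _) (mem_univ W)
    have k5 := k1.trans (k2.trans (k3.trans k4))
    have k6 : |((⌊y c⌋ + R W p e c : ℤ) : ℝ) - y c| ≤ 1 + ((R W p e c).natAbs : ℝ) := by
      have : ((⌊y c⌋ + R W p e c : ℤ) : ℝ) - y c = -(y c - ⌊y c⌋) + (R W p e c : ℝ) := by
        push_cast; ring
      rw [this]
      refine (abs_add_le _ _).trans ?_
      rw [abs_neg]
      have h9 : |(R W p e c : ℝ)| = ((R W p e c).natAbs : ℝ) := by
        rw [Nat.cast_natAbs, Int.cast_abs]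
      rw [h9]
      linarith [hu c]
    refine k6.trans ?_
    have k7 : ((R W p e c).natAbs : ℝ) ≤ ((∑ W : Finset (Fin N), ∑ p ∈ pos N w,
        ∑ e ∈ ebox (N * (w + 1)), ∑ c, (R W p e c).natAbs : ℕ) : ℝ) := by
      exact_mod_cast k5
    push_cast at k7 ⊢
    linarith

end Pool.Agent.Lib.MPa7239a.RN
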