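import Pool.Agent.Lib.MP_a7239a_co.RN.Defs

/-! # RN/RNDN (helper87): rounding by Dirichlet multiples -/

set_option autoImplicit false

universe u

open Finset
open scoped Pointwise

namespace Pool.Agent.Lib.MPa7239a.RN

namespace RNDNAux

/-- simultaneous approximation -/
theorem dirich (N Q n T : ℕ) (hQ : 1 ≤ Q) (hn : 1 ≤ n) (b : Fin N → ℕ) :
    ∃ j : ℕ, 1 ≤ j ∧ j ≤ Q ^ N ∧ ∃ v : Fin N → ℤ, ∀ c,
      (Q : ℤ) * |(j : ℤ) * T * b c - n * v c| ≤ n := by
  classical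
  have hlt : ∀ j : ℕ, ∀ c : Fin N, (j * T * b c % n) * Q / n < Q := by
    intro j c
    rw [Nat.div_lt_iff_lt_mul (by omega)]
    have h1 : j * T * b c % n < n := Nat.mod_lt _ (by omega)
    calc (j * T * b c % n) * Q < n * Q := Nat.mul_lt_mul_of_pos_right h1 (by omega)
      _ = Q * n := Nat.mul_comm _ _
  let f : ℕ → (Fin N → Fin Q) := fun j c => ⟨(j * T * b c % n) * Q / n, hlt j c⟩
  have hcard : #(univ : Finset (Fin N → Fin Q)) < #(range (Q ^ N + 1)) := by
    rw [card_range, card_univ, Fintype.card_fun, Fintype.card_fin, Fintype.card_fin]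
    omega
  obtain ⟨j₁, hj₁, j₂, hj₂, hne, heq⟩ := exists_ne_map_eq_of_card_lt_of_maps_to hcard
    (f := f) (fun _ _ => mem_univ _)
  -- WLOG `j₁ < j₂`
  have key : ∀ j₁ j₂ : ℕ, j₁ < j₂ → j₂ ≤ Q ^ N → f j₁ = f j₂ → ∃ j : ℕ, 1 ≤ j ∧ j ≤ Q ^ N ∧
      ∃ v : Fin N → ℤ, ∀ c, (Q : ℤ) * |(j : ℤ) * T * b c - n * v c| ≤ n := by
    intro j₁ j₂ h12 h2 he
    refine ⟨j₂ - j₁, by omega, by omega,
      fun c => ((j₂ * T * b c / n : ℕ) : ℤ) - ((j₁ * T * b c / n : ℕ) : ℤ), fun c => ?_⟩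
    have e1 : ((j₂ * T * b c % n) * Q / n) = ((j₁ * T * b c % n) * Q / n) := by
      have := congrFun he c
      exact (Fin.mk.inj this).symm
    set r₁ := j₁ * T * b c % n with hr₁
    set r₂ := j₂ * T * b c % n with hr₂
    have d1 := Nat.div_add_mod (j₁ * T * b c) n
    have d2 := Nat.div_add_mod (j₂ * T * b c) n
    rw [← hr₁] at d1
    rw [← hr₂] at d2
    have e2 : ((j₂ - j₁ : ℕ) : ℤ) * T * b c -
        n * (((j₂ * T * b c / n : ℕ) : ℤ) - ((j₁ * T * b c / n : ℕ) : ℤ)) = (r₂ : ℤ) - r₁ := by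
      have d1' : (n : ℤ) * ((j₁ * T * b c / n : ℕ) : ℤ) + r₁ = (j₁ : ℤ) * T * b c := by
        exact_mod_cast d1
      have d2' : (n : ℤ) * ((j₂ * T * b c / n : ℕ) : ℤ) + r₂ = (j₂ : ℤ) * T * b c := by
        exact_mod_cast d2
      have e3 : ((j₂ - j₁ : ℕ) : ℤ) = (j₂ : ℤ) - j₁ := by
        rw [Nat.cast_sub h12.le]
      rw [e3]
      linear_combination d1' - d2'
    rw [e2]
    -- the two remainders are in one box
    set k := r₁ * Q / n with hk
    have a1 : k * n ≤ r₁ * Q := Nat.div_mul_le_self _ _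
    have a2 : r₁ * Q < (k + 1) * n := by
      have := Nat.lt_div_mul_add (a := r₁ * Q) (b := n) (by omega)
      rw [← hk] at this
      calc r₁ * Q < k * n + n := this
        _ = (k + 1) * n := by ring
    have a3 : k * n ≤ r₂ * Q := by
      rw [← e1]
      exact Nat.div_mul_le_self _ _
    have a4 : r₂ * Q < (k + 1) * n := by
      have := Nat.lt_div_mul_add (a := r₂ * Q) (b := n) (by omega)
      rw [e1] at this
      calc r₂ * Q < k * n + n := this
        _ = (k + 1) * n := by ring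
    have b1 : (k : ℤ) * n ≤ r₁ * Q := by exact_mod_cast a1
    have b2 : (r₁ : ℤ) * Q < (k + 1) * n := by exact_mod_cast a2
    have b3 : (k : ℤ) * n ≤ r₂ * Q := by exact_mod_cast a3
    have b4 : (r₂ : ℤ) * Q < (k + 1) * n := by exact_mod_cast a4
    have hQ0 : (0 : ℤ) ≤ Q := by positivity
    have e4 : (Q : ℤ) * |(r₂ : ℤ) - r₁| = |(Q : ℤ) * ((r₂ : ℤ) - r₁)| := by
      rw [abs_mul, abs_of_nonneg hQ0]
    rw [e4, abs_le]
    constructor <;> nlinarith
  rw [mem_range] at hj₁ hj₂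
  rcases lt_or_gt_of_ne hne with h | h
  · exact key j₁ j₂ h (by omega) heq
  · exact key j₂ j₁ h (by omega) heq.symm

theorem step (N : ℕ) (θ η : ℝ) (hθ : 0 < θ) (hη : 0 < η) : ∃ θ₁ : ℝ, 0 < θ₁ ∧ θ₁ ≤ θ ∧
    ∀ (n : ℕ), 1 ≤ n → ∀ (G : Type u) [AddCommGroup G], (∀ g : G, n • g = 0) →
      ∀ (H : AddSubgroup G) (x : Fin N → G) (b : Fin N → ℕ), ∑ c, b c = n →
      ∑ c, b c • x c ∈ H → (∀ c, (b c : ℝ) < θ₁ * n ∨ θ * n ≤ b c) →
      (∃ c, b c ≠ 0 ∧ (b c : ℝ) < θ₁ * n) →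
      ∃ b' : Fin N → ℕ, ∑ c, b' c = n ∧ ∑ c, b' c • x c ∈ H ∧ (∀ c, b c = 0 ↔ b' c = 0) ∧
        (∀ c, (b' c : ℝ) ≤ b c + η * n) ∧ (∀ c, θ * n ≤ b c → θ₁ * n ≤ b' c) ∧
        ∃ c, b c ≠ 0 ∧ (b c : ℝ) < θ₁ * n ∧ θ₁ * n ≤ b' c := by
  classical
  obtain ⟨Q, hQ⟩ := exists_nat_gt (max (1 / η) (max (2 / θ) (4 * N + 4)))
  have hQ1 : 1 / η < Q := (le_max_left _ _).trans_lt hQ
  have hQ2 : 2 / θ < Q := ((le_max_left _ _).trans (le_max_right _ _)).trans_lt hQ
  have hQ3 : (4 * N + 4 : ℝ) < Q := ((le_max_right _ _).trans (le_max_right _ _)).trans_lt hQ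
  have hQpos : (0 : ℝ) < Q := by
    have : (0 : ℝ) ≤ N := Nat.cast_nonneg N
    linarith
  have hQ0 : 1 ≤ Q := by exact_mod_cast hQpos
  set J : ℕ := Q ^ N with hJ
  have hJ1 : 1 ≤ J := Nat.one_le_pow _ _ hQ0
  have hJR : (1 : ℝ) ≤ J := by exact_mod_cast hJ1
  set θ' : ℝ := min η (1 / (4 * N + 4)) with hθ'
  have hN0 : (0 : ℝ) < 4 * N + 4 := by positivity
  have hθ'0 : 0 < θ' := lt_min hη (by positivity)
  have hθ'η : θ' ≤ η := min_le_left _ _
  have hθ'N : θ' ≤ 1 / (4 * N + 4) := min_le_right _ _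
  refine ⟨min (θ / 2) (θ' / (4 * J)), lt_min (by positivity) (by positivity),
    (min_le_left _ _).trans (by linarith), ?_⟩
  intro n hn G _ hG H x b hsum hH hb hsm
  set θ₁ : ℝ := min (θ / 2) (θ' / (4 * J)) with hθ₁
  have hθ₁a : θ₁ ≤ θ / 2 := min_le_left _ _
  have hθ₁b : θ₁ ≤ θ' / (4 * J) := min_le_right _ _
  have hθ₁0 : 0 < θ₁ := lt_min (by positivity) (by positivity)
  have hnR : (0 : ℝ) < n := by exact_mod_cast hn
  have hn1 : (1 : ℝ) ≤ n := by exact_mod_cast hn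
  -- the small coordinates
  set Sm : Finset (Fin N) := univ.filter fun c => b c ≠ 0 ∧ (b c : ℝ) < θ₁ * n with hSm
  have hmem : ∀ c, c ∈ Sm ↔ b c ≠ 0 ∧ (b c : ℝ) < θ₁ * n := fun c => by
    rw [hSm, mem_filter]
    exact and_iff_right (mem_univ c)
  have hSne : Sm.Nonempty := by
    obtain ⟨c, hc⟩ := hsm
    exact ⟨c, (hmem c).2 hc⟩
  obtain ⟨c₀, hc₀, hmax⟩ := Sm.exists_max_image b hSne
  obtain ⟨hc₀0, hc₀s⟩ := (hmem c₀).1 hc₀
  set β : ℕ := b c₀ with hβ
  have hβ1 : 1 ≤ β := Nat.one_le_iff_ne_zero.2 hc₀0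
  have hβR : (1 : ℝ) ≤ β := by exact_mod_cast hβ1
  have hβpos : (0 : ℝ) < β := by linarith
  have hβs : (β : ℝ) * (4 * J) < θ' * n := by
    have h1 : θ₁ * n ≤ θ' / (4 * J) * n := mul_le_mul_of_nonneg_right hθ₁b hnR.le
    have h2 : (β : ℝ) < θ' / (4 * J) * n := hc₀s.trans_le h1
    have h3 : (β : ℝ) * (4 * J) < θ' / (4 * J) * n * (4 * J) :=
      mul_lt_mul_of_pos_right h2 (by positivity)
    have h4 : θ' / (4 * J) * n * (4 * J) = θ' * n := by
      field_simp
    linarith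
  -- the multiple `T`
  set T : ℕ := ⌊θ' * n / (2 * J * β)⌋₊ with hT
  have hTle : (T : ℝ) * (2 * J * β) ≤ θ' * n := by
    have h1 : (T : ℝ) ≤ θ' * n / (2 * J * β) := Nat.floor_le (by positivity)
    rwa [le_div_iff₀ (by positivity)] at h1
  have hTge : θ' * n ≤ (T + 1 : ℝ) * (2 * J * β) := by
    have h1 : θ' * n / (2 * J * β) < T + 1 := Nat.lt_floor_add_one _
    rw [div_lt_iff₀ (by positivity)] at h1
    exact h1.le
  -- `T β ≥ θ' n / (4 J)`
  have hTβ : θ' * n ≤ (T : ℝ) * β * (4 * J) := by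
    nlinarith
  obtain ⟨j, hj1, hjJ, v, hv⟩ := dirich N Q n T hQ0 hn b
  set s : ℕ := j * T with hs
  have hsR : (s : ℝ) = j * T := by rw [hs]; push_cast; ring
  have hjR : (1 : ℝ) ≤ j := by exact_mod_cast hj1
  have hjJR : (j : ℝ) ≤ J := by exact_mod_cast hjJ
  have hT0 : (0 : ℝ) ≤ T := Nat.cast_nonneg T
  have hsβ : (s : ℝ) * β * 2 ≤ θ' * n := by
    calc (s : ℝ) * β * 2 = j * (T * β * 2) := by rw [hsR]; ring
      _ ≤ J * (T * β * 2) := mul_le_mul_of_nonneg_right hjJR (by positivity)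
      _ = T * (2 * J * β) := by ring
      _ ≤ θ' * n := hTle
  have hsT : (T : ℝ) ≤ s := by
    rw [hsR]
    calc (T : ℝ) = 1 * T := (one_mul _).symm
      _ ≤ j * T := mul_le_mul_of_nonneg_right hjR hT0
  -- errors in real numbers
  have hvR : ∀ c, (Q : ℝ) * |(s : ℝ) * b c - n * v c| ≤ n := by
    intro c
    have h1 := hv c
    have h2 : (((Q : ℤ) * |(j : ℤ) * T * b c - n * v c| : ℤ) : ℝ) ≤ ((n : ℤ) : ℝ) := by
      exact_mod_cast h1
    push_cast at h2
    rw [hsR]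
    exact h2
  have hverr : ∀ c, |(s : ℝ) * b c - n * v c| ≤ n / Q := fun c => by
    rw [le_div_iff₀ hQpos, mul_comm]
    exact hvR c
  have hnQη : (n : ℝ) / Q ≤ η * n := by
    rw [div_le_iff₀ hQpos]
    have h1 : 1 ≤ η * Q := by
      rw [div_lt_iff₀ hη] at hQ1
      linarith
    nlinarith
  have hnQθ : (n : ℝ) / Q ≤ θ / 2 * n := by
    rw [div_le_iff₀ hQpos]
    have h1 : 2 ≤ θ * Q := by
      rw [div_lt_iff₀ hθ] at hQ2
      linarith
    nlinarith
  have hnQN : (n : ℝ) / Q ≤ n / (4 * N + 4) := by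
    apply div_le_div_of_nonneg_left hnR.le hN0 hQ3.le
  -- the new coefficients
  set v' : Fin N → ℤ := fun c => if (b c : ℝ) < θ₁ * n then 0 else v c with hv'
  have hv's : ∀ c, (b c : ℝ) < θ₁ * n → v' c = 0 := fun c h => by rw [hv']; exact if_pos h
  have hv'b : ∀ c, ¬ (b c : ℝ) < θ₁ * n → v' c = v c := fun c h => by rw [hv']; exact if_neg h
  -- the error of each coordinate
  have herr : ∀ c, |(s : ℝ) * b c - n * v' c| ≤ n / (4 * N + 4) := by
    intro c
    by_cases h : (b c : ℝ) < θ₁ * n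
    · rw [hv's c h, Int.cast_zero, mul_zero, sub_zero, abs_of_nonneg (by positivity)]
      by_cases h0 : b c = 0
      · rw [h0, Nat.cast_zero, mul_zero]
        positivity
      · have h1 : b c ≤ β := hmax c ((hmem c).2 ⟨h0, h⟩)
        have h2 : (b c : ℝ) ≤ β := by exact_mod_cast h1
        have h3 : (s : ℝ) * b c ≤ s * β := mul_le_mul_of_nonneg_left h2 (Nat.cast_nonneg s)
        have h4 : θ' * n ≤ n / (4 * N + 4) := by
          calc θ' * n ≤ 1 / (4 * N + 4) * n := mul_le_mul_of_nonneg_right hθ'N hnR.le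
            _ = n / (4 * N + 4) := by ring
        have h5 : 0 ≤ (s : ℝ) * β := by positivity
        linarith
    · rw [hv'b c h]
      exact (hverr c).trans hnQN
  -- the sum of the `v'`
  have hsumv : ∑ c, v' c = s := by
    have h1 : |(n : ℝ) * ((s : ℝ) - ∑ c, (v' c : ℝ))| < n := by
      have h2 : (n : ℝ) * ((s : ℝ) - ∑ c, (v' c : ℝ)) = ∑ c, ((s : ℝ) * b c - n * v' c) := by
        rw [sum_sub_distrib, ← mul_sum, ← mul_sum]
        have h3 : ∑ c, (b c : ℝ) = n := by exact_mod_cast hsum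
        rw [h3]
        ring
      rw [h2]
      calc |∑ c, ((s : ℝ) * b c - n * v' c)| ≤ ∑ c, |(s : ℝ) * b c - n * v' c| :=
            abs_sum_le_sum_abs _ _
        _ ≤ ∑ _c : Fin N, (n : ℝ) / (4 * N + 4) := sum_le_sum fun c _ => herr c
        _ = N * (n / (4 * N + 4)) := by
            rw [sum_const, card_univ, Fintype.card_fin, nsmul_eq_mul]
        _ < n := by
            rw [← mul_div_assoc, div_lt_iff₀ hN0]
            have : (0 : ℝ) ≤ N := Nat.cast_nonneg N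
            nlinarith
    rw [abs_mul, abs_of_pos hnR] at h1
    have h2 : |(s : ℝ) - ∑ c, (v' c : ℝ)| < 1 := by
      by_contra h
      push Not at h
      nlinarith
    have h3 : |((s : ℤ) - ∑ c, v' c : ℤ)| < 1 := by
      have : ((|((s : ℤ) - ∑ c, v' c : ℤ)| : ℤ) : ℝ) < 1 := by
        push_cast
        exact h2
      exact_mod_cast this
    have h4 := Int.abs_lt_one_iff.1 h3
    omega
  -- the new vector
  set z : Fin N → ℤ := fun c => (s + 1) * b c - n * v' c with hz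
  have hzR : ∀ c, (z c : ℝ) = b c + ((s : ℝ) * b c - n * v' c) := fun c => by
    rw [hz]
    push_cast
    ring
  have hzs : ∀ c, (b c : ℝ) < θ₁ * n → z c = (s + 1) * b c := fun c h => by
    rw [hz]
    simp only
    rw [hv's c h]
    ring
  have hzb : ∀ c, θ * n ≤ b c → θ₁ * n ≤ (z c : ℝ) ∧ (z c : ℝ) ≤ b c + η * n := by
    intro c h
    have h1 : ¬ (b c : ℝ) < θ₁ * n := by
      have := mul_le_mul_of_nonneg_right hθ₁a hnR.le
      have h2 : 0 < θ * n := by positivity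
      linarith
    rw [hzR c, hv'b c h1]
    have h2 := abs_le.1 (hverr c)
    have h3 := mul_le_mul_of_nonneg_right hθ₁a hnR.le
    constructor <;> linarith [h2.1, h2.2]
  have hz0 : ∀ c, 0 ≤ z c := by
    intro c
    rcases hb c with h | h
    · rw [hzs c h]
      positivity
    · have h1 := (hzb c h).1
      have h2 : (0 : ℝ) ≤ z c := le_trans (by positivity) h1
      exact_mod_cast h2
  have hzt : ∀ c, (((z c).toNat : ℕ) : ℤ) = z c := fun c => Int.toNat_of_nonneg (hz0 c)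
  have hztR : ∀ c, (((z c).toNat : ℕ) : ℝ) = z c := fun c => by
    have := hzt c
    exact_mod_cast congrArg (fun t : ℤ => (t : ℝ)) this
  refine ⟨fun c => (z c).toNat, ?_, ?_, ?_, ?_, ?_, ?_⟩
  · have h1 : ∑ c, z c = n := by
      rw [hz]
      simp only
      rw [sum_sub_distrib, ← mul_sum, ← mul_sum, hsumv]
      have h2 : ∑ c, (b c : ℤ) = n := by exact_mod_cast hsum
      rw [h2]
      ring
    have h2 : ((∑ c, (z c).toNat : ℕ) : ℤ) = n := by
      push_cast
      rw [← h1]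
      exact sum_congr rfl fun c _ => hzt c
    exact_mod_cast h2
  · have h1 : ∀ c, (z c).toNat • x c = (s + 1) • (b c • x c) := by
      intro c
      have h2 : (z c).toNat • x c = z c • x c := by
        rw [← natCast_zsmul, hzt c]
      rw [h2, hz]
      simp only
      rw [sub_smul, mul_smul, mul_smul]
      have h3 : (n : ℤ) • (v' c • x c) = 0 := by
        rw [natCast_zsmul]
        exact hG _
      rw [h3, sub_zero, natCast_zsmul]
      have h4 : ((s : ℤ) + 1) = ((s + 1 : ℕ) : ℤ) := by push_cast; ring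
      rw [h4, natCast_zsmul]
    simp only [h1]
    rw [← smul_sum]
    exact H.nsmul_mem hH _
  · intro c
    constructor
    · intro h
      have h1 : (b c : ℝ) < θ₁ * n := by
        rw [h, Nat.cast_zero]
        positivity
      show (z c).toNat = 0
      rw [hzs c h1, h]
      simp
    · intro h
      have h' : (z c).toNat = 0 := h
      rcases hb c with h1 | h1
      · have h2 := hzt c
        rw [h', hzs c h1] at h2
        have h3 : ((s : ℤ) + 1) * b c = 0 := by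
          rw [← h2]
          simp
        rcases mul_eq_zero.1 h3 with h4 | h4
        · omega
        · exact_mod_cast h4
      · have h2 := (hzb c h1).1
        rw [← hztR c, h', Nat.cast_zero] at h2
        have : 0 < θ₁ * n := by positivity
        linarith
  · intro c
    show (((z c).toNat : ℕ) : ℝ) ≤ b c + η * n
    rw [hztR c]
    rcases hb c with h | h
    · by_cases h0 : b c = 0
      · rw [hzs c h, h0]
        simp
        positivity
      · have h1 : b c ≤ β := hmax c ((hmem c).2 ⟨h0, h⟩)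
        have h2 : (b c : ℝ) ≤ β := by exact_mod_cast h1
        rw [hzR c, hv's c h, Int.cast_zero, mul_zero, sub_zero]
        have h3 : (s : ℝ) * b c ≤ s * β := mul_le_mul_of_nonneg_left h2 (Nat.cast_nonneg s)
        have h4 : θ' * n ≤ η * n := mul_le_mul_of_nonneg_right hθ'η hnR.le
        have h5 : 0 ≤ (s : ℝ) * β := by positivity
        linarith
    · exact (hzb c h).2
  · intro c h
    show θ₁ * n ≤ (((z c).toNat : ℕ) : ℝ)
    rw [hztR c]
    exact (hzb c h).1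
  · refine ⟨c₀, hc₀0, hc₀s, ?_⟩
    show θ₁ * n ≤ (((z c₀).toNat : ℕ) : ℝ)
    rw [hztR c₀, hzR c₀, hv's c₀ hc₀s, Int.cast_zero, mul_zero, sub_zero]
    have h1 : θ₁ * n ≤ θ' / (4 * J) * n := mul_le_mul_of_nonneg_right hθ₁b hnR.le
    have h2 : θ' / (4 * J) * n ≤ T * β := by
      rw [div_mul_eq_mul_div, div_le_iff₀ (by positivity)]
      exact hTβ
    have h3 : (T : ℝ) * β ≤ s * β := mul_le_mul_of_nonneg_right hsT hβpos.le
    have h4 : ((b c₀ : ℕ) : ℝ) = β := rfl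
    rw [h4]
    linarith

/-- the induction on the number of small coordinates -/
theorem main (N k : ℕ) : ∀ θ η : ℝ, 0 < θ → 0 < η → ∃ σ : ℝ, 0 < σ ∧ ∀ (n : ℕ), 1 ≤ n →
    ∀ (G : Type u) [AddCommGroup G], (∀ g : G, n • g = 0) → ∀ (H : AddSubgroup G)
      (x : Fin N → G) (b : Fin N → ℕ), ∑ c, b c = n → ∑ c, b c • x c ∈ H →
      (∃ D : Finset (Fin N), #D ≤ k ∧ ∀ c, b c ≠ 0 → (b c : ℝ) < θ * n → c ∈ D) →
      ∃ b' : Fin N → ℕ, ∑ c, b' c = n ∧ ∑ c, b' c • x c ∈ H ∧ (∀ c, b c = 0 → b' c = 0) ∧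
        (∀ c, b c ≠ 0 → σ * n ≤ b' c) ∧ ∀ c, (b' c : ℝ) ≤ b c + η * n := by
  classical
  induction k with
  | zero =>
    intro θ η hθ hη
    refine ⟨θ, hθ, fun n hn G _ hG H x b hsum hH ⟨D, hD, hDb⟩ => ⟨b, hsum, hH, fun c h => h,
      fun c h => ?_, fun c => ?_⟩⟩
    · by_contra hlt
      have := hDb c h (not_le.1 hlt)
      rw [Nat.le_zero, card_eq_zero] at hD
      rw [hD] at this
      exact absurd this (notMem_empty c)
    · have : 0 ≤ η * n := by positivity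
      linarith
  | succ k ih =>
    intro θ η hθ hη
    obtain ⟨θ₁, hθ₁, hθ₁θ, hstep⟩ := step.{u} N θ (η / 2) hθ (by positivity)
    obtain ⟨σ₁, hσ₁, h1⟩ := ih θ₁ η hθ₁ hη
    obtain ⟨σ₂, hσ₂, h2⟩ := ih θ₁ (η / 2) hθ₁ (by positivity)
    refine ⟨min θ₁ (min σ₁ σ₂), lt_min hθ₁ (lt_min hσ₁ hσ₂), ?_⟩
    intro n hn G _ hG H x b hsum hH hD'
    obtain ⟨D, hD, hDb⟩ := hD'
    have hnR : (0 : ℝ) < n := by exact_mod_cast hn
    have m1 : min θ₁ (min σ₁ σ₂) * n ≤ θ₁ * n :=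
      mul_le_mul_of_nonneg_right (min_le_left _ _) hnR.le
    have m2 : min θ₁ (min σ₁ σ₂) * n ≤ σ₁ * n :=
      mul_le_mul_of_nonneg_right ((min_le_right _ _).trans (min_le_left _ _)) hnR.le
    have m3 : min θ₁ (min σ₁ σ₂) * n ≤ σ₂ * n :=
      mul_le_mul_of_nonneg_right ((min_le_right _ _).trans (min_le_right _ _)) hnR.le
    have hθn : θ₁ * n ≤ θ * n := mul_le_mul_of_nonneg_right hθ₁θ hnR.le
    by_cases hA : ∃ c, θ₁ * n ≤ b c ∧ (b c : ℝ) < θ * n
    · obtain ⟨c, hc1, hc2⟩ := hA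
      have hc0 : b c ≠ 0 := by
        intro h
        rw [h, Nat.cast_zero] at hc1
        have : 0 < θ₁ * n := by positivity
        linarith
      have hcD : c ∈ D := hDb c hc0 hc2
      obtain ⟨b', e1, e2, e3, e4, e5⟩ := h1 n hn G hG H x b hsum hH
        ⟨D.erase c, by rw [card_erase_of_mem hcD]; omega, fun d hd hd' => by
          refine mem_erase.2 ⟨fun hdc => ?_, hDb d hd (hd'.trans_le hθn)⟩
          rw [hdc] at hd'
          linarith⟩
      exact ⟨b', e1, e2, e3, fun c h => m2.trans (e4 c h), e5⟩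
    · push Not at hA
      by_cases hB : ∃ c, b c ≠ 0 ∧ (b c : ℝ) < θ₁ * n
      · obtain ⟨b₁, f1, f2, f3, f4, f5, c, hc0, hc1, hc2⟩ := hstep n hn G hG H x b hsum hH
          (fun c => by
            rcases lt_or_ge (b c : ℝ) (θ₁ * n) with h | h
            · exact Or.inl h
            · exact Or.inr (hA c h)) hB
        have hcD : c ∈ D := hDb c hc0 (hc1.trans_le hθn)
        obtain ⟨b', e1, e2, e3, e4, e5⟩ := h2 n hn G hG H x b₁ f1 f2
          ⟨D.erase c, by rw [card_erase_of_mem hcD]; omega, fun d hd hd' => by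
            have hd0 : b d ≠ 0 := fun h => hd ((f3 d).1 h)
            refine mem_erase.2 ⟨fun hdc => ?_, hDb d hd0 ?_⟩
            · rw [hdc] at hd'
              linarith
            · by_contra hlt
              have := f5 d (not_lt.1 hlt)
              linarith⟩
        refine ⟨b', e1, e2, fun d h => e3 d ((f3 d).1 h), fun d h => m3.trans (e4 d fun h' =>
          h ((f3 d).2 h')), fun d => ?_⟩
        have g1 := e5 d
        have g2 := f4 d
        linarith
      · push Not at hB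
        refine ⟨b, hsum, hH, fun c h => h, fun c h => m1.trans (hB c h), fun c => ?_⟩
        have : 0 ≤ η * n := by positivity
        linarith

end RNDNAux

/-- **Module RNDN.** -/
theorem rndx (N : ℕ) (η : ℝ) (hη : 0 < η) : ∃ σ : ℝ, 0 < σ ∧ ∀ (n : ℕ), 1 ≤ n →
    ∀ (G : Type u) [AddCommGroup G], (∀ g : G, n • g = 0) → ∀ (H : AddSubgroup G)
      (x : Fin N → G) (b : Fin N → ℕ), ∑ c, b c = n → ∑ c, b c • x c ∈ H →
      ∃ b' : Fin N → ℕ, ∑ c, b' c = n ∧ ∑ c, b' c • x c ∈ H ∧ (∀ c, b c = 0 → b' c = 0) ∧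
        (∀ c, b c ≠ 0 → σ * n ≤ b' c) ∧ ∀ c, (b' c : ℝ) ≤ b c + η * n := by
  obtain ⟨σ, hσ, h⟩ := RNDNAux.main.{u} N N 1 η one_pos hη
  refine ⟨σ, hσ, fun n hn G _ hG H x b hsum hH => h n hn G hG H x b hsum hH
    ⟨univ, by rw [card_univ, Fintype.card_fin], fun c _ _ => mem_univ c⟩⟩

end Pool.Agent.Lib.MPa7239a.RN
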