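import Pool.Agent.Lib.MP_a7239a_co.RN.STEPN

/-! # RN, module RUN (helper42): levels -/

set_option autoImplicit false

open Finset
open scoped Pointwise

namespace Pool.Agent.Lib.MPa7239a.RN

open Pool.Agent.Lib.MPa7239a.GC (Hit)
open Pool.Agent.Lib.MPa7239a.R3X (box lf Avg InLat Free)

namespace RUNh

theorem card_pos' {G : Type*} [AddCommGroup G] [Finite G] (M : AddSubgroup G) : 0 < Nat.card M :=
  Nat.card_pos

/-- the number of elements of a state -/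
theorem st_card {G : Type*} [AddCommGroup G] [Finite G] [DecidableEq G] {M₀ : AddSubgroup G}
    {x₀ : G} {B₀ : Finset G} {U h : ℕ} {M : AddSubgroup G} {z : G} {B Ug Ur : Finset G}
    {mg mr : ℕ} {ζ : G} {Z : Finset G} (st : St M₀ x₀ B₀ U h M z B Ug Ur mg mr ζ Z) :
    #B + 2 * mg + 2 * mr = #B₀ := by
  have hB : B = B₀ \ (Ug ∪ Ur) := by
    ext b
    rw [st.rest b, mem_sdiff, mem_union]
    tauto
  have hsub : Ug ∪ Ur ⊆ B₀ := union_subset st.subg st.subr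
  have h1 : #B = #B₀ - #(Ug ∪ Ur) := by
    rw [hB, card_sdiff_of_subset hsub]
  have h2 : #(Ug ∪ Ur) = 2 * mg + 2 * mr := by
    rw [card_union_of_disjoint st.disj, st.cg, st.cr]
  have h3 := card_le_card hsub
  omega

theorem st_mr {G : Type*} [AddCommGroup G] [Finite G] {M₀ : AddSubgroup G}
    {x₀ : G} {B₀ : Finset G} {U h : ℕ} (hM₀ : Nat.card M₀ ≤ h)
    {M : AddSubgroup G} {z : G} {B Ug Ur : Finset G}
    {mg mr : ℕ} {ζ : G} {Z : Finset G} (st : St M₀ x₀ B₀ U h M z B Ug Ur mg mr ζ Z) :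
    mr + 8 ≤ 8 * U := by
  have h1 := st.mr_le
  have h2 : h ≤ Nat.card M * U := st.big
  have h3 := card_pos' M
  have h4 : (mr + 8) * Nat.card M ≤ (8 * U) * Nat.card M := by nlinarith
  exact Nat.le_of_mul_le_mul_right h4 h3

theorem pow_aux (a n : ℕ) : a ^ (n + 1) + (n + 1) * a ^ n ≤ (a + 1) ^ (n + 1) := by
  induction n with
  | zero => simp
  | succ n ih =>
    have h1 : (a + 1) ^ (n + 1 + 1) = (a + 1) * (a + 1) ^ (n + 1) := by ring
    rw [h1]
    have h2 : (a + 1) * (a ^ (n + 1) + (n + 1) * a ^ n) ≤ (a + 1) * (a + 1) ^ (n + 1) :=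
      Nat.mul_le_mul_left _ ih
    have h3 : (a + 1) * (a ^ (n + 1) + (n + 1) * a ^ n)
        = a ^ (n + 1 + 1) + (n + 1 + 1) * a ^ (n + 1) + (n + 1) * a ^ n := by ring
    omega

theorem two_pow_le {a : ℕ} (ha : 1 ≤ a) : 2 * a ^ a ≤ (a + 1) ^ a := by
  obtain ⟨n, rfl⟩ : ∃ n, a = n + 1 := ⟨a - 1, by omega⟩
  have := pow_aux (n + 1) n
  have h : 2 * (n + 1) ^ (n + 1) = (n + 1) ^ (n + 1) + (n + 1) * (n + 1) ^ n := by ring
  rw [h]
  exact this

/-- the induction over levels `i` and steps `k` -/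
theorem go {G : Type*} [AddCommGroup G] [Finite G] [DecidableEq G] {M₀ : AddSubgroup G}
    {x₀ : G} {B₀ : Finset G} {U h : ℕ} (hM₀ : Nat.card M₀ ≤ h)
    (hB₀ : ∀ b ∈ B₀, b - x₀ ∈ M₀) {t : ℕ → ℕ} (ht : ∀ i, 1 ≤ t i)
    {I : ℕ}
    (hcard : 2 * (∑ i ∈ Icc 1 I, 8 * t i) + 48 * U + 2 ≤ #B₀)
    (hgr : ∀ (M : AddSubgroup G) (B : Finset G) (z : G), M ≤ M₀ → Big U h M → B ⊆ B₀ →
      (∀ b ∈ B, b - z ∈ M) → Inv U h M B →
      #B₀ ≤ #B + 2 * (∑ i ∈ Icc 1 I, 8 * t i) + 16 * U → ∀ (Z : Finset G) (i : ℕ), 1 ≤ i →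
      Z.Nonempty → 2 ^ i * #Z ≤ Nat.card M → ∃ u ∈ B, ∃ v ∈ B, u ≠ v ∧
        (8 * t i + 1) * #Z ≤ 8 * t i * #((Z + {u}) ∪ (Z + {v}))) :
    ∀ i ≤ I, ∀ (M : AddSubgroup G) (z : G) (B Ug Ur : Finset G) (mg mr : ℕ) (ζ : G)
      (Z : Finset G), St M₀ x₀ B₀ U h M z B Ug Ur mg mr ζ Z →
      mg + ∑ j ∈ Icc 1 i, 8 * t j ≤ ∑ j ∈ Icc 1 I, 8 * t j →
      Nat.card M < 2 ^ (i + 1) * #Z →
      ∃ (M : AddSubgroup G) (z : G) (B Ug Ur : Finset G) (mg mr : ℕ) (ζ : G) (Z : Finset G),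
        St M₀ x₀ B₀ U h M z B Ug Ur mg mr ζ Z ∧ mg ≤ ∑ i ∈ Icc 1 I, 8 * t i ∧
        mr ≤ 8 * U ∧ Nat.card M < 2 * #Z := by
  intro i
  induction i with
  | zero =>
    intro _ M z B Ug Ur mg mr ζ Z st hmg hZ
    refine ⟨M, z, B, Ug, Ur, mg, mr, ζ, Z, st, ?_, ?_, ?_⟩
    · simpa using hmg
    · have := st_mr hM₀ st
      omega
    · simpa using hZ
  | succ i ih =>
    intro hi
    -- inner induction
    have inner : ∀ (n : ℕ) (k : ℕ), k + n = 8 * t (i + 1) →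
        ∀ (M : AddSubgroup G) (z : G) (B Ug Ur : Finset G) (mg mr : ℕ) (ζ : G)
        (Z : Finset G), St M₀ x₀ B₀ U h M z B Ug Ur mg mr ζ Z →
        mg + n + ∑ j ∈ Icc 1 i, 8 * t j ≤ ∑ j ∈ Icc 1 I, 8 * t j →
        Nat.card M * (8 * t (i + 1) + 1) ^ k < 2 ^ (i + 1 + 1) * #Z * (8 * t (i + 1)) ^ k →
        ∃ (M : AddSubgroup G) (z : G) (B Ug Ur : Finset G) (mg mr : ℕ) (ζ : G) (Z : Finset G),
          St M₀ x₀ B₀ U h M z B Ug Ur mg mr ζ Z ∧ mg ≤ ∑ i ∈ Icc 1 I, 8 * t i ∧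
          mr ≤ 8 * U ∧ Nat.card M < 2 * #Z := by
      intro n
      induction n with
      | zero =>
        intro k hk M z B Ug Ur mg mr ζ Z st hmg hZ
        have ha : 1 ≤ 8 * t (i + 1) := by have := ht (i + 1); omega
        have hk' : k = 8 * t (i + 1) := by omega
        rw [hk'] at hZ
        set a := 8 * t (i + 1) with haa
        have h2 := two_pow_le ha
        have hpos : 0 < a ^ a := pow_pos (by omega) _
        have h3 : (2 * Nat.card M) * a ^ a < (2 ^ (i + 1 + 1) * #Z) * a ^ a := by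
          calc (2 * Nat.card M) * a ^ a = Nat.card M * (2 * a ^ a) := by ring
            _ ≤ Nat.card M * (a + 1) ^ a := Nat.mul_le_mul_left _ h2
            _ < _ := hZ
        have h4 : 2 * Nat.card M < 2 ^ (i + 1 + 1) * #Z := Nat.lt_of_mul_lt_mul_right h3
        have h5 : Nat.card M < 2 ^ (i + 1) * #Z := by
          have : 2 ^ (i + 1 + 1) * #Z = 2 * (2 ^ (i + 1) * #Z) := by ring
          omega
        exact ih (by omega) M z B Ug Ur mg mr ζ Z st (by omega) h5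
      | succ n ihn =>
        intro k hk M z B Ug Ur mg mr ζ Z st hmg hZ
        by_cases hlev : Nat.card M < 2 ^ (i + 1) * #Z
        · exact ih (by omega) M z B Ug Ur mg mr ζ Z st (by omega) hlev
        · have hlev' : 2 ^ (i + 1) * #Z ≤ Nat.card M := by omega
          have hmr := st_mr hM₀ st
          have hc := st_card st
          have hBsub : B ⊆ B₀ := fun b hb => ((st.rest b).1 hb).1
          have hmgT : mg ≤ ∑ j ∈ Icc 1 I, 8 * t j := by omega
          obtain ⟨u, hu, v, hv, huv, hgrow⟩ := hgr M B z st.le st.big hBsub st.coset st.inv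
            (by omega) Z (i + 1) (by omega) st.ne hlev'
          obtain ⟨M', z', B', Ur', mr', ζ', Z', st', hden⟩ := step hM₀ hB₀ st (by omega) hu hv huv
          refine ihn (k + 1) (by omega) M' z' B' _ Ur' (mg + 1) mr' ζ' Z' st' (by omega) ?_
          have hM := card_pos' M
          have hM' := card_pos' M'
          set a := 8 * t (i + 1) with haa
          set q := #((Z + {u}) ∪ (Z + {v})) with hq
          refine Nat.lt_of_mul_lt_mul_left (a := Nat.card M) ?_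
          calc Nat.card M * (Nat.card M' * (a + 1) ^ (k + 1))
              = (Nat.card M' * (a + 1)) * (Nat.card M * (a + 1) ^ k) := by ring
            _ < (Nat.card M' * (a + 1)) * (2 ^ (i + 1 + 1) * #Z * a ^ k) :=
                Nat.mul_lt_mul_of_pos_left hZ (Nat.mul_pos hM' (by omega))
            _ = (2 ^ (i + 1 + 1) * a ^ k * Nat.card M') * ((a + 1) * #Z) := by ring
            _ ≤ (2 ^ (i + 1 + 1) * a ^ k * Nat.card M') * (a * q) := Nat.mul_le_mul_left _ hgrow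
            _ = (2 ^ (i + 1 + 1) * a ^ (k + 1)) * (q * Nat.card M') := by ring
            _ ≤ (2 ^ (i + 1 + 1) * a ^ (k + 1)) * (#Z' * Nat.card M) :=
                Nat.mul_le_mul_left _ hden
            _ = Nat.card M * (2 ^ (i + 1 + 1) * #Z' * a ^ (k + 1)) := by ring
    intro M z B Ug Ur mg mr ζ Z st hmg hZ
    have hsplit : ∑ j ∈ Icc 1 (i + 1), 8 * t j = ∑ j ∈ Icc 1 i, 8 * t j + 8 * t (i + 1) := by
      rw [sum_Icc_succ_top (by omega)]
    refine inner (8 * t (i + 1)) 0 (by omega) M z B Ug Ur mg mr ζ Z st (by omega) ?_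
    simpa using hZ

end RUNh

/-- **RUN** -/
theorem run {G : Type*} [AddCommGroup G] [Finite G] [DecidableEq G] {M₀ : AddSubgroup G}
    {x₀ : G} {B₀ : Finset G} {U h : ℕ} (hM₀ : Nat.card M₀ ≤ h) (hbig : Big U h M₀)
    (hB₀ : ∀ b ∈ B₀, b - x₀ ∈ M₀) (hinv : Inv U h M₀ B₀) {t : ℕ → ℕ} (ht : ∀ i, 1 ≤ t i)
    {I : ℕ} (hI : Nat.card M₀ < 2 ^ (I + 1))
    (hcard : 2 * (∑ i ∈ Icc 1 I, 8 * t i) + 48 * U + 2 ≤ #B₀)
    (hgr : ∀ (M : AddSubgroup G) (B : Finset G) (z : G), M ≤ M₀ → Big U h M → B ⊆ B₀ →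
      (∀ b ∈ B, b - z ∈ M) → Inv U h M B →
      #B₀ ≤ #B + 2 * (∑ i ∈ Icc 1 I, 8 * t i) + 16 * U → ∀ (Z : Finset G) (i : ℕ), 1 ≤ i →
      Z.Nonempty → 2 ^ i * #Z ≤ Nat.card M → ∃ u ∈ B, ∃ v ∈ B, u ≠ v ∧
        (8 * t i + 1) * #Z ≤ 8 * t i * #((Z + {u}) ∪ (Z + {v}))) :
    ∃ (M : AddSubgroup G) (z : G) (B Ug Ur : Finset G) (mg mr : ℕ) (ζ : G) (Z : Finset G),
      St M₀ x₀ B₀ U h M z B Ug Ur mg mr ζ Z ∧ mg ≤ ∑ i ∈ Icc 1 I, 8 * t i ∧
      mr ≤ 8 * U ∧ Nat.card M < 2 * #Z := by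
  refine RUNh.go hM₀ hB₀ ht hcard hgr I le_rfl M₀ x₀ B₀ ∅ ∅ 0 0 0 {0} ?_ (by simp) (by simpa using hI)
  exact
    { le := le_rfl
      big := hbig
      disj := disjoint_empty_left _
      rest := fun b => by simp
      subg := empty_subset _
      subr := empty_subset _
      cg := by simp
      cr := by simp
      mr_le := by simp
      coset := hB₀
      inv := hinv
      ne := singleton_nonempty 0
      Zc := fun y hy => by
        rw [mem_singleton] at hy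
        rw [hy, sub_zero]
        exact M₀.zero_mem
      Zh := fun y hy => by
        rw [mem_singleton] at hy
        exact ⟨∅, empty_subset _, rfl, by rw [hy, sum_empty]⟩
      cov := fun g hg => ⟨∅, empty_subset _, rfl, by
        rw [sum_empty, zero_smul, sub_zero, zero_sub]
        exact M₀.neg_mem hg⟩ }

end Pool.Agent.Lib.MPa7239a.RN
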