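import Pool.Agent.Lib.MP_a7239a_co.RN.FREEZE

/-! # RN, module STEPN: one step of a state -/

set_option autoImplicit false

open Finset
open scoped Pointwise

namespace Pool.Agent.Lib.MPa7239a.RN

open Pool.Agent.Lib.MPa7239a.GC (Hit)
open Pool.Agent.Lib.MPa7239a.R3X (box lf Avg InLat Free)

namespace STEPNh

/-- the densest coset: a nonempty finite set in a coset of `M` has a part in a coset of `S` with at
least the same density -/
theorem dense {G : Type*} [AddCommGroup G] [Finite G] [DecidableEq G] {S M : AddSubgroup G}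
    (hSM : S ≤ M) {A : Finset G} (hA : A.Nonempty) {ζ : G} (hc : ∀ a ∈ A, a - ζ ∈ M) :
    ∃ (ζ' : G) (A' : Finset G), A' ⊆ A ∧ A'.Nonempty ∧ (∀ a ∈ A', a - ζ' ∈ S) ∧
      #A * Nat.card S ≤ #A' * Nat.card M := by
  classical
  -- the map to the quotient
  let f : G → G ⧸ S := fun a => (QuotientAddGroup.mk a : G ⧸ S)
  obtain ⟨a₀, ha₀, hmax⟩ := exists_max_image A (fun a => #(A.filter (fun b => f b = f a))) hA
  refine ⟨a₀, A.filter (fun b => f b = f a₀), filter_subset _ _, ⟨a₀, by simp [ha₀]⟩, ?_, ?_⟩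
  · intro a ha
    rw [mem_filter] at ha
    have := ha.2
    have h1 : f a₀ = f a := this.symm
    have h2 := (QuotientAddGroup.eq).1 h1
    have h3 : a - a₀ = -a₀ + a := by abel
    rw [h3]
    exact h2
  · -- number of classes times card S is at most card M
    have h1 : #A ≤ #(A.image f) * #(A.filter (fun b => f b = f a₀)) := by
      rw [mul_comm]
      refine card_le_mul_card_image_of_maps_to (f := f) (fun a ha => mem_image_of_mem f ha) _ ?_
      intro c hc'
      obtain ⟨a, ha, rfl⟩ := mem_image.1 hc'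
      exact hmax a ha
    have h2 : #(A.image f) * Nat.card S ≤ Nat.card M := by
      have hrep : ∀ c : {c // c ∈ A.image f}, ∃ a ∈ A, f a = c.1 := fun c => mem_image.1 c.2
      choose r hrA hrf using hrep
      let F : {c // c ∈ A.image f} × S → M := fun x =>
        ⟨(r x.1 - ζ) + x.2.1, M.add_mem (hc _ (hrA x.1)) (hSM x.2.2)⟩
      have hF : Function.Injective F := by
        rintro ⟨c, s⟩ ⟨c', s'⟩ hcs
        have h3 : (r c - ζ) + s.1 = (r c' - ζ) + s'.1 := congrArg Subtype.val hcs
        have h4 : -r c + r c' = s.1 - s'.1 := by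
          have h5 : r c + s.1 = r c' + s'.1 := by
            have := congrArg (fun t => t + ζ) h3
            beta_reduce at this
            calc r c + s.1 = (r c - ζ) + s.1 + ζ := by abel
              _ = (r c' - ζ) + s'.1 + ζ := this
              _ = r c' + s'.1 := by abel
          calc -r c + r c' = -r c + (r c' + s'.1) - s'.1 := by abel
            _ = -r c + (r c + s.1) - s'.1 := by rw [h5]
            _ = s.1 - s'.1 := by abel
        have h6 : f (r c) = f (r c') := by
          apply QuotientAddGroup.eq.2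
          rw [h4]
          exact S.sub_mem s.2 s'.2
        have h7 : c = c' := by
          apply Subtype.ext
          rw [← hrf c, ← hrf c', h6]
        subst h7
        have h8 : s.1 = s'.1 := add_left_cancel h3
        rw [Subtype.ext h8]
      have h9 := Nat.card_le_card_of_injective F hF
      rw [Nat.card_prod, Nat.card_eq_fintype_card, Fintype.card_coe] at h9
      exact h9
    calc #A * Nat.card S ≤ (#(A.image f) * #(A.filter (fun b => f b = f a₀))) * Nat.card S :=
          Nat.mul_le_mul_right _ h1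
      _ = #(A.filter (fun b => f b = f a₀)) * (#(A.image f) * Nat.card S) := by ring
      _ ≤ _ := Nat.mul_le_mul_left _ h2

end STEPNh

theorem step {G : Type*} [AddCommGroup G] [Finite G] [DecidableEq G] {M₀ : AddSubgroup G}
    {x₀ : G} {B₀ : Finset G} {U h : ℕ} (hM₀ : Nat.card M₀ ≤ h)
    (hB₀ : ∀ b ∈ B₀, b - x₀ ∈ M₀) {M : AddSubgroup G} {z : G} {B Ug Ur : Finset G} {mg mr : ℕ}
    {ζ : G} {Z : Finset G} (st : St M₀ x₀ B₀ U h M z B Ug Ur mg mr ζ Z)
    (hcard : 32 * U + 2 ≤ #B) {u v : G} (hu : u ∈ B) (hv : v ∈ B) (huv : u ≠ v) :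
    ∃ (M' : AddSubgroup G) (z' : G) (B' Ur' : Finset G) (mr' : ℕ) (ζ' : G) (Z' : Finset G),
      St M₀ x₀ B₀ U h M' z' B' (insert u (insert v Ug)) Ur' (mg + 1) mr' ζ' Z' ∧
      #((Z + {u}) ∪ (Z + {v})) * Nat.card M' ≤ #Z' * Nat.card M := by
  classical
  have hMh : Nat.card M ≤ h :=
    (Nat.card_le_card_of_injective (AddSubgroup.inclusion st.le)
      (AddSubgroup.inclusion_injective st.le)).trans hM₀
  obtain ⟨S, z', R, Y, hSM, hSbig, hz', hRB, hYB, hRY, hYR, hRcard, hcos, hinv', hcov'⟩ :=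
    freeze hMh st.big st.coset st.inv (u := u) (v := v) hcard
  have hMpos : 0 < Nat.card M := Nat.card_pos
  have hSpos : 0 < Nat.card S := Nat.card_pos
  -- membership facts
  have hBB₀ : ∀ b ∈ B, b ∈ B₀ ∧ b ∉ Ug ∧ b ∉ Ur := fun b hb => (st.rest b).1 hb
  have hmemB' : ∀ b, b ∈ (B.erase u).erase v ↔ b ∈ B ∧ b ≠ u ∧ b ≠ v := by
    intro b
    simp only [mem_erase]
    tauto
  have hRB' : ∀ b ∈ R, b ∈ B ∧ b ≠ u ∧ b ≠ v := fun b hb => (hmemB' b).1 (hRB hb)
  have hYB' : ∀ b ∈ Y, b ∈ B ∧ b ≠ u ∧ b ≠ v := fun b hb => (hmemB' b).1 (hYB hb)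
  have huUg : u ∉ insert v Ug := by
    rw [mem_insert]
    rintro (h1 | h1)
    · exact huv h1
    · exact (hBB₀ u hu).2.1 h1
  have hvUg : v ∉ Ug := (hBB₀ v hv).2.1
  -- the sums
  set Z₁ : Finset G := (Z + {u}) ∪ (Z + {v}) with hZ₁
  have hZ₁ne : Z₁.Nonempty := by
    obtain ⟨y, hy⟩ := st.ne
    exact ⟨y + u, mem_union_left _ (add_mem_add hy (mem_singleton_self u))⟩
  have huvM : v - u ∈ M := by
    have h1 := st.coset u hu
    have h2 := st.coset v hv
    have h3 : v - u = (v - z) - (u - z) := by abel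
    rw [h3]
    exact M.sub_mem h2 h1
  have hZ₁c : ∀ y ∈ Z₁, y - (ζ + u) ∈ M := by
    intro y hy
    rcases mem_union.1 hy with h1 | h1
    · obtain ⟨a, ha, b, hb, rfl⟩ := mem_add.1 h1
      rw [mem_singleton] at hb
      subst hb
      have : a + b - (ζ + b) = a - ζ := by abel
      rw [this]
      exact st.Zc a ha
    · obtain ⟨a, ha, b, hb, rfl⟩ := mem_add.1 h1
      rw [mem_singleton] at hb
      subst hb
      have : a + b - (ζ + u) = (a - ζ) + (b - u) := by abel
      rw [this]
      exact M.add_mem (st.Zc a ha) huvM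
  have hZ₁h : ∀ y ∈ Z₁, Hit (insert u (insert v Ug)) (mg + 1) y := by
    intro y hy
    rcases mem_union.1 hy with h1 | h1
    · obtain ⟨a, ha, b, hb, rfl⟩ := mem_add.1 h1
      rw [mem_singleton] at hb
      subst hb
      obtain ⟨T, hT, hTc, hTs⟩ := st.Zh a ha
      have hbT : b ∉ T := fun h2 => (hBB₀ b hu).2.1 (hT h2)
      refine ⟨insert b T, ?_, ?_, ?_⟩
      · intro x hx
        rcases mem_insert.1 hx with rfl | hx
        · exact mem_insert_self _ _
        · exact mem_insert_of_mem (mem_insert_of_mem (hT hx))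
      · rw [card_insert_of_notMem hbT, hTc]
      · rw [sum_insert hbT, hTs, add_comm]
    · obtain ⟨a, ha, b, hb, rfl⟩ := mem_add.1 h1
      rw [mem_singleton] at hb
      subst hb
      obtain ⟨T, hT, hTc, hTs⟩ := st.Zh a ha
      have hbT : b ∉ T := fun h2 => (hBB₀ b hv).2.1 (hT h2)
      refine ⟨insert b T, ?_, ?_, ?_⟩
      · intro x hx
        rcases mem_insert.1 hx with rfl | hx
        · exact mem_insert_of_mem (mem_insert_self _ _)
        · exact mem_insert_of_mem (mem_insert_of_mem (hT hx))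
      · rw [card_insert_of_notMem hbT, hTc]
      · rw [sum_insert hbT, hTs, add_comm]
  obtain ⟨ζ', Z', hZ'sub, hZ'ne, hZ'c, hZ'card⟩ := STEPNh.dense hSM hZ₁ne hZ₁c
  refine ⟨S, z', (((B.erase u).erase v) \ R) \ Y, Ur ∪ (R ∪ Y), mr + #R, ζ', Z', ?_, hZ'card⟩
  have hUrRY : Disjoint Ur (R ∪ Y) := by
    rw [disjoint_left]
    intro b hb hb2
    rcases mem_union.1 hb2 with h1 | h1
    · exact (hBB₀ b (hRB' b h1).1).2.2 hb
    · exact (hBB₀ b (hYB' b h1).1).2.2 hb
  refine
    { le := hSM.trans st.le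
      big := hSbig
      disj := ?_
      rest := ?_
      subg := ?_
      subr := ?_
      cg := ?_
      cr := ?_
      mr_le := ?_
      coset := ?_
      inv := hinv'
      ne := hZ'ne
      Zc := hZ'c
      Zh := fun y hy => hZ₁h y (hZ'sub hy)
      cov := ?_ }
  · -- disjoint
    rw [disjoint_left]
    intro b hb hb2
    rcases mem_insert.1 hb with rfl | hb
    · rcases mem_union.1 hb2 with h1 | h1
      · exact (hBB₀ b hu).2.2 h1
      · rcases mem_union.1 h1 with h1 | h1
        · exact (hRB' b h1).2.1 rfl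
        · exact (hYB' b h1).2.1 rfl
    rcases mem_insert.1 hb with rfl | hb
    · rcases mem_union.1 hb2 with h1 | h1
      · exact (hBB₀ b hv).2.2 h1
      · rcases mem_union.1 h1 with h1 | h1
        · exact (hRB' b h1).2.2 rfl
        · exact (hYB' b h1).2.2 rfl
    · rcases mem_union.1 hb2 with h1 | h1
      · exact (disjoint_left.1 st.disj) hb h1
      · rcases mem_union.1 h1 with h1 | h1
        · exact (hBB₀ b (hRB' b h1).1).2.1 hb
        · exact (hBB₀ b (hYB' b h1).1).2.1 hb
  · -- rest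
    intro b
    simp only [mem_sdiff, hmemB', st.rest b, mem_insert, mem_union]
    tauto
  · intro b hb
    rcases mem_insert.1 hb with rfl | hb
    · exact (hBB₀ b hu).1
    rcases mem_insert.1 hb with rfl | hb
    · exact (hBB₀ b hv).1
    · exact st.subg hb
  · intro b hb
    rcases mem_union.1 hb with hb | hb
    · exact st.subr hb
    rcases mem_union.1 hb with hb | hb
    · exact (hBB₀ b (hRB' b hb).1).1
    · exact (hBB₀ b (hYB' b hb).1).1
  · rw [card_insert_of_notMem huUg, card_insert_of_notMem hvUg, st.cg]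
    ring
  · rw [card_union_of_disjoint hUrRY, card_union_of_disjoint hRY, st.cr, hYR]
    ring
  · -- mr_le
    have h1 := st.mr_le
    -- card S divides
    have hdiv : Nat.card S ∣ Nat.card M := AddSubgroup.card_dvd_of_le hSM
    have hdiv2 : Nat.card M ∣ Nat.card M₀ := AddSubgroup.card_dvd_of_le st.le
    obtain ⟨v', hv'⟩ := hdiv
    obtain ⟨w', hw'⟩ := hdiv2
    have hv'1 : 1 ≤ v' := by
      rcases Nat.eq_zero_or_pos v' with h0 | h0
      · rw [h0, mul_zero] at hv'
        omega
      · exact h0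
    have hw'1 : 1 ≤ w' := by
      rcases Nat.eq_zero_or_pos w' with h0 | h0
      · rw [h0, mul_zero] at hw'
        have : 0 < Nat.card M₀ := Nat.card_pos
        omega
      · exact h0
    have h2 : mr + 8 ≤ 8 * w' := by
      have : (mr + 8) * Nat.card M ≤ (8 * w') * Nat.card M := by
        rw [hw'] at h1
        nlinarith
      exact Nat.le_of_mul_le_mul_right this hMpos
    have h3 : #R + 8 ≤ 8 * v' := by
      have : (#R + 8) * Nat.card S ≤ (8 * v') * Nat.card S := by
        rw [hv'] at hRcard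
        nlinarith
      exact Nat.le_of_mul_le_mul_right this hSpos
    have h4 : mr + #R + 8 ≤ 8 * (v' * w') := by
      nlinarith [Nat.mul_le_mul hv'1 hw'1, mul_le_mul' hv'1 hw'1]
    calc (mr + #R) * Nat.card S + 8 * Nat.card S = (mr + #R + 8) * Nat.card S := by ring
      _ ≤ (8 * (v' * w')) * Nat.card S := Nat.mul_le_mul_right _ h4
      _ = 8 * Nat.card M₀ := by rw [hw', hv']; ring
  · -- coset
    intro b hb
    rw [mem_sdiff, mem_sdiff] at hb
    exact hcos b hb.1.1 hb.1.2
  · -- cov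
    intro g hg
    have hzx : z - x₀ ∈ M₀ := by
      have h1 := hB₀ u (hBB₀ u hu).1
      have h2 := st.le (st.coset u hu)
      have h3 : z - x₀ = (u - x₀) - (u - z) := by abel
      rw [h3]
      exact M₀.sub_mem h1 h2
    have hz'x : z' - x₀ ∈ M₀ := by
      have h3 : z' - x₀ = (z' - z) + (z - x₀) := by abel
      rw [h3]
      exact M₀.add_mem (st.le hz') hzx
    obtain ⟨T₁, hT₁, hT₁c, hT₁s⟩ := st.cov (g - #R • (z' - x₀))
      (M₀.sub_mem hg (M₀.nsmul_mem hz'x _))
    set d : G := ∑ a ∈ T₁, a - mr • x₀ - (g - #R • (z' - x₀)) with hd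
    obtain ⟨T₂, hT₂, hT₂c, hT₂s⟩ := hcov' (-d) (M.neg_mem hT₁s)
    have hdisj : Disjoint T₁ T₂ :=
      disjoint_of_subset_left hT₁ (disjoint_of_subset_right hT₂ hUrRY)
    refine ⟨T₁ ∪ T₂, union_subset_union hT₁ hT₂, ?_, ?_⟩
    · rw [card_union_of_disjoint hdisj, hT₁c, hT₂c]
    · rw [sum_union hdisj]
      have h5 : ∑ a ∈ T₁, a + ∑ a ∈ T₂, a - (mr + #R) • x₀ - g =
          ∑ a ∈ T₂, a - #R • z' - (-d) := by
        rw [hd, add_smul, smul_sub]
        abel
      rw [h5]
      exact hT₂s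

end Pool.Agent.Lib.MPa7239a.RN
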